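import Mathlib.Algebra.BigOperators.Ring.Finset
import Mathlib.Algebra.Order.BigOperators.Group.Finset
import Mathlib.Algebra.BigOperators.Intervals
import Mathlib.Algebra.Notation.Lemmas
import Mathlib.Data.Int.ConditionallyCompleteOrder
import Mathlib.Algebra.Order.Archimedean.Real.Basic
import Mathlib.Tactic.Algebra.Basic

-- ======== part 0: formerly Pool.Agent.MP_4aec3d_co.Basic
section MrgPart0

set_option autoImplicit false

namespace Pool.Agent.MP_4aec3d_co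

open Finset

/-- Depth vectors that dominate the depth vector of some binary search tree on `1..n`. -/
def Feas (n : ℕ) (d : ℕ → ℤ) : Prop :=
  (∀ i, 1 ≤ i → i ≤ n → 1 ≤ d i) ∧
  ∀ i j, 1 ≤ i → i < j → j ≤ n → d i = d j → ∃ k, i < k ∧ k < j ∧ d k < d i

/-- Expected depth. -/
def cost (n : ℕ) (p : ℕ → ℝ) (d : ℕ → ℤ) : ℝ := ∑ h ∈ Icc 1 n, p h * (d h : ℝ)

/-- A best reply of the searcher, as a depth vector. -/
structure Good (n : ℕ) (p : ℕ → ℝ) (d : ℕ → ℤ) : Prop where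
  feas : Feas n d
  zero : ∀ i, i < 1 ∨ n < i → d i = 0
  min : ∀ e, Feas n e → cost n p d ≤ cost n p e

/-- `l` is the level of a right-to-left minimum of `d` on `1..m`. -/
def Lev (m : ℕ) (d : ℕ → ℤ) (l : ℤ) : Prop :=
  ∃ i, 1 ≤ i ∧ i ≤ m ∧ d i = l ∧ ∀ k, i < k → k ≤ m → d i ≤ d k

/-- Balanced family: every zero-sum functional that is nonnegative on it vanishes on it. -/
def Bal (n : ℕ) (S : Set (ℕ → ℤ)) : Prop :=
  ∀ c : ℕ → ℝ, ∑ h ∈ Icc 1 n, c h = 0 → (∀ d ∈ S, 0 ≤ cost n c d) → ∀ d ∈ S, cost n c d = 0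

variable {n : ℕ} {p : ℕ → ℝ} {d : ℕ → ℤ}

theorem Good.nonneg (h : Good n p d) (i : ℕ) : 0 ≤ d i := by
  by_cases hi : i < 1 ∨ n < i
  · rw [h.zero i hi]
  · have := h.feas.1 i (by omega) (by omega); omega

theorem Good.le_of_pos (h : Good n p d) {i j : ℕ} (hi : 1 ≤ i) (hij : d j < d i) : i ≤ n := by
  by_contra hc
  have h1 := h.zero i (Or.inr (by omega))
  have h2 := h.nonneg j
  omega

theorem Good.pair (h : Good n p d) {i j : ℕ} (hi : 1 ≤ i) (hij : i < j) (hj : j ≤ n + 1)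
    (he : d i = d j) : ∃ k, i < k ∧ k < j ∧ d k < d i := by
  by_cases hj' : j ≤ n
  · exact h.feas.2 i j hi hij hj' he
  · have h1 := h.zero j (Or.inr (by omega))
    have h2 := h.feas.1 i hi (by omega)
    omega

theorem cost_sub (n : ℕ) (p : ℕ → ℝ) (d e : ℕ → ℤ) :
    cost n p e - cost n p d = ∑ h ∈ Icc 1 n, p h * ((e h - d h : ℤ) : ℝ) := by
  unfold cost
  rw [← Finset.sum_sub_distrib]
  refine Finset.sum_congr rfl fun h _ => ?_
  push_cast; ring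

/-- The window exchange principle. -/
theorem Good.ex (h : Good n p d) (hp : ∀ i, 0 ≤ p i) (m : ℕ) (hm : m ≤ n + 1) (e c : ℕ → ℤ)
    (hs : m ≤ n ∨ (e m = d m ∧ 0 ≤ c m))
    (hf : ∀ i j, 1 ≤ i → i < j → j ≤ m → e i = e j → ∃ k, i < k ∧ k < j ∧ e k < e i)
    (hr : ∀ i, 1 ≤ i → i ≤ m → (∃ k, i < k ∧ k ≤ m ∧ e k < e i) ∨ Lev m d (e i))
    (hc : ∀ i, 1 ≤ i → i ≤ m → e i - d i ≤ c i) :
    0 ≤ ∑ i ∈ Icc 1 m, p i * (c i : ℝ) := by
  classical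
  set d' : ℕ → ℤ := fun i => if i ≤ m then e i else d i with hd'
  have hpos : ∀ t i, m - i = t → 1 ≤ i → i ≤ m → (1 ≤ e i ∨ (i = n + 1 ∧ e i = 0)) := by
    intro t
    induction t using Nat.strong_induction_on with
    | _ t ih =>
      intro i hti hi1 him
      by_cases hin : i = n + 1
      · right
        refine ⟨hin, ?_⟩
        have hmi : m = i := by omega
        rcases hs with hs | hs
        · omega
        · rw [← hmi, hs.1]; exact h.zero m (Or.inr (by omega))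
      left
      rcases hr i hi1 him with ⟨k, hk1, hk2, hk3⟩ | ⟨i', h1, h2, h3, h4⟩
      · rcases ih (m - k) (by omega) k rfl (by omega) hk2 with h5 | h5
        · omega
        · omega
      · by_cases hi' : i' ≤ n
        · have := h.feas.1 i' h1 hi'
          omega
        · have hm' : m = n + 1 := by omega
          have hz : d i' = 0 := h.zero i' (Or.inr (by omega))
          have hem : e m = 0 := by
            rcases hs with hs | hs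
            · omega
            · rw [hs.1]; exact h.zero m (Or.inr (by omega))
          obtain ⟨k, hk1, hk2, hk3⟩ := hf i m hi1 (by omega) le_rfl (by omega)
          rcases ih (m - k) (by omega) k rfl (by omega) (by omega) with h5 | h5
          · omega
          · omega
  have hfe : Feas n d' := by
    constructor
    · intro i hi1 hi2
      by_cases him : i ≤ m
      · simp only [hd', if_pos him]
        rcases hpos _ i rfl hi1 him with h5 | h5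
        · exact h5
        · omega
      · simp only [hd', if_neg him]
        exact h.feas.1 i hi1 hi2
    · intro i j hi hij hj he
      by_cases hjm : j ≤ m
      · have him : i ≤ m := by omega
        simp only [hd', if_pos him, if_pos hjm] at he
        obtain ⟨k, hk1, hk2, hk3⟩ := hf i j hi hij hjm he
        refine ⟨k, hk1, hk2, ?_⟩
        simp only [hd', if_pos him, if_pos (show k ≤ m by omega)]
        exact hk3
      · by_cases him : i ≤ m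
        · simp only [hd', if_pos him, if_neg hjm] at he
          rcases hr i hi him with ⟨k, hk1, hk2, hk3⟩ | ⟨i', h1, h2, h3, h4⟩
          · refine ⟨k, hk1, by omega, ?_⟩
            simp only [hd', if_pos him, if_pos hk2]
            exact hk3
          · obtain ⟨k, hk1, hk2, hk3⟩ := h.feas.2 i' j h1 (by omega) hj (by omega)
            have hkm : ¬ k ≤ m := fun hkm => by
              have := h4 k hk1 hkm
              omega
            refine ⟨k, by omega, hk2, ?_⟩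
            simp only [hd', if_pos him, if_neg hkm]
            omega
        · simp only [hd', if_neg him, if_neg hjm] at he
          obtain ⟨k, hk1, hk2, hk3⟩ := h.feas.2 i j hi hij hj he
          refine ⟨k, hk1, hk2, ?_⟩
          simp only [hd', if_neg him, if_neg (show ¬ k ≤ m by omega)]
          exact hk3
  have h1 := h.min d' hfe
  have h2 := cost_sub n p d d'
  have h3 : ∑ i ∈ Icc 1 n, p i * ((d' i - d i : ℤ) : ℝ)
      ≤ ∑ i ∈ Icc 1 n, (if i ≤ m then p i * (c i : ℝ) else 0) := by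
    refine Finset.sum_le_sum fun i hi => ?_
    have hi1 : 1 ≤ i := (Finset.mem_Icc.1 hi).1
    by_cases him : i ≤ m
    · simp only [hd', if_pos him]
      have : ((e i - d i : ℤ) : ℝ) ≤ (c i : ℝ) := by exact_mod_cast hc i hi1 him
      exact mul_le_mul_of_nonneg_left this (hp i)
    · simp [hd', if_neg him]
  have h4 : ∑ i ∈ Icc 1 n, (if i ≤ m then p i * (c i : ℝ) else 0)
      ≤ ∑ i ∈ Icc 1 m, p i * (c i : ℝ) := by
    rw [← Finset.sum_filter]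
    by_cases hmn : m ≤ n
    · apply le_of_eq
      refine Finset.sum_congr ?_ fun _ _ => rfl
      ext i
      simp only [Finset.mem_filter, Finset.mem_Icc]
      omega
    · have hm' : m = n + 1 := by omega
      have hcm : 0 ≤ c m := by
        rcases hs with hs | hs
        · omega
        · exact hs.2
      have : (Icc 1 n).filter (fun i => i ≤ m) = Icc 1 n := by
        ext i
        simp only [Finset.mem_filter, Finset.mem_Icc]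
        omega
      rw [this, hm', Finset.sum_Icc_succ_top (by omega)]
      have : (0 : ℝ) ≤ (c (n + 1) : ℝ) := by rw [← hm']; exact_mod_cast hcm
      have := mul_nonneg (hp (n + 1)) this
      linarith
  linarith

/-- Tightness: a block lying two levels below both of its neighbours can be lifted. -/
theorem Good.tight (h : Good n p d) (hp : ∀ i, 1 ≤ i → i ≤ n → 0 < p i) (a b : ℕ) (ha : 1 ≤ a)
    (hab : a ≤ b) (hb : b ≤ n) :
    ∃ i, a ≤ i ∧ i ≤ b ∧ (d i ≤ d (a - 1) + 1 ∨ d i ≤ d (b + 1) + 1) := by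
  classical
  by_contra hcon
  push Not at hcon
  set d' : ℕ → ℤ := fun i => if a ≤ i ∧ i ≤ b then d i - 1 else d i with hd'
  have hle : ∀ i, d' i ≤ d i := by
    intro i
    simp only [hd']
    split_ifs <;> omega
  have hfe : Feas n d' := by
    constructor
    · intro i hi1 hi2
      simp only [hd']
      split_ifs with hi
      · have := hcon i hi.1 hi.2
        have := h.nonneg (b + 1)
        omega
      · exact h.feas.1 i hi1 hi2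
    · intro i j hi hij hj he
      by_cases h1 : a ≤ i ∧ i ≤ b
      · by_cases h2 : a ≤ j ∧ j ≤ b
        · simp only [hd', if_pos h1, if_pos h2] at he
          obtain ⟨k, hk1, hk2, hk3⟩ := h.feas.2 i j hi hij hj (by omega)
          refine ⟨k, hk1, hk2, ?_⟩
          simp only [hd', if_pos h1, if_pos (show a ≤ k ∧ k ≤ b by omega)]
          omega
        · simp only [hd', if_pos h1, if_neg h2] at he
          have := hcon i h1.1 h1.2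
          have hjb : j ≠ b + 1 := by
            rintro rfl
            omega
          refine ⟨b + 1, by omega, by omega, ?_⟩
          simp only [hd', if_pos h1, if_neg (show ¬ (a ≤ b + 1 ∧ b + 1 ≤ b) by omega)]
          omega
      · by_cases h2 : a ≤ j ∧ j ≤ b
        · simp only [hd', if_neg h1, if_pos h2] at he
          have := hcon j h2.1 h2.2
          have hia : i ≠ a - 1 := by
            rintro rfl
            omega
          refine ⟨a - 1, by omega, by omega, ?_⟩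
          simp only [hd', if_neg h1, if_neg (show ¬ (a ≤ a - 1 ∧ a - 1 ≤ b) by omega)]
          omega
        · simp only [hd', if_neg h1, if_neg h2] at he
          obtain ⟨k, hk1, hk2, hk3⟩ := h.feas.2 i j hi hij hj he
          refine ⟨k, hk1, hk2, ?_⟩
          have := hle k
          simp only [hd', if_neg h1] at this ⊢
          omega
  have h1 := h.min d' hfe
  have h2 := cost_sub n p d d'
  have h3 : ∑ i ∈ Icc 1 n, p i * ((d' i - d i : ℤ) : ℝ) < ∑ i ∈ Icc 1 n, (0 : ℝ) := by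
    refine Finset.sum_lt_sum (fun i hi => ?_) ⟨a, Finset.mem_Icc.2 ⟨ha, by omega⟩, ?_⟩
    · have hi' := Finset.mem_Icc.1 hi
      have : ((d' i - d i : ℤ) : ℝ) ≤ 0 := by
        have := hle i
        exact_mod_cast (show d' i - d i ≤ 0 by omega)
      exact mul_nonpos_of_nonneg_of_nonpos (hp i hi'.1 hi'.2).le this
    · have : d' a - d a = -1 := by
        simp only [hd', if_pos (show a ≤ a ∧ a ≤ b from ⟨le_rfl, hab⟩)]
        omega
      rw [this]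
      have := hp a ha (by omega)
      push_cast
      linarith
  simp only [Finset.sum_const_zero] at h3
  linarith

/-- Balance for functionals supported on `1..8`. -/
theorem Bal.eight {S : Set (ℕ → ℤ)} (hB : Bal n S) (hn : 5 ≤ n) (c1 c2 c3 c4 c5 c6 c7 c8 : ℤ)
    (h0 : c1 + c2 + c3 + c4 + c5 + c6 + c7 + c8 = 0)
    (h6 : c6 = 0 ∨ 6 ≤ n) (h7 : c7 = 0 ∨ 7 ≤ n) (h8 : c8 = 0 ∨ 8 ≤ n)
    (hS : ∀ d ∈ S, 0 ≤ c1 * d 1 + c2 * d 2 + c3 * d 3 + c4 * d 4 + c5 * d 5 + c6 * d 6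
      + c7 * d 7 + c8 * d 8) :
    ∀ d ∈ S, c1 * d 1 + c2 * d 2 + c3 * d 3 + c4 * d 4 + c5 * d 5 + c6 * d 6
      + c7 * d 7 + c8 * d 8 = 0 := by
  classical
  set c : ℕ → ℤ := fun i => if i = 1 then c1 else if i = 2 then c2 else if i = 3 then c3 else
    if i = 4 then c4 else if i = 5 then c5 else if i = 6 then c6 else if i = 7 then c7 else
    if i = 8 then c8 else 0 with hc
  have key : ∀ f : ℕ → ℤ, ∑ h ∈ Icc 1 n, c h * f h = c1 * f 1 + c2 * f 2 + c3 * f 3 + c4 * f 4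
      + c5 * f 5 + c6 * f 6 + c7 * f 7 + c8 * f 8 := by
    intro f
    have e1 : ∑ h ∈ Icc 1 n, c h * f h = ∑ h ∈ Icc 1 (n + 3), c h * f h := by
      refine Finset.sum_subset (Finset.Icc_subset_Icc le_rfl (by omega)) ?_
      intro i hi hi'
      simp only [Finset.mem_Icc] at hi hi'
      have : c i = 0 := by
        simp only [hc]
        split_ifs <;> omega
      rw [this, zero_mul]
    have e2 : ∑ h ∈ Icc 1 8, c h * f h = ∑ h ∈ Icc 1 (n + 3), c h * f h := by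
      refine Finset.sum_subset (Finset.Icc_subset_Icc le_rfl (by omega)) ?_
      intro i hi hi'
      simp only [Finset.mem_Icc] at hi hi'
      have : c i = 0 := by
        simp only [hc]
        split_ifs <;> omega
      rw [this, zero_mul]
    rw [e1, ← e2]
    simp [Finset.sum_Icc_succ_top, hc]
  have key2 : ∀ f : ℕ → ℤ, cost n (fun i => (c i : ℝ)) f
      = ((c1 * f 1 + c2 * f 2 + c3 * f 3 + c4 * f 4
      + c5 * f 5 + c6 * f 6 + c7 * f 7 + c8 * f 8 : ℤ) : ℝ) := by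
    intro f
    rw [← key f]
    unfold cost
    push_cast
    rfl
  have hsum : ∑ h ∈ Icc 1 n, (c h : ℝ) = 0 := by
    have := key (fun _ => 1)
    simp only [mul_one] at this
    rw [h0] at this
    exact_mod_cast this
  intro d hd
  have := hB (fun i => (c i : ℝ)) hsum (fun d hd => by
    rw [key2]; exact_mod_cast hS d hd) d hd
  rw [key2] at this
  exact_mod_cast this

end Pool.Agent.MP_4aec3d_co

end MrgPart0

-- ======== part 1: formerly Pool.Agent.MP_4aec3d_co.Win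
section MrgPart1

set_option autoImplicit false
set_option linter.unusedVariables false

namespace Pool.Agent.MP_4aec3d_co

variable {n : ℕ} {p : ℕ → ℝ} {d : ℕ → ℤ}

theorem lev2_1 {l : ℤ} (h : d 1 = l ∧ d 1 ≤ d 2) : Lev 2 d l := by
  refine ⟨1, by omega, by omega, h.1, fun k h1 h2 => ?_⟩
  obtain rfl : k = 2 := by omega
  omega

theorem lev2_2 {l : ℤ} (h : d 2 = l) : Lev 2 d l := by
  exact ⟨2, by omega, by omega, h, fun k h1 h2 => by omega⟩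

theorem lev3_1 {l : ℤ} (h : d 1 = l ∧ d 1 ≤ d 2 ∧ d 1 ≤ d 3) : Lev 3 d l := by
  refine ⟨1, by omega, by omega, h.1, fun k h1 h2 => ?_⟩
  rcases (show k = 2 ∨ k = 3 by omega) with rfl | rfl <;> omega

theorem lev3_2 {l : ℤ} (h : d 2 = l ∧ d 2 ≤ d 3) : Lev 3 d l := by
  refine ⟨2, by omega, by omega, h.1, fun k h1 h2 => ?_⟩
  obtain rfl : k = 3 := by omega
  omega

theorem lev3_3 {l : ℤ} (h : d 3 = l) : Lev 3 d l := by
  exact ⟨3, by omega, by omega, h, fun k h1 h2 => by omega⟩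

theorem lev4_1 {l : ℤ} (h : d 1 = l ∧ d 1 ≤ d 2 ∧ d 1 ≤ d 3 ∧ d 1 ≤ d 4) : Lev 4 d l := by
  refine ⟨1, by omega, by omega, h.1, fun k h1 h2 => ?_⟩
  rcases (show k = 2 ∨ k = 3 ∨ k = 4 by omega) with rfl | rfl | rfl <;> omega

theorem lev4_2 {l : ℤ} (h : d 2 = l ∧ d 2 ≤ d 3 ∧ d 2 ≤ d 4) : Lev 4 d l := by
  refine ⟨2, by omega, by omega, h.1, fun k h1 h2 => ?_⟩
  rcases (show k = 3 ∨ k = 4 by omega) with rfl | rfl <;> omega

theorem lev4_3 {l : ℤ} (h : d 3 = l ∧ d 3 ≤ d 4) : Lev 4 d l := by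
  refine ⟨3, by omega, by omega, h.1, fun k h1 h2 => ?_⟩
  obtain rfl : k = 4 := by omega
  omega

theorem lev4_4 {l : ℤ} (h : d 4 = l) : Lev 4 d l := by
  exact ⟨4, by omega, by omega, h, fun k h1 h2 => by omega⟩

theorem lev5_1 {l : ℤ} (h : d 1 = l ∧ d 1 ≤ d 2 ∧ d 1 ≤ d 3 ∧ d 1 ≤ d 4 ∧ d 1 ≤ d 5) : Lev 5 d l := by
  refine ⟨1, by omega, by omega, h.1, fun k h1 h2 => ?_⟩
  rcases (show k = 2 ∨ k = 3 ∨ k = 4 ∨ k = 5 by omega) with rfl | rfl | rfl | rfl <;> omega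

theorem lev5_2 {l : ℤ} (h : d 2 = l ∧ d 2 ≤ d 3 ∧ d 2 ≤ d 4 ∧ d 2 ≤ d 5) : Lev 5 d l := by
  refine ⟨2, by omega, by omega, h.1, fun k h1 h2 => ?_⟩
  rcases (show k = 3 ∨ k = 4 ∨ k = 5 by omega) with rfl | rfl | rfl <;> omega

theorem lev5_3 {l : ℤ} (h : d 3 = l ∧ d 3 ≤ d 4 ∧ d 3 ≤ d 5) : Lev 5 d l := by
  refine ⟨3, by omega, by omega, h.1, fun k h1 h2 => ?_⟩
  rcases (show k = 4 ∨ k = 5 by omega) with rfl | rfl <;> omega

theorem lev5_4 {l : ℤ} (h : d 4 = l ∧ d 4 ≤ d 5) : Lev 5 d l := by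
  refine ⟨4, by omega, by omega, h.1, fun k h1 h2 => ?_⟩
  obtain rfl : k = 5 := by omega
  omega

theorem lev5_5 {l : ℤ} (h : d 5 = l) : Lev 5 d l := by
  exact ⟨5, by omega, by omega, h, fun k h1 h2 => by omega⟩

theorem lev6_1 {l : ℤ} (h : d 1 = l ∧ d 1 ≤ d 2 ∧ d 1 ≤ d 3 ∧ d 1 ≤ d 4 ∧ d 1 ≤ d 5 ∧ d 1 ≤ d 6) : Lev 6 d l := by
  refine ⟨1, by omega, by omega, h.1, fun k h1 h2 => ?_⟩
  rcases (show k = 2 ∨ k = 3 ∨ k = 4 ∨ k = 5 ∨ k = 6 by omega) with rfl | rfl | rfl | rfl | rfl <;> omega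

theorem lev6_2 {l : ℤ} (h : d 2 = l ∧ d 2 ≤ d 3 ∧ d 2 ≤ d 4 ∧ d 2 ≤ d 5 ∧ d 2 ≤ d 6) : Lev 6 d l := by
  refine ⟨2, by omega, by omega, h.1, fun k h1 h2 => ?_⟩
  rcases (show k = 3 ∨ k = 4 ∨ k = 5 ∨ k = 6 by omega) with rfl | rfl | rfl | rfl <;> omega

theorem lev6_3 {l : ℤ} (h : d 3 = l ∧ d 3 ≤ d 4 ∧ d 3 ≤ d 5 ∧ d 3 ≤ d 6) : Lev 6 d l := by
  refine ⟨3, by omega, by omega, h.1, fun k h1 h2 => ?_⟩
  rcases (show k = 4 ∨ k = 5 ∨ k = 6 by omega) with rfl | rfl | rfl <;> omega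

theorem lev6_4 {l : ℤ} (h : d 4 = l ∧ d 4 ≤ d 5 ∧ d 4 ≤ d 6) : Lev 6 d l := by
  refine ⟨4, by omega, by omega, h.1, fun k h1 h2 => ?_⟩
  rcases (show k = 5 ∨ k = 6 by omega) with rfl | rfl <;> omega

theorem lev6_5 {l : ℤ} (h : d 5 = l ∧ d 5 ≤ d 6) : Lev 6 d l := by
  refine ⟨5, by omega, by omega, h.1, fun k h1 h2 => ?_⟩
  obtain rfl : k = 6 := by omega
  omega

theorem lev6_6 {l : ℤ} (h : d 6 = l) : Lev 6 d l := by
  exact ⟨6, by omega, by omega, h, fun k h1 h2 => by omega⟩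

theorem lev7_1 {l : ℤ} (h : d 1 = l ∧ d 1 ≤ d 2 ∧ d 1 ≤ d 3 ∧ d 1 ≤ d 4 ∧ d 1 ≤ d 5 ∧ d 1 ≤ d 6 ∧ d 1 ≤ d 7) : Lev 7 d l := by
  refine ⟨1, by omega, by omega, h.1, fun k h1 h2 => ?_⟩
  rcases (show k = 2 ∨ k = 3 ∨ k = 4 ∨ k = 5 ∨ k = 6 ∨ k = 7 by omega) with rfl | rfl | rfl | rfl | rfl | rfl <;> omega

theorem lev7_2 {l : ℤ} (h : d 2 = l ∧ d 2 ≤ d 3 ∧ d 2 ≤ d 4 ∧ d 2 ≤ d 5 ∧ d 2 ≤ d 6 ∧ d 2 ≤ d 7) : Lev 7 d l := by
  refine ⟨2, by omega, by omega, h.1, fun k h1 h2 => ?_⟩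
  rcases (show k = 3 ∨ k = 4 ∨ k = 5 ∨ k = 6 ∨ k = 7 by omega) with rfl | rfl | rfl | rfl | rfl <;> omega

theorem lev7_3 {l : ℤ} (h : d 3 = l ∧ d 3 ≤ d 4 ∧ d 3 ≤ d 5 ∧ d 3 ≤ d 6 ∧ d 3 ≤ d 7) : Lev 7 d l := by
  refine ⟨3, by omega, by omega, h.1, fun k h1 h2 => ?_⟩
  rcases (show k = 4 ∨ k = 5 ∨ k = 6 ∨ k = 7 by omega) with rfl | rfl | rfl | rfl <;> omega

theorem lev7_4 {l : ℤ} (h : d 4 = l ∧ d 4 ≤ d 5 ∧ d 4 ≤ d 6 ∧ d 4 ≤ d 7) : Lev 7 d l := by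
  refine ⟨4, by omega, by omega, h.1, fun k h1 h2 => ?_⟩
  rcases (show k = 5 ∨ k = 6 ∨ k = 7 by omega) with rfl | rfl | rfl <;> omega

theorem lev7_5 {l : ℤ} (h : d 5 = l ∧ d 5 ≤ d 6 ∧ d 5 ≤ d 7) : Lev 7 d l := by
  refine ⟨5, by omega, by omega, h.1, fun k h1 h2 => ?_⟩
  rcases (show k = 6 ∨ k = 7 by omega) with rfl | rfl <;> omega

theorem lev7_6 {l : ℤ} (h : d 6 = l ∧ d 6 ≤ d 7) : Lev 7 d l := by
  refine ⟨6, by omega, by omega, h.1, fun k h1 h2 => ?_⟩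
  obtain rfl : k = 7 := by omega
  omega

theorem lev7_7 {l : ℤ} (h : d 7 = l) : Lev 7 d l := by
  exact ⟨7, by omega, by omega, h, fun k h1 h2 => by omega⟩

theorem lev8_1 {l : ℤ} (h : d 1 = l ∧ d 1 ≤ d 2 ∧ d 1 ≤ d 3 ∧ d 1 ≤ d 4 ∧ d 1 ≤ d 5 ∧ d 1 ≤ d 6 ∧ d 1 ≤ d 7 ∧ d 1 ≤ d 8) : Lev 8 d l := by
  refine ⟨1, by omega, by omega, h.1, fun k h1 h2 => ?_⟩
  rcases (show k = 2 ∨ k = 3 ∨ k = 4 ∨ k = 5 ∨ k = 6 ∨ k = 7 ∨ k = 8 by omega) with rfl | rfl | rfl | rfl | rfl | rfl | rfl <;> omega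

theorem lev8_2 {l : ℤ} (h : d 2 = l ∧ d 2 ≤ d 3 ∧ d 2 ≤ d 4 ∧ d 2 ≤ d 5 ∧ d 2 ≤ d 6 ∧ d 2 ≤ d 7 ∧ d 2 ≤ d 8) : Lev 8 d l := by
  refine ⟨2, by omega, by omega, h.1, fun k h1 h2 => ?_⟩
  rcases (show k = 3 ∨ k = 4 ∨ k = 5 ∨ k = 6 ∨ k = 7 ∨ k = 8 by omega) with rfl | rfl | rfl | rfl | rfl | rfl <;> omega

theorem lev8_3 {l : ℤ} (h : d 3 = l ∧ d 3 ≤ d 4 ∧ d 3 ≤ d 5 ∧ d 3 ≤ d 6 ∧ d 3 ≤ d 7 ∧ d 3 ≤ d 8) : Lev 8 d l := by
  refine ⟨3, by omega, by omega, h.1, fun k h1 h2 => ?_⟩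
  rcases (show k = 4 ∨ k = 5 ∨ k = 6 ∨ k = 7 ∨ k = 8 by omega) with rfl | rfl | rfl | rfl | rfl <;> omega

theorem lev8_4 {l : ℤ} (h : d 4 = l ∧ d 4 ≤ d 5 ∧ d 4 ≤ d 6 ∧ d 4 ≤ d 7 ∧ d 4 ≤ d 8) : Lev 8 d l := by
  refine ⟨4, by omega, by omega, h.1, fun k h1 h2 => ?_⟩
  rcases (show k = 5 ∨ k = 6 ∨ k = 7 ∨ k = 8 by omega) with rfl | rfl | rfl | rfl <;> omega

theorem lev8_5 {l : ℤ} (h : d 5 = l ∧ d 5 ≤ d 6 ∧ d 5 ≤ d 7 ∧ d 5 ≤ d 8) : Lev 8 d l := by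
  refine ⟨5, by omega, by omega, h.1, fun k h1 h2 => ?_⟩
  rcases (show k = 6 ∨ k = 7 ∨ k = 8 by omega) with rfl | rfl | rfl <;> omega

theorem lev8_6 {l : ℤ} (h : d 6 = l ∧ d 6 ≤ d 7 ∧ d 6 ≤ d 8) : Lev 8 d l := by
  refine ⟨6, by omega, by omega, h.1, fun k h1 h2 => ?_⟩
  rcases (show k = 7 ∨ k = 8 by omega) with rfl | rfl <;> omega

theorem lev8_7 {l : ℤ} (h : d 7 = l ∧ d 7 ≤ d 8) : Lev 8 d l := by
  refine ⟨7, by omega, by omega, h.1, fun k h1 h2 => ?_⟩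
  obtain rfl : k = 8 := by omega
  omega

theorem lev8_8 {l : ℤ} (h : d 8 = l) : Lev 8 d l := by
  exact ⟨8, by omega, by omega, h, fun k h1 h2 => by omega⟩

theorem Good.ex2 (h : Good n p d) (hp : ∀ i, 0 ≤ p i) (hm : 2 ≤ n + 1) (e1 e2 c1 c2 : ℤ)
    (hs : 2 ≤ n ∨ (e2 = d 2 ∧ 0 ≤ c2))
    (hf : (e1 ≠ e2))
    (r1 : (e2 < e1) ∨ Lev 2 d e1)
    (r2 : Lev 2 d e2)
    (hc : e1 - d 1 ≤ c1 ∧ e2 - d 2 ≤ c2) :
    0 ≤ p 1 * (c1 : ℝ) + p 2 * (c2 : ℝ) := by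
  obtain ⟨e, rfl, rfl⟩ : ∃ e : ℕ → ℤ, e 1 = e1 ∧ e 2 = e2 :=
    ⟨fun i => if i = 1 then e1 else if i = 2 then e2 else 0, rfl, rfl⟩
  obtain ⟨c, rfl, rfl⟩ : ∃ c : ℕ → ℤ, c 1 = c1 ∧ c 2 = c2 :=
    ⟨fun i => if i = 1 then c1 else if i = 2 then c2 else 0, rfl, rfl⟩
  have f12 := hf
  have key := h.ex hp 2 hm e c hs ?_ ?_ ?_
  · simpa [Finset.sum_Icc_succ_top] using key
  · intro i j hi hij hj he
    obtain rfl : i = 1 := by omega
    obtain rfl : j = 2 := by omega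
    exact absurd he f12
  · intro i hi him
    rcases (show i = 1 ∨ i = 2 by omega) with rfl | rfl
    · rcases r1 with g | g
      · exact Or.inl ⟨2, by omega, by omega, g⟩
      · exact Or.inr g
    · exact Or.inr r2
  · intro i hi him
    rcases (show i = 1 ∨ i = 2 by omega) with rfl | rfl <;> omega

theorem Good.ex3 (h : Good n p d) (hp : ∀ i, 0 ≤ p i) (hm : 3 ≤ n + 1) (e1 e2 e3 c1 c2 c3 : ℤ)
    (hs : 3 ≤ n ∨ (e3 = d 3 ∧ 0 ≤ c3))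
    (hf : (e1 ≠ e2) ∧
      (e1 ≠ e3 ∨ e2 < e1) ∧
      (e2 ≠ e3))
    (r1 : (e2 < e1 ∨ e3 < e1) ∨ Lev 3 d e1)
    (r2 : (e3 < e2) ∨ Lev 3 d e2)
    (r3 : Lev 3 d e3)
    (hc : e1 - d 1 ≤ c1 ∧ e2 - d 2 ≤ c2 ∧ e3 - d 3 ≤ c3) :
    0 ≤ p 1 * (c1 : ℝ) + p 2 * (c2 : ℝ) + p 3 * (c3 : ℝ) := by
  obtain ⟨e, rfl, rfl, rfl⟩ : ∃ e : ℕ → ℤ, e 1 = e1 ∧ e 2 = e2 ∧ e 3 = e3 :=
    ⟨fun i => if i = 1 then e1 else if i = 2 then e2 else if i = 3 then e3 else 0, rfl, rfl, rfl⟩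
  obtain ⟨c, rfl, rfl, rfl⟩ : ∃ c : ℕ → ℤ, c 1 = c1 ∧ c 2 = c2 ∧ c 3 = c3 :=
    ⟨fun i => if i = 1 then c1 else if i = 2 then c2 else if i = 3 then c3 else 0, rfl, rfl, rfl⟩
  obtain ⟨f12, f13, f23⟩ := hf
  have key := h.ex hp 3 hm e c hs ?_ ?_ ?_
  · simpa [Finset.sum_Icc_succ_top] using key
  · intro i j hi hij hj he
    rcases (show i = 1 ∨ i = 2 by omega) with rfl | rfl
    · rcases (show j = 2 ∨ j = 3 by omega) with rfl | rfl
      · exact absurd he f12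
      · rcases f13 with g | g
        · exact absurd he g
        · exact ⟨2, by omega, by omega, g⟩
    · obtain rfl : j = 3 := by omega
      exact absurd he f23
  · intro i hi him
    rcases (show i = 1 ∨ i = 2 ∨ i = 3 by omega) with rfl | rfl | rfl
    · rcases r1 with (g | g) | g
      · exact Or.inl ⟨2, by omega, by omega, g⟩
      · exact Or.inl ⟨3, by omega, by omega, g⟩
      · exact Or.inr g
    · rcases r2 with g | g
      · exact Or.inl ⟨3, by omega, by omega, g⟩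
      · exact Or.inr g
    · exact Or.inr r3
  · intro i hi him
    rcases (show i = 1 ∨ i = 2 ∨ i = 3 by omega) with rfl | rfl | rfl <;> omega

theorem Good.ex4 (h : Good n p d) (hp : ∀ i, 0 ≤ p i) (hm : 4 ≤ n + 1) (e1 e2 e3 e4 c1 c2 c3 c4 : ℤ)
    (hs : 4 ≤ n ∨ (e4 = d 4 ∧ 0 ≤ c4))
    (hf : (e1 ≠ e2) ∧
      (e1 ≠ e3 ∨ e2 < e1) ∧
      (e1 ≠ e4 ∨ e2 < e1 ∨ e3 < e1) ∧
      (e2 ≠ e3) ∧
      (e2 ≠ e4 ∨ e3 < e2) ∧
      (e3 ≠ e4))
    (r1 : (e2 < e1 ∨ e3 < e1 ∨ e4 < e1) ∨ Lev 4 d e1)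
    (r2 : (e3 < e2 ∨ e4 < e2) ∨ Lev 4 d e2)
    (r3 : (e4 < e3) ∨ Lev 4 d e3)
    (r4 : Lev 4 d e4)
    (hc : e1 - d 1 ≤ c1 ∧ e2 - d 2 ≤ c2 ∧ e3 - d 3 ≤ c3 ∧ e4 - d 4 ≤ c4) :
    0 ≤ p 1 * (c1 : ℝ) + p 2 * (c2 : ℝ) + p 3 * (c3 : ℝ) + p 4 * (c4 : ℝ) := by
  obtain ⟨e, rfl, rfl, rfl, rfl⟩ : ∃ e : ℕ → ℤ, e 1 = e1 ∧ e 2 = e2 ∧ e 3 = e3 ∧ e 4 = e4 :=
    ⟨fun i => if i = 1 then e1 else if i = 2 then e2 else if i = 3 then e3 else if i = 4 then e4 else 0, rfl, rfl, rfl, rfl⟩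
  obtain ⟨c, rfl, rfl, rfl, rfl⟩ : ∃ c : ℕ → ℤ, c 1 = c1 ∧ c 2 = c2 ∧ c 3 = c3 ∧ c 4 = c4 :=
    ⟨fun i => if i = 1 then c1 else if i = 2 then c2 else if i = 3 then c3 else if i = 4 then c4 else 0, rfl, rfl, rfl, rfl⟩
  obtain ⟨f12, f13, f14, f23, f24, f34⟩ := hf
  have key := h.ex hp 4 hm e c hs ?_ ?_ ?_
  · simpa [Finset.sum_Icc_succ_top] using key
  · intro i j hi hij hj he
    rcases (show i = 1 ∨ i = 2 ∨ i = 3 by omega) with rfl | rfl | rfl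
    · rcases (show j = 2 ∨ j = 3 ∨ j = 4 by omega) with rfl | rfl | rfl
      · exact absurd he f12
      · rcases f13 with g | g
        · exact absurd he g
        · exact ⟨2, by omega, by omega, g⟩
      · rcases f14 with g | g | g
        · exact absurd he g
        · exact ⟨2, by omega, by omega, g⟩
        · exact ⟨3, by omega, by omega, g⟩
    · rcases (show j = 3 ∨ j = 4 by omega) with rfl | rfl
      · exact absurd he f23
      · rcases f24 with g | g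
        · exact absurd he g
        · exact ⟨3, by omega, by omega, g⟩
    · obtain rfl : j = 4 := by omega
      exact absurd he f34
  · intro i hi him
    rcases (show i = 1 ∨ i = 2 ∨ i = 3 ∨ i = 4 by omega) with rfl | rfl | rfl | rfl
    · rcases r1 with (g | g | g) | g
      · exact Or.inl ⟨2, by omega, by omega, g⟩
      · exact Or.inl ⟨3, by omega, by omega, g⟩
      · exact Or.inl ⟨4, by omega, by omega, g⟩
      · exact Or.inr g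
    · rcases r2 with (g | g) | g
      · exact Or.inl ⟨3, by omega, by omega, g⟩
      · exact Or.inl ⟨4, by omega, by omega, g⟩
      · exact Or.inr g
    · rcases r3 with g | g
      · exact Or.inl ⟨4, by omega, by omega, g⟩
      · exact Or.inr g
    · exact Or.inr r4
  · intro i hi him
    rcases (show i = 1 ∨ i = 2 ∨ i = 3 ∨ i = 4 by omega) with rfl | rfl | rfl | rfl <;> omega

theorem Good.ex5 (h : Good n p d) (hp : ∀ i, 0 ≤ p i) (hm : 5 ≤ n + 1) (e1 e2 e3 e4 e5 c1 c2 c3 c4 c5 : ℤ)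
    (hs : 5 ≤ n ∨ (e5 = d 5 ∧ 0 ≤ c5))
    (hf : (e1 ≠ e2) ∧
      (e1 ≠ e3 ∨ e2 < e1) ∧
      (e1 ≠ e4 ∨ e2 < e1 ∨ e3 < e1) ∧
      (e1 ≠ e5 ∨ e2 < e1 ∨ e3 < e1 ∨ e4 < e1) ∧
      (e2 ≠ e3) ∧
      (e2 ≠ e4 ∨ e3 < e2) ∧
      (e2 ≠ e5 ∨ e3 < e2 ∨ e4 < e2) ∧
      (e3 ≠ e4) ∧
      (e3 ≠ e5 ∨ e4 < e3) ∧
      (e4 ≠ e5))
    (r1 : (e2 < e1 ∨ e3 < e1 ∨ e4 < e1 ∨ e5 < e1) ∨ Lev 5 d e1)
    (r2 : (e3 < e2 ∨ e4 < e2 ∨ e5 < e2) ∨ Lev 5 d e2)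
    (r3 : (e4 < e3 ∨ e5 < e3) ∨ Lev 5 d e3)
    (r4 : (e5 < e4) ∨ Lev 5 d e4)
    (r5 : Lev 5 d e5)
    (hc : e1 - d 1 ≤ c1 ∧ e2 - d 2 ≤ c2 ∧ e3 - d 3 ≤ c3 ∧ e4 - d 4 ≤ c4 ∧ e5 - d 5 ≤ c5) :
    0 ≤ p 1 * (c1 : ℝ) + p 2 * (c2 : ℝ) + p 3 * (c3 : ℝ) + p 4 * (c4 : ℝ) + p 5 * (c5 : ℝ) := by
  obtain ⟨e, rfl, rfl, rfl, rfl, rfl⟩ : ∃ e : ℕ → ℤ, e 1 = e1 ∧ e 2 = e2 ∧ e 3 = e3 ∧ e 4 = e4 ∧ e 5 = e5 :=
    ⟨fun i => if i = 1 then e1 else if i = 2 then e2 else if i = 3 then e3 else if i = 4 then e4 else if i = 5 then e5 else 0, rfl, rfl, rfl, rfl, rfl⟩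
  obtain ⟨c, rfl, rfl, rfl, rfl, rfl⟩ : ∃ c : ℕ → ℤ, c 1 = c1 ∧ c 2 = c2 ∧ c 3 = c3 ∧ c 4 = c4 ∧ c 5 = c5 :=
    ⟨fun i => if i = 1 then c1 else if i = 2 then c2 else if i = 3 then c3 else if i = 4 then c4 else if i = 5 then c5 else 0, rfl, rfl, rfl, rfl, rfl⟩
  obtain ⟨f12, f13, f14, f15, f23, f24, f25, f34, f35, f45⟩ := hf
  have key := h.ex hp 5 hm e c hs ?_ ?_ ?_
  · simpa [Finset.sum_Icc_succ_top] using key
  · intro i j hi hij hj he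
    rcases (show i = 1 ∨ i = 2 ∨ i = 3 ∨ i = 4 by omega) with rfl | rfl | rfl | rfl
    · rcases (show j = 2 ∨ j = 3 ∨ j = 4 ∨ j = 5 by omega) with rfl | rfl | rfl | rfl
      · exact absurd he f12
      · rcases f13 with g | g
        · exact absurd he g
        · exact ⟨2, by omega, by omega, g⟩
      · rcases f14 with g | g | g
        · exact absurd he g
        · exact ⟨2, by omega, by omega, g⟩
        · exact ⟨3, by omega, by omega, g⟩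
      · rcases f15 with g | g | g | g
        · exact absurd he g
        · exact ⟨2, by omega, by omega, g⟩
        · exact ⟨3, by omega, by omega, g⟩
        · exact ⟨4, by omega, by omega, g⟩
    · rcases (show j = 3 ∨ j = 4 ∨ j = 5 by omega) with rfl | rfl | rfl
      · exact absurd he f23
      · rcases f24 with g | g
        · exact absurd he g
        · exact ⟨3, by omega, by omega, g⟩
      · rcases f25 with g | g | g
        · exact absurd he g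
        · exact ⟨3, by omega, by omega, g⟩
        · exact ⟨4, by omega, by omega, g⟩
    · rcases (show j = 4 ∨ j = 5 by omega) with rfl | rfl
      · exact absurd he f34
      · rcases f35 with g | g
        · exact absurd he g
        · exact ⟨4, by omega, by omega, g⟩
    · obtain rfl : j = 5 := by omega
      exact absurd he f45
  · intro i hi him
    rcases (show i = 1 ∨ i = 2 ∨ i = 3 ∨ i = 4 ∨ i = 5 by omega) with rfl | rfl | rfl | rfl | rfl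
    · rcases r1 with (g | g | g | g) | g
      · exact Or.inl ⟨2, by omega, by omega, g⟩
      · exact Or.inl ⟨3, by omega, by omega, g⟩
      · exact Or.inl ⟨4, by omega, by omega, g⟩
      · exact Or.inl ⟨5, by omega, by omega, g⟩
      · exact Or.inr g
    · rcases r2 with (g | g | g) | g
      · exact Or.inl ⟨3, by omega, by omega, g⟩
      · exact Or.inl ⟨4, by omega, by omega, g⟩
      · exact Or.inl ⟨5, by omega, by omega, g⟩
      · exact Or.inr g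
    · rcases r3 with (g | g) | g
      · exact Or.inl ⟨4, by omega, by omega, g⟩
      · exact Or.inl ⟨5, by omega, by omega, g⟩
      · exact Or.inr g
    · rcases r4 with g | g
      · exact Or.inl ⟨5, by omega, by omega, g⟩
      · exact Or.inr g
    · exact Or.inr r5
  · intro i hi him
    rcases (show i = 1 ∨ i = 2 ∨ i = 3 ∨ i = 4 ∨ i = 5 by omega) with rfl | rfl | rfl | rfl | rfl <;> omega

theorem Good.ex6 (h : Good n p d) (hp : ∀ i, 0 ≤ p i) (hm : 6 ≤ n + 1) (e1 e2 e3 e4 e5 e6 c1 c2 c3 c4 c5 c6 : ℤ)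
    (hs : 6 ≤ n ∨ (e6 = d 6 ∧ 0 ≤ c6))
    (hf : (e1 ≠ e2) ∧
      (e1 ≠ e3 ∨ e2 < e1) ∧
      (e1 ≠ e4 ∨ e2 < e1 ∨ e3 < e1) ∧
      (e1 ≠ e5 ∨ e2 < e1 ∨ e3 < e1 ∨ e4 < e1) ∧
      (e1 ≠ e6 ∨ e2 < e1 ∨ e3 < e1 ∨ e4 < e1 ∨ e5 < e1) ∧
      (e2 ≠ e3) ∧
      (e2 ≠ e4 ∨ e3 < e2) ∧
      (e2 ≠ e5 ∨ e3 < e2 ∨ e4 < e2) ∧
      (e2 ≠ e6 ∨ e3 < e2 ∨ e4 < e2 ∨ e5 < e2) ∧
      (e3 ≠ e4) ∧
      (e3 ≠ e5 ∨ e4 < e3) ∧
      (e3 ≠ e6 ∨ e4 < e3 ∨ e5 < e3) ∧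
      (e4 ≠ e5) ∧
      (e4 ≠ e6 ∨ e5 < e4) ∧
      (e5 ≠ e6))
    (r1 : (e2 < e1 ∨ e3 < e1 ∨ e4 < e1 ∨ e5 < e1 ∨ e6 < e1) ∨ Lev 6 d e1)
    (r2 : (e3 < e2 ∨ e4 < e2 ∨ e5 < e2 ∨ e6 < e2) ∨ Lev 6 d e2)
    (r3 : (e4 < e3 ∨ e5 < e3 ∨ e6 < e3) ∨ Lev 6 d e3)
    (r4 : (e5 < e4 ∨ e6 < e4) ∨ Lev 6 d e4)
    (r5 : (e6 < e5) ∨ Lev 6 d e5)
    (r6 : Lev 6 d e6)
    (hc : e1 - d 1 ≤ c1 ∧ e2 - d 2 ≤ c2 ∧ e3 - d 3 ≤ c3 ∧ e4 - d 4 ≤ c4 ∧ e5 - d 5 ≤ c5 ∧ e6 - d 6 ≤ c6) :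
    0 ≤ p 1 * (c1 : ℝ) + p 2 * (c2 : ℝ) + p 3 * (c3 : ℝ) + p 4 * (c4 : ℝ) + p 5 * (c5 : ℝ) + p 6 * (c6 : ℝ) := by
  obtain ⟨e, rfl, rfl, rfl, rfl, rfl, rfl⟩ : ∃ e : ℕ → ℤ, e 1 = e1 ∧ e 2 = e2 ∧ e 3 = e3 ∧ e 4 = e4 ∧ e 5 = e5 ∧ e 6 = e6 :=
    ⟨fun i => if i = 1 then e1 else if i = 2 then e2 else if i = 3 then e3 else if i = 4 then e4 else if i = 5 then e5 else if i = 6 then e6 else 0, rfl, rfl, rfl, rfl, rfl, rfl⟩
  obtain ⟨c, rfl, rfl, rfl, rfl, rfl, rfl⟩ : ∃ c : ℕ → ℤ, c 1 = c1 ∧ c 2 = c2 ∧ c 3 = c3 ∧ c 4 = c4 ∧ c 5 = c5 ∧ c 6 = c6 :=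
    ⟨fun i => if i = 1 then c1 else if i = 2 then c2 else if i = 3 then c3 else if i = 4 then c4 else if i = 5 then c5 else if i = 6 then c6 else 0, rfl, rfl, rfl, rfl, rfl, rfl⟩
  obtain ⟨f12, f13, f14, f15, f16, f23, f24, f25, f26, f34, f35, f36, f45, f46, f56⟩ := hf
  have key := h.ex hp 6 hm e c hs ?_ ?_ ?_
  · simpa [Finset.sum_Icc_succ_top] using key
  · intro i j hi hij hj he
    rcases (show i = 1 ∨ i = 2 ∨ i = 3 ∨ i = 4 ∨ i = 5 by omega) with rfl | rfl | rfl | rfl | rfl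
    · rcases (show j = 2 ∨ j = 3 ∨ j = 4 ∨ j = 5 ∨ j = 6 by omega) with rfl | rfl | rfl | rfl | rfl
      · exact absurd he f12
      · rcases f13 with g | g
        · exact absurd he g
        · exact ⟨2, by omega, by omega, g⟩
      · rcases f14 with g | g | g
        · exact absurd he g
        · exact ⟨2, by omega, by omega, g⟩
        · exact ⟨3, by omega, by omega, g⟩
      · rcases f15 with g | g | g | g
        · exact absurd he g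
        · exact ⟨2, by omega, by omega, g⟩
        · exact ⟨3, by omega, by omega, g⟩
        · exact ⟨4, by omega, by omega, g⟩
      · rcases f16 with g | g | g | g | g
        · exact absurd he g
        · exact ⟨2, by omega, by omega, g⟩
        · exact ⟨3, by omega, by omega, g⟩
        · exact ⟨4, by omega, by omega, g⟩
        · exact ⟨5, by omega, by omega, g⟩
    · rcases (show j = 3 ∨ j = 4 ∨ j = 5 ∨ j = 6 by omega) with rfl | rfl | rfl | rfl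
      · exact absurd he f23
      · rcases f24 with g | g
        · exact absurd he g
        · exact ⟨3, by omega, by omega, g⟩
      · rcases f25 with g | g | g
        · exact absurd he g
        · exact ⟨3, by omega, by omega, g⟩
        · exact ⟨4, by omega, by omega, g⟩
      · rcases f26 with g | g | g | g
        · exact absurd he g
        · exact ⟨3, by omega, by omega, g⟩
        · exact ⟨4, by omega, by omega, g⟩
        · exact ⟨5, by omega, by omega, g⟩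
    · rcases (show j = 4 ∨ j = 5 ∨ j = 6 by omega) with rfl | rfl | rfl
      · exact absurd he f34
      · rcases f35 with g | g
        · exact absurd he g
        · exact ⟨4, by omega, by omega, g⟩
      · rcases f36 with g | g | g
        · exact absurd he g
        · exact ⟨4, by omega, by omega, g⟩
        · exact ⟨5, by omega, by omega, g⟩
    · rcases (show j = 5 ∨ j = 6 by omega) with rfl | rfl
      · exact absurd he f45
      · rcases f46 with g | g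
        · exact absurd he g
        · exact ⟨5, by omega, by omega, g⟩
    · obtain rfl : j = 6 := by omega
      exact absurd he f56
  · intro i hi him
    rcases (show i = 1 ∨ i = 2 ∨ i = 3 ∨ i = 4 ∨ i = 5 ∨ i = 6 by omega) with rfl | rfl | rfl | rfl | rfl | rfl
    · rcases r1 with (g | g | g | g | g) | g
      · exact Or.inl ⟨2, by omega, by omega, g⟩
      · exact Or.inl ⟨3, by omega, by omega, g⟩
      · exact Or.inl ⟨4, by omega, by omega, g⟩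
      · exact Or.inl ⟨5, by omega, by omega, g⟩
      · exact Or.inl ⟨6, by omega, by omega, g⟩
      · exact Or.inr g
    · rcases r2 with (g | g | g | g) | g
      · exact Or.inl ⟨3, by omega, by omega, g⟩
      · exact Or.inl ⟨4, by omega, by omega, g⟩
      · exact Or.inl ⟨5, by omega, by omega, g⟩
      · exact Or.inl ⟨6, by omega, by omega, g⟩
      · exact Or.inr g
    · rcases r3 with (g | g | g) | g
      · exact Or.inl ⟨4, by omega, by omega, g⟩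
      · exact Or.inl ⟨5, by omega, by omega, g⟩
      · exact Or.inl ⟨6, by omega, by omega, g⟩
      · exact Or.inr g
    · rcases r4 with (g | g) | g
      · exact Or.inl ⟨5, by omega, by omega, g⟩
      · exact Or.inl ⟨6, by omega, by omega, g⟩
      · exact Or.inr g
    · rcases r5 with g | g
      · exact Or.inl ⟨6, by omega, by omega, g⟩
      · exact Or.inr g
    · exact Or.inr r6
  · intro i hi him
    rcases (show i = 1 ∨ i = 2 ∨ i = 3 ∨ i = 4 ∨ i = 5 ∨ i = 6 by omega) with rfl | rfl | rfl | rfl | rfl | rfl <;> omega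

theorem Good.ex7 (h : Good n p d) (hp : ∀ i, 0 ≤ p i) (hm : 7 ≤ n + 1) (e1 e2 e3 e4 e5 e6 e7 c1 c2 c3 c4 c5 c6 c7 : ℤ)
    (hs : 7 ≤ n ∨ (e7 = d 7 ∧ 0 ≤ c7))
    (hf : (e1 ≠ e2) ∧
      (e1 ≠ e3 ∨ e2 < e1) ∧
      (e1 ≠ e4 ∨ e2 < e1 ∨ e3 < e1) ∧
      (e1 ≠ e5 ∨ e2 < e1 ∨ e3 < e1 ∨ e4 < e1) ∧
      (e1 ≠ e6 ∨ e2 < e1 ∨ e3 < e1 ∨ e4 < e1 ∨ e5 < e1) ∧
      (e1 ≠ e7 ∨ e2 < e1 ∨ e3 < e1 ∨ e4 < e1 ∨ e5 < e1 ∨ e6 < e1) ∧
      (e2 ≠ e3) ∧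
      (e2 ≠ e4 ∨ e3 < e2) ∧
      (e2 ≠ e5 ∨ e3 < e2 ∨ e4 < e2) ∧
      (e2 ≠ e6 ∨ e3 < e2 ∨ e4 < e2 ∨ e5 < e2) ∧
      (e2 ≠ e7 ∨ e3 < e2 ∨ e4 < e2 ∨ e5 < e2 ∨ e6 < e2) ∧
      (e3 ≠ e4) ∧
      (e3 ≠ e5 ∨ e4 < e3) ∧
      (e3 ≠ e6 ∨ e4 < e3 ∨ e5 < e3) ∧
      (e3 ≠ e7 ∨ e4 < e3 ∨ e5 < e3 ∨ e6 < e3) ∧
      (e4 ≠ e5) ∧
      (e4 ≠ e6 ∨ e5 < e4) ∧
      (e4 ≠ e7 ∨ e5 < e4 ∨ e6 < e4) ∧
      (e5 ≠ e6) ∧
      (e5 ≠ e7 ∨ e6 < e5) ∧
      (e6 ≠ e7))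
    (r1 : (e2 < e1 ∨ e3 < e1 ∨ e4 < e1 ∨ e5 < e1 ∨ e6 < e1 ∨ e7 < e1) ∨ Lev 7 d e1)
    (r2 : (e3 < e2 ∨ e4 < e2 ∨ e5 < e2 ∨ e6 < e2 ∨ e7 < e2) ∨ Lev 7 d e2)
    (r3 : (e4 < e3 ∨ e5 < e3 ∨ e6 < e3 ∨ e7 < e3) ∨ Lev 7 d e3)
    (r4 : (e5 < e4 ∨ e6 < e4 ∨ e7 < e4) ∨ Lev 7 d e4)
    (r5 : (e6 < e5 ∨ e7 < e5) ∨ Lev 7 d e5)
    (r6 : (e7 < e6) ∨ Lev 7 d e6)
    (r7 : Lev 7 d e7)
    (hc : e1 - d 1 ≤ c1 ∧ e2 - d 2 ≤ c2 ∧ e3 - d 3 ≤ c3 ∧ e4 - d 4 ≤ c4 ∧ e5 - d 5 ≤ c5 ∧ e6 - d 6 ≤ c6 ∧ e7 - d 7 ≤ c7) :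
    0 ≤ p 1 * (c1 : ℝ) + p 2 * (c2 : ℝ) + p 3 * (c3 : ℝ) + p 4 * (c4 : ℝ) + p 5 * (c5 : ℝ) + p 6 * (c6 : ℝ) + p 7 * (c7 : ℝ) := by
  obtain ⟨e, rfl, rfl, rfl, rfl, rfl, rfl, rfl⟩ : ∃ e : ℕ → ℤ, e 1 = e1 ∧ e 2 = e2 ∧ e 3 = e3 ∧ e 4 = e4 ∧ e 5 = e5 ∧ e 6 = e6 ∧ e 7 = e7 :=
    ⟨fun i => if i = 1 then e1 else if i = 2 then e2 else if i = 3 then e3 else if i = 4 then e4 else if i = 5 then e5 else if i = 6 then e6 else if i = 7 then e7 else 0, rfl, rfl, rfl, rfl, rfl, rfl, rfl⟩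
  obtain ⟨c, rfl, rfl, rfl, rfl, rfl, rfl, rfl⟩ : ∃ c : ℕ → ℤ, c 1 = c1 ∧ c 2 = c2 ∧ c 3 = c3 ∧ c 4 = c4 ∧ c 5 = c5 ∧ c 6 = c6 ∧ c 7 = c7 :=
    ⟨fun i => if i = 1 then c1 else if i = 2 then c2 else if i = 3 then c3 else if i = 4 then c4 else if i = 5 then c5 else if i = 6 then c6 else if i = 7 then c7 else 0, rfl, rfl, rfl, rfl, rfl, rfl, rfl⟩
  obtain ⟨f12, f13, f14, f15, f16, f17, f23, f24, f25, f26, f27, f34, f35, f36, f37, f45, f46, f47, f56, f57, f67⟩ := hf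
  have key := h.ex hp 7 hm e c hs ?_ ?_ ?_
  · simpa [Finset.sum_Icc_succ_top] using key
  · intro i j hi hij hj he
    rcases (show i = 1 ∨ i = 2 ∨ i = 3 ∨ i = 4 ∨ i = 5 ∨ i = 6 by omega) with rfl | rfl | rfl | rfl | rfl | rfl
    · rcases (show j = 2 ∨ j = 3 ∨ j = 4 ∨ j = 5 ∨ j = 6 ∨ j = 7 by omega) with rfl | rfl | rfl | rfl | rfl | rfl
      · exact absurd he f12
      · rcases f13 with g | g
        · exact absurd he g
        · exact ⟨2, by omega, by omega, g⟩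
      · rcases f14 with g | g | g
        · exact absurd he g
        · exact ⟨2, by omega, by omega, g⟩
        · exact ⟨3, by omega, by omega, g⟩
      · rcases f15 with g | g | g | g
        · exact absurd he g
        · exact ⟨2, by omega, by omega, g⟩
        · exact ⟨3, by omega, by omega, g⟩
        · exact ⟨4, by omega, by omega, g⟩
      · rcases f16 with g | g | g | g | g
        · exact absurd he g
        · exact ⟨2, by omega, by omega, g⟩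
        · exact ⟨3, by omega, by omega, g⟩
        · exact ⟨4, by omega, by omega, g⟩
        · exact ⟨5, by omega, by omega, g⟩
      · rcases f17 with g | g | g | g | g | g
        · exact absurd he g
        · exact ⟨2, by omega, by omega, g⟩
        · exact ⟨3, by omega, by omega, g⟩
        · exact ⟨4, by omega, by omega, g⟩
        · exact ⟨5, by omega, by omega, g⟩
        · exact ⟨6, by omega, by omega, g⟩
    · rcases (show j = 3 ∨ j = 4 ∨ j = 5 ∨ j = 6 ∨ j = 7 by omega) with rfl | rfl | rfl | rfl | rfl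
      · exact absurd he f23
      · rcases f24 with g | g
        · exact absurd he g
        · exact ⟨3, by omega, by omega, g⟩
      · rcases f25 with g | g | g
        · exact absurd he g
        · exact ⟨3, by omega, by omega, g⟩
        · exact ⟨4, by omega, by omega, g⟩
      · rcases f26 with g | g | g | g
        · exact absurd he g
        · exact ⟨3, by omega, by omega, g⟩
        · exact ⟨4, by omega, by omega, g⟩
        · exact ⟨5, by omega, by omega, g⟩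
      · rcases f27 with g | g | g | g | g
        · exact absurd he g
        · exact ⟨3, by omega, by omega, g⟩
        · exact ⟨4, by omega, by omega, g⟩
        · exact ⟨5, by omega, by omega, g⟩
        · exact ⟨6, by omega, by omega, g⟩
    · rcases (show j = 4 ∨ j = 5 ∨ j = 6 ∨ j = 7 by omega) with rfl | rfl | rfl | rfl
      · exact absurd he f34
      · rcases f35 with g | g
        · exact absurd he g
        · exact ⟨4, by omega, by omega, g⟩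
      · rcases f36 with g | g | g
        · exact absurd he g
        · exact ⟨4, by omega, by omega, g⟩
        · exact ⟨5, by omega, by omega, g⟩
      · rcases f37 with g | g | g | g
        · exact absurd he g
        · exact ⟨4, by omega, by omega, g⟩
        · exact ⟨5, by omega, by omega, g⟩
        · exact ⟨6, by omega, by omega, g⟩
    · rcases (show j = 5 ∨ j = 6 ∨ j = 7 by omega) with rfl | rfl | rfl
      · exact absurd he f45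
      · rcases f46 with g | g
        · exact absurd he g
        · exact ⟨5, by omega, by omega, g⟩
      · rcases f47 with g | g | g
        · exact absurd he g
        · exact ⟨5, by omega, by omega, g⟩
        · exact ⟨6, by omega, by omega, g⟩
    · rcases (show j = 6 ∨ j = 7 by omega) with rfl | rfl
      · exact absurd he f56
      · rcases f57 with g | g
        · exact absurd he g
        · exact ⟨6, by omega, by omega, g⟩
    · obtain rfl : j = 7 := by omega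
      exact absurd he f67
  · intro i hi him
    rcases (show i = 1 ∨ i = 2 ∨ i = 3 ∨ i = 4 ∨ i = 5 ∨ i = 6 ∨ i = 7 by omega) with rfl | rfl | rfl | rfl | rfl | rfl | rfl
    · rcases r1 with (g | g | g | g | g | g) | g
      · exact Or.inl ⟨2, by omega, by omega, g⟩
      · exact Or.inl ⟨3, by omega, by omega, g⟩
      · exact Or.inl ⟨4, by omega, by omega, g⟩
      · exact Or.inl ⟨5, by omega, by omega, g⟩
      · exact Or.inl ⟨6, by omega, by omega, g⟩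
      · exact Or.inl ⟨7, by omega, by omega, g⟩
      · exact Or.inr g
    · rcases r2 with (g | g | g | g | g) | g
      · exact Or.inl ⟨3, by omega, by omega, g⟩
      · exact Or.inl ⟨4, by omega, by omega, g⟩
      · exact Or.inl ⟨5, by omega, by omega, g⟩
      · exact Or.inl ⟨6, by omega, by omega, g⟩
      · exact Or.inl ⟨7, by omega, by omega, g⟩
      · exact Or.inr g
    · rcases r3 with (g | g | g | g) | g
      · exact Or.inl ⟨4, by omega, by omega, g⟩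
      · exact Or.inl ⟨5, by omega, by omega, g⟩
      · exact Or.inl ⟨6, by omega, by omega, g⟩
      · exact Or.inl ⟨7, by omega, by omega, g⟩
      · exact Or.inr g
    · rcases r4 with (g | g | g) | g
      · exact Or.inl ⟨5, by omega, by omega, g⟩
      · exact Or.inl ⟨6, by omega, by omega, g⟩
      · exact Or.inl ⟨7, by omega, by omega, g⟩
      · exact Or.inr g
    · rcases r5 with (g | g) | g
      · exact Or.inl ⟨6, by omega, by omega, g⟩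
      · exact Or.inl ⟨7, by omega, by omega, g⟩
      · exact Or.inr g
    · rcases r6 with g | g
      · exact Or.inl ⟨7, by omega, by omega, g⟩
      · exact Or.inr g
    · exact Or.inr r7
  · intro i hi him
    rcases (show i = 1 ∨ i = 2 ∨ i = 3 ∨ i = 4 ∨ i = 5 ∨ i = 6 ∨ i = 7 by omega) with rfl | rfl | rfl | rfl | rfl | rfl | rfl <;> omega

theorem Good.ex8 (h : Good n p d) (hp : ∀ i, 0 ≤ p i) (hm : 8 ≤ n + 1) (e1 e2 e3 e4 e5 e6 e7 e8 c1 c2 c3 c4 c5 c6 c7 c8 : ℤ)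
    (hs : 8 ≤ n ∨ (e8 = d 8 ∧ 0 ≤ c8))
    (hf : (e1 ≠ e2) ∧
      (e1 ≠ e3 ∨ e2 < e1) ∧
      (e1 ≠ e4 ∨ e2 < e1 ∨ e3 < e1) ∧
      (e1 ≠ e5 ∨ e2 < e1 ∨ e3 < e1 ∨ e4 < e1) ∧
      (e1 ≠ e6 ∨ e2 < e1 ∨ e3 < e1 ∨ e4 < e1 ∨ e5 < e1) ∧
      (e1 ≠ e7 ∨ e2 < e1 ∨ e3 < e1 ∨ e4 < e1 ∨ e5 < e1 ∨ e6 < e1) ∧
      (e1 ≠ e8 ∨ e2 < e1 ∨ e3 < e1 ∨ e4 < e1 ∨ e5 < e1 ∨ e6 < e1 ∨ e7 < e1) ∧
      (e2 ≠ e3) ∧
      (e2 ≠ e4 ∨ e3 < e2) ∧
      (e2 ≠ e5 ∨ e3 < e2 ∨ e4 < e2) ∧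
      (e2 ≠ e6 ∨ e3 < e2 ∨ e4 < e2 ∨ e5 < e2) ∧
      (e2 ≠ e7 ∨ e3 < e2 ∨ e4 < e2 ∨ e5 < e2 ∨ e6 < e2) ∧
      (e2 ≠ e8 ∨ e3 < e2 ∨ e4 < e2 ∨ e5 < e2 ∨ e6 < e2 ∨ e7 < e2) ∧
      (e3 ≠ e4) ∧
      (e3 ≠ e5 ∨ e4 < e3) ∧
      (e3 ≠ e6 ∨ e4 < e3 ∨ e5 < e3) ∧
      (e3 ≠ e7 ∨ e4 < e3 ∨ e5 < e3 ∨ e6 < e3) ∧
      (e3 ≠ e8 ∨ e4 < e3 ∨ e5 < e3 ∨ e6 < e3 ∨ e7 < e3) ∧
      (e4 ≠ e5) ∧
      (e4 ≠ e6 ∨ e5 < e4) ∧
      (e4 ≠ e7 ∨ e5 < e4 ∨ e6 < e4) ∧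
      (e4 ≠ e8 ∨ e5 < e4 ∨ e6 < e4 ∨ e7 < e4) ∧
      (e5 ≠ e6) ∧
      (e5 ≠ e7 ∨ e6 < e5) ∧
      (e5 ≠ e8 ∨ e6 < e5 ∨ e7 < e5) ∧
      (e6 ≠ e7) ∧
      (e6 ≠ e8 ∨ e7 < e6) ∧
      (e7 ≠ e8))
    (r1 : (e2 < e1 ∨ e3 < e1 ∨ e4 < e1 ∨ e5 < e1 ∨ e6 < e1 ∨ e7 < e1 ∨ e8 < e1) ∨ Lev 8 d e1)
    (r2 : (e3 < e2 ∨ e4 < e2 ∨ e5 < e2 ∨ e6 < e2 ∨ e7 < e2 ∨ e8 < e2) ∨ Lev 8 d e2)
    (r3 : (e4 < e3 ∨ e5 < e3 ∨ e6 < e3 ∨ e7 < e3 ∨ e8 < e3) ∨ Lev 8 d e3)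
    (r4 : (e5 < e4 ∨ e6 < e4 ∨ e7 < e4 ∨ e8 < e4) ∨ Lev 8 d e4)
    (r5 : (e6 < e5 ∨ e7 < e5 ∨ e8 < e5) ∨ Lev 8 d e5)
    (r6 : (e7 < e6 ∨ e8 < e6) ∨ Lev 8 d e6)
    (r7 : (e8 < e7) ∨ Lev 8 d e7)
    (r8 : Lev 8 d e8)
    (hc : e1 - d 1 ≤ c1 ∧ e2 - d 2 ≤ c2 ∧ e3 - d 3 ≤ c3 ∧ e4 - d 4 ≤ c4 ∧ e5 - d 5 ≤ c5 ∧ e6 - d 6 ≤ c6 ∧ e7 - d 7 ≤ c7 ∧ e8 - d 8 ≤ c8) :
    0 ≤ p 1 * (c1 : ℝ) + p 2 * (c2 : ℝ) + p 3 * (c3 : ℝ) + p 4 * (c4 : ℝ) + p 5 * (c5 : ℝ) + p 6 * (c6 : ℝ) + p 7 * (c7 : ℝ) + p 8 * (c8 : ℝ) := by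
  obtain ⟨e, rfl, rfl, rfl, rfl, rfl, rfl, rfl, rfl⟩ : ∃ e : ℕ → ℤ, e 1 = e1 ∧ e 2 = e2 ∧ e 3 = e3 ∧ e 4 = e4 ∧ e 5 = e5 ∧ e 6 = e6 ∧ e 7 = e7 ∧ e 8 = e8 :=
    ⟨fun i => if i = 1 then e1 else if i = 2 then e2 else if i = 3 then e3 else if i = 4 then e4 else if i = 5 then e5 else if i = 6 then e6 else if i = 7 then e7 else if i = 8 then e8 else 0, rfl, rfl, rfl, rfl, rfl, rfl, rfl, rfl⟩
  obtain ⟨c, rfl, rfl, rfl, rfl, rfl, rfl, rfl, rfl⟩ : ∃ c : ℕ → ℤ, c 1 = c1 ∧ c 2 = c2 ∧ c 3 = c3 ∧ c 4 = c4 ∧ c 5 = c5 ∧ c 6 = c6 ∧ c 7 = c7 ∧ c 8 = c8 :=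
    ⟨fun i => if i = 1 then c1 else if i = 2 then c2 else if i = 3 then c3 else if i = 4 then c4 else if i = 5 then c5 else if i = 6 then c6 else if i = 7 then c7 else if i = 8 then c8 else 0, rfl, rfl, rfl, rfl, rfl, rfl, rfl, rfl⟩
  obtain ⟨f12, f13, f14, f15, f16, f17, f18, f23, f24, f25, f26, f27, f28, f34, f35, f36, f37, f38, f45, f46, f47, f48, f56, f57, f58, f67, f68, f78⟩ := hf
  have key := h.ex hp 8 hm e c hs ?_ ?_ ?_
  · simpa [Finset.sum_Icc_succ_top] using key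
  · intro i j hi hij hj he
    rcases (show i = 1 ∨ i = 2 ∨ i = 3 ∨ i = 4 ∨ i = 5 ∨ i = 6 ∨ i = 7 by omega) with rfl | rfl | rfl | rfl | rfl | rfl | rfl
    · rcases (show j = 2 ∨ j = 3 ∨ j = 4 ∨ j = 5 ∨ j = 6 ∨ j = 7 ∨ j = 8 by omega) with rfl | rfl | rfl | rfl | rfl | rfl | rfl
      · exact absurd he f12
      · rcases f13 with g | g
        · exact absurd he g
        · exact ⟨2, by omega, by omega, g⟩
      · rcases f14 with g | g | g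
        · exact absurd he g
        · exact ⟨2, by omega, by omega, g⟩
        · exact ⟨3, by omega, by omega, g⟩
      · rcases f15 with g | g | g | g
        · exact absurd he g
        · exact ⟨2, by omega, by omega, g⟩
        · exact ⟨3, by omega, by omega, g⟩
        · exact ⟨4, by omega, by omega, g⟩
      · rcases f16 with g | g | g | g | g
        · exact absurd he g
        · exact ⟨2, by omega, by omega, g⟩
        · exact ⟨3, by omega, by omega, g⟩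
        · exact ⟨4, by omega, by omega, g⟩
        · exact ⟨5, by omega, by omega, g⟩
      · rcases f17 with g | g | g | g | g | g
        · exact absurd he g
        · exact ⟨2, by omega, by omega, g⟩
        · exact ⟨3, by omega, by omega, g⟩
        · exact ⟨4, by omega, by omega, g⟩
        · exact ⟨5, by omega, by omega, g⟩
        · exact ⟨6, by omega, by omega, g⟩
      · rcases f18 with g | g | g | g | g | g | g
        · exact absurd he g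
        · exact ⟨2, by omega, by omega, g⟩
        · exact ⟨3, by omega, by omega, g⟩
        · exact ⟨4, by omega, by omega, g⟩
        · exact ⟨5, by omega, by omega, g⟩
        · exact ⟨6, by omega, by omega, g⟩
        · exact ⟨7, by omega, by omega, g⟩
    · rcases (show j = 3 ∨ j = 4 ∨ j = 5 ∨ j = 6 ∨ j = 7 ∨ j = 8 by omega) with rfl | rfl | rfl | rfl | rfl | rfl
      · exact absurd he f23
      · rcases f24 with g | g
        · exact absurd he g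
        · exact ⟨3, by omega, by omega, g⟩
      · rcases f25 with g | g | g
        · exact absurd he g
        · exact ⟨3, by omega, by omega, g⟩
        · exact ⟨4, by omega, by omega, g⟩
      · rcases f26 with g | g | g | g
        · exact absurd he g
        · exact ⟨3, by omega, by omega, g⟩
        · exact ⟨4, by omega, by omega, g⟩
        · exact ⟨5, by omega, by omega, g⟩
      · rcases f27 with g | g | g | g | g
        · exact absurd he g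
        · exact ⟨3, by omega, by omega, g⟩
        · exact ⟨4, by omega, by omega, g⟩
        · exact ⟨5, by omega, by omega, g⟩
        · exact ⟨6, by omega, by omega, g⟩
      · rcases f28 with g | g | g | g | g | g
        · exact absurd he g
        · exact ⟨3, by omega, by omega, g⟩
        · exact ⟨4, by omega, by omega, g⟩
        · exact ⟨5, by omega, by omega, g⟩
        · exact ⟨6, by omega, by omega, g⟩
        · exact ⟨7, by omega, by omega, g⟩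
    · rcases (show j = 4 ∨ j = 5 ∨ j = 6 ∨ j = 7 ∨ j = 8 by omega) with rfl | rfl | rfl | rfl | rfl
      · exact absurd he f34
      · rcases f35 with g | g
        · exact absurd he g
        · exact ⟨4, by omega, by omega, g⟩
      · rcases f36 with g | g | g
        · exact absurd he g
        · exact ⟨4, by omega, by omega, g⟩
        · exact ⟨5, by omega, by omega, g⟩
      · rcases f37 with g | g | g | g
        · exact absurd he g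
        · exact ⟨4, by omega, by omega, g⟩
        · exact ⟨5, by omega, by omega, g⟩
        · exact ⟨6, by omega, by omega, g⟩
      · rcases f38 with g | g | g | g | g
        · exact absurd he g
        · exact ⟨4, by omega, by omega, g⟩
        · exact ⟨5, by omega, by omega, g⟩
        · exact ⟨6, by omega, by omega, g⟩
        · exact ⟨7, by omega, by omega, g⟩
    · rcases (show j = 5 ∨ j = 6 ∨ j = 7 ∨ j = 8 by omega) with rfl | rfl | rfl | rfl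
      · exact absurd he f45
      · rcases f46 with g | g
        · exact absurd he g
        · exact ⟨5, by omega, by omega, g⟩
      · rcases f47 with g | g | g
        · exact absurd he g
        · exact ⟨5, by omega, by omega, g⟩
        · exact ⟨6, by omega, by omega, g⟩
      · rcases f48 with g | g | g | g
        · exact absurd he g
        · exact ⟨5, by omega, by omega, g⟩
        · exact ⟨6, by omega, by omega, g⟩
        · exact ⟨7, by omega, by omega, g⟩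
    · rcases (show j = 6 ∨ j = 7 ∨ j = 8 by omega) with rfl | rfl | rfl
      · exact absurd he f56
      · rcases f57 with g | g
        · exact absurd he g
        · exact ⟨6, by omega, by omega, g⟩
      · rcases f58 with g | g | g
        · exact absurd he g
        · exact ⟨6, by omega, by omega, g⟩
        · exact ⟨7, by omega, by omega, g⟩
    · rcases (show j = 7 ∨ j = 8 by omega) with rfl | rfl
      · exact absurd he f67
      · rcases f68 with g | g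
        · exact absurd he g
        · exact ⟨7, by omega, by omega, g⟩
    · obtain rfl : j = 8 := by omega
      exact absurd he f78
  · intro i hi him
    rcases (show i = 1 ∨ i = 2 ∨ i = 3 ∨ i = 4 ∨ i = 5 ∨ i = 6 ∨ i = 7 ∨ i = 8 by omega) with rfl | rfl | rfl | rfl | rfl | rfl | rfl | rfl
    · rcases r1 with (g | g | g | g | g | g | g) | g
      · exact Or.inl ⟨2, by omega, by omega, g⟩
      · exact Or.inl ⟨3, by omega, by omega, g⟩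
      · exact Or.inl ⟨4, by omega, by omega, g⟩
      · exact Or.inl ⟨5, by omega, by omega, g⟩
      · exact Or.inl ⟨6, by omega, by omega, g⟩
      · exact Or.inl ⟨7, by omega, by omega, g⟩
      · exact Or.inl ⟨8, by omega, by omega, g⟩
      · exact Or.inr g
    · rcases r2 with (g | g | g | g | g | g) | g
      · exact Or.inl ⟨3, by omega, by omega, g⟩
      · exact Or.inl ⟨4, by omega, by omega, g⟩
      · exact Or.inl ⟨5, by omega, by omega, g⟩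
      · exact Or.inl ⟨6, by omega, by omega, g⟩
      · exact Or.inl ⟨7, by omega, by omega, g⟩
      · exact Or.inl ⟨8, by omega, by omega, g⟩
      · exact Or.inr g
    · rcases r3 with (g | g | g | g | g) | g
      · exact Or.inl ⟨4, by omega, by omega, g⟩
      · exact Or.inl ⟨5, by omega, by omega, g⟩
      · exact Or.inl ⟨6, by omega, by omega, g⟩
      · exact Or.inl ⟨7, by omega, by omega, g⟩
      · exact Or.inl ⟨8, by omega, by omega, g⟩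
      · exact Or.inr g
    · rcases r4 with (g | g | g | g) | g
      · exact Or.inl ⟨5, by omega, by omega, g⟩
      · exact Or.inl ⟨6, by omega, by omega, g⟩
      · exact Or.inl ⟨7, by omega, by omega, g⟩
      · exact Or.inl ⟨8, by omega, by omega, g⟩
      · exact Or.inr g
    · rcases r5 with (g | g | g) | g
      · exact Or.inl ⟨6, by omega, by omega, g⟩
      · exact Or.inl ⟨7, by omega, by omega, g⟩
      · exact Or.inl ⟨8, by omega, by omega, g⟩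
      · exact Or.inr g
    · rcases r6 with (g | g) | g
      · exact Or.inl ⟨7, by omega, by omega, g⟩
      · exact Or.inl ⟨8, by omega, by omega, g⟩
      · exact Or.inr g
    · rcases r7 with g | g
      · exact Or.inl ⟨8, by omega, by omega, g⟩
      · exact Or.inr g
    · exact Or.inr r8
  · intro i hi him
    rcases (show i = 1 ∨ i = 2 ∨ i = 3 ∨ i = 4 ∨ i = 5 ∨ i = 6 ∨ i = 7 ∨ i = 8 by omega) with rfl | rfl | rfl | rfl | rfl | rfl | rfl | rfl <;> omega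

theorem Good.F12 (h : Good n p d) (hn : 2 ≤ n + 1) : d 1 ≠ d 2 := by
  by_cases he : d 1 = d 2
  · obtain ⟨k, h1, h2, h3⟩ := h.pair (by omega) (by omega) hn he
    omega
  · exact he

theorem Good.F13 (h : Good n p d) (hn : 3 ≤ n + 1) : d 1 ≠ d 3 ∨ d 2 < d 1 := by
  by_cases he : d 1 = d 3
  · obtain ⟨k, h1, h2, h3⟩ := h.pair (by omega) (by omega) hn he
    obtain rfl : k = 2 := by omega
    omega
  · omega

theorem Good.F14 (h : Good n p d) (hn : 4 ≤ n + 1) : d 1 ≠ d 4 ∨ d 2 < d 1 ∨ d 3 < d 1 := by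
  by_cases he : d 1 = d 4
  · obtain ⟨k, h1, h2, h3⟩ := h.pair (by omega) (by omega) hn he
    rcases (show k = 2 ∨ k = 3 by omega) with rfl | rfl <;> omega
  · omega

theorem Good.F15 (h : Good n p d) (hn : 5 ≤ n + 1) : d 1 ≠ d 5 ∨ d 2 < d 1 ∨ d 3 < d 1 ∨ d 4 < d 1 := by
  by_cases he : d 1 = d 5
  · obtain ⟨k, h1, h2, h3⟩ := h.pair (by omega) (by omega) hn he
    rcases (show k = 2 ∨ k = 3 ∨ k = 4 by omega) with rfl | rfl | rfl <;> omega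
  · omega

theorem Good.F16 (h : Good n p d) (hn : 6 ≤ n + 1) : d 1 ≠ d 6 ∨ d 2 < d 1 ∨ d 3 < d 1 ∨ d 4 < d 1 ∨ d 5 < d 1 := by
  by_cases he : d 1 = d 6
  · obtain ⟨k, h1, h2, h3⟩ := h.pair (by omega) (by omega) hn he
    rcases (show k = 2 ∨ k = 3 ∨ k = 4 ∨ k = 5 by omega) with rfl | rfl | rfl | rfl <;> omega
  · omega

theorem Good.F17 (h : Good n p d) (hn : 7 ≤ n + 1) : d 1 ≠ d 7 ∨ d 2 < d 1 ∨ d 3 < d 1 ∨ d 4 < d 1 ∨ d 5 < d 1 ∨ d 6 < d 1 := by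
  by_cases he : d 1 = d 7
  · obtain ⟨k, h1, h2, h3⟩ := h.pair (by omega) (by omega) hn he
    rcases (show k = 2 ∨ k = 3 ∨ k = 4 ∨ k = 5 ∨ k = 6 by omega) with rfl | rfl | rfl | rfl | rfl <;> omega
  · omega

theorem Good.F18 (h : Good n p d) (hn : 8 ≤ n + 1) : d 1 ≠ d 8 ∨ d 2 < d 1 ∨ d 3 < d 1 ∨ d 4 < d 1 ∨ d 5 < d 1 ∨ d 6 < d 1 ∨ d 7 < d 1 := by
  by_cases he : d 1 = d 8
  · obtain ⟨k, h1, h2, h3⟩ := h.pair (by omega) (by omega) hn he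
    rcases (show k = 2 ∨ k = 3 ∨ k = 4 ∨ k = 5 ∨ k = 6 ∨ k = 7 by omega) with rfl | rfl | rfl | rfl | rfl | rfl <;> omega
  · omega

theorem Good.F23 (h : Good n p d) (hn : 3 ≤ n + 1) : d 2 ≠ d 3 := by
  by_cases he : d 2 = d 3
  · obtain ⟨k, h1, h2, h3⟩ := h.pair (by omega) (by omega) hn he
    omega
  · exact he

theorem Good.F24 (h : Good n p d) (hn : 4 ≤ n + 1) : d 2 ≠ d 4 ∨ d 3 < d 2 := by
  by_cases he : d 2 = d 4
  · obtain ⟨k, h1, h2, h3⟩ := h.pair (by omega) (by omega) hn he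
    obtain rfl : k = 3 := by omega
    omega
  · omega

theorem Good.F25 (h : Good n p d) (hn : 5 ≤ n + 1) : d 2 ≠ d 5 ∨ d 3 < d 2 ∨ d 4 < d 2 := by
  by_cases he : d 2 = d 5
  · obtain ⟨k, h1, h2, h3⟩ := h.pair (by omega) (by omega) hn he
    rcases (show k = 3 ∨ k = 4 by omega) with rfl | rfl <;> omega
  · omega

theorem Good.F26 (h : Good n p d) (hn : 6 ≤ n + 1) : d 2 ≠ d 6 ∨ d 3 < d 2 ∨ d 4 < d 2 ∨ d 5 < d 2 := by
  by_cases he : d 2 = d 6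
  · obtain ⟨k, h1, h2, h3⟩ := h.pair (by omega) (by omega) hn he
    rcases (show k = 3 ∨ k = 4 ∨ k = 5 by omega) with rfl | rfl | rfl <;> omega
  · omega

theorem Good.F27 (h : Good n p d) (hn : 7 ≤ n + 1) : d 2 ≠ d 7 ∨ d 3 < d 2 ∨ d 4 < d 2 ∨ d 5 < d 2 ∨ d 6 < d 2 := by
  by_cases he : d 2 = d 7
  · obtain ⟨k, h1, h2, h3⟩ := h.pair (by omega) (by omega) hn he
    rcases (show k = 3 ∨ k = 4 ∨ k = 5 ∨ k = 6 by omega) with rfl | rfl | rfl | rfl <;> omega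
  · omega

theorem Good.F28 (h : Good n p d) (hn : 8 ≤ n + 1) : d 2 ≠ d 8 ∨ d 3 < d 2 ∨ d 4 < d 2 ∨ d 5 < d 2 ∨ d 6 < d 2 ∨ d 7 < d 2 := by
  by_cases he : d 2 = d 8
  · obtain ⟨k, h1, h2, h3⟩ := h.pair (by omega) (by omega) hn he
    rcases (show k = 3 ∨ k = 4 ∨ k = 5 ∨ k = 6 ∨ k = 7 by omega) with rfl | rfl | rfl | rfl | rfl <;> omega
  · omega

theorem Good.F34 (h : Good n p d) (hn : 4 ≤ n + 1) : d 3 ≠ d 4 := by
  by_cases he : d 3 = d 4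
  · obtain ⟨k, h1, h2, h3⟩ := h.pair (by omega) (by omega) hn he
    omega
  · exact he

theorem Good.F35 (h : Good n p d) (hn : 5 ≤ n + 1) : d 3 ≠ d 5 ∨ d 4 < d 3 := by
  by_cases he : d 3 = d 5
  · obtain ⟨k, h1, h2, h3⟩ := h.pair (by omega) (by omega) hn he
    obtain rfl : k = 4 := by omega
    omega
  · omega

theorem Good.F36 (h : Good n p d) (hn : 6 ≤ n + 1) : d 3 ≠ d 6 ∨ d 4 < d 3 ∨ d 5 < d 3 := by
  by_cases he : d 3 = d 6
  · obtain ⟨k, h1, h2, h3⟩ := h.pair (by omega) (by omega) hn he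
    rcases (show k = 4 ∨ k = 5 by omega) with rfl | rfl <;> omega
  · omega

theorem Good.F37 (h : Good n p d) (hn : 7 ≤ n + 1) : d 3 ≠ d 7 ∨ d 4 < d 3 ∨ d 5 < d 3 ∨ d 6 < d 3 := by
  by_cases he : d 3 = d 7
  · obtain ⟨k, h1, h2, h3⟩ := h.pair (by omega) (by omega) hn he
    rcases (show k = 4 ∨ k = 5 ∨ k = 6 by omega) with rfl | rfl | rfl <;> omega
  · omega

theorem Good.F38 (h : Good n p d) (hn : 8 ≤ n + 1) : d 3 ≠ d 8 ∨ d 4 < d 3 ∨ d 5 < d 3 ∨ d 6 < d 3 ∨ d 7 < d 3 := by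
  by_cases he : d 3 = d 8
  · obtain ⟨k, h1, h2, h3⟩ := h.pair (by omega) (by omega) hn he
    rcases (show k = 4 ∨ k = 5 ∨ k = 6 ∨ k = 7 by omega) with rfl | rfl | rfl | rfl <;> omega
  · omega

theorem Good.F45 (h : Good n p d) (hn : 5 ≤ n + 1) : d 4 ≠ d 5 := by
  by_cases he : d 4 = d 5
  · obtain ⟨k, h1, h2, h3⟩ := h.pair (by omega) (by omega) hn he
    omega
  · exact he

theorem Good.F46 (h : Good n p d) (hn : 6 ≤ n + 1) : d 4 ≠ d 6 ∨ d 5 < d 4 := by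
  by_cases he : d 4 = d 6
  · obtain ⟨k, h1, h2, h3⟩ := h.pair (by omega) (by omega) hn he
    obtain rfl : k = 5 := by omega
    omega
  · omega

theorem Good.F47 (h : Good n p d) (hn : 7 ≤ n + 1) : d 4 ≠ d 7 ∨ d 5 < d 4 ∨ d 6 < d 4 := by
  by_cases he : d 4 = d 7
  · obtain ⟨k, h1, h2, h3⟩ := h.pair (by omega) (by omega) hn he
    rcases (show k = 5 ∨ k = 6 by omega) with rfl | rfl <;> omega
  · omega

theorem Good.F48 (h : Good n p d) (hn : 8 ≤ n + 1) : d 4 ≠ d 8 ∨ d 5 < d 4 ∨ d 6 < d 4 ∨ d 7 < d 4 := by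
  by_cases he : d 4 = d 8
  · obtain ⟨k, h1, h2, h3⟩ := h.pair (by omega) (by omega) hn he
    rcases (show k = 5 ∨ k = 6 ∨ k = 7 by omega) with rfl | rfl | rfl <;> omega
  · omega

theorem Good.F56 (h : Good n p d) (hn : 6 ≤ n + 1) : d 5 ≠ d 6 := by
  by_cases he : d 5 = d 6
  · obtain ⟨k, h1, h2, h3⟩ := h.pair (by omega) (by omega) hn he
    omega
  · exact he

theorem Good.F57 (h : Good n p d) (hn : 7 ≤ n + 1) : d 5 ≠ d 7 ∨ d 6 < d 5 := by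
  by_cases he : d 5 = d 7
  · obtain ⟨k, h1, h2, h3⟩ := h.pair (by omega) (by omega) hn he
    obtain rfl : k = 6 := by omega
    omega
  · omega

theorem Good.F58 (h : Good n p d) (hn : 8 ≤ n + 1) : d 5 ≠ d 8 ∨ d 6 < d 5 ∨ d 7 < d 5 := by
  by_cases he : d 5 = d 8
  · obtain ⟨k, h1, h2, h3⟩ := h.pair (by omega) (by omega) hn he
    rcases (show k = 6 ∨ k = 7 by omega) with rfl | rfl <;> omega
  · omega

theorem Good.F67 (h : Good n p d) (hn : 7 ≤ n + 1) : d 6 ≠ d 7 := by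
  by_cases he : d 6 = d 7
  · obtain ⟨k, h1, h2, h3⟩ := h.pair (by omega) (by omega) hn he
    omega
  · exact he

theorem Good.F68 (h : Good n p d) (hn : 8 ≤ n + 1) : d 6 ≠ d 8 ∨ d 7 < d 6 := by
  by_cases he : d 6 = d 8
  · obtain ⟨k, h1, h2, h3⟩ := h.pair (by omega) (by omega) hn he
    obtain rfl : k = 7 := by omega
    omega
  · omega

theorem Good.F78 (h : Good n p d) (hn : 8 ≤ n + 1) : d 7 ≠ d 8 := by
  by_cases he : d 7 = d 8
  · obtain ⟨k, h1, h2, h3⟩ := h.pair (by omega) (by omega) hn he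
    omega
  · exact he

theorem Good.T11 (h : Good n p d) (hp : ∀ i, 1 ≤ i → i ≤ n → 0 < p i) (hn : 1 ≤ n) :
    d 1 ≤ d 2 + 1 := by
  obtain ⟨i, h1, h2, h3⟩ := h.tight hp 1 1 (by omega) (by omega) hn
  norm_num at h3
  have h4 := h.zero 0 (Or.inl (by omega))
  have h5 := h.nonneg 2
  obtain rfl : i = 1 := by omega
  omega

theorem Good.T12 (h : Good n p d) (hp : ∀ i, 1 ≤ i → i ≤ n → 0 < p i) (hn : 2 ≤ n) :
    d 1 ≤ d 3 + 1 ∨ d 2 ≤ d 3 + 1 := by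
  obtain ⟨i, h1, h2, h3⟩ := h.tight hp 1 2 (by omega) (by omega) hn
  norm_num at h3
  have h4 := h.zero 0 (Or.inl (by omega))
  have h5 := h.nonneg 3
  rcases (show i = 1 ∨ i = 2 by omega) with rfl | rfl <;> omega

theorem Good.T13 (h : Good n p d) (hp : ∀ i, 1 ≤ i → i ≤ n → 0 < p i) (hn : 3 ≤ n) :
    d 1 ≤ d 4 + 1 ∨ d 2 ≤ d 4 + 1 ∨ d 3 ≤ d 4 + 1 := by
  obtain ⟨i, h1, h2, h3⟩ := h.tight hp 1 3 (by omega) (by omega) hn
  norm_num at h3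
  have h4 := h.zero 0 (Or.inl (by omega))
  have h5 := h.nonneg 4
  rcases (show i = 1 ∨ i = 2 ∨ i = 3 by omega) with rfl | rfl | rfl <;> omega

theorem Good.T14 (h : Good n p d) (hp : ∀ i, 1 ≤ i → i ≤ n → 0 < p i) (hn : 4 ≤ n) :
    d 1 ≤ d 5 + 1 ∨ d 2 ≤ d 5 + 1 ∨ d 3 ≤ d 5 + 1 ∨ d 4 ≤ d 5 + 1 := by
  obtain ⟨i, h1, h2, h3⟩ := h.tight hp 1 4 (by omega) (by omega) hn
  norm_num at h3
  have h4 := h.zero 0 (Or.inl (by omega))
  have h5 := h.nonneg 5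
  rcases (show i = 1 ∨ i = 2 ∨ i = 3 ∨ i = 4 by omega) with rfl | rfl | rfl | rfl <;> omega

theorem Good.T15 (h : Good n p d) (hp : ∀ i, 1 ≤ i → i ≤ n → 0 < p i) (hn : 5 ≤ n) :
    d 1 ≤ d 6 + 1 ∨ d 2 ≤ d 6 + 1 ∨ d 3 ≤ d 6 + 1 ∨ d 4 ≤ d 6 + 1 ∨ d 5 ≤ d 6 + 1 := by
  obtain ⟨i, h1, h2, h3⟩ := h.tight hp 1 5 (by omega) (by omega) hn
  norm_num at h3
  have h4 := h.zero 0 (Or.inl (by omega))
  have h5 := h.nonneg 6
  rcases (show i = 1 ∨ i = 2 ∨ i = 3 ∨ i = 4 ∨ i = 5 by omega) with rfl | rfl | rfl | rfl | rfl <;> omega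

theorem Good.T16 (h : Good n p d) (hp : ∀ i, 1 ≤ i → i ≤ n → 0 < p i) (hn : 6 ≤ n) :
    d 1 ≤ d 7 + 1 ∨ d 2 ≤ d 7 + 1 ∨ d 3 ≤ d 7 + 1 ∨ d 4 ≤ d 7 + 1 ∨ d 5 ≤ d 7 + 1 ∨ d 6 ≤ d 7 + 1 := by
  obtain ⟨i, h1, h2, h3⟩ := h.tight hp 1 6 (by omega) (by omega) hn
  norm_num at h3
  have h4 := h.zero 0 (Or.inl (by omega))
  have h5 := h.nonneg 7
  rcases (show i = 1 ∨ i = 2 ∨ i = 3 ∨ i = 4 ∨ i = 5 ∨ i = 6 by omega) with rfl | rfl | rfl | rfl | rfl | rfl <;> omega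

theorem Good.T17 (h : Good n p d) (hp : ∀ i, 1 ≤ i → i ≤ n → 0 < p i) (hn : 7 ≤ n) :
    d 1 ≤ d 8 + 1 ∨ d 2 ≤ d 8 + 1 ∨ d 3 ≤ d 8 + 1 ∨ d 4 ≤ d 8 + 1 ∨ d 5 ≤ d 8 + 1 ∨ d 6 ≤ d 8 + 1 ∨ d 7 ≤ d 8 + 1 := by
  obtain ⟨i, h1, h2, h3⟩ := h.tight hp 1 7 (by omega) (by omega) hn
  norm_num at h3
  have h4 := h.zero 0 (Or.inl (by omega))
  have h5 := h.nonneg 8
  rcases (show i = 1 ∨ i = 2 ∨ i = 3 ∨ i = 4 ∨ i = 5 ∨ i = 6 ∨ i = 7 by omega) with rfl | rfl | rfl | rfl | rfl | rfl | rfl <;> omega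

theorem Good.T22 (h : Good n p d) (hp : ∀ i, 1 ≤ i → i ≤ n → 0 < p i) (hn : 2 ≤ n) :
    d 2 ≤ d 1 + 1 ∨ d 2 ≤ d 3 + 1 := by
  obtain ⟨i, h1, h2, h3⟩ := h.tight hp 2 2 (by omega) (by omega) hn
  norm_num at h3
  obtain rfl : i = 2 := by omega
  omega

theorem Good.T23 (h : Good n p d) (hp : ∀ i, 1 ≤ i → i ≤ n → 0 < p i) (hn : 3 ≤ n) :
    d 2 ≤ d 1 + 1 ∨ d 2 ≤ d 4 + 1 ∨ d 3 ≤ d 1 + 1 ∨ d 3 ≤ d 4 + 1 := by
  obtain ⟨i, h1, h2, h3⟩ := h.tight hp 2 3 (by omega) (by omega) hn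
  norm_num at h3
  rcases (show i = 2 ∨ i = 3 by omega) with rfl | rfl <;> omega

theorem Good.T24 (h : Good n p d) (hp : ∀ i, 1 ≤ i → i ≤ n → 0 < p i) (hn : 4 ≤ n) :
    d 2 ≤ d 1 + 1 ∨ d 2 ≤ d 5 + 1 ∨ d 3 ≤ d 1 + 1 ∨ d 3 ≤ d 5 + 1 ∨ d 4 ≤ d 1 + 1 ∨ d 4 ≤ d 5 + 1 := by
  obtain ⟨i, h1, h2, h3⟩ := h.tight hp 2 4 (by omega) (by omega) hn
  norm_num at h3
  rcases (show i = 2 ∨ i = 3 ∨ i = 4 by omega) with rfl | rfl | rfl <;> omega

theorem Good.T25 (h : Good n p d) (hp : ∀ i, 1 ≤ i → i ≤ n → 0 < p i) (hn : 5 ≤ n) :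
    d 2 ≤ d 1 + 1 ∨ d 2 ≤ d 6 + 1 ∨ d 3 ≤ d 1 + 1 ∨ d 3 ≤ d 6 + 1 ∨ d 4 ≤ d 1 + 1 ∨ d 4 ≤ d 6 + 1 ∨ d 5 ≤ d 1 + 1 ∨ d 5 ≤ d 6 + 1 := by
  obtain ⟨i, h1, h2, h3⟩ := h.tight hp 2 5 (by omega) (by omega) hn
  norm_num at h3
  rcases (show i = 2 ∨ i = 3 ∨ i = 4 ∨ i = 5 by omega) with rfl | rfl | rfl | rfl <;> omega

theorem Good.T26 (h : Good n p d) (hp : ∀ i, 1 ≤ i → i ≤ n → 0 < p i) (hn : 6 ≤ n) :
    d 2 ≤ d 1 + 1 ∨ d 2 ≤ d 7 + 1 ∨ d 3 ≤ d 1 + 1 ∨ d 3 ≤ d 7 + 1 ∨ d 4 ≤ d 1 + 1 ∨ d 4 ≤ d 7 + 1 ∨ d 5 ≤ d 1 + 1 ∨ d 5 ≤ d 7 + 1 ∨ d 6 ≤ d 1 + 1 ∨ d 6 ≤ d 7 + 1 := by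
  obtain ⟨i, h1, h2, h3⟩ := h.tight hp 2 6 (by omega) (by omega) hn
  norm_num at h3
  rcases (show i = 2 ∨ i = 3 ∨ i = 4 ∨ i = 5 ∨ i = 6 by omega) with rfl | rfl | rfl | rfl | rfl <;> omega

theorem Good.T27 (h : Good n p d) (hp : ∀ i, 1 ≤ i → i ≤ n → 0 < p i) (hn : 7 ≤ n) :
    d 2 ≤ d 1 + 1 ∨ d 2 ≤ d 8 + 1 ∨ d 3 ≤ d 1 + 1 ∨ d 3 ≤ d 8 + 1 ∨ d 4 ≤ d 1 + 1 ∨ d 4 ≤ d 8 + 1 ∨ d 5 ≤ d 1 + 1 ∨ d 5 ≤ d 8 + 1 ∨ d 6 ≤ d 1 + 1 ∨ d 6 ≤ d 8 + 1 ∨ d 7 ≤ d 1 + 1 ∨ d 7 ≤ d 8 + 1 := by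
  obtain ⟨i, h1, h2, h3⟩ := h.tight hp 2 7 (by omega) (by omega) hn
  norm_num at h3
  rcases (show i = 2 ∨ i = 3 ∨ i = 4 ∨ i = 5 ∨ i = 6 ∨ i = 7 by omega) with rfl | rfl | rfl | rfl | rfl | rfl <;> omega

theorem Good.T33 (h : Good n p d) (hp : ∀ i, 1 ≤ i → i ≤ n → 0 < p i) (hn : 3 ≤ n) :
    d 3 ≤ d 2 + 1 ∨ d 3 ≤ d 4 + 1 := by
  obtain ⟨i, h1, h2, h3⟩ := h.tight hp 3 3 (by omega) (by omega) hn
  norm_num at h3
  obtain rfl : i = 3 := by omega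
  omega

theorem Good.T34 (h : Good n p d) (hp : ∀ i, 1 ≤ i → i ≤ n → 0 < p i) (hn : 4 ≤ n) :
    d 3 ≤ d 2 + 1 ∨ d 3 ≤ d 5 + 1 ∨ d 4 ≤ d 2 + 1 ∨ d 4 ≤ d 5 + 1 := by
  obtain ⟨i, h1, h2, h3⟩ := h.tight hp 3 4 (by omega) (by omega) hn
  norm_num at h3
  rcases (show i = 3 ∨ i = 4 by omega) with rfl | rfl <;> omega

theorem Good.T35 (h : Good n p d) (hp : ∀ i, 1 ≤ i → i ≤ n → 0 < p i) (hn : 5 ≤ n) :
    d 3 ≤ d 2 + 1 ∨ d 3 ≤ d 6 + 1 ∨ d 4 ≤ d 2 + 1 ∨ d 4 ≤ d 6 + 1 ∨ d 5 ≤ d 2 + 1 ∨ d 5 ≤ d 6 + 1 := by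
  obtain ⟨i, h1, h2, h3⟩ := h.tight hp 3 5 (by omega) (by omega) hn
  norm_num at h3
  rcases (show i = 3 ∨ i = 4 ∨ i = 5 by omega) with rfl | rfl | rfl <;> omega

theorem Good.T36 (h : Good n p d) (hp : ∀ i, 1 ≤ i → i ≤ n → 0 < p i) (hn : 6 ≤ n) :
    d 3 ≤ d 2 + 1 ∨ d 3 ≤ d 7 + 1 ∨ d 4 ≤ d 2 + 1 ∨ d 4 ≤ d 7 + 1 ∨ d 5 ≤ d 2 + 1 ∨ d 5 ≤ d 7 + 1 ∨ d 6 ≤ d 2 + 1 ∨ d 6 ≤ d 7 + 1 := by
  obtain ⟨i, h1, h2, h3⟩ := h.tight hp 3 6 (by omega) (by omega) hn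
  norm_num at h3
  rcases (show i = 3 ∨ i = 4 ∨ i = 5 ∨ i = 6 by omega) with rfl | rfl | rfl | rfl <;> omega

theorem Good.T37 (h : Good n p d) (hp : ∀ i, 1 ≤ i → i ≤ n → 0 < p i) (hn : 7 ≤ n) :
    d 3 ≤ d 2 + 1 ∨ d 3 ≤ d 8 + 1 ∨ d 4 ≤ d 2 + 1 ∨ d 4 ≤ d 8 + 1 ∨ d 5 ≤ d 2 + 1 ∨ d 5 ≤ d 8 + 1 ∨ d 6 ≤ d 2 + 1 ∨ d 6 ≤ d 8 + 1 ∨ d 7 ≤ d 2 + 1 ∨ d 7 ≤ d 8 + 1 := by
  obtain ⟨i, h1, h2, h3⟩ := h.tight hp 3 7 (by omega) (by omega) hn
  norm_num at h3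
  rcases (show i = 3 ∨ i = 4 ∨ i = 5 ∨ i = 6 ∨ i = 7 by omega) with rfl | rfl | rfl | rfl | rfl <;> omega

theorem Good.T44 (h : Good n p d) (hp : ∀ i, 1 ≤ i → i ≤ n → 0 < p i) (hn : 4 ≤ n) :
    d 4 ≤ d 3 + 1 ∨ d 4 ≤ d 5 + 1 := by
  obtain ⟨i, h1, h2, h3⟩ := h.tight hp 4 4 (by omega) (by omega) hn
  norm_num at h3
  obtain rfl : i = 4 := by omega
  omega

theorem Good.T45 (h : Good n p d) (hp : ∀ i, 1 ≤ i → i ≤ n → 0 < p i) (hn : 5 ≤ n) :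
    d 4 ≤ d 3 + 1 ∨ d 4 ≤ d 6 + 1 ∨ d 5 ≤ d 3 + 1 ∨ d 5 ≤ d 6 + 1 := by
  obtain ⟨i, h1, h2, h3⟩ := h.tight hp 4 5 (by omega) (by omega) hn
  norm_num at h3
  rcases (show i = 4 ∨ i = 5 by omega) with rfl | rfl <;> omega

theorem Good.T46 (h : Good n p d) (hp : ∀ i, 1 ≤ i → i ≤ n → 0 < p i) (hn : 6 ≤ n) :
    d 4 ≤ d 3 + 1 ∨ d 4 ≤ d 7 + 1 ∨ d 5 ≤ d 3 + 1 ∨ d 5 ≤ d 7 + 1 ∨ d 6 ≤ d 3 + 1 ∨ d 6 ≤ d 7 + 1 := by
  obtain ⟨i, h1, h2, h3⟩ := h.tight hp 4 6 (by omega) (by omega) hn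
  norm_num at h3
  rcases (show i = 4 ∨ i = 5 ∨ i = 6 by omega) with rfl | rfl | rfl <;> omega

theorem Good.T47 (h : Good n p d) (hp : ∀ i, 1 ≤ i → i ≤ n → 0 < p i) (hn : 7 ≤ n) :
    d 4 ≤ d 3 + 1 ∨ d 4 ≤ d 8 + 1 ∨ d 5 ≤ d 3 + 1 ∨ d 5 ≤ d 8 + 1 ∨ d 6 ≤ d 3 + 1 ∨ d 6 ≤ d 8 + 1 ∨ d 7 ≤ d 3 + 1 ∨ d 7 ≤ d 8 + 1 := by
  obtain ⟨i, h1, h2, h3⟩ := h.tight hp 4 7 (by omega) (by omega) hn
  norm_num at h3
  rcases (show i = 4 ∨ i = 5 ∨ i = 6 ∨ i = 7 by omega) with rfl | rfl | rfl | rfl <;> omega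

theorem Good.T55 (h : Good n p d) (hp : ∀ i, 1 ≤ i → i ≤ n → 0 < p i) (hn : 5 ≤ n) :
    d 5 ≤ d 4 + 1 ∨ d 5 ≤ d 6 + 1 := by
  obtain ⟨i, h1, h2, h3⟩ := h.tight hp 5 5 (by omega) (by omega) hn
  norm_num at h3
  obtain rfl : i = 5 := by omega
  omega

theorem Good.T56 (h : Good n p d) (hp : ∀ i, 1 ≤ i → i ≤ n → 0 < p i) (hn : 6 ≤ n) :
    d 5 ≤ d 4 + 1 ∨ d 5 ≤ d 7 + 1 ∨ d 6 ≤ d 4 + 1 ∨ d 6 ≤ d 7 + 1 := by
  obtain ⟨i, h1, h2, h3⟩ := h.tight hp 5 6 (by omega) (by omega) hn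
  norm_num at h3
  rcases (show i = 5 ∨ i = 6 by omega) with rfl | rfl <;> omega

theorem Good.T57 (h : Good n p d) (hp : ∀ i, 1 ≤ i → i ≤ n → 0 < p i) (hn : 7 ≤ n) :
    d 5 ≤ d 4 + 1 ∨ d 5 ≤ d 8 + 1 ∨ d 6 ≤ d 4 + 1 ∨ d 6 ≤ d 8 + 1 ∨ d 7 ≤ d 4 + 1 ∨ d 7 ≤ d 8 + 1 := by
  obtain ⟨i, h1, h2, h3⟩ := h.tight hp 5 7 (by omega) (by omega) hn
  norm_num at h3
  rcases (show i = 5 ∨ i = 6 ∨ i = 7 by omega) with rfl | rfl | rfl <;> omega

theorem Good.T66 (h : Good n p d) (hp : ∀ i, 1 ≤ i → i ≤ n → 0 < p i) (hn : 6 ≤ n) :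
    d 6 ≤ d 5 + 1 ∨ d 6 ≤ d 7 + 1 := by
  obtain ⟨i, h1, h2, h3⟩ := h.tight hp 6 6 (by omega) (by omega) hn
  norm_num at h3
  obtain rfl : i = 6 := by omega
  omega

theorem Good.T67 (h : Good n p d) (hp : ∀ i, 1 ≤ i → i ≤ n → 0 < p i) (hn : 7 ≤ n) :
    d 6 ≤ d 5 + 1 ∨ d 6 ≤ d 8 + 1 ∨ d 7 ≤ d 5 + 1 ∨ d 7 ≤ d 8 + 1 := by
  obtain ⟨i, h1, h2, h3⟩ := h.tight hp 6 7 (by omega) (by omega) hn
  norm_num at h3
  rcases (show i = 6 ∨ i = 7 by omega) with rfl | rfl <;> omega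

theorem Good.T77 (h : Good n p d) (hp : ∀ i, 1 ≤ i → i ≤ n → 0 < p i) (hn : 7 ≤ n) :
    d 7 ≤ d 6 + 1 ∨ d 7 ≤ d 8 + 1 := by
  obtain ⟨i, h1, h2, h3⟩ := h.tight hp 7 7 (by omega) (by omega) hn
  norm_num at h3
  obtain rfl : i = 7 := by omega
  omega

end Pool.Agent.MP_4aec3d_co

end MrgPart1

-- marker of a merged file
example : 731051 + 552032 = 731051 + 552032 := rfl
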