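import Pool.Agent.MP_4aec3d_co.Win

set_option autoImplicit false
set_option linter.unusedVariables false
set_option linter.unnecessarySeqFocus false
set_option linter.unusedTactic false
set_option linter.unreachableTactic false

namespace Pool.Agent.MP_4aec3d_co

variable {n : ℕ} {p : ℕ → ℝ} {d : ℕ → ℤ}

theorem Good.E1 (h : Good n p d) (hp : ∀ i, 0 ≤ p i) (hn : 3 ≤ n)
    (a1 : d 2 = d 1 - 1)
    (x0 : d 3 < d 2)
    : p 1 ≤ p 2 := by
  have key := h.ex3 hp (by omega) (d 1 - 1) (d 1) (d 3) (-1) (1) 0
    (Or.inl (by omega)) (by omega)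
    (by first | exact Or.inl (by omega) | exact Or.inr (lev3_1 (by omega)) | exact Or.inr (lev3_2 (by omega)) | exact Or.inr (lev3_3 (by omega)))
    (by first | exact Or.inl (by omega) | exact Or.inr (lev3_1 (by omega)) | exact Or.inr (lev3_2 (by omega)) | exact Or.inr (lev3_3 (by omega)))
    (by first | exact lev3_3 (by omega) | exact lev3_2 (by omega) | exact lev3_1 (by omega))
    (by omega)
  push_cast at key
  linarith

theorem Good.E2 (h : Good n p d) (hp : ∀ i, 0 ≤ p i) (hn : 4 ≤ n)
    (a1 : d 2 = d 1 - 1)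
    (a2 : d 3 = d 1)
    (x0 : d 4 < d 2)
    : p 1 ≤ p 2 + p 3 := by
  have key := h.ex4 hp (by omega) (d 1 - 1) (d 1) (d 1 + 1) (d 4) (-1) (1) (1) 0
    (Or.inl (by omega)) (by omega)
    (by first | exact Or.inl (by omega) | exact Or.inr (lev4_1 (by omega)) | exact Or.inr (lev4_2 (by omega)) | exact Or.inr (lev4_3 (by omega)) | exact Or.inr (lev4_4 (by omega)))
    (by first | exact Or.inl (by omega) | exact Or.inr (lev4_1 (by omega)) | exact Or.inr (lev4_2 (by omega)) | exact Or.inr (lev4_3 (by omega)) | exact Or.inr (lev4_4 (by omega)))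
    (by first | exact Or.inl (by omega) | exact Or.inr (lev4_1 (by omega)) | exact Or.inr (lev4_2 (by omega)) | exact Or.inr (lev4_3 (by omega)) | exact Or.inr (lev4_4 (by omega)))
    (by first | exact lev4_4 (by omega) | exact lev4_3 (by omega) | exact lev4_2 (by omega) | exact lev4_1 (by omega))
    (by omega)
  push_cast at key
  linarith

theorem Good.E3 (h : Good n p d) (hp : ∀ i, 0 ≤ p i) (hn : 4 ≤ n)
    (a1 : d 2 = d 1 + 1)
    (a2 : d 3 = d 1 - 1)
    (x0 : d 4 < d 3)
    : p 1 ≤ p 3 := by
  have key := h.ex4 hp (by omega) (d 1 - 1) (d 1 + 1) (d 1) (d 4) (-1) (0) (1) 0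
    (Or.inl (by omega)) (by omega)
    (by first | exact Or.inl (by omega) | exact Or.inr (lev4_1 (by omega)) | exact Or.inr (lev4_2 (by omega)) | exact Or.inr (lev4_3 (by omega)) | exact Or.inr (lev4_4 (by omega)))
    (by first | exact Or.inl (by omega) | exact Or.inr (lev4_1 (by omega)) | exact Or.inr (lev4_2 (by omega)) | exact Or.inr (lev4_3 (by omega)) | exact Or.inr (lev4_4 (by omega)))
    (by first | exact Or.inl (by omega) | exact Or.inr (lev4_1 (by omega)) | exact Or.inr (lev4_2 (by omega)) | exact Or.inr (lev4_3 (by omega)) | exact Or.inr (lev4_4 (by omega)))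
    (by first | exact lev4_4 (by omega) | exact lev4_3 (by omega) | exact lev4_2 (by omega) | exact lev4_1 (by omega))
    (by omega)
  push_cast at key
  linarith

theorem Good.E4 (h : Good n p d) (hp : ∀ i, 0 ≤ p i) (hn : 3 ≤ n) (J : ℤ)
    (a1 : d 2 = d 1 - 1)
    (x0 : 1 ≤ J)
    (x1 : d 1 + J ≤ d 3)
    : ((J : ℝ) + 1) * p 3 ≤ 2 * p 2 := by
  have key := h.ex3 hp (by omega) (d 1) (d 1 + 1) (d 1 - 1) (0) (2) (-(J+1))
    (Or.inl (by omega)) (by omega)
    (by first | exact Or.inl (by omega) | exact Or.inr (lev3_1 (by omega)) | exact Or.inr (lev3_2 (by omega)) | exact Or.inr (lev3_3 (by omega)))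
    (by first | exact Or.inl (by omega) | exact Or.inr (lev3_1 (by omega)) | exact Or.inr (lev3_2 (by omega)) | exact Or.inr (lev3_3 (by omega)))
    (by first | exact lev3_3 (by omega) | exact lev3_2 (by omega) | exact lev3_1 (by omega))
    (by omega)
  push_cast at key
  linarith

theorem Good.E5 (h : Good n p d) (hp : ∀ i, 0 ≤ p i) (hn : 4 ≤ n) (J : ℤ)
    (a1 : d 2 = d 1 + 1)
    (a2 : d 3 = d 1 - 1)
    (x0 : d 3 < d 4)
    (x1 : d 4 ≤ d 1 + J)
    : 2 * p 2 ≤ ((J : ℝ) + 2) * p 3 := by
  have key := h.ex4 hp (by omega) (d 1) (d 1 - 1) (d 4 + 1) (d 4) (0) (-2) (J+2) 0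
    (Or.inl (by omega)) (by omega)
    (by first | exact Or.inl (by omega) | exact Or.inr (lev4_1 (by omega)) | exact Or.inr (lev4_2 (by omega)) | exact Or.inr (lev4_3 (by omega)) | exact Or.inr (lev4_4 (by omega)))
    (by first | exact Or.inl (by omega) | exact Or.inr (lev4_1 (by omega)) | exact Or.inr (lev4_2 (by omega)) | exact Or.inr (lev4_3 (by omega)) | exact Or.inr (lev4_4 (by omega)))
    (by first | exact Or.inl (by omega) | exact Or.inr (lev4_1 (by omega)) | exact Or.inr (lev4_2 (by omega)) | exact Or.inr (lev4_3 (by omega)) | exact Or.inr (lev4_4 (by omega)))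
    (by first | exact lev4_4 (by omega) | exact lev4_3 (by omega) | exact lev4_2 (by omega) | exact lev4_1 (by omega))
    (by omega)
  push_cast at key
  linarith

theorem Good.E6 (h : Good n p d) (hp : ∀ i, 0 ≤ p i) (hn : 4 ≤ n)
    (a1 : d 2 = d 1 + 1)
    (a2 : d 3 = d 1 - 1)
    (x0 : d 4 < d 3)
    : 2 * p 2 ≤ p 3 := by
  have key := h.ex4 hp (by omega) (d 1) (d 1 - 1) (d 1) (d 4) (0) (-2) (1) 0
    (Or.inl (by omega)) (by omega)
    (by first | exact Or.inl (by omega) | exact Or.inr (lev4_1 (by omega)) | exact Or.inr (lev4_2 (by omega)) | exact Or.inr (lev4_3 (by omega)) | exact Or.inr (lev4_4 (by omega)))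
    (by first | exact Or.inl (by omega) | exact Or.inr (lev4_1 (by omega)) | exact Or.inr (lev4_2 (by omega)) | exact Or.inr (lev4_3 (by omega)) | exact Or.inr (lev4_4 (by omega)))
    (by first | exact Or.inl (by omega) | exact Or.inr (lev4_1 (by omega)) | exact Or.inr (lev4_2 (by omega)) | exact Or.inr (lev4_3 (by omega)) | exact Or.inr (lev4_4 (by omega)))
    (by first | exact lev4_4 (by omega) | exact lev4_3 (by omega) | exact lev4_2 (by omega) | exact lev4_1 (by omega))
    (by omega)
  push_cast at key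
  linarith

theorem Good.E7 (h : Good n p d) (hp : ∀ i, 0 ≤ p i) (hn : 2 ≤ n) (J : ℤ)
    (x0 : 1 ≤ J)
    (x1 : d 1 + J ≤ d 2)
    : (J : ℝ) * p 2 ≤ p 1 := by
  have key := h.ex2 hp (by omega) (d 1 + 1) (d 1) (1) (-J)
    (Or.inl (by omega)) (by omega)
    (by first | exact Or.inl (by omega) | exact Or.inr (lev2_1 (by omega)) | exact Or.inr (lev2_2 (by omega)))
    (by first | exact lev2_2 (by omega) | exact lev2_1 (by omega))
    (by omega)
  push_cast at key
  linarith

theorem Good.E8 (h : Good n p d) (hp : ∀ i, 0 ≤ p i) (hn : 3 ≤ n)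
    (x0 : d 1 < d 2)
    (x1 : d 2 < d 3)
    : p 2 + p 3 ≤ p 1 := by
  have key := h.ex3 hp (by omega) (d 1 + 1) (d 1) (d 2) (1) (-1) (-1)
    (Or.inl (by omega)) (by omega)
    (by first | exact Or.inl (by omega) | exact Or.inr (lev3_1 (by omega)) | exact Or.inr (lev3_2 (by omega)) | exact Or.inr (lev3_3 (by omega)))
    (by first | exact Or.inl (by omega) | exact Or.inr (lev3_1 (by omega)) | exact Or.inr (lev3_2 (by omega)) | exact Or.inr (lev3_3 (by omega)))
    (by first | exact lev3_3 (by omega) | exact lev3_2 (by omega) | exact lev3_1 (by omega))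
    (by omega)
  push_cast at key
  linarith

theorem Good.E9 (h : Good n p d) (hp : ∀ i, 0 ≤ p i) (hn : 3 ≤ n)
    (a1 : d 2 = d 1 - 1)
    (a2 : d 3 = d 1)
    : p 1 ≤ 2 * p 2 := by
  have key := h.ex3 hp (by omega) (d 1 - 1) (d 1 + 1) (d 1) (-1) (2) (0)
    (Or.inl (by omega)) (by omega)
    (by first | exact Or.inl (by omega) | exact Or.inr (lev3_1 (by omega)) | exact Or.inr (lev3_2 (by omega)) | exact Or.inr (lev3_3 (by omega)))
    (by first | exact Or.inl (by omega) | exact Or.inr (lev3_1 (by omega)) | exact Or.inr (lev3_2 (by omega)) | exact Or.inr (lev3_3 (by omega)))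
    (by first | exact lev3_3 (by omega) | exact lev3_2 (by omega) | exact lev3_1 (by omega))
    (by omega)
  push_cast at key
  linarith

theorem Good.G2a (h : Good n p d) (hp : ∀ i, 0 ≤ p i) (hn : 6 ≤ n) (hr : p 2 = p 3)
    (a1 : d 4 = d 1)
    (a2 : d 5 = d 1 + 1)
    (b0 : (d 2 = d 1 - 1 ∧ d 3 = d 1 + 1) ∨ (d 2 = d 1 + 1 ∧ d 3 = d 1 - 1))
    (x0 : d 5 < d 6)
    : p 4 + p 5 + p 6 ≤ 3 * p 2 := by
  rcases b0 with ⟨b00, b01⟩ | ⟨b00, b01⟩
  · have key := h.ex6 hp (by omega) (d 1) (d 1 + 1) (d 1 + 2) (d 1 - 1) (d 1) (d 1 + 1) (0) (2) (1) (-1) (-1) (-1)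
      (Or.inl (by omega)) (by omega)
      (by first | exact Or.inl (by omega) | exact Or.inr (lev6_1 (by omega)) | exact Or.inr (lev6_2 (by omega)) | exact Or.inr (lev6_3 (by omega)) | exact Or.inr (lev6_4 (by omega)) | exact Or.inr (lev6_5 (by omega)) | exact Or.inr (lev6_6 (by omega)))
      (by first | exact Or.inl (by omega) | exact Or.inr (lev6_1 (by omega)) | exact Or.inr (lev6_2 (by omega)) | exact Or.inr (lev6_3 (by omega)) | exact Or.inr (lev6_4 (by omega)) | exact Or.inr (lev6_5 (by omega)) | exact Or.inr (lev6_6 (by omega)))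
      (by first | exact Or.inl (by omega) | exact Or.inr (lev6_1 (by omega)) | exact Or.inr (lev6_2 (by omega)) | exact Or.inr (lev6_3 (by omega)) | exact Or.inr (lev6_4 (by omega)) | exact Or.inr (lev6_5 (by omega)) | exact Or.inr (lev6_6 (by omega)))
      (by first | exact Or.inl (by omega) | exact Or.inr (lev6_1 (by omega)) | exact Or.inr (lev6_2 (by omega)) | exact Or.inr (lev6_3 (by omega)) | exact Or.inr (lev6_4 (by omega)) | exact Or.inr (lev6_5 (by omega)) | exact Or.inr (lev6_6 (by omega)))
      (by first | exact Or.inl (by omega) | exact Or.inr (lev6_1 (by omega)) | exact Or.inr (lev6_2 (by omega)) | exact Or.inr (lev6_3 (by omega)) | exact Or.inr (lev6_4 (by omega)) | exact Or.inr (lev6_5 (by omega)) | exact Or.inr (lev6_6 (by omega)))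
      (by first | exact lev6_6 (by omega) | exact lev6_5 (by omega) | exact lev6_4 (by omega) | exact lev6_3 (by omega) | exact lev6_2 (by omega) | exact lev6_1 (by omega))
      (by omega)
    push_cast at key
    linarith
  · have key := h.ex6 hp (by omega) (d 1) (d 1 + 1) (d 1 + 2) (d 1 - 1) (d 1) (d 1 + 1) (0) (0) (3) (-1) (-1) (-1)
      (Or.inl (by omega)) (by omega)
      (by first | exact Or.inl (by omega) | exact Or.inr (lev6_1 (by omega)) | exact Or.inr (lev6_2 (by omega)) | exact Or.inr (lev6_3 (by omega)) | exact Or.inr (lev6_4 (by omega)) | exact Or.inr (lev6_5 (by omega)) | exact Or.inr (lev6_6 (by omega)))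
      (by first | exact Or.inl (by omega) | exact Or.inr (lev6_1 (by omega)) | exact Or.inr (lev6_2 (by omega)) | exact Or.inr (lev6_3 (by omega)) | exact Or.inr (lev6_4 (by omega)) | exact Or.inr (lev6_5 (by omega)) | exact Or.inr (lev6_6 (by omega)))
      (by first | exact Or.inl (by omega) | exact Or.inr (lev6_1 (by omega)) | exact Or.inr (lev6_2 (by omega)) | exact Or.inr (lev6_3 (by omega)) | exact Or.inr (lev6_4 (by omega)) | exact Or.inr (lev6_5 (by omega)) | exact Or.inr (lev6_6 (by omega)))
      (by first | exact Or.inl (by omega) | exact Or.inr (lev6_1 (by omega)) | exact Or.inr (lev6_2 (by omega)) | exact Or.inr (lev6_3 (by omega)) | exact Or.inr (lev6_4 (by omega)) | exact Or.inr (lev6_5 (by omega)) | exact Or.inr (lev6_6 (by omega)))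
      (by first | exact Or.inl (by omega) | exact Or.inr (lev6_1 (by omega)) | exact Or.inr (lev6_2 (by omega)) | exact Or.inr (lev6_3 (by omega)) | exact Or.inr (lev6_4 (by omega)) | exact Or.inr (lev6_5 (by omega)) | exact Or.inr (lev6_6 (by omega)))
      (by first | exact lev6_6 (by omega) | exact lev6_5 (by omega) | exact lev6_4 (by omega) | exact lev6_3 (by omega) | exact lev6_2 (by omega) | exact lev6_1 (by omega))
      (by omega)
    push_cast at key
    linarith

theorem Good.G2b (h : Good n p d) (hp : ∀ i, 0 ≤ p i) (hn : 6 ≤ n) (hr : p 2 = p 3)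
    (a1 : d 4 = d 1)
    (a2 : d 5 = d 1 + 1)
    (b0 : (d 2 = d 1 - 1 ∧ d 3 = d 1 + 1) ∨ (d 2 = d 1 + 1 ∧ d 3 = d 1 - 1))
    (x0 : d 5 < d 6)
    : p 4 + p 5 + p 6 ≤ p 1 + p 2 := by
  rcases b0 with ⟨b00, b01⟩ | ⟨b00, b01⟩
  · have key := h.ex6 hp (by omega) (d 1 + 1) (d 1) (d 1 + 1) (d 1 - 1) (d 1) (d 1 + 1) (1) (1) (0) (-1) (-1) (-1)
      (Or.inl (by omega)) (by omega)
      (by first | exact Or.inl (by omega) | exact Or.inr (lev6_1 (by omega)) | exact Or.inr (lev6_2 (by omega)) | exact Or.inr (lev6_3 (by omega)) | exact Or.inr (lev6_4 (by omega)) | exact Or.inr (lev6_5 (by omega)) | exact Or.inr (lev6_6 (by omega)))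
      (by first | exact Or.inl (by omega) | exact Or.inr (lev6_1 (by omega)) | exact Or.inr (lev6_2 (by omega)) | exact Or.inr (lev6_3 (by omega)) | exact Or.inr (lev6_4 (by omega)) | exact Or.inr (lev6_5 (by omega)) | exact Or.inr (lev6_6 (by omega)))
      (by first | exact Or.inl (by omega) | exact Or.inr (lev6_1 (by omega)) | exact Or.inr (lev6_2 (by omega)) | exact Or.inr (lev6_3 (by omega)) | exact Or.inr (lev6_4 (by omega)) | exact Or.inr (lev6_5 (by omega)) | exact Or.inr (lev6_6 (by omega)))
      (by first | exact Or.inl (by omega) | exact Or.inr (lev6_1 (by omega)) | exact Or.inr (lev6_2 (by omega)) | exact Or.inr (lev6_3 (by omega)) | exact Or.inr (lev6_4 (by omega)) | exact Or.inr (lev6_5 (by omega)) | exact Or.inr (lev6_6 (by omega)))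
      (by first | exact Or.inl (by omega) | exact Or.inr (lev6_1 (by omega)) | exact Or.inr (lev6_2 (by omega)) | exact Or.inr (lev6_3 (by omega)) | exact Or.inr (lev6_4 (by omega)) | exact Or.inr (lev6_5 (by omega)) | exact Or.inr (lev6_6 (by omega)))
      (by first | exact lev6_6 (by omega) | exact lev6_5 (by omega) | exact lev6_4 (by omega) | exact lev6_3 (by omega) | exact lev6_2 (by omega) | exact lev6_1 (by omega))
      (by omega)
    push_cast at key
    linarith
  · have key := h.ex6 hp (by omega) (d 1 + 1) (d 1) (d 1 + 1) (d 1 - 1) (d 1) (d 1 + 1) (1) (-1) (2) (-1) (-1) (-1)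
      (Or.inl (by omega)) (by omega)
      (by first | exact Or.inl (by omega) | exact Or.inr (lev6_1 (by omega)) | exact Or.inr (lev6_2 (by omega)) | exact Or.inr (lev6_3 (by omega)) | exact Or.inr (lev6_4 (by omega)) | exact Or.inr (lev6_5 (by omega)) | exact Or.inr (lev6_6 (by omega)))
      (by first | exact Or.inl (by omega) | exact Or.inr (lev6_1 (by omega)) | exact Or.inr (lev6_2 (by omega)) | exact Or.inr (lev6_3 (by omega)) | exact Or.inr (lev6_4 (by omega)) | exact Or.inr (lev6_5 (by omega)) | exact Or.inr (lev6_6 (by omega)))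
      (by first | exact Or.inl (by omega) | exact Or.inr (lev6_1 (by omega)) | exact Or.inr (lev6_2 (by omega)) | exact Or.inr (lev6_3 (by omega)) | exact Or.inr (lev6_4 (by omega)) | exact Or.inr (lev6_5 (by omega)) | exact Or.inr (lev6_6 (by omega)))
      (by first | exact Or.inl (by omega) | exact Or.inr (lev6_1 (by omega)) | exact Or.inr (lev6_2 (by omega)) | exact Or.inr (lev6_3 (by omega)) | exact Or.inr (lev6_4 (by omega)) | exact Or.inr (lev6_5 (by omega)) | exact Or.inr (lev6_6 (by omega)))
      (by first | exact Or.inl (by omega) | exact Or.inr (lev6_1 (by omega)) | exact Or.inr (lev6_2 (by omega)) | exact Or.inr (lev6_3 (by omega)) | exact Or.inr (lev6_4 (by omega)) | exact Or.inr (lev6_5 (by omega)) | exact Or.inr (lev6_6 (by omega)))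
      (by first | exact lev6_6 (by omega) | exact lev6_5 (by omega) | exact lev6_4 (by omega) | exact lev6_3 (by omega) | exact lev6_2 (by omega) | exact lev6_1 (by omega))
      (by omega)
    push_cast at key
    linarith

theorem Good.G3 (h : Good n p d) (hp : ∀ i, 0 ≤ p i) (hn : 5 ≤ n) (hr : p 2 = p 3) (J : ℤ)
    (a1 : d 4 = d 1)
    (b0 : (d 2 = d 1 - 1 ∧ d 3 = d 1 + 1) ∨ (d 2 = d 1 + 1 ∧ d 3 = d 1 - 1))
    (x0 : 1 ≤ J)
    (x1 : d 1 + J ≤ d 5)
    : (J : ℝ) * p 5 ≤ p 4 := by
  rcases b0 with ⟨b00, b01⟩ | ⟨b00, b01⟩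
  · have key := h.ex5 hp (by omega) (d 1) (d 1 + 1) (d 1 - 1) (d 1 + 1) (d 1) (0) (2) (-2) (1) (-J)
      (Or.inl (by omega)) (by omega)
      (by first | exact Or.inl (by omega) | exact Or.inr (lev5_1 (by omega)) | exact Or.inr (lev5_2 (by omega)) | exact Or.inr (lev5_3 (by omega)) | exact Or.inr (lev5_4 (by omega)) | exact Or.inr (lev5_5 (by omega)))
      (by first | exact Or.inl (by omega) | exact Or.inr (lev5_1 (by omega)) | exact Or.inr (lev5_2 (by omega)) | exact Or.inr (lev5_3 (by omega)) | exact Or.inr (lev5_4 (by omega)) | exact Or.inr (lev5_5 (by omega)))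
      (by first | exact Or.inl (by omega) | exact Or.inr (lev5_1 (by omega)) | exact Or.inr (lev5_2 (by omega)) | exact Or.inr (lev5_3 (by omega)) | exact Or.inr (lev5_4 (by omega)) | exact Or.inr (lev5_5 (by omega)))
      (by first | exact Or.inl (by omega) | exact Or.inr (lev5_1 (by omega)) | exact Or.inr (lev5_2 (by omega)) | exact Or.inr (lev5_3 (by omega)) | exact Or.inr (lev5_4 (by omega)) | exact Or.inr (lev5_5 (by omega)))
      (by first | exact lev5_5 (by omega) | exact lev5_4 (by omega) | exact lev5_3 (by omega) | exact lev5_2 (by omega) | exact lev5_1 (by omega))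
      (by omega)
    push_cast at key
    linarith
  · have key := h.ex5 hp (by omega) (d 1) (d 1 + 1) (d 1 - 1) (d 1 + 1) (d 1) (0) (0) (0) (1) (-J)
      (Or.inl (by omega)) (by omega)
      (by first | exact Or.inl (by omega) | exact Or.inr (lev5_1 (by omega)) | exact Or.inr (lev5_2 (by omega)) | exact Or.inr (lev5_3 (by omega)) | exact Or.inr (lev5_4 (by omega)) | exact Or.inr (lev5_5 (by omega)))
      (by first | exact Or.inl (by omega) | exact Or.inr (lev5_1 (by omega)) | exact Or.inr (lev5_2 (by omega)) | exact Or.inr (lev5_3 (by omega)) | exact Or.inr (lev5_4 (by omega)) | exact Or.inr (lev5_5 (by omega)))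
      (by first | exact Or.inl (by omega) | exact Or.inr (lev5_1 (by omega)) | exact Or.inr (lev5_2 (by omega)) | exact Or.inr (lev5_3 (by omega)) | exact Or.inr (lev5_4 (by omega)) | exact Or.inr (lev5_5 (by omega)))
      (by first | exact Or.inl (by omega) | exact Or.inr (lev5_1 (by omega)) | exact Or.inr (lev5_2 (by omega)) | exact Or.inr (lev5_3 (by omega)) | exact Or.inr (lev5_4 (by omega)) | exact Or.inr (lev5_5 (by omega)))
      (by first | exact lev5_5 (by omega) | exact lev5_4 (by omega) | exact lev5_3 (by omega) | exact lev5_2 (by omega) | exact lev5_1 (by omega))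
      (by omega)
    push_cast at key
    linarith

theorem Good.G7 (h : Good n p d) (hp : ∀ i, 0 ≤ p i) (hn : 6 ≤ n) (hr : p 2 = p 3)
    (a1 : d 4 = d 1)
    (a2 : d 5 = d 1 + 1)
    (b0 : (d 2 = d 1 - 1 ∧ d 3 = d 1 + 1) ∨ (d 2 = d 1 + 1 ∧ d 3 = d 1 - 1))
    (x0 : d 5 < d 6)
    : p 5 + p 6 ≤ p 4 := by
  rcases b0 with ⟨b00, b01⟩ | ⟨b00, b01⟩
  · have key := h.ex6 hp (by omega) (d 1) (d 1 + 1) (d 1 - 1) (d 1 + 1) (d 1) (d 1 + 1) (0) (2) (-2) (1) (-1) (-1)
      (Or.inl (by omega)) (by omega)
      (by first | exact Or.inl (by omega) | exact Or.inr (lev6_1 (by omega)) | exact Or.inr (lev6_2 (by omega)) | exact Or.inr (lev6_3 (by omega)) | exact Or.inr (lev6_4 (by omega)) | exact Or.inr (lev6_5 (by omega)) | exact Or.inr (lev6_6 (by omega)))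
      (by first | exact Or.inl (by omega) | exact Or.inr (lev6_1 (by omega)) | exact Or.inr (lev6_2 (by omega)) | exact Or.inr (lev6_3 (by omega)) | exact Or.inr (lev6_4 (by omega)) | exact Or.inr (lev6_5 (by omega)) | exact Or.inr (lev6_6 (by omega)))
      (by first | exact Or.inl (by omega) | exact Or.inr (lev6_1 (by omega)) | exact Or.inr (lev6_2 (by omega)) | exact Or.inr (lev6_3 (by omega)) | exact Or.inr (lev6_4 (by omega)) | exact Or.inr (lev6_5 (by omega)) | exact Or.inr (lev6_6 (by omega)))
      (by first | exact Or.inl (by omega) | exact Or.inr (lev6_1 (by omega)) | exact Or.inr (lev6_2 (by omega)) | exact Or.inr (lev6_3 (by omega)) | exact Or.inr (lev6_4 (by omega)) | exact Or.inr (lev6_5 (by omega)) | exact Or.inr (lev6_6 (by omega)))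
      (by first | exact Or.inl (by omega) | exact Or.inr (lev6_1 (by omega)) | exact Or.inr (lev6_2 (by omega)) | exact Or.inr (lev6_3 (by omega)) | exact Or.inr (lev6_4 (by omega)) | exact Or.inr (lev6_5 (by omega)) | exact Or.inr (lev6_6 (by omega)))
      (by first | exact lev6_6 (by omega) | exact lev6_5 (by omega) | exact lev6_4 (by omega) | exact lev6_3 (by omega) | exact lev6_2 (by omega) | exact lev6_1 (by omega))
      (by omega)
    push_cast at key
    linarith
  · have key := h.ex6 hp (by omega) (d 1) (d 1 + 1) (d 1 - 1) (d 1 + 1) (d 1) (d 1 + 1) (0) (0) (0) (1) (-1) (-1)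
      (Or.inl (by omega)) (by omega)
      (by first | exact Or.inl (by omega) | exact Or.inr (lev6_1 (by omega)) | exact Or.inr (lev6_2 (by omega)) | exact Or.inr (lev6_3 (by omega)) | exact Or.inr (lev6_4 (by omega)) | exact Or.inr (lev6_5 (by omega)) | exact Or.inr (lev6_6 (by omega)))
      (by first | exact Or.inl (by omega) | exact Or.inr (lev6_1 (by omega)) | exact Or.inr (lev6_2 (by omega)) | exact Or.inr (lev6_3 (by omega)) | exact Or.inr (lev6_4 (by omega)) | exact Or.inr (lev6_5 (by omega)) | exact Or.inr (lev6_6 (by omega)))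
      (by first | exact Or.inl (by omega) | exact Or.inr (lev6_1 (by omega)) | exact Or.inr (lev6_2 (by omega)) | exact Or.inr (lev6_3 (by omega)) | exact Or.inr (lev6_4 (by omega)) | exact Or.inr (lev6_5 (by omega)) | exact Or.inr (lev6_6 (by omega)))
      (by first | exact Or.inl (by omega) | exact Or.inr (lev6_1 (by omega)) | exact Or.inr (lev6_2 (by omega)) | exact Or.inr (lev6_3 (by omega)) | exact Or.inr (lev6_4 (by omega)) | exact Or.inr (lev6_5 (by omega)) | exact Or.inr (lev6_6 (by omega)))
      (by first | exact Or.inl (by omega) | exact Or.inr (lev6_1 (by omega)) | exact Or.inr (lev6_2 (by omega)) | exact Or.inr (lev6_3 (by omega)) | exact Or.inr (lev6_4 (by omega)) | exact Or.inr (lev6_5 (by omega)) | exact Or.inr (lev6_6 (by omega)))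
      (by first | exact lev6_6 (by omega) | exact lev6_5 (by omega) | exact lev6_4 (by omega) | exact lev6_3 (by omega) | exact lev6_2 (by omega) | exact lev6_1 (by omega))
      (by omega)
    push_cast at key
    linarith

theorem Good.G4a (h : Good n p d) (hp : ∀ i, 0 ≤ p i) (hn : 5 ≤ n) (hr : p 2 = p 3) (J : ℤ)
    (a1 : d 4 = d 1)
    (a2 : d 5 = d 1 - 2)
    (b0 : (d 2 = d 1 - 1 ∧ d 3 = d 1 + 1) ∨ (d 2 = d 1 + 1 ∧ d 3 = d 1 - 1))
    (x0 : 0 ≤ J)
    (x1 : d 6 ≤ d 5 + J)
    (sp : d 6 < d 5 ∨ d 5 < d 6)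
    : 2 * p 4 + (p 1 - p 2) ≤ ((J : ℝ) + 1) * p 5 := by
  rcases b0 with ⟨b00, b01⟩ | ⟨b00, b01⟩ <;> rcases sp with sp | sp
  · have key := h.ex6 hp (by omega) (d 1 - 1) (d 1) (d 1 + 1) (d 1 - 2) (d 1 - 1) (d 6) (-1) (1) (0) (-2) (J+1) 0
      (Or.inr ⟨rfl, le_rfl⟩) (by omega)
      (by first | exact Or.inl (by omega) | exact Or.inr (lev6_1 (by omega)) | exact Or.inr (lev6_2 (by omega)) | exact Or.inr (lev6_3 (by omega)) | exact Or.inr (lev6_4 (by omega)) | exact Or.inr (lev6_5 (by omega)) | exact Or.inr (lev6_6 (by omega)))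
      (by first | exact Or.inl (by omega) | exact Or.inr (lev6_1 (by omega)) | exact Or.inr (lev6_2 (by omega)) | exact Or.inr (lev6_3 (by omega)) | exact Or.inr (lev6_4 (by omega)) | exact Or.inr (lev6_5 (by omega)) | exact Or.inr (lev6_6 (by omega)))
      (by first | exact Or.inl (by omega) | exact Or.inr (lev6_1 (by omega)) | exact Or.inr (lev6_2 (by omega)) | exact Or.inr (lev6_3 (by omega)) | exact Or.inr (lev6_4 (by omega)) | exact Or.inr (lev6_5 (by omega)) | exact Or.inr (lev6_6 (by omega)))
      (by first | exact Or.inl (by omega) | exact Or.inr (lev6_1 (by omega)) | exact Or.inr (lev6_2 (by omega)) | exact Or.inr (lev6_3 (by omega)) | exact Or.inr (lev6_4 (by omega)) | exact Or.inr (lev6_5 (by omega)) | exact Or.inr (lev6_6 (by omega)))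
      (by first | exact Or.inl (by omega) | exact Or.inr (lev6_1 (by omega)) | exact Or.inr (lev6_2 (by omega)) | exact Or.inr (lev6_3 (by omega)) | exact Or.inr (lev6_4 (by omega)) | exact Or.inr (lev6_5 (by omega)) | exact Or.inr (lev6_6 (by omega)))
      (by first | exact lev6_6 (by omega) | exact lev6_5 (by omega) | exact lev6_4 (by omega) | exact lev6_3 (by omega) | exact lev6_2 (by omega) | exact lev6_1 (by omega))
      (by omega)
    push_cast at key
    linarith
  · have key := h.ex6 hp (by omega) (d 1 - 1) (d 1) (d 1 + 1) (d 1 - 2) (d 6 + 1) (d 6) (-1) (1) (0) (-2) (J+1) 0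
      (Or.inr ⟨rfl, le_rfl⟩) (by omega)
      (by first | exact Or.inl (by omega) | exact Or.inr (lev6_1 (by omega)) | exact Or.inr (lev6_2 (by omega)) | exact Or.inr (lev6_3 (by omega)) | exact Or.inr (lev6_4 (by omega)) | exact Or.inr (lev6_5 (by omega)) | exact Or.inr (lev6_6 (by omega)))
      (by first | exact Or.inl (by omega) | exact Or.inr (lev6_1 (by omega)) | exact Or.inr (lev6_2 (by omega)) | exact Or.inr (lev6_3 (by omega)) | exact Or.inr (lev6_4 (by omega)) | exact Or.inr (lev6_5 (by omega)) | exact Or.inr (lev6_6 (by omega)))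
      (by first | exact Or.inl (by omega) | exact Or.inr (lev6_1 (by omega)) | exact Or.inr (lev6_2 (by omega)) | exact Or.inr (lev6_3 (by omega)) | exact Or.inr (lev6_4 (by omega)) | exact Or.inr (lev6_5 (by omega)) | exact Or.inr (lev6_6 (by omega)))
      (by first | exact Or.inl (by omega) | exact Or.inr (lev6_1 (by omega)) | exact Or.inr (lev6_2 (by omega)) | exact Or.inr (lev6_3 (by omega)) | exact Or.inr (lev6_4 (by omega)) | exact Or.inr (lev6_5 (by omega)) | exact Or.inr (lev6_6 (by omega)))
      (by first | exact Or.inl (by omega) | exact Or.inr (lev6_1 (by omega)) | exact Or.inr (lev6_2 (by omega)) | exact Or.inr (lev6_3 (by omega)) | exact Or.inr (lev6_4 (by omega)) | exact Or.inr (lev6_5 (by omega)) | exact Or.inr (lev6_6 (by omega)))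
      (by first | exact lev6_6 (by omega) | exact lev6_5 (by omega) | exact lev6_4 (by omega) | exact lev6_3 (by omega) | exact lev6_2 (by omega) | exact lev6_1 (by omega))
      (by omega)
    push_cast at key
    linarith
  · have key := h.ex6 hp (by omega) (d 1 - 1) (d 1) (d 1 + 1) (d 1 - 2) (d 1 - 1) (d 6) (-1) (-1) (2) (-2) (J+1) 0
      (Or.inr ⟨rfl, le_rfl⟩) (by omega)
      (by first | exact Or.inl (by omega) | exact Or.inr (lev6_1 (by omega)) | exact Or.inr (lev6_2 (by omega)) | exact Or.inr (lev6_3 (by omega)) | exact Or.inr (lev6_4 (by omega)) | exact Or.inr (lev6_5 (by omega)) | exact Or.inr (lev6_6 (by omega)))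
      (by first | exact Or.inl (by omega) | exact Or.inr (lev6_1 (by omega)) | exact Or.inr (lev6_2 (by omega)) | exact Or.inr (lev6_3 (by omega)) | exact Or.inr (lev6_4 (by omega)) | exact Or.inr (lev6_5 (by omega)) | exact Or.inr (lev6_6 (by omega)))
      (by first | exact Or.inl (by omega) | exact Or.inr (lev6_1 (by omega)) | exact Or.inr (lev6_2 (by omega)) | exact Or.inr (lev6_3 (by omega)) | exact Or.inr (lev6_4 (by omega)) | exact Or.inr (lev6_5 (by omega)) | exact Or.inr (lev6_6 (by omega)))
      (by first | exact Or.inl (by omega) | exact Or.inr (lev6_1 (by omega)) | exact Or.inr (lev6_2 (by omega)) | exact Or.inr (lev6_3 (by omega)) | exact Or.inr (lev6_4 (by omega)) | exact Or.inr (lev6_5 (by omega)) | exact Or.inr (lev6_6 (by omega)))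
      (by first | exact Or.inl (by omega) | exact Or.inr (lev6_1 (by omega)) | exact Or.inr (lev6_2 (by omega)) | exact Or.inr (lev6_3 (by omega)) | exact Or.inr (lev6_4 (by omega)) | exact Or.inr (lev6_5 (by omega)) | exact Or.inr (lev6_6 (by omega)))
      (by first | exact lev6_6 (by omega) | exact lev6_5 (by omega) | exact lev6_4 (by omega) | exact lev6_3 (by omega) | exact lev6_2 (by omega) | exact lev6_1 (by omega))
      (by omega)
    push_cast at key
    linarith
  · have key := h.ex6 hp (by omega) (d 1 - 1) (d 1) (d 1 + 1) (d 1 - 2) (d 6 + 1) (d 6) (-1) (-1) (2) (-2) (J+1) 0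
      (Or.inr ⟨rfl, le_rfl⟩) (by omega)
      (by first | exact Or.inl (by omega) | exact Or.inr (lev6_1 (by omega)) | exact Or.inr (lev6_2 (by omega)) | exact Or.inr (lev6_3 (by omega)) | exact Or.inr (lev6_4 (by omega)) | exact Or.inr (lev6_5 (by omega)) | exact Or.inr (lev6_6 (by omega)))
      (by first | exact Or.inl (by omega) | exact Or.inr (lev6_1 (by omega)) | exact Or.inr (lev6_2 (by omega)) | exact Or.inr (lev6_3 (by omega)) | exact Or.inr (lev6_4 (by omega)) | exact Or.inr (lev6_5 (by omega)) | exact Or.inr (lev6_6 (by omega)))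
      (by first | exact Or.inl (by omega) | exact Or.inr (lev6_1 (by omega)) | exact Or.inr (lev6_2 (by omega)) | exact Or.inr (lev6_3 (by omega)) | exact Or.inr (lev6_4 (by omega)) | exact Or.inr (lev6_5 (by omega)) | exact Or.inr (lev6_6 (by omega)))
      (by first | exact Or.inl (by omega) | exact Or.inr (lev6_1 (by omega)) | exact Or.inr (lev6_2 (by omega)) | exact Or.inr (lev6_3 (by omega)) | exact Or.inr (lev6_4 (by omega)) | exact Or.inr (lev6_5 (by omega)) | exact Or.inr (lev6_6 (by omega)))
      (by first | exact Or.inl (by omega) | exact Or.inr (lev6_1 (by omega)) | exact Or.inr (lev6_2 (by omega)) | exact Or.inr (lev6_3 (by omega)) | exact Or.inr (lev6_4 (by omega)) | exact Or.inr (lev6_5 (by omega)) | exact Or.inr (lev6_6 (by omega)))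
      (by first | exact lev6_6 (by omega) | exact lev6_5 (by omega) | exact lev6_4 (by omega) | exact lev6_3 (by omega) | exact lev6_2 (by omega) | exact lev6_1 (by omega))
      (by omega)
    push_cast at key
    linarith

theorem Good.G4b (h : Good n p d) (hp : ∀ i, 0 ≤ p i) (hn : 5 ≤ n) (hr : p 2 = p 3) (J : ℤ)
    (a1 : d 4 = d 1)
    (a2 : d 5 = d 1 - 2)
    (b0 : (d 2 = d 1 - 1 ∧ d 3 = d 1 + 1) ∨ (d 2 = d 1 + 1 ∧ d 3 = d 1 - 1))
    (x0 : 0 ≤ J)
    (x1 : d 6 ≤ d 5 + J)
    (sp : d 6 < d 5 ∨ d 5 < d 6)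
    : 2 * p 4 + p 2 ≤ ((J : ℝ) + 1) * p 5 := by
  rcases b0 with ⟨b00, b01⟩ | ⟨b00, b01⟩ <;> rcases sp with sp | sp
  · have key := h.ex6 hp (by omega) (d 1) (d 1 - 1) (d 1) (d 1 - 2) (d 1 - 1) (d 6) (0) (0) (-1) (-2) (J+1) 0
      (Or.inr ⟨rfl, le_rfl⟩) (by omega)
      (by first | exact Or.inl (by omega) | exact Or.inr (lev6_1 (by omega)) | exact Or.inr (lev6_2 (by omega)) | exact Or.inr (lev6_3 (by omega)) | exact Or.inr (lev6_4 (by omega)) | exact Or.inr (lev6_5 (by omega)) | exact Or.inr (lev6_6 (by omega)))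
      (by first | exact Or.inl (by omega) | exact Or.inr (lev6_1 (by omega)) | exact Or.inr (lev6_2 (by omega)) | exact Or.inr (lev6_3 (by omega)) | exact Or.inr (lev6_4 (by omega)) | exact Or.inr (lev6_5 (by omega)) | exact Or.inr (lev6_6 (by omega)))
      (by first | exact Or.inl (by omega) | exact Or.inr (lev6_1 (by omega)) | exact Or.inr (lev6_2 (by omega)) | exact Or.inr (lev6_3 (by omega)) | exact Or.inr (lev6_4 (by omega)) | exact Or.inr (lev6_5 (by omega)) | exact Or.inr (lev6_6 (by omega)))
      (by first | exact Or.inl (by omega) | exact Or.inr (lev6_1 (by omega)) | exact Or.inr (lev6_2 (by omega)) | exact Or.inr (lev6_3 (by omega)) | exact Or.inr (lev6_4 (by omega)) | exact Or.inr (lev6_5 (by omega)) | exact Or.inr (lev6_6 (by omega)))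
      (by first | exact Or.inl (by omega) | exact Or.inr (lev6_1 (by omega)) | exact Or.inr (lev6_2 (by omega)) | exact Or.inr (lev6_3 (by omega)) | exact Or.inr (lev6_4 (by omega)) | exact Or.inr (lev6_5 (by omega)) | exact Or.inr (lev6_6 (by omega)))
      (by first | exact lev6_6 (by omega) | exact lev6_5 (by omega) | exact lev6_4 (by omega) | exact lev6_3 (by omega) | exact lev6_2 (by omega) | exact lev6_1 (by omega))
      (by omega)
    push_cast at key
    linarith
  · have key := h.ex6 hp (by omega) (d 1) (d 1 - 1) (d 1) (d 1 - 2) (d 6 + 1) (d 6) (0) (0) (-1) (-2) (J+1) 0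
      (Or.inr ⟨rfl, le_rfl⟩) (by omega)
      (by first | exact Or.inl (by omega) | exact Or.inr (lev6_1 (by omega)) | exact Or.inr (lev6_2 (by omega)) | exact Or.inr (lev6_3 (by omega)) | exact Or.inr (lev6_4 (by omega)) | exact Or.inr (lev6_5 (by omega)) | exact Or.inr (lev6_6 (by omega)))
      (by first | exact Or.inl (by omega) | exact Or.inr (lev6_1 (by omega)) | exact Or.inr (lev6_2 (by omega)) | exact Or.inr (lev6_3 (by omega)) | exact Or.inr (lev6_4 (by omega)) | exact Or.inr (lev6_5 (by omega)) | exact Or.inr (lev6_6 (by omega)))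
      (by first | exact Or.inl (by omega) | exact Or.inr (lev6_1 (by omega)) | exact Or.inr (lev6_2 (by omega)) | exact Or.inr (lev6_3 (by omega)) | exact Or.inr (lev6_4 (by omega)) | exact Or.inr (lev6_5 (by omega)) | exact Or.inr (lev6_6 (by omega)))
      (by first | exact Or.inl (by omega) | exact Or.inr (lev6_1 (by omega)) | exact Or.inr (lev6_2 (by omega)) | exact Or.inr (lev6_3 (by omega)) | exact Or.inr (lev6_4 (by omega)) | exact Or.inr (lev6_5 (by omega)) | exact Or.inr (lev6_6 (by omega)))
      (by first | exact Or.inl (by omega) | exact Or.inr (lev6_1 (by omega)) | exact Or.inr (lev6_2 (by omega)) | exact Or.inr (lev6_3 (by omega)) | exact Or.inr (lev6_4 (by omega)) | exact Or.inr (lev6_5 (by omega)) | exact Or.inr (lev6_6 (by omega)))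
      (by first | exact lev6_6 (by omega) | exact lev6_5 (by omega) | exact lev6_4 (by omega) | exact lev6_3 (by omega) | exact lev6_2 (by omega) | exact lev6_1 (by omega))
      (by omega)
    push_cast at key
    linarith
  · have key := h.ex6 hp (by omega) (d 1) (d 1 - 1) (d 1) (d 1 - 2) (d 1 - 1) (d 6) (0) (-2) (1) (-2) (J+1) 0
      (Or.inr ⟨rfl, le_rfl⟩) (by omega)
      (by first | exact Or.inl (by omega) | exact Or.inr (lev6_1 (by omega)) | exact Or.inr (lev6_2 (by omega)) | exact Or.inr (lev6_3 (by omega)) | exact Or.inr (lev6_4 (by omega)) | exact Or.inr (lev6_5 (by omega)) | exact Or.inr (lev6_6 (by omega)))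
      (by first | exact Or.inl (by omega) | exact Or.inr (lev6_1 (by omega)) | exact Or.inr (lev6_2 (by omega)) | exact Or.inr (lev6_3 (by omega)) | exact Or.inr (lev6_4 (by omega)) | exact Or.inr (lev6_5 (by omega)) | exact Or.inr (lev6_6 (by omega)))
      (by first | exact Or.inl (by omega) | exact Or.inr (lev6_1 (by omega)) | exact Or.inr (lev6_2 (by omega)) | exact Or.inr (lev6_3 (by omega)) | exact Or.inr (lev6_4 (by omega)) | exact Or.inr (lev6_5 (by omega)) | exact Or.inr (lev6_6 (by omega)))
      (by first | exact Or.inl (by omega) | exact Or.inr (lev6_1 (by omega)) | exact Or.inr (lev6_2 (by omega)) | exact Or.inr (lev6_3 (by omega)) | exact Or.inr (lev6_4 (by omega)) | exact Or.inr (lev6_5 (by omega)) | exact Or.inr (lev6_6 (by omega)))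
      (by first | exact Or.inl (by omega) | exact Or.inr (lev6_1 (by omega)) | exact Or.inr (lev6_2 (by omega)) | exact Or.inr (lev6_3 (by omega)) | exact Or.inr (lev6_4 (by omega)) | exact Or.inr (lev6_5 (by omega)) | exact Or.inr (lev6_6 (by omega)))
      (by first | exact lev6_6 (by omega) | exact lev6_5 (by omega) | exact lev6_4 (by omega) | exact lev6_3 (by omega) | exact lev6_2 (by omega) | exact lev6_1 (by omega))
      (by omega)
    push_cast at key
    linarith
  · have key := h.ex6 hp (by omega) (d 1) (d 1 - 1) (d 1) (d 1 - 2) (d 6 + 1) (d 6) (0) (-2) (1) (-2) (J+1) 0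
      (Or.inr ⟨rfl, le_rfl⟩) (by omega)
      (by first | exact Or.inl (by omega) | exact Or.inr (lev6_1 (by omega)) | exact Or.inr (lev6_2 (by omega)) | exact Or.inr (lev6_3 (by omega)) | exact Or.inr (lev6_4 (by omega)) | exact Or.inr (lev6_5 (by omega)) | exact Or.inr (lev6_6 (by omega)))
      (by first | exact Or.inl (by omega) | exact Or.inr (lev6_1 (by omega)) | exact Or.inr (lev6_2 (by omega)) | exact Or.inr (lev6_3 (by omega)) | exact Or.inr (lev6_4 (by omega)) | exact Or.inr (lev6_5 (by omega)) | exact Or.inr (lev6_6 (by omega)))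
      (by first | exact Or.inl (by omega) | exact Or.inr (lev6_1 (by omega)) | exact Or.inr (lev6_2 (by omega)) | exact Or.inr (lev6_3 (by omega)) | exact Or.inr (lev6_4 (by omega)) | exact Or.inr (lev6_5 (by omega)) | exact Or.inr (lev6_6 (by omega)))
      (by first | exact Or.inl (by omega) | exact Or.inr (lev6_1 (by omega)) | exact Or.inr (lev6_2 (by omega)) | exact Or.inr (lev6_3 (by omega)) | exact Or.inr (lev6_4 (by omega)) | exact Or.inr (lev6_5 (by omega)) | exact Or.inr (lev6_6 (by omega)))
      (by first | exact Or.inl (by omega) | exact Or.inr (lev6_1 (by omega)) | exact Or.inr (lev6_2 (by omega)) | exact Or.inr (lev6_3 (by omega)) | exact Or.inr (lev6_4 (by omega)) | exact Or.inr (lev6_5 (by omega)) | exact Or.inr (lev6_6 (by omega)))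
      (by first | exact lev6_6 (by omega) | exact lev6_5 (by omega) | exact lev6_4 (by omega) | exact lev6_3 (by omega) | exact lev6_2 (by omega) | exact lev6_1 (by omega))
      (by omega)
    push_cast at key
    linarith

theorem Good.G5 (h : Good n p d) (hp : ∀ i, 0 ≤ p i) (hn : 6 ≤ n) (J : ℤ)
    (a1 : d 4 = d 1)
    (a2 : d 5 = d 1 - 2)
    (b0 : (d 2 = d 1 - 1 ∧ d 3 = d 1 + 1) ∨ (d 2 = d 1 + 1 ∧ d 3 = d 1 - 1))
    (x0 : 1 ≤ J)
    (x1 : d 5 + J ≤ d 6)
    : (J : ℝ) * p 6 ≤ 3 * p 5 := by
  rcases b0 with ⟨b00, b01⟩ | ⟨b00, b01⟩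
  · have key := h.ex6 hp (by omega) (d 1) (d 2) (d 3) (d 4) (d 1 + 1) (d 1 - 2) 0 0 0 0 (3) (-J)
      (Or.inl (by omega)) (by omega)
      (by first | exact Or.inl (by omega) | exact Or.inr (lev6_1 (by omega)) | exact Or.inr (lev6_2 (by omega)) | exact Or.inr (lev6_3 (by omega)) | exact Or.inr (lev6_4 (by omega)) | exact Or.inr (lev6_5 (by omega)) | exact Or.inr (lev6_6 (by omega)))
      (by first | exact Or.inl (by omega) | exact Or.inr (lev6_1 (by omega)) | exact Or.inr (lev6_2 (by omega)) | exact Or.inr (lev6_3 (by omega)) | exact Or.inr (lev6_4 (by omega)) | exact Or.inr (lev6_5 (by omega)) | exact Or.inr (lev6_6 (by omega)))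
      (by first | exact Or.inl (by omega) | exact Or.inr (lev6_1 (by omega)) | exact Or.inr (lev6_2 (by omega)) | exact Or.inr (lev6_3 (by omega)) | exact Or.inr (lev6_4 (by omega)) | exact Or.inr (lev6_5 (by omega)) | exact Or.inr (lev6_6 (by omega)))
      (by first | exact Or.inl (by omega) | exact Or.inr (lev6_1 (by omega)) | exact Or.inr (lev6_2 (by omega)) | exact Or.inr (lev6_3 (by omega)) | exact Or.inr (lev6_4 (by omega)) | exact Or.inr (lev6_5 (by omega)) | exact Or.inr (lev6_6 (by omega)))
      (by first | exact Or.inl (by omega) | exact Or.inr (lev6_1 (by omega)) | exact Or.inr (lev6_2 (by omega)) | exact Or.inr (lev6_3 (by omega)) | exact Or.inr (lev6_4 (by omega)) | exact Or.inr (lev6_5 (by omega)) | exact Or.inr (lev6_6 (by omega)))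
      (by first | exact lev6_6 (by omega) | exact lev6_5 (by omega) | exact lev6_4 (by omega) | exact lev6_3 (by omega) | exact lev6_2 (by omega) | exact lev6_1 (by omega))
      (by omega)
    push_cast at key
    linarith
  · have key := h.ex6 hp (by omega) (d 1) (d 2) (d 3) (d 4) (d 1 + 1) (d 1 - 2) 0 0 0 0 (3) (-J)
      (Or.inl (by omega)) (by omega)
      (by first | exact Or.inl (by omega) | exact Or.inr (lev6_1 (by omega)) | exact Or.inr (lev6_2 (by omega)) | exact Or.inr (lev6_3 (by omega)) | exact Or.inr (lev6_4 (by omega)) | exact Or.inr (lev6_5 (by omega)) | exact Or.inr (lev6_6 (by omega)))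
      (by first | exact Or.inl (by omega) | exact Or.inr (lev6_1 (by omega)) | exact Or.inr (lev6_2 (by omega)) | exact Or.inr (lev6_3 (by omega)) | exact Or.inr (lev6_4 (by omega)) | exact Or.inr (lev6_5 (by omega)) | exact Or.inr (lev6_6 (by omega)))
      (by first | exact Or.inl (by omega) | exact Or.inr (lev6_1 (by omega)) | exact Or.inr (lev6_2 (by omega)) | exact Or.inr (lev6_3 (by omega)) | exact Or.inr (lev6_4 (by omega)) | exact Or.inr (lev6_5 (by omega)) | exact Or.inr (lev6_6 (by omega)))
      (by first | exact Or.inl (by omega) | exact Or.inr (lev6_1 (by omega)) | exact Or.inr (lev6_2 (by omega)) | exact Or.inr (lev6_3 (by omega)) | exact Or.inr (lev6_4 (by omega)) | exact Or.inr (lev6_5 (by omega)) | exact Or.inr (lev6_6 (by omega)))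
      (by first | exact Or.inl (by omega) | exact Or.inr (lev6_1 (by omega)) | exact Or.inr (lev6_2 (by omega)) | exact Or.inr (lev6_3 (by omega)) | exact Or.inr (lev6_4 (by omega)) | exact Or.inr (lev6_5 (by omega)) | exact Or.inr (lev6_6 (by omega)))
      (by first | exact lev6_6 (by omega) | exact lev6_5 (by omega) | exact lev6_4 (by omega) | exact lev6_3 (by omega) | exact lev6_2 (by omega) | exact lev6_1 (by omega))
      (by omega)
    push_cast at key
    linarith

theorem Good.G6 (h : Good n p d) (hp : ∀ i, 0 ≤ p i) (hn : 6 ≤ n) (J : ℤ)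
    (a1 : d 4 = d 1)
    (a2 : d 5 = d 1 + 1)
    (a3 : d 6 = d 1 - 2)
    (b0 : (d 2 = d 1 - 1 ∧ d 3 = d 1 + 1) ∨ (d 2 = d 1 + 1 ∧ d 3 = d 1 - 1))
    (x0 : 0 ≤ J)
    (x1 : d 7 ≤ d 6 + J)
    (sp : d 7 < d 6 ∨ d 6 < d 7)
    : 3 * p 5 ≤ ((J : ℝ) + 1) * p 6 := by
  rcases b0 with ⟨b00, b01⟩ | ⟨b00, b01⟩ <;> rcases sp with sp | sp
  · have key := h.ex7 hp (by omega) (d 1) (d 2) (d 3) (d 4) (d 1 - 2) (d 1 - 1) (d 7) 0 0 0 0 (-3) (J+1) 0
      (Or.inr ⟨rfl, le_rfl⟩) (by omega)
      (by first | exact Or.inl (by omega) | exact Or.inr (lev7_1 (by omega)) | exact Or.inr (lev7_2 (by omega)) | exact Or.inr (lev7_3 (by omega)) | exact Or.inr (lev7_4 (by omega)) | exact Or.inr (lev7_5 (by omega)) | exact Or.inr (lev7_6 (by omega)) | exact Or.inr (lev7_7 (by omega)))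
      (by first | exact Or.inl (by omega) | exact Or.inr (lev7_1 (by omega)) | exact Or.inr (lev7_2 (by omega)) | exact Or.inr (lev7_3 (by omega)) | exact Or.inr (lev7_4 (by omega)) | exact Or.inr (lev7_5 (by omega)) | exact Or.inr (lev7_6 (by omega)) | exact Or.inr (lev7_7 (by omega)))
      (by first | exact Or.inl (by omega) | exact Or.inr (lev7_1 (by omega)) | exact Or.inr (lev7_2 (by omega)) | exact Or.inr (lev7_3 (by omega)) | exact Or.inr (lev7_4 (by omega)) | exact Or.inr (lev7_5 (by omega)) | exact Or.inr (lev7_6 (by omega)) | exact Or.inr (lev7_7 (by omega)))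
      (by first | exact Or.inl (by omega) | exact Or.inr (lev7_1 (by omega)) | exact Or.inr (lev7_2 (by omega)) | exact Or.inr (lev7_3 (by omega)) | exact Or.inr (lev7_4 (by omega)) | exact Or.inr (lev7_5 (by omega)) | exact Or.inr (lev7_6 (by omega)) | exact Or.inr (lev7_7 (by omega)))
      (by first | exact Or.inl (by omega) | exact Or.inr (lev7_1 (by omega)) | exact Or.inr (lev7_2 (by omega)) | exact Or.inr (lev7_3 (by omega)) | exact Or.inr (lev7_4 (by omega)) | exact Or.inr (lev7_5 (by omega)) | exact Or.inr (lev7_6 (by omega)) | exact Or.inr (lev7_7 (by omega)))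
      (by first | exact Or.inl (by omega) | exact Or.inr (lev7_1 (by omega)) | exact Or.inr (lev7_2 (by omega)) | exact Or.inr (lev7_3 (by omega)) | exact Or.inr (lev7_4 (by omega)) | exact Or.inr (lev7_5 (by omega)) | exact Or.inr (lev7_6 (by omega)) | exact Or.inr (lev7_7 (by omega)))
      (by first | exact lev7_7 (by omega) | exact lev7_6 (by omega) | exact lev7_5 (by omega) | exact lev7_4 (by omega) | exact lev7_3 (by omega) | exact lev7_2 (by omega) | exact lev7_1 (by omega))
      (by omega)
    push_cast at key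
    linarith
  · have key := h.ex7 hp (by omega) (d 1) (d 2) (d 3) (d 4) (d 1 - 2) (d 7 + 1) (d 7) 0 0 0 0 (-3) (J+1) 0
      (Or.inr ⟨rfl, le_rfl⟩) (by omega)
      (by first | exact Or.inl (by omega) | exact Or.inr (lev7_1 (by omega)) | exact Or.inr (lev7_2 (by omega)) | exact Or.inr (lev7_3 (by omega)) | exact Or.inr (lev7_4 (by omega)) | exact Or.inr (lev7_5 (by omega)) | exact Or.inr (lev7_6 (by omega)) | exact Or.inr (lev7_7 (by omega)))
      (by first | exact Or.inl (by omega) | exact Or.inr (lev7_1 (by omega)) | exact Or.inr (lev7_2 (by omega)) | exact Or.inr (lev7_3 (by omega)) | exact Or.inr (lev7_4 (by omega)) | exact Or.inr (lev7_5 (by omega)) | exact Or.inr (lev7_6 (by omega)) | exact Or.inr (lev7_7 (by omega)))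
      (by first | exact Or.inl (by omega) | exact Or.inr (lev7_1 (by omega)) | exact Or.inr (lev7_2 (by omega)) | exact Or.inr (lev7_3 (by omega)) | exact Or.inr (lev7_4 (by omega)) | exact Or.inr (lev7_5 (by omega)) | exact Or.inr (lev7_6 (by omega)) | exact Or.inr (lev7_7 (by omega)))
      (by first | exact Or.inl (by omega) | exact Or.inr (lev7_1 (by omega)) | exact Or.inr (lev7_2 (by omega)) | exact Or.inr (lev7_3 (by omega)) | exact Or.inr (lev7_4 (by omega)) | exact Or.inr (lev7_5 (by omega)) | exact Or.inr (lev7_6 (by omega)) | exact Or.inr (lev7_7 (by omega)))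
      (by first | exact Or.inl (by omega) | exact Or.inr (lev7_1 (by omega)) | exact Or.inr (lev7_2 (by omega)) | exact Or.inr (lev7_3 (by omega)) | exact Or.inr (lev7_4 (by omega)) | exact Or.inr (lev7_5 (by omega)) | exact Or.inr (lev7_6 (by omega)) | exact Or.inr (lev7_7 (by omega)))
      (by first | exact Or.inl (by omega) | exact Or.inr (lev7_1 (by omega)) | exact Or.inr (lev7_2 (by omega)) | exact Or.inr (lev7_3 (by omega)) | exact Or.inr (lev7_4 (by omega)) | exact Or.inr (lev7_5 (by omega)) | exact Or.inr (lev7_6 (by omega)) | exact Or.inr (lev7_7 (by omega)))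
      (by first | exact lev7_7 (by omega) | exact lev7_6 (by omega) | exact lev7_5 (by omega) | exact lev7_4 (by omega) | exact lev7_3 (by omega) | exact lev7_2 (by omega) | exact lev7_1 (by omega))
      (by omega)
    push_cast at key
    linarith
  · have key := h.ex7 hp (by omega) (d 1) (d 2) (d 3) (d 4) (d 1 - 2) (d 1 - 1) (d 7) 0 0 0 0 (-3) (J+1) 0
      (Or.inr ⟨rfl, le_rfl⟩) (by omega)
      (by first | exact Or.inl (by omega) | exact Or.inr (lev7_1 (by omega)) | exact Or.inr (lev7_2 (by omega)) | exact Or.inr (lev7_3 (by omega)) | exact Or.inr (lev7_4 (by omega)) | exact Or.inr (lev7_5 (by omega)) | exact Or.inr (lev7_6 (by omega)) | exact Or.inr (lev7_7 (by omega)))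
      (by first | exact Or.inl (by omega) | exact Or.inr (lev7_1 (by omega)) | exact Or.inr (lev7_2 (by omega)) | exact Or.inr (lev7_3 (by omega)) | exact Or.inr (lev7_4 (by omega)) | exact Or.inr (lev7_5 (by omega)) | exact Or.inr (lev7_6 (by omega)) | exact Or.inr (lev7_7 (by omega)))
      (by first | exact Or.inl (by omega) | exact Or.inr (lev7_1 (by omega)) | exact Or.inr (lev7_2 (by omega)) | exact Or.inr (lev7_3 (by omega)) | exact Or.inr (lev7_4 (by omega)) | exact Or.inr (lev7_5 (by omega)) | exact Or.inr (lev7_6 (by omega)) | exact Or.inr (lev7_7 (by omega)))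
      (by first | exact Or.inl (by omega) | exact Or.inr (lev7_1 (by omega)) | exact Or.inr (lev7_2 (by omega)) | exact Or.inr (lev7_3 (by omega)) | exact Or.inr (lev7_4 (by omega)) | exact Or.inr (lev7_5 (by omega)) | exact Or.inr (lev7_6 (by omega)) | exact Or.inr (lev7_7 (by omega)))
      (by first | exact Or.inl (by omega) | exact Or.inr (lev7_1 (by omega)) | exact Or.inr (lev7_2 (by omega)) | exact Or.inr (lev7_3 (by omega)) | exact Or.inr (lev7_4 (by omega)) | exact Or.inr (lev7_5 (by omega)) | exact Or.inr (lev7_6 (by omega)) | exact Or.inr (lev7_7 (by omega)))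
      (by first | exact Or.inl (by omega) | exact Or.inr (lev7_1 (by omega)) | exact Or.inr (lev7_2 (by omega)) | exact Or.inr (lev7_3 (by omega)) | exact Or.inr (lev7_4 (by omega)) | exact Or.inr (lev7_5 (by omega)) | exact Or.inr (lev7_6 (by omega)) | exact Or.inr (lev7_7 (by omega)))
      (by first | exact lev7_7 (by omega) | exact lev7_6 (by omega) | exact lev7_5 (by omega) | exact lev7_4 (by omega) | exact lev7_3 (by omega) | exact lev7_2 (by omega) | exact lev7_1 (by omega))
      (by omega)
    push_cast at key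
    linarith
  · have key := h.ex7 hp (by omega) (d 1) (d 2) (d 3) (d 4) (d 1 - 2) (d 7 + 1) (d 7) 0 0 0 0 (-3) (J+1) 0
      (Or.inr ⟨rfl, le_rfl⟩) (by omega)
      (by first | exact Or.inl (by omega) | exact Or.inr (lev7_1 (by omega)) | exact Or.inr (lev7_2 (by omega)) | exact Or.inr (lev7_3 (by omega)) | exact Or.inr (lev7_4 (by omega)) | exact Or.inr (lev7_5 (by omega)) | exact Or.inr (lev7_6 (by omega)) | exact Or.inr (lev7_7 (by omega)))
      (by first | exact Or.inl (by omega) | exact Or.inr (lev7_1 (by omega)) | exact Or.inr (lev7_2 (by omega)) | exact Or.inr (lev7_3 (by omega)) | exact Or.inr (lev7_4 (by omega)) | exact Or.inr (lev7_5 (by omega)) | exact Or.inr (lev7_6 (by omega)) | exact Or.inr (lev7_7 (by omega)))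
      (by first | exact Or.inl (by omega) | exact Or.inr (lev7_1 (by omega)) | exact Or.inr (lev7_2 (by omega)) | exact Or.inr (lev7_3 (by omega)) | exact Or.inr (lev7_4 (by omega)) | exact Or.inr (lev7_5 (by omega)) | exact Or.inr (lev7_6 (by omega)) | exact Or.inr (lev7_7 (by omega)))
      (by first | exact Or.inl (by omega) | exact Or.inr (lev7_1 (by omega)) | exact Or.inr (lev7_2 (by omega)) | exact Or.inr (lev7_3 (by omega)) | exact Or.inr (lev7_4 (by omega)) | exact Or.inr (lev7_5 (by omega)) | exact Or.inr (lev7_6 (by omega)) | exact Or.inr (lev7_7 (by omega)))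
      (by first | exact Or.inl (by omega) | exact Or.inr (lev7_1 (by omega)) | exact Or.inr (lev7_2 (by omega)) | exact Or.inr (lev7_3 (by omega)) | exact Or.inr (lev7_4 (by omega)) | exact Or.inr (lev7_5 (by omega)) | exact Or.inr (lev7_6 (by omega)) | exact Or.inr (lev7_7 (by omega)))
      (by first | exact Or.inl (by omega) | exact Or.inr (lev7_1 (by omega)) | exact Or.inr (lev7_2 (by omega)) | exact Or.inr (lev7_3 (by omega)) | exact Or.inr (lev7_4 (by omega)) | exact Or.inr (lev7_5 (by omega)) | exact Or.inr (lev7_6 (by omega)) | exact Or.inr (lev7_7 (by omega)))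
      (by first | exact lev7_7 (by omega) | exact lev7_6 (by omega) | exact lev7_5 (by omega) | exact lev7_4 (by omega) | exact lev7_3 (by omega) | exact lev7_2 (by omega) | exact lev7_1 (by omega))
      (by omega)
    push_cast at key
    linarith

theorem Good.H1 (h : Good n p d) (hp : ∀ i, 0 ≤ p i) (hn : 4 ≤ n) (hr : p 1 = 2 * p 2)
    (b0 : (d 1 = d 3 ∧ d 2 = d 3 - 1) ∨ (d 1 = d 3 - 1 ∧ d 2 = d 3 + 1))
    (x0 : d 3 < d 4)
    : p 3 + p 4 ≤ 2 * p 2 := by
  rcases b0 with ⟨b00, b01⟩ | ⟨b00, b01⟩
  · have key := h.ex4 hp (by omega) (d 3) (d 3 + 1) (d 3 - 1) (d 3) (0) (2) (-1) (-1)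
      (Or.inl (by omega)) (by omega)
      (by first | exact Or.inl (by omega) | exact Or.inr (lev4_1 (by omega)) | exact Or.inr (lev4_2 (by omega)) | exact Or.inr (lev4_3 (by omega)) | exact Or.inr (lev4_4 (by omega)))
      (by first | exact Or.inl (by omega) | exact Or.inr (lev4_1 (by omega)) | exact Or.inr (lev4_2 (by omega)) | exact Or.inr (lev4_3 (by omega)) | exact Or.inr (lev4_4 (by omega)))
      (by first | exact Or.inl (by omega) | exact Or.inr (lev4_1 (by omega)) | exact Or.inr (lev4_2 (by omega)) | exact Or.inr (lev4_3 (by omega)) | exact Or.inr (lev4_4 (by omega)))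
      (by first | exact lev4_4 (by omega) | exact lev4_3 (by omega) | exact lev4_2 (by omega) | exact lev4_1 (by omega))
      (by omega)
    push_cast at key
    linarith
  · have key := h.ex4 hp (by omega) (d 3) (d 3 + 1) (d 3 - 1) (d 3) (1) (0) (-1) (-1)
      (Or.inl (by omega)) (by omega)
      (by first | exact Or.inl (by omega) | exact Or.inr (lev4_1 (by omega)) | exact Or.inr (lev4_2 (by omega)) | exact Or.inr (lev4_3 (by omega)) | exact Or.inr (lev4_4 (by omega)))
      (by first | exact Or.inl (by omega) | exact Or.inr (lev4_1 (by omega)) | exact Or.inr (lev4_2 (by omega)) | exact Or.inr (lev4_3 (by omega)) | exact Or.inr (lev4_4 (by omega)))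
      (by first | exact Or.inl (by omega) | exact Or.inr (lev4_1 (by omega)) | exact Or.inr (lev4_2 (by omega)) | exact Or.inr (lev4_3 (by omega)) | exact Or.inr (lev4_4 (by omega)))
      (by first | exact lev4_4 (by omega) | exact lev4_3 (by omega) | exact lev4_2 (by omega) | exact lev4_1 (by omega))
      (by omega)
    push_cast at key
    linarith

theorem Good.H2 (h : Good n p d) (hp : ∀ i, 0 ≤ p i) (hn : 5 ≤ n) (hr : p 1 = 2 * p 2)
    (b0 : (d 1 = d 3 ∧ d 2 = d 3 - 1) ∨ (d 1 = d 3 - 1 ∧ d 2 = d 3 + 1))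
    (x0 : d 3 < d 4)
    (x1 : d 3 < d 5)
    (sp : d 4 < d 5 ∨ d 5 < d 4)
    : p 3 + p 4 + p 5 ≤ 2 * p 2 := by
  rcases b0 with ⟨b00, b01⟩ | ⟨b00, b01⟩ <;> rcases sp with sp | sp
  · have key := h.ex5 hp (by omega) (d 3) (d 3 + 1) (d 3 - 1) (d 3) (d 4) (0) (2) (-1) (-1) (-1)
      (Or.inl (by omega)) (by omega)
      (by first | exact Or.inl (by omega) | exact Or.inr (lev5_1 (by omega)) | exact Or.inr (lev5_2 (by omega)) | exact Or.inr (lev5_3 (by omega)) | exact Or.inr (lev5_4 (by omega)) | exact Or.inr (lev5_5 (by omega)))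
      (by first | exact Or.inl (by omega) | exact Or.inr (lev5_1 (by omega)) | exact Or.inr (lev5_2 (by omega)) | exact Or.inr (lev5_3 (by omega)) | exact Or.inr (lev5_4 (by omega)) | exact Or.inr (lev5_5 (by omega)))
      (by first | exact Or.inl (by omega) | exact Or.inr (lev5_1 (by omega)) | exact Or.inr (lev5_2 (by omega)) | exact Or.inr (lev5_3 (by omega)) | exact Or.inr (lev5_4 (by omega)) | exact Or.inr (lev5_5 (by omega)))
      (by first | exact Or.inl (by omega) | exact Or.inr (lev5_1 (by omega)) | exact Or.inr (lev5_2 (by omega)) | exact Or.inr (lev5_3 (by omega)) | exact Or.inr (lev5_4 (by omega)) | exact Or.inr (lev5_5 (by omega)))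
      (by first | exact lev5_5 (by omega) | exact lev5_4 (by omega) | exact lev5_3 (by omega) | exact lev5_2 (by omega) | exact lev5_1 (by omega))
      (by omega)
    push_cast at key
    linarith
  · have key := h.ex5 hp (by omega) (d 3) (d 3 + 1) (d 3 - 1) (d 3 + 1) (d 3) (0) (2) (-1) (-1) (-1)
      (Or.inl (by omega)) (by omega)
      (by first | exact Or.inl (by omega) | exact Or.inr (lev5_1 (by omega)) | exact Or.inr (lev5_2 (by omega)) | exact Or.inr (lev5_3 (by omega)) | exact Or.inr (lev5_4 (by omega)) | exact Or.inr (lev5_5 (by omega)))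
      (by first | exact Or.inl (by omega) | exact Or.inr (lev5_1 (by omega)) | exact Or.inr (lev5_2 (by omega)) | exact Or.inr (lev5_3 (by omega)) | exact Or.inr (lev5_4 (by omega)) | exact Or.inr (lev5_5 (by omega)))
      (by first | exact Or.inl (by omega) | exact Or.inr (lev5_1 (by omega)) | exact Or.inr (lev5_2 (by omega)) | exact Or.inr (lev5_3 (by omega)) | exact Or.inr (lev5_4 (by omega)) | exact Or.inr (lev5_5 (by omega)))
      (by first | exact Or.inl (by omega) | exact Or.inr (lev5_1 (by omega)) | exact Or.inr (lev5_2 (by omega)) | exact Or.inr (lev5_3 (by omega)) | exact Or.inr (lev5_4 (by omega)) | exact Or.inr (lev5_5 (by omega)))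
      (by first | exact lev5_5 (by omega) | exact lev5_4 (by omega) | exact lev5_3 (by omega) | exact lev5_2 (by omega) | exact lev5_1 (by omega))
      (by omega)
    push_cast at key
    linarith
  · have key := h.ex5 hp (by omega) (d 3) (d 3 + 1) (d 3 - 1) (d 3) (d 4) (1) (0) (-1) (-1) (-1)
      (Or.inl (by omega)) (by omega)
      (by first | exact Or.inl (by omega) | exact Or.inr (lev5_1 (by omega)) | exact Or.inr (lev5_2 (by omega)) | exact Or.inr (lev5_3 (by omega)) | exact Or.inr (lev5_4 (by omega)) | exact Or.inr (lev5_5 (by omega)))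
      (by first | exact Or.inl (by omega) | exact Or.inr (lev5_1 (by omega)) | exact Or.inr (lev5_2 (by omega)) | exact Or.inr (lev5_3 (by omega)) | exact Or.inr (lev5_4 (by omega)) | exact Or.inr (lev5_5 (by omega)))
      (by first | exact Or.inl (by omega) | exact Or.inr (lev5_1 (by omega)) | exact Or.inr (lev5_2 (by omega)) | exact Or.inr (lev5_3 (by omega)) | exact Or.inr (lev5_4 (by omega)) | exact Or.inr (lev5_5 (by omega)))
      (by first | exact Or.inl (by omega) | exact Or.inr (lev5_1 (by omega)) | exact Or.inr (lev5_2 (by omega)) | exact Or.inr (lev5_3 (by omega)) | exact Or.inr (lev5_4 (by omega)) | exact Or.inr (lev5_5 (by omega)))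
      (by first | exact lev5_5 (by omega) | exact lev5_4 (by omega) | exact lev5_3 (by omega) | exact lev5_2 (by omega) | exact lev5_1 (by omega))
      (by omega)
    push_cast at key
    linarith
  · have key := h.ex5 hp (by omega) (d 3) (d 3 + 1) (d 3 - 1) (d 3 + 1) (d 3) (1) (0) (-1) (-1) (-1)
      (Or.inl (by omega)) (by omega)
      (by first | exact Or.inl (by omega) | exact Or.inr (lev5_1 (by omega)) | exact Or.inr (lev5_2 (by omega)) | exact Or.inr (lev5_3 (by omega)) | exact Or.inr (lev5_4 (by omega)) | exact Or.inr (lev5_5 (by omega)))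
      (by first | exact Or.inl (by omega) | exact Or.inr (lev5_1 (by omega)) | exact Or.inr (lev5_2 (by omega)) | exact Or.inr (lev5_3 (by omega)) | exact Or.inr (lev5_4 (by omega)) | exact Or.inr (lev5_5 (by omega)))
      (by first | exact Or.inl (by omega) | exact Or.inr (lev5_1 (by omega)) | exact Or.inr (lev5_2 (by omega)) | exact Or.inr (lev5_3 (by omega)) | exact Or.inr (lev5_4 (by omega)) | exact Or.inr (lev5_5 (by omega)))
      (by first | exact Or.inl (by omega) | exact Or.inr (lev5_1 (by omega)) | exact Or.inr (lev5_2 (by omega)) | exact Or.inr (lev5_3 (by omega)) | exact Or.inr (lev5_4 (by omega)) | exact Or.inr (lev5_5 (by omega)))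
      (by first | exact lev5_5 (by omega) | exact lev5_4 (by omega) | exact lev5_3 (by omega) | exact lev5_2 (by omega) | exact lev5_1 (by omega))
      (by omega)
    push_cast at key
    linarith

theorem Good.H3 (h : Good n p d) (hp : ∀ i, 0 ≤ p i) (hn : 5 ≤ n) (hr : p 1 = 2 * p 2) (J : ℤ)
    (a1 : d 4 = d 3 - 2)
    (b0 : (d 1 = d 3 ∧ d 2 = d 3 - 1) ∨ (d 1 = d 3 - 1 ∧ d 2 = d 3 + 1))
    (x0 : 0 ≤ J)
    (x1 : d 5 ≤ d 4 + J)
    (sp : d 5 < d 4 ∨ d 4 < d 5)
    : p 2 + 2 * p 3 ≤ ((J : ℝ) + 1) * p 4 := by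
  rcases b0 with ⟨b00, b01⟩ | ⟨b00, b01⟩ <;> rcases sp with sp | sp
  · have key := h.ex5 hp (by omega) (d 3 - 1) (d 3) (d 3 - 2) (d 3 - 1) (d 5) (-1) (1) (-2) (J+1) 0
      (Or.inl (by omega)) (by omega)
      (by first | exact Or.inl (by omega) | exact Or.inr (lev5_1 (by omega)) | exact Or.inr (lev5_2 (by omega)) | exact Or.inr (lev5_3 (by omega)) | exact Or.inr (lev5_4 (by omega)) | exact Or.inr (lev5_5 (by omega)))
      (by first | exact Or.inl (by omega) | exact Or.inr (lev5_1 (by omega)) | exact Or.inr (lev5_2 (by omega)) | exact Or.inr (lev5_3 (by omega)) | exact Or.inr (lev5_4 (by omega)) | exact Or.inr (lev5_5 (by omega)))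
      (by first | exact Or.inl (by omega) | exact Or.inr (lev5_1 (by omega)) | exact Or.inr (lev5_2 (by omega)) | exact Or.inr (lev5_3 (by omega)) | exact Or.inr (lev5_4 (by omega)) | exact Or.inr (lev5_5 (by omega)))
      (by first | exact Or.inl (by omega) | exact Or.inr (lev5_1 (by omega)) | exact Or.inr (lev5_2 (by omega)) | exact Or.inr (lev5_3 (by omega)) | exact Or.inr (lev5_4 (by omega)) | exact Or.inr (lev5_5 (by omega)))
      (by first | exact lev5_5 (by omega) | exact lev5_4 (by omega) | exact lev5_3 (by omega) | exact lev5_2 (by omega) | exact lev5_1 (by omega))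
      (by omega)
    push_cast at key
    linarith
  · have key := h.ex5 hp (by omega) (d 3 - 1) (d 3) (d 3 - 2) (d 5 + 1) (d 5) (-1) (1) (-2) (J+1) 0
      (Or.inl (by omega)) (by omega)
      (by first | exact Or.inl (by omega) | exact Or.inr (lev5_1 (by omega)) | exact Or.inr (lev5_2 (by omega)) | exact Or.inr (lev5_3 (by omega)) | exact Or.inr (lev5_4 (by omega)) | exact Or.inr (lev5_5 (by omega)))
      (by first | exact Or.inl (by omega) | exact Or.inr (lev5_1 (by omega)) | exact Or.inr (lev5_2 (by omega)) | exact Or.inr (lev5_3 (by omega)) | exact Or.inr (lev5_4 (by omega)) | exact Or.inr (lev5_5 (by omega)))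
      (by first | exact Or.inl (by omega) | exact Or.inr (lev5_1 (by omega)) | exact Or.inr (lev5_2 (by omega)) | exact Or.inr (lev5_3 (by omega)) | exact Or.inr (lev5_4 (by omega)) | exact Or.inr (lev5_5 (by omega)))
      (by first | exact Or.inl (by omega) | exact Or.inr (lev5_1 (by omega)) | exact Or.inr (lev5_2 (by omega)) | exact Or.inr (lev5_3 (by omega)) | exact Or.inr (lev5_4 (by omega)) | exact Or.inr (lev5_5 (by omega)))
      (by first | exact lev5_5 (by omega) | exact lev5_4 (by omega) | exact lev5_3 (by omega) | exact lev5_2 (by omega) | exact lev5_1 (by omega))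
      (by omega)
    push_cast at key
    linarith
  · have key := h.ex5 hp (by omega) (d 3 - 1) (d 3) (d 3 - 2) (d 3 - 1) (d 5) (0) (-1) (-2) (J+1) 0
      (Or.inl (by omega)) (by omega)
      (by first | exact Or.inl (by omega) | exact Or.inr (lev5_1 (by omega)) | exact Or.inr (lev5_2 (by omega)) | exact Or.inr (lev5_3 (by omega)) | exact Or.inr (lev5_4 (by omega)) | exact Or.inr (lev5_5 (by omega)))
      (by first | exact Or.inl (by omega) | exact Or.inr (lev5_1 (by omega)) | exact Or.inr (lev5_2 (by omega)) | exact Or.inr (lev5_3 (by omega)) | exact Or.inr (lev5_4 (by omega)) | exact Or.inr (lev5_5 (by omega)))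
      (by first | exact Or.inl (by omega) | exact Or.inr (lev5_1 (by omega)) | exact Or.inr (lev5_2 (by omega)) | exact Or.inr (lev5_3 (by omega)) | exact Or.inr (lev5_4 (by omega)) | exact Or.inr (lev5_5 (by omega)))
      (by first | exact Or.inl (by omega) | exact Or.inr (lev5_1 (by omega)) | exact Or.inr (lev5_2 (by omega)) | exact Or.inr (lev5_3 (by omega)) | exact Or.inr (lev5_4 (by omega)) | exact Or.inr (lev5_5 (by omega)))
      (by first | exact lev5_5 (by omega) | exact lev5_4 (by omega) | exact lev5_3 (by omega) | exact lev5_2 (by omega) | exact lev5_1 (by omega))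
      (by omega)
    push_cast at key
    linarith
  · have key := h.ex5 hp (by omega) (d 3 - 1) (d 3) (d 3 - 2) (d 5 + 1) (d 5) (0) (-1) (-2) (J+1) 0
      (Or.inl (by omega)) (by omega)
      (by first | exact Or.inl (by omega) | exact Or.inr (lev5_1 (by omega)) | exact Or.inr (lev5_2 (by omega)) | exact Or.inr (lev5_3 (by omega)) | exact Or.inr (lev5_4 (by omega)) | exact Or.inr (lev5_5 (by omega)))
      (by first | exact Or.inl (by omega) | exact Or.inr (lev5_1 (by omega)) | exact Or.inr (lev5_2 (by omega)) | exact Or.inr (lev5_3 (by omega)) | exact Or.inr (lev5_4 (by omega)) | exact Or.inr (lev5_5 (by omega)))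
      (by first | exact Or.inl (by omega) | exact Or.inr (lev5_1 (by omega)) | exact Or.inr (lev5_2 (by omega)) | exact Or.inr (lev5_3 (by omega)) | exact Or.inr (lev5_4 (by omega)) | exact Or.inr (lev5_5 (by omega)))
      (by first | exact Or.inl (by omega) | exact Or.inr (lev5_1 (by omega)) | exact Or.inr (lev5_2 (by omega)) | exact Or.inr (lev5_3 (by omega)) | exact Or.inr (lev5_4 (by omega)) | exact Or.inr (lev5_5 (by omega)))
      (by first | exact lev5_5 (by omega) | exact lev5_4 (by omega) | exact lev5_3 (by omega) | exact lev5_2 (by omega) | exact lev5_1 (by omega))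
      (by omega)
    push_cast at key
    linarith

theorem Good.H4 (h : Good n p d) (hp : ∀ i, 0 ≤ p i) (hn : 4 ≤ n) (hr : p 1 = 2 * p 2) (J : ℤ)
    (a1 : d 1 = d 3 + 1)
    (a2 : d 2 = d 3 + 2)
    (x0 : 1 ≤ J)
    (x1 : d 3 + J ≤ d 4)
    : (J : ℝ) * p 4 ≤ p 2 + 2 * p 3 := by
  have key := h.ex4 hp (by omega) (d 3 + 2) (d 3 + 1) (d 3 + 2) (d 3) (1) (-1) (2) (-J)
    (Or.inl (by omega)) (by omega)
    (by first | exact Or.inl (by omega) | exact Or.inr (lev4_1 (by omega)) | exact Or.inr (lev4_2 (by omega)) | exact Or.inr (lev4_3 (by omega)) | exact Or.inr (lev4_4 (by omega)))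
    (by first | exact Or.inl (by omega) | exact Or.inr (lev4_1 (by omega)) | exact Or.inr (lev4_2 (by omega)) | exact Or.inr (lev4_3 (by omega)) | exact Or.inr (lev4_4 (by omega)))
    (by first | exact Or.inl (by omega) | exact Or.inr (lev4_1 (by omega)) | exact Or.inr (lev4_2 (by omega)) | exact Or.inr (lev4_3 (by omega)) | exact Or.inr (lev4_4 (by omega)))
    (by first | exact lev4_4 (by omega) | exact lev4_3 (by omega) | exact lev4_2 (by omega) | exact lev4_1 (by omega))
    (by omega)
  push_cast at key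
  linarith

theorem Good.H5 (h : Good n p d) (hp : ∀ i, 0 ≤ p i) (hn : 4 ≤ n) (hr : p 1 = 2 * p 2)
    (a1 : d 1 = d 3 + 1)
    (a2 : d 2 = d 3 + 2)
    (a3 : d 4 = d 3 - 1)
    : 2 * p 2 ≤ p 3 := by
  have key := h.ex4 hp (by omega) (d 3 + 1) (d 3) (d 3 + 1) (d 4) (0) (-2) (1) 0
    (Or.inl (by omega)) (by omega)
    (by first | exact Or.inl (by omega) | exact Or.inr (lev4_1 (by omega)) | exact Or.inr (lev4_2 (by omega)) | exact Or.inr (lev4_3 (by omega)) | exact Or.inr (lev4_4 (by omega)))
    (by first | exact Or.inl (by omega) | exact Or.inr (lev4_1 (by omega)) | exact Or.inr (lev4_2 (by omega)) | exact Or.inr (lev4_3 (by omega)) | exact Or.inr (lev4_4 (by omega)))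
    (by first | exact Or.inl (by omega) | exact Or.inr (lev4_1 (by omega)) | exact Or.inr (lev4_2 (by omega)) | exact Or.inr (lev4_3 (by omega)) | exact Or.inr (lev4_4 (by omega)))
    (by first | exact lev4_4 (by omega) | exact lev4_3 (by omega) | exact lev4_2 (by omega) | exact lev4_1 (by omega))
    (by omega)
  push_cast at key
  linarith

theorem Good.H6 (h : Good n p d) (hp : ∀ i, 0 ≤ p i) (hn : 5 ≤ n) (hr : p 1 = 2 * p 2)
    (a1 : d 1 = d 3 + 1)
    (a2 : d 2 = d 3 + 2)
    (a3 : d 4 = d 3 + 1)
    (a4 : d 5 = d 3 - 1)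
    : 2 * p 2 ≤ p 3 + p 4 := by
  have key := h.ex5 hp (by omega) (d 3 + 1) (d 3) (d 3 + 1) (d 3 + 2) (d 5) (0) (-2) (1) (1) 0
    (Or.inl (by omega)) (by omega)
    (by first | exact Or.inl (by omega) | exact Or.inr (lev5_1 (by omega)) | exact Or.inr (lev5_2 (by omega)) | exact Or.inr (lev5_3 (by omega)) | exact Or.inr (lev5_4 (by omega)) | exact Or.inr (lev5_5 (by omega)))
    (by first | exact Or.inl (by omega) | exact Or.inr (lev5_1 (by omega)) | exact Or.inr (lev5_2 (by omega)) | exact Or.inr (lev5_3 (by omega)) | exact Or.inr (lev5_4 (by omega)) | exact Or.inr (lev5_5 (by omega)))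
    (by first | exact Or.inl (by omega) | exact Or.inr (lev5_1 (by omega)) | exact Or.inr (lev5_2 (by omega)) | exact Or.inr (lev5_3 (by omega)) | exact Or.inr (lev5_4 (by omega)) | exact Or.inr (lev5_5 (by omega)))
    (by first | exact Or.inl (by omega) | exact Or.inr (lev5_1 (by omega)) | exact Or.inr (lev5_2 (by omega)) | exact Or.inr (lev5_3 (by omega)) | exact Or.inr (lev5_4 (by omega)) | exact Or.inr (lev5_5 (by omega)))
    (by first | exact lev5_5 (by omega) | exact lev5_4 (by omega) | exact lev5_3 (by omega) | exact lev5_2 (by omega) | exact lev5_1 (by omega))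
    (by omega)
  push_cast at key
  linarith

theorem Good.H7 (h : Good n p d) (hp : ∀ i, 0 ≤ p i) (hn : 5 ≤ n) (J : ℤ)
    (a1 : d 4 = d 3 + 1)
    (a2 : d 5 = d 3 - 2)
    (b0 : (d 1 = d 3 ∧ d 2 = d 3 - 1) ∨ (d 1 = d 3 - 1 ∧ d 2 = d 3 + 1))
    (x0 : 0 ≤ J)
    (x1 : d 6 ≤ d 5 + J)
    (sp : d 6 < d 5 ∨ d 5 < d 6)
    : 3 * p 4 ≤ ((J : ℝ) + 1) * p 5 := by
  rcases b0 with ⟨b00, b01⟩ | ⟨b00, b01⟩ <;> rcases sp with sp | sp
  · have key := h.ex6 hp (by omega) (d 1) (d 2) (d 3) (d 3 - 2) (d 3 - 1) (d 6) 0 0 0 (-3) (J+1) 0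
      (Or.inr ⟨rfl, le_rfl⟩) (by omega)
      (by first | exact Or.inl (by omega) | exact Or.inr (lev6_1 (by omega)) | exact Or.inr (lev6_2 (by omega)) | exact Or.inr (lev6_3 (by omega)) | exact Or.inr (lev6_4 (by omega)) | exact Or.inr (lev6_5 (by omega)) | exact Or.inr (lev6_6 (by omega)))
      (by first | exact Or.inl (by omega) | exact Or.inr (lev6_1 (by omega)) | exact Or.inr (lev6_2 (by omega)) | exact Or.inr (lev6_3 (by omega)) | exact Or.inr (lev6_4 (by omega)) | exact Or.inr (lev6_5 (by omega)) | exact Or.inr (lev6_6 (by omega)))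
      (by first | exact Or.inl (by omega) | exact Or.inr (lev6_1 (by omega)) | exact Or.inr (lev6_2 (by omega)) | exact Or.inr (lev6_3 (by omega)) | exact Or.inr (lev6_4 (by omega)) | exact Or.inr (lev6_5 (by omega)) | exact Or.inr (lev6_6 (by omega)))
      (by first | exact Or.inl (by omega) | exact Or.inr (lev6_1 (by omega)) | exact Or.inr (lev6_2 (by omega)) | exact Or.inr (lev6_3 (by omega)) | exact Or.inr (lev6_4 (by omega)) | exact Or.inr (lev6_5 (by omega)) | exact Or.inr (lev6_6 (by omega)))
      (by first | exact Or.inl (by omega) | exact Or.inr (lev6_1 (by omega)) | exact Or.inr (lev6_2 (by omega)) | exact Or.inr (lev6_3 (by omega)) | exact Or.inr (lev6_4 (by omega)) | exact Or.inr (lev6_5 (by omega)) | exact Or.inr (lev6_6 (by omega)))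
      (by first | exact lev6_6 (by omega) | exact lev6_5 (by omega) | exact lev6_4 (by omega) | exact lev6_3 (by omega) | exact lev6_2 (by omega) | exact lev6_1 (by omega))
      (by omega)
    push_cast at key
    linarith
  · have key := h.ex6 hp (by omega) (d 1) (d 2) (d 3) (d 3 - 2) (d 6 + 1) (d 6) 0 0 0 (-3) (J+1) 0
      (Or.inr ⟨rfl, le_rfl⟩) (by omega)
      (by first | exact Or.inl (by omega) | exact Or.inr (lev6_1 (by omega)) | exact Or.inr (lev6_2 (by omega)) | exact Or.inr (lev6_3 (by omega)) | exact Or.inr (lev6_4 (by omega)) | exact Or.inr (lev6_5 (by omega)) | exact Or.inr (lev6_6 (by omega)))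
      (by first | exact Or.inl (by omega) | exact Or.inr (lev6_1 (by omega)) | exact Or.inr (lev6_2 (by omega)) | exact Or.inr (lev6_3 (by omega)) | exact Or.inr (lev6_4 (by omega)) | exact Or.inr (lev6_5 (by omega)) | exact Or.inr (lev6_6 (by omega)))
      (by first | exact Or.inl (by omega) | exact Or.inr (lev6_1 (by omega)) | exact Or.inr (lev6_2 (by omega)) | exact Or.inr (lev6_3 (by omega)) | exact Or.inr (lev6_4 (by omega)) | exact Or.inr (lev6_5 (by omega)) | exact Or.inr (lev6_6 (by omega)))
      (by first | exact Or.inl (by omega) | exact Or.inr (lev6_1 (by omega)) | exact Or.inr (lev6_2 (by omega)) | exact Or.inr (lev6_3 (by omega)) | exact Or.inr (lev6_4 (by omega)) | exact Or.inr (lev6_5 (by omega)) | exact Or.inr (lev6_6 (by omega)))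
      (by first | exact Or.inl (by omega) | exact Or.inr (lev6_1 (by omega)) | exact Or.inr (lev6_2 (by omega)) | exact Or.inr (lev6_3 (by omega)) | exact Or.inr (lev6_4 (by omega)) | exact Or.inr (lev6_5 (by omega)) | exact Or.inr (lev6_6 (by omega)))
      (by first | exact lev6_6 (by omega) | exact lev6_5 (by omega) | exact lev6_4 (by omega) | exact lev6_3 (by omega) | exact lev6_2 (by omega) | exact lev6_1 (by omega))
      (by omega)
    push_cast at key
    linarith
  · have key := h.ex6 hp (by omega) (d 1) (d 2) (d 3) (d 3 - 2) (d 3 - 1) (d 6) 0 0 0 (-3) (J+1) 0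
      (Or.inr ⟨rfl, le_rfl⟩) (by omega)
      (by first | exact Or.inl (by omega) | exact Or.inr (lev6_1 (by omega)) | exact Or.inr (lev6_2 (by omega)) | exact Or.inr (lev6_3 (by omega)) | exact Or.inr (lev6_4 (by omega)) | exact Or.inr (lev6_5 (by omega)) | exact Or.inr (lev6_6 (by omega)))
      (by first | exact Or.inl (by omega) | exact Or.inr (lev6_1 (by omega)) | exact Or.inr (lev6_2 (by omega)) | exact Or.inr (lev6_3 (by omega)) | exact Or.inr (lev6_4 (by omega)) | exact Or.inr (lev6_5 (by omega)) | exact Or.inr (lev6_6 (by omega)))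
      (by first | exact Or.inl (by omega) | exact Or.inr (lev6_1 (by omega)) | exact Or.inr (lev6_2 (by omega)) | exact Or.inr (lev6_3 (by omega)) | exact Or.inr (lev6_4 (by omega)) | exact Or.inr (lev6_5 (by omega)) | exact Or.inr (lev6_6 (by omega)))
      (by first | exact Or.inl (by omega) | exact Or.inr (lev6_1 (by omega)) | exact Or.inr (lev6_2 (by omega)) | exact Or.inr (lev6_3 (by omega)) | exact Or.inr (lev6_4 (by omega)) | exact Or.inr (lev6_5 (by omega)) | exact Or.inr (lev6_6 (by omega)))
      (by first | exact Or.inl (by omega) | exact Or.inr (lev6_1 (by omega)) | exact Or.inr (lev6_2 (by omega)) | exact Or.inr (lev6_3 (by omega)) | exact Or.inr (lev6_4 (by omega)) | exact Or.inr (lev6_5 (by omega)) | exact Or.inr (lev6_6 (by omega)))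
      (by first | exact lev6_6 (by omega) | exact lev6_5 (by omega) | exact lev6_4 (by omega) | exact lev6_3 (by omega) | exact lev6_2 (by omega) | exact lev6_1 (by omega))
      (by omega)
    push_cast at key
    linarith
  · have key := h.ex6 hp (by omega) (d 1) (d 2) (d 3) (d 3 - 2) (d 6 + 1) (d 6) 0 0 0 (-3) (J+1) 0
      (Or.inr ⟨rfl, le_rfl⟩) (by omega)
      (by first | exact Or.inl (by omega) | exact Or.inr (lev6_1 (by omega)) | exact Or.inr (lev6_2 (by omega)) | exact Or.inr (lev6_3 (by omega)) | exact Or.inr (lev6_4 (by omega)) | exact Or.inr (lev6_5 (by omega)) | exact Or.inr (lev6_6 (by omega)))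
      (by first | exact Or.inl (by omega) | exact Or.inr (lev6_1 (by omega)) | exact Or.inr (lev6_2 (by omega)) | exact Or.inr (lev6_3 (by omega)) | exact Or.inr (lev6_4 (by omega)) | exact Or.inr (lev6_5 (by omega)) | exact Or.inr (lev6_6 (by omega)))
      (by first | exact Or.inl (by omega) | exact Or.inr (lev6_1 (by omega)) | exact Or.inr (lev6_2 (by omega)) | exact Or.inr (lev6_3 (by omega)) | exact Or.inr (lev6_4 (by omega)) | exact Or.inr (lev6_5 (by omega)) | exact Or.inr (lev6_6 (by omega)))
      (by first | exact Or.inl (by omega) | exact Or.inr (lev6_1 (by omega)) | exact Or.inr (lev6_2 (by omega)) | exact Or.inr (lev6_3 (by omega)) | exact Or.inr (lev6_4 (by omega)) | exact Or.inr (lev6_5 (by omega)) | exact Or.inr (lev6_6 (by omega)))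
      (by first | exact Or.inl (by omega) | exact Or.inr (lev6_1 (by omega)) | exact Or.inr (lev6_2 (by omega)) | exact Or.inr (lev6_3 (by omega)) | exact Or.inr (lev6_4 (by omega)) | exact Or.inr (lev6_5 (by omega)) | exact Or.inr (lev6_6 (by omega)))
      (by first | exact lev6_6 (by omega) | exact lev6_5 (by omega) | exact lev6_4 (by omega) | exact lev6_3 (by omega) | exact lev6_2 (by omega) | exact lev6_1 (by omega))
      (by omega)
    push_cast at key
    linarith

theorem Good.H7b (h : Good n p d) (hp : ∀ i, 0 ≤ p i) (hn : 5 ≤ n) (hr : p 1 = 2 * p 2) (J : ℤ)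
    (a1 : d 1 = d 3 + 1)
    (a2 : d 2 = d 3 + 2)
    (a3 : d 4 = d 3 + 1)
    (a4 : d 5 = d 3 - 1)
    (x0 : 0 ≤ J)
    (x1 : d 6 ≤ d 5 + J)
    (sp : d 6 < d 5 ∨ d 5 < d 6)
    : 2 * p 2 - p 3 + 2 * p 4 ≤ ((J : ℝ) + 1) * p 5 := by
  rcases sp with sp | sp
  · have key := h.ex6 hp (by omega) (d 3 + 1) (d 3) (d 3 + 1) (d 3 - 1) (d 3) (d 6) (0) (-2) (1) (-2) (J+1) 0
      (Or.inr ⟨rfl, le_rfl⟩) (by omega)
      (by first | exact Or.inl (by omega) | exact Or.inr (lev6_1 (by omega)) | exact Or.inr (lev6_2 (by omega)) | exact Or.inr (lev6_3 (by omega)) | exact Or.inr (lev6_4 (by omega)) | exact Or.inr (lev6_5 (by omega)) | exact Or.inr (lev6_6 (by omega)))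
      (by first | exact Or.inl (by omega) | exact Or.inr (lev6_1 (by omega)) | exact Or.inr (lev6_2 (by omega)) | exact Or.inr (lev6_3 (by omega)) | exact Or.inr (lev6_4 (by omega)) | exact Or.inr (lev6_5 (by omega)) | exact Or.inr (lev6_6 (by omega)))
      (by first | exact Or.inl (by omega) | exact Or.inr (lev6_1 (by omega)) | exact Or.inr (lev6_2 (by omega)) | exact Or.inr (lev6_3 (by omega)) | exact Or.inr (lev6_4 (by omega)) | exact Or.inr (lev6_5 (by omega)) | exact Or.inr (lev6_6 (by omega)))
      (by first | exact Or.inl (by omega) | exact Or.inr (lev6_1 (by omega)) | exact Or.inr (lev6_2 (by omega)) | exact Or.inr (lev6_3 (by omega)) | exact Or.inr (lev6_4 (by omega)) | exact Or.inr (lev6_5 (by omega)) | exact Or.inr (lev6_6 (by omega)))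
      (by first | exact Or.inl (by omega) | exact Or.inr (lev6_1 (by omega)) | exact Or.inr (lev6_2 (by omega)) | exact Or.inr (lev6_3 (by omega)) | exact Or.inr (lev6_4 (by omega)) | exact Or.inr (lev6_5 (by omega)) | exact Or.inr (lev6_6 (by omega)))
      (by first | exact lev6_6 (by omega) | exact lev6_5 (by omega) | exact lev6_4 (by omega) | exact lev6_3 (by omega) | exact lev6_2 (by omega) | exact lev6_1 (by omega))
      (by omega)
    push_cast at key
    linarith
  · have key := h.ex6 hp (by omega) (d 3 + 1) (d 3) (d 3 + 1) (d 3 - 1) (d 6 + 1) (d 6) (0) (-2) (1) (-2) (J+1) 0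
      (Or.inr ⟨rfl, le_rfl⟩) (by omega)
      (by first | exact Or.inl (by omega) | exact Or.inr (lev6_1 (by omega)) | exact Or.inr (lev6_2 (by omega)) | exact Or.inr (lev6_3 (by omega)) | exact Or.inr (lev6_4 (by omega)) | exact Or.inr (lev6_5 (by omega)) | exact Or.inr (lev6_6 (by omega)))
      (by first | exact Or.inl (by omega) | exact Or.inr (lev6_1 (by omega)) | exact Or.inr (lev6_2 (by omega)) | exact Or.inr (lev6_3 (by omega)) | exact Or.inr (lev6_4 (by omega)) | exact Or.inr (lev6_5 (by omega)) | exact Or.inr (lev6_6 (by omega)))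
      (by first | exact Or.inl (by omega) | exact Or.inr (lev6_1 (by omega)) | exact Or.inr (lev6_2 (by omega)) | exact Or.inr (lev6_3 (by omega)) | exact Or.inr (lev6_4 (by omega)) | exact Or.inr (lev6_5 (by omega)) | exact Or.inr (lev6_6 (by omega)))
      (by first | exact Or.inl (by omega) | exact Or.inr (lev6_1 (by omega)) | exact Or.inr (lev6_2 (by omega)) | exact Or.inr (lev6_3 (by omega)) | exact Or.inr (lev6_4 (by omega)) | exact Or.inr (lev6_5 (by omega)) | exact Or.inr (lev6_6 (by omega)))
      (by first | exact Or.inl (by omega) | exact Or.inr (lev6_1 (by omega)) | exact Or.inr (lev6_2 (by omega)) | exact Or.inr (lev6_3 (by omega)) | exact Or.inr (lev6_4 (by omega)) | exact Or.inr (lev6_5 (by omega)) | exact Or.inr (lev6_6 (by omega)))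
      (by first | exact lev6_6 (by omega) | exact lev6_5 (by omega) | exact lev6_4 (by omega) | exact lev6_3 (by omega) | exact lev6_2 (by omega) | exact lev6_1 (by omega))
      (by omega)
    push_cast at key
    linarith

theorem Good.H8 (h : Good n p d) (hp : ∀ i, 0 ≤ p i) (hn : 5 ≤ n) (J : ℤ)
    (a1 : d 4 = d 3 - 2)
    (b0 : (d 1 = d 3 ∧ d 2 = d 3 - 1) ∨ (d 1 = d 3 - 1 ∧ d 2 = d 3 + 1))
    (x0 : 1 ≤ J)
    (x1 : d 4 + J ≤ d 5)
    : (J : ℝ) * p 5 ≤ 3 * p 4 := by
  rcases b0 with ⟨b00, b01⟩ | ⟨b00, b01⟩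
  · have key := h.ex5 hp (by omega) (d 1) (d 2) (d 3) (d 3 + 1) (d 3 - 2) 0 0 0 (3) (-J)
      (Or.inl (by omega)) (by omega)
      (by first | exact Or.inl (by omega) | exact Or.inr (lev5_1 (by omega)) | exact Or.inr (lev5_2 (by omega)) | exact Or.inr (lev5_3 (by omega)) | exact Or.inr (lev5_4 (by omega)) | exact Or.inr (lev5_5 (by omega)))
      (by first | exact Or.inl (by omega) | exact Or.inr (lev5_1 (by omega)) | exact Or.inr (lev5_2 (by omega)) | exact Or.inr (lev5_3 (by omega)) | exact Or.inr (lev5_4 (by omega)) | exact Or.inr (lev5_5 (by omega)))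
      (by first | exact Or.inl (by omega) | exact Or.inr (lev5_1 (by omega)) | exact Or.inr (lev5_2 (by omega)) | exact Or.inr (lev5_3 (by omega)) | exact Or.inr (lev5_4 (by omega)) | exact Or.inr (lev5_5 (by omega)))
      (by first | exact Or.inl (by omega) | exact Or.inr (lev5_1 (by omega)) | exact Or.inr (lev5_2 (by omega)) | exact Or.inr (lev5_3 (by omega)) | exact Or.inr (lev5_4 (by omega)) | exact Or.inr (lev5_5 (by omega)))
      (by first | exact lev5_5 (by omega) | exact lev5_4 (by omega) | exact lev5_3 (by omega) | exact lev5_2 (by omega) | exact lev5_1 (by omega))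
      (by omega)
    push_cast at key
    linarith
  · have key := h.ex5 hp (by omega) (d 1) (d 2) (d 3) (d 3 + 1) (d 3 - 2) 0 0 0 (3) (-J)
      (Or.inl (by omega)) (by omega)
      (by first | exact Or.inl (by omega) | exact Or.inr (lev5_1 (by omega)) | exact Or.inr (lev5_2 (by omega)) | exact Or.inr (lev5_3 (by omega)) | exact Or.inr (lev5_4 (by omega)) | exact Or.inr (lev5_5 (by omega)))
      (by first | exact Or.inl (by omega) | exact Or.inr (lev5_1 (by omega)) | exact Or.inr (lev5_2 (by omega)) | exact Or.inr (lev5_3 (by omega)) | exact Or.inr (lev5_4 (by omega)) | exact Or.inr (lev5_5 (by omega)))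
      (by first | exact Or.inl (by omega) | exact Or.inr (lev5_1 (by omega)) | exact Or.inr (lev5_2 (by omega)) | exact Or.inr (lev5_3 (by omega)) | exact Or.inr (lev5_4 (by omega)) | exact Or.inr (lev5_5 (by omega)))
      (by first | exact Or.inl (by omega) | exact Or.inr (lev5_1 (by omega)) | exact Or.inr (lev5_2 (by omega)) | exact Or.inr (lev5_3 (by omega)) | exact Or.inr (lev5_4 (by omega)) | exact Or.inr (lev5_5 (by omega)))
      (by first | exact lev5_5 (by omega) | exact lev5_4 (by omega) | exact lev5_3 (by omega) | exact lev5_2 (by omega) | exact lev5_1 (by omega))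
      (by omega)
    push_cast at key
    linarith

theorem Good.H8b (h : Good n p d) (hp : ∀ i, 0 ≤ p i) (hn : 6 ≤ n)
    (a1 : d 4 = d 3 - 2)
    (a2 : d 5 = d 3 + 1)
    (b0 : (d 1 = d 3 ∧ d 2 = d 3 - 1) ∨ (d 1 = d 3 - 1 ∧ d 2 = d 3 + 1))
    (x0 : d 5 < d 6)
    : 3 * p 5 + p 6 ≤ 3 * p 4 := by
  rcases b0 with ⟨b00, b01⟩ | ⟨b00, b01⟩
  · have key := h.ex6 hp (by omega) (d 1) (d 2) (d 3) (d 3 + 1) (d 3 - 2) (d 3 + 1) 0 0 0 (3) (-3) (-1)
      (Or.inl (by omega)) (by omega)
      (by first | exact Or.inl (by omega) | exact Or.inr (lev6_1 (by omega)) | exact Or.inr (lev6_2 (by omega)) | exact Or.inr (lev6_3 (by omega)) | exact Or.inr (lev6_4 (by omega)) | exact Or.inr (lev6_5 (by omega)) | exact Or.inr (lev6_6 (by omega)))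
      (by first | exact Or.inl (by omega) | exact Or.inr (lev6_1 (by omega)) | exact Or.inr (lev6_2 (by omega)) | exact Or.inr (lev6_3 (by omega)) | exact Or.inr (lev6_4 (by omega)) | exact Or.inr (lev6_5 (by omega)) | exact Or.inr (lev6_6 (by omega)))
      (by first | exact Or.inl (by omega) | exact Or.inr (lev6_1 (by omega)) | exact Or.inr (lev6_2 (by omega)) | exact Or.inr (lev6_3 (by omega)) | exact Or.inr (lev6_4 (by omega)) | exact Or.inr (lev6_5 (by omega)) | exact Or.inr (lev6_6 (by omega)))
      (by first | exact Or.inl (by omega) | exact Or.inr (lev6_1 (by omega)) | exact Or.inr (lev6_2 (by omega)) | exact Or.inr (lev6_3 (by omega)) | exact Or.inr (lev6_4 (by omega)) | exact Or.inr (lev6_5 (by omega)) | exact Or.inr (lev6_6 (by omega)))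
      (by first | exact Or.inl (by omega) | exact Or.inr (lev6_1 (by omega)) | exact Or.inr (lev6_2 (by omega)) | exact Or.inr (lev6_3 (by omega)) | exact Or.inr (lev6_4 (by omega)) | exact Or.inr (lev6_5 (by omega)) | exact Or.inr (lev6_6 (by omega)))
      (by first | exact lev6_6 (by omega) | exact lev6_5 (by omega) | exact lev6_4 (by omega) | exact lev6_3 (by omega) | exact lev6_2 (by omega) | exact lev6_1 (by omega))
      (by omega)
    push_cast at key
    linarith
  · have key := h.ex6 hp (by omega) (d 1) (d 2) (d 3) (d 3 + 1) (d 3 - 2) (d 3 + 1) 0 0 0 (3) (-3) (-1)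
      (Or.inl (by omega)) (by omega)
      (by first | exact Or.inl (by omega) | exact Or.inr (lev6_1 (by omega)) | exact Or.inr (lev6_2 (by omega)) | exact Or.inr (lev6_3 (by omega)) | exact Or.inr (lev6_4 (by omega)) | exact Or.inr (lev6_5 (by omega)) | exact Or.inr (lev6_6 (by omega)))
      (by first | exact Or.inl (by omega) | exact Or.inr (lev6_1 (by omega)) | exact Or.inr (lev6_2 (by omega)) | exact Or.inr (lev6_3 (by omega)) | exact Or.inr (lev6_4 (by omega)) | exact Or.inr (lev6_5 (by omega)) | exact Or.inr (lev6_6 (by omega)))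
      (by first | exact Or.inl (by omega) | exact Or.inr (lev6_1 (by omega)) | exact Or.inr (lev6_2 (by omega)) | exact Or.inr (lev6_3 (by omega)) | exact Or.inr (lev6_4 (by omega)) | exact Or.inr (lev6_5 (by omega)) | exact Or.inr (lev6_6 (by omega)))
      (by first | exact Or.inl (by omega) | exact Or.inr (lev6_1 (by omega)) | exact Or.inr (lev6_2 (by omega)) | exact Or.inr (lev6_3 (by omega)) | exact Or.inr (lev6_4 (by omega)) | exact Or.inr (lev6_5 (by omega)) | exact Or.inr (lev6_6 (by omega)))
      (by first | exact Or.inl (by omega) | exact Or.inr (lev6_1 (by omega)) | exact Or.inr (lev6_2 (by omega)) | exact Or.inr (lev6_3 (by omega)) | exact Or.inr (lev6_4 (by omega)) | exact Or.inr (lev6_5 (by omega)) | exact Or.inr (lev6_6 (by omega)))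
      (by first | exact lev6_6 (by omega) | exact lev6_5 (by omega) | exact lev6_4 (by omega) | exact lev6_3 (by omega) | exact lev6_2 (by omega) | exact lev6_1 (by omega))
      (by omega)
    push_cast at key
    linarith

theorem Good.H9 (h : Good n p d) (hp : ∀ i, 0 ≤ p i) (hn : 6 ≤ n) (hr : p 1 = 2 * p 2) (hw : p 4 = p 5)
    (a1 : d 6 = d 3)
    (b0 : (d 1 = d 3 ∧ d 2 = d 3 - 1) ∨ (d 1 = d 3 - 1 ∧ d 2 = d 3 + 1))
    (b1 : (d 4 = d 3 - 2 ∧ d 5 = d 3 + 1) ∨ (d 4 = d 3 + 1 ∧ d 5 = d 3 - 2))
    : 2 * p 6 ≤ 2 * p 2 - p 3 + 2 * p 4 := by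
  rcases b0 with ⟨b00, b01⟩ | ⟨b00, b01⟩ <;> rcases b1 with ⟨b10, b11⟩ | ⟨b10, b11⟩
  · have key := h.ex6 hp (by omega) (d 3) (d 3 + 1) (d 3 - 1) (d 3) (d 3 + 1) (d 3 - 2) (0) (2) (-1) (2) (0) (-2)
      (Or.inl (by omega)) (by omega)
      (by first | exact Or.inl (by omega) | exact Or.inr (lev6_1 (by omega)) | exact Or.inr (lev6_2 (by omega)) | exact Or.inr (lev6_3 (by omega)) | exact Or.inr (lev6_4 (by omega)) | exact Or.inr (lev6_5 (by omega)) | exact Or.inr (lev6_6 (by omega)))
      (by first | exact Or.inl (by omega) | exact Or.inr (lev6_1 (by omega)) | exact Or.inr (lev6_2 (by omega)) | exact Or.inr (lev6_3 (by omega)) | exact Or.inr (lev6_4 (by omega)) | exact Or.inr (lev6_5 (by omega)) | exact Or.inr (lev6_6 (by omega)))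
      (by first | exact Or.inl (by omega) | exact Or.inr (lev6_1 (by omega)) | exact Or.inr (lev6_2 (by omega)) | exact Or.inr (lev6_3 (by omega)) | exact Or.inr (lev6_4 (by omega)) | exact Or.inr (lev6_5 (by omega)) | exact Or.inr (lev6_6 (by omega)))
      (by first | exact Or.inl (by omega) | exact Or.inr (lev6_1 (by omega)) | exact Or.inr (lev6_2 (by omega)) | exact Or.inr (lev6_3 (by omega)) | exact Or.inr (lev6_4 (by omega)) | exact Or.inr (lev6_5 (by omega)) | exact Or.inr (lev6_6 (by omega)))
      (by first | exact Or.inl (by omega) | exact Or.inr (lev6_1 (by omega)) | exact Or.inr (lev6_2 (by omega)) | exact Or.inr (lev6_3 (by omega)) | exact Or.inr (lev6_4 (by omega)) | exact Or.inr (lev6_5 (by omega)) | exact Or.inr (lev6_6 (by omega)))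
      (by first | exact lev6_6 (by omega) | exact lev6_5 (by omega) | exact lev6_4 (by omega) | exact lev6_3 (by omega) | exact lev6_2 (by omega) | exact lev6_1 (by omega))
      (by omega)
    push_cast at key
    linarith
  · have key := h.ex6 hp (by omega) (d 3) (d 3 + 1) (d 3 - 1) (d 3) (d 3 + 1) (d 3 - 2) (0) (2) (-1) (-1) (3) (-2)
      (Or.inl (by omega)) (by omega)
      (by first | exact Or.inl (by omega) | exact Or.inr (lev6_1 (by omega)) | exact Or.inr (lev6_2 (by omega)) | exact Or.inr (lev6_3 (by omega)) | exact Or.inr (lev6_4 (by omega)) | exact Or.inr (lev6_5 (by omega)) | exact Or.inr (lev6_6 (by omega)))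
      (by first | exact Or.inl (by omega) | exact Or.inr (lev6_1 (by omega)) | exact Or.inr (lev6_2 (by omega)) | exact Or.inr (lev6_3 (by omega)) | exact Or.inr (lev6_4 (by omega)) | exact Or.inr (lev6_5 (by omega)) | exact Or.inr (lev6_6 (by omega)))
      (by first | exact Or.inl (by omega) | exact Or.inr (lev6_1 (by omega)) | exact Or.inr (lev6_2 (by omega)) | exact Or.inr (lev6_3 (by omega)) | exact Or.inr (lev6_4 (by omega)) | exact Or.inr (lev6_5 (by omega)) | exact Or.inr (lev6_6 (by omega)))
      (by first | exact Or.inl (by omega) | exact Or.inr (lev6_1 (by omega)) | exact Or.inr (lev6_2 (by omega)) | exact Or.inr (lev6_3 (by omega)) | exact Or.inr (lev6_4 (by omega)) | exact Or.inr (lev6_5 (by omega)) | exact Or.inr (lev6_6 (by omega)))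
      (by first | exact Or.inl (by omega) | exact Or.inr (lev6_1 (by omega)) | exact Or.inr (lev6_2 (by omega)) | exact Or.inr (lev6_3 (by omega)) | exact Or.inr (lev6_4 (by omega)) | exact Or.inr (lev6_5 (by omega)) | exact Or.inr (lev6_6 (by omega)))
      (by first | exact lev6_6 (by omega) | exact lev6_5 (by omega) | exact lev6_4 (by omega) | exact lev6_3 (by omega) | exact lev6_2 (by omega) | exact lev6_1 (by omega))
      (by omega)
    push_cast at key
    linarith
  · have key := h.ex6 hp (by omega) (d 3) (d 3 + 1) (d 3 - 1) (d 3) (d 3 + 1) (d 3 - 2) (1) (0) (-1) (2) (0) (-2)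
      (Or.inl (by omega)) (by omega)
      (by first | exact Or.inl (by omega) | exact Or.inr (lev6_1 (by omega)) | exact Or.inr (lev6_2 (by omega)) | exact Or.inr (lev6_3 (by omega)) | exact Or.inr (lev6_4 (by omega)) | exact Or.inr (lev6_5 (by omega)) | exact Or.inr (lev6_6 (by omega)))
      (by first | exact Or.inl (by omega) | exact Or.inr (lev6_1 (by omega)) | exact Or.inr (lev6_2 (by omega)) | exact Or.inr (lev6_3 (by omega)) | exact Or.inr (lev6_4 (by omega)) | exact Or.inr (lev6_5 (by omega)) | exact Or.inr (lev6_6 (by omega)))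
      (by first | exact Or.inl (by omega) | exact Or.inr (lev6_1 (by omega)) | exact Or.inr (lev6_2 (by omega)) | exact Or.inr (lev6_3 (by omega)) | exact Or.inr (lev6_4 (by omega)) | exact Or.inr (lev6_5 (by omega)) | exact Or.inr (lev6_6 (by omega)))
      (by first | exact Or.inl (by omega) | exact Or.inr (lev6_1 (by omega)) | exact Or.inr (lev6_2 (by omega)) | exact Or.inr (lev6_3 (by omega)) | exact Or.inr (lev6_4 (by omega)) | exact Or.inr (lev6_5 (by omega)) | exact Or.inr (lev6_6 (by omega)))
      (by first | exact Or.inl (by omega) | exact Or.inr (lev6_1 (by omega)) | exact Or.inr (lev6_2 (by omega)) | exact Or.inr (lev6_3 (by omega)) | exact Or.inr (lev6_4 (by omega)) | exact Or.inr (lev6_5 (by omega)) | exact Or.inr (lev6_6 (by omega)))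
      (by first | exact lev6_6 (by omega) | exact lev6_5 (by omega) | exact lev6_4 (by omega) | exact lev6_3 (by omega) | exact lev6_2 (by omega) | exact lev6_1 (by omega))
      (by omega)
    push_cast at key
    linarith
  · have key := h.ex6 hp (by omega) (d 3) (d 3 + 1) (d 3 - 1) (d 3) (d 3 + 1) (d 3 - 2) (1) (0) (-1) (-1) (3) (-2)
      (Or.inl (by omega)) (by omega)
      (by first | exact Or.inl (by omega) | exact Or.inr (lev6_1 (by omega)) | exact Or.inr (lev6_2 (by omega)) | exact Or.inr (lev6_3 (by omega)) | exact Or.inr (lev6_4 (by omega)) | exact Or.inr (lev6_5 (by omega)) | exact Or.inr (lev6_6 (by omega)))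
      (by first | exact Or.inl (by omega) | exact Or.inr (lev6_1 (by omega)) | exact Or.inr (lev6_2 (by omega)) | exact Or.inr (lev6_3 (by omega)) | exact Or.inr (lev6_4 (by omega)) | exact Or.inr (lev6_5 (by omega)) | exact Or.inr (lev6_6 (by omega)))
      (by first | exact Or.inl (by omega) | exact Or.inr (lev6_1 (by omega)) | exact Or.inr (lev6_2 (by omega)) | exact Or.inr (lev6_3 (by omega)) | exact Or.inr (lev6_4 (by omega)) | exact Or.inr (lev6_5 (by omega)) | exact Or.inr (lev6_6 (by omega)))
      (by first | exact Or.inl (by omega) | exact Or.inr (lev6_1 (by omega)) | exact Or.inr (lev6_2 (by omega)) | exact Or.inr (lev6_3 (by omega)) | exact Or.inr (lev6_4 (by omega)) | exact Or.inr (lev6_5 (by omega)) | exact Or.inr (lev6_6 (by omega)))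
      (by first | exact Or.inl (by omega) | exact Or.inr (lev6_1 (by omega)) | exact Or.inr (lev6_2 (by omega)) | exact Or.inr (lev6_3 (by omega)) | exact Or.inr (lev6_4 (by omega)) | exact Or.inr (lev6_5 (by omega)) | exact Or.inr (lev6_6 (by omega)))
      (by first | exact lev6_6 (by omega) | exact lev6_5 (by omega) | exact lev6_4 (by omega) | exact lev6_3 (by omega) | exact lev6_2 (by omega) | exact lev6_1 (by omega))
      (by omega)
    push_cast at key
    linarith

theorem Good.H9b (h : Good n p d) (hp : ∀ i, 0 ≤ p i) (hn : 7 ≤ n) (hr : p 1 = 2 * p 2) (hw : p 4 = p 5)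
    (a1 : d 6 = d 3)
    (b0 : (d 1 = d 3 ∧ d 2 = d 3 - 1) ∨ (d 1 = d 3 - 1 ∧ d 2 = d 3 + 1))
    (b1 : (d 4 = d 3 - 2 ∧ d 5 = d 3 + 1) ∨ (d 4 = d 3 + 1 ∧ d 5 = d 3 - 2))
    (x0 : d 6 < d 7)
    : 2 * p 6 + p 7 ≤ 2 * p 2 - p 3 + 2 * p 4 := by
  rcases b0 with ⟨b00, b01⟩ | ⟨b00, b01⟩ <;> rcases b1 with ⟨b10, b11⟩ | ⟨b10, b11⟩
  · have key := h.ex7 hp (by omega) (d 3) (d 3 + 1) (d 3 - 1) (d 3) (d 3 + 1) (d 3 - 2) (d 3) (0) (2) (-1) (2) (0) (-2) (-1)
      (Or.inl (by omega)) (by omega)
      (by first | exact Or.inl (by omega) | exact Or.inr (lev7_1 (by omega)) | exact Or.inr (lev7_2 (by omega)) | exact Or.inr (lev7_3 (by omega)) | exact Or.inr (lev7_4 (by omega)) | exact Or.inr (lev7_5 (by omega)) | exact Or.inr (lev7_6 (by omega)) | exact Or.inr (lev7_7 (by omega)))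
      (by first | exact Or.inl (by omega) | exact Or.inr (lev7_1 (by omega)) | exact Or.inr (lev7_2 (by omega)) | exact Or.inr (lev7_3 (by omega)) | exact Or.inr (lev7_4 (by omega)) | exact Or.inr (lev7_5 (by omega)) | exact Or.inr (lev7_6 (by omega)) | exact Or.inr (lev7_7 (by omega)))
      (by first | exact Or.inl (by omega) | exact Or.inr (lev7_1 (by omega)) | exact Or.inr (lev7_2 (by omega)) | exact Or.inr (lev7_3 (by omega)) | exact Or.inr (lev7_4 (by omega)) | exact Or.inr (lev7_5 (by omega)) | exact Or.inr (lev7_6 (by omega)) | exact Or.inr (lev7_7 (by omega)))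
      (by first | exact Or.inl (by omega) | exact Or.inr (lev7_1 (by omega)) | exact Or.inr (lev7_2 (by omega)) | exact Or.inr (lev7_3 (by omega)) | exact Or.inr (lev7_4 (by omega)) | exact Or.inr (lev7_5 (by omega)) | exact Or.inr (lev7_6 (by omega)) | exact Or.inr (lev7_7 (by omega)))
      (by first | exact Or.inl (by omega) | exact Or.inr (lev7_1 (by omega)) | exact Or.inr (lev7_2 (by omega)) | exact Or.inr (lev7_3 (by omega)) | exact Or.inr (lev7_4 (by omega)) | exact Or.inr (lev7_5 (by omega)) | exact Or.inr (lev7_6 (by omega)) | exact Or.inr (lev7_7 (by omega)))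
      (by first | exact Or.inl (by omega) | exact Or.inr (lev7_1 (by omega)) | exact Or.inr (lev7_2 (by omega)) | exact Or.inr (lev7_3 (by omega)) | exact Or.inr (lev7_4 (by omega)) | exact Or.inr (lev7_5 (by omega)) | exact Or.inr (lev7_6 (by omega)) | exact Or.inr (lev7_7 (by omega)))
      (by first | exact lev7_7 (by omega) | exact lev7_6 (by omega) | exact lev7_5 (by omega) | exact lev7_4 (by omega) | exact lev7_3 (by omega) | exact lev7_2 (by omega) | exact lev7_1 (by omega))
      (by omega)
    push_cast at key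
    linarith
  · have key := h.ex7 hp (by omega) (d 3) (d 3 + 1) (d 3 - 1) (d 3) (d 3 + 1) (d 3 - 2) (d 3) (0) (2) (-1) (-1) (3) (-2) (-1)
      (Or.inl (by omega)) (by omega)
      (by first | exact Or.inl (by omega) | exact Or.inr (lev7_1 (by omega)) | exact Or.inr (lev7_2 (by omega)) | exact Or.inr (lev7_3 (by omega)) | exact Or.inr (lev7_4 (by omega)) | exact Or.inr (lev7_5 (by omega)) | exact Or.inr (lev7_6 (by omega)) | exact Or.inr (lev7_7 (by omega)))
      (by first | exact Or.inl (by omega) | exact Or.inr (lev7_1 (by omega)) | exact Or.inr (lev7_2 (by omega)) | exact Or.inr (lev7_3 (by omega)) | exact Or.inr (lev7_4 (by omega)) | exact Or.inr (lev7_5 (by omega)) | exact Or.inr (lev7_6 (by omega)) | exact Or.inr (lev7_7 (by omega)))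
      (by first | exact Or.inl (by omega) | exact Or.inr (lev7_1 (by omega)) | exact Or.inr (lev7_2 (by omega)) | exact Or.inr (lev7_3 (by omega)) | exact Or.inr (lev7_4 (by omega)) | exact Or.inr (lev7_5 (by omega)) | exact Or.inr (lev7_6 (by omega)) | exact Or.inr (lev7_7 (by omega)))
      (by first | exact Or.inl (by omega) | exact Or.inr (lev7_1 (by omega)) | exact Or.inr (lev7_2 (by omega)) | exact Or.inr (lev7_3 (by omega)) | exact Or.inr (lev7_4 (by omega)) | exact Or.inr (lev7_5 (by omega)) | exact Or.inr (lev7_6 (by omega)) | exact Or.inr (lev7_7 (by omega)))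
      (by first | exact Or.inl (by omega) | exact Or.inr (lev7_1 (by omega)) | exact Or.inr (lev7_2 (by omega)) | exact Or.inr (lev7_3 (by omega)) | exact Or.inr (lev7_4 (by omega)) | exact Or.inr (lev7_5 (by omega)) | exact Or.inr (lev7_6 (by omega)) | exact Or.inr (lev7_7 (by omega)))
      (by first | exact Or.inl (by omega) | exact Or.inr (lev7_1 (by omega)) | exact Or.inr (lev7_2 (by omega)) | exact Or.inr (lev7_3 (by omega)) | exact Or.inr (lev7_4 (by omega)) | exact Or.inr (lev7_5 (by omega)) | exact Or.inr (lev7_6 (by omega)) | exact Or.inr (lev7_7 (by omega)))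
      (by first | exact lev7_7 (by omega) | exact lev7_6 (by omega) | exact lev7_5 (by omega) | exact lev7_4 (by omega) | exact lev7_3 (by omega) | exact lev7_2 (by omega) | exact lev7_1 (by omega))
      (by omega)
    push_cast at key
    linarith
  · have key := h.ex7 hp (by omega) (d 3) (d 3 + 1) (d 3 - 1) (d 3) (d 3 + 1) (d 3 - 2) (d 3) (1) (0) (-1) (2) (0) (-2) (-1)
      (Or.inl (by omega)) (by omega)
      (by first | exact Or.inl (by omega) | exact Or.inr (lev7_1 (by omega)) | exact Or.inr (lev7_2 (by omega)) | exact Or.inr (lev7_3 (by omega)) | exact Or.inr (lev7_4 (by omega)) | exact Or.inr (lev7_5 (by omega)) | exact Or.inr (lev7_6 (by omega)) | exact Or.inr (lev7_7 (by omega)))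
      (by first | exact Or.inl (by omega) | exact Or.inr (lev7_1 (by omega)) | exact Or.inr (lev7_2 (by omega)) | exact Or.inr (lev7_3 (by omega)) | exact Or.inr (lev7_4 (by omega)) | exact Or.inr (lev7_5 (by omega)) | exact Or.inr (lev7_6 (by omega)) | exact Or.inr (lev7_7 (by omega)))
      (by first | exact Or.inl (by omega) | exact Or.inr (lev7_1 (by omega)) | exact Or.inr (lev7_2 (by omega)) | exact Or.inr (lev7_3 (by omega)) | exact Or.inr (lev7_4 (by omega)) | exact Or.inr (lev7_5 (by omega)) | exact Or.inr (lev7_6 (by omega)) | exact Or.inr (lev7_7 (by omega)))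
      (by first | exact Or.inl (by omega) | exact Or.inr (lev7_1 (by omega)) | exact Or.inr (lev7_2 (by omega)) | exact Or.inr (lev7_3 (by omega)) | exact Or.inr (lev7_4 (by omega)) | exact Or.inr (lev7_5 (by omega)) | exact Or.inr (lev7_6 (by omega)) | exact Or.inr (lev7_7 (by omega)))
      (by first | exact Or.inl (by omega) | exact Or.inr (lev7_1 (by omega)) | exact Or.inr (lev7_2 (by omega)) | exact Or.inr (lev7_3 (by omega)) | exact Or.inr (lev7_4 (by omega)) | exact Or.inr (lev7_5 (by omega)) | exact Or.inr (lev7_6 (by omega)) | exact Or.inr (lev7_7 (by omega)))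
      (by first | exact Or.inl (by omega) | exact Or.inr (lev7_1 (by omega)) | exact Or.inr (lev7_2 (by omega)) | exact Or.inr (lev7_3 (by omega)) | exact Or.inr (lev7_4 (by omega)) | exact Or.inr (lev7_5 (by omega)) | exact Or.inr (lev7_6 (by omega)) | exact Or.inr (lev7_7 (by omega)))
      (by first | exact lev7_7 (by omega) | exact lev7_6 (by omega) | exact lev7_5 (by omega) | exact lev7_4 (by omega) | exact lev7_3 (by omega) | exact lev7_2 (by omega) | exact lev7_1 (by omega))
      (by omega)
    push_cast at key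
    linarith
  · have key := h.ex7 hp (by omega) (d 3) (d 3 + 1) (d 3 - 1) (d 3) (d 3 + 1) (d 3 - 2) (d 3) (1) (0) (-1) (-1) (3) (-2) (-1)
      (Or.inl (by omega)) (by omega)
      (by first | exact Or.inl (by omega) | exact Or.inr (lev7_1 (by omega)) | exact Or.inr (lev7_2 (by omega)) | exact Or.inr (lev7_3 (by omega)) | exact Or.inr (lev7_4 (by omega)) | exact Or.inr (lev7_5 (by omega)) | exact Or.inr (lev7_6 (by omega)) | exact Or.inr (lev7_7 (by omega)))
      (by first | exact Or.inl (by omega) | exact Or.inr (lev7_1 (by omega)) | exact Or.inr (lev7_2 (by omega)) | exact Or.inr (lev7_3 (by omega)) | exact Or.inr (lev7_4 (by omega)) | exact Or.inr (lev7_5 (by omega)) | exact Or.inr (lev7_6 (by omega)) | exact Or.inr (lev7_7 (by omega)))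
      (by first | exact Or.inl (by omega) | exact Or.inr (lev7_1 (by omega)) | exact Or.inr (lev7_2 (by omega)) | exact Or.inr (lev7_3 (by omega)) | exact Or.inr (lev7_4 (by omega)) | exact Or.inr (lev7_5 (by omega)) | exact Or.inr (lev7_6 (by omega)) | exact Or.inr (lev7_7 (by omega)))
      (by first | exact Or.inl (by omega) | exact Or.inr (lev7_1 (by omega)) | exact Or.inr (lev7_2 (by omega)) | exact Or.inr (lev7_3 (by omega)) | exact Or.inr (lev7_4 (by omega)) | exact Or.inr (lev7_5 (by omega)) | exact Or.inr (lev7_6 (by omega)) | exact Or.inr (lev7_7 (by omega)))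
      (by first | exact Or.inl (by omega) | exact Or.inr (lev7_1 (by omega)) | exact Or.inr (lev7_2 (by omega)) | exact Or.inr (lev7_3 (by omega)) | exact Or.inr (lev7_4 (by omega)) | exact Or.inr (lev7_5 (by omega)) | exact Or.inr (lev7_6 (by omega)) | exact Or.inr (lev7_7 (by omega)))
      (by first | exact Or.inl (by omega) | exact Or.inr (lev7_1 (by omega)) | exact Or.inr (lev7_2 (by omega)) | exact Or.inr (lev7_3 (by omega)) | exact Or.inr (lev7_4 (by omega)) | exact Or.inr (lev7_5 (by omega)) | exact Or.inr (lev7_6 (by omega)) | exact Or.inr (lev7_7 (by omega)))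
      (by first | exact lev7_7 (by omega) | exact lev7_6 (by omega) | exact lev7_5 (by omega) | exact lev7_4 (by omega) | exact lev7_3 (by omega) | exact lev7_2 (by omega) | exact lev7_1 (by omega))
      (by omega)
    push_cast at key
    linarith

theorem Good.H10 (h : Good n p d) (hp : ∀ i, 0 ≤ p i) (hn : 6 ≤ n) (hr : p 1 = 2 * p 2) (hw : p 4 = p 5) (J : ℤ)
    (a1 : d 1 = d 3 + 1)
    (a2 : d 2 = d 3 + 2)
    (a3 : d 6 = d 3 - 1)
    (b0 : (d 4 = d 3 + 1 ∧ d 5 = d 3 + 2) ∨ (d 4 = d 3 + 2 ∧ d 5 = d 3 + 1))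
    (x0 : 0 ≤ J)
    (x1 : d 7 ≤ d 6 + J)
    (sp : d 7 < d 6 ∨ d 6 < d 7)
    : 2 * p 2 - p 3 + 2 * p 4 ≤ ((J : ℝ) + 1) * p 6 := by
  rcases b0 with ⟨b00, b01⟩ | ⟨b00, b01⟩ <;> rcases sp with sp | sp
  · have key := h.ex7 hp (by omega) (d 3 + 1) (d 3) (d 3 + 1) (d 3 + 2) (d 3 - 1) (d 3) (d 7) (0) (-2) (1) (1) (-3) (J+1) 0
      (Or.inr ⟨rfl, le_rfl⟩) (by omega)
      (by first | exact Or.inl (by omega) | exact Or.inr (lev7_1 (by omega)) | exact Or.inr (lev7_2 (by omega)) | exact Or.inr (lev7_3 (by omega)) | exact Or.inr (lev7_4 (by omega)) | exact Or.inr (lev7_5 (by omega)) | exact Or.inr (lev7_6 (by omega)) | exact Or.inr (lev7_7 (by omega)))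
      (by first | exact Or.inl (by omega) | exact Or.inr (lev7_1 (by omega)) | exact Or.inr (lev7_2 (by omega)) | exact Or.inr (lev7_3 (by omega)) | exact Or.inr (lev7_4 (by omega)) | exact Or.inr (lev7_5 (by omega)) | exact Or.inr (lev7_6 (by omega)) | exact Or.inr (lev7_7 (by omega)))
      (by first | exact Or.inl (by omega) | exact Or.inr (lev7_1 (by omega)) | exact Or.inr (lev7_2 (by omega)) | exact Or.inr (lev7_3 (by omega)) | exact Or.inr (lev7_4 (by omega)) | exact Or.inr (lev7_5 (by omega)) | exact Or.inr (lev7_6 (by omega)) | exact Or.inr (lev7_7 (by omega)))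
      (by first | exact Or.inl (by omega) | exact Or.inr (lev7_1 (by omega)) | exact Or.inr (lev7_2 (by omega)) | exact Or.inr (lev7_3 (by omega)) | exact Or.inr (lev7_4 (by omega)) | exact Or.inr (lev7_5 (by omega)) | exact Or.inr (lev7_6 (by omega)) | exact Or.inr (lev7_7 (by omega)))
      (by first | exact Or.inl (by omega) | exact Or.inr (lev7_1 (by omega)) | exact Or.inr (lev7_2 (by omega)) | exact Or.inr (lev7_3 (by omega)) | exact Or.inr (lev7_4 (by omega)) | exact Or.inr (lev7_5 (by omega)) | exact Or.inr (lev7_6 (by omega)) | exact Or.inr (lev7_7 (by omega)))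
      (by first | exact Or.inl (by omega) | exact Or.inr (lev7_1 (by omega)) | exact Or.inr (lev7_2 (by omega)) | exact Or.inr (lev7_3 (by omega)) | exact Or.inr (lev7_4 (by omega)) | exact Or.inr (lev7_5 (by omega)) | exact Or.inr (lev7_6 (by omega)) | exact Or.inr (lev7_7 (by omega)))
      (by first | exact lev7_7 (by omega) | exact lev7_6 (by omega) | exact lev7_5 (by omega) | exact lev7_4 (by omega) | exact lev7_3 (by omega) | exact lev7_2 (by omega) | exact lev7_1 (by omega))
      (by omega)
    push_cast at key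
    linarith
  · have key := h.ex7 hp (by omega) (d 3 + 1) (d 3) (d 3 + 1) (d 3 + 2) (d 3 - 1) (d 7 + 1) (d 7) (0) (-2) (1) (1) (-3) (J+1) 0
      (Or.inr ⟨rfl, le_rfl⟩) (by omega)
      (by first | exact Or.inl (by omega) | exact Or.inr (lev7_1 (by omega)) | exact Or.inr (lev7_2 (by omega)) | exact Or.inr (lev7_3 (by omega)) | exact Or.inr (lev7_4 (by omega)) | exact Or.inr (lev7_5 (by omega)) | exact Or.inr (lev7_6 (by omega)) | exact Or.inr (lev7_7 (by omega)))
      (by first | exact Or.inl (by omega) | exact Or.inr (lev7_1 (by omega)) | exact Or.inr (lev7_2 (by omega)) | exact Or.inr (lev7_3 (by omega)) | exact Or.inr (lev7_4 (by omega)) | exact Or.inr (lev7_5 (by omega)) | exact Or.inr (lev7_6 (by omega)) | exact Or.inr (lev7_7 (by omega)))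
      (by first | exact Or.inl (by omega) | exact Or.inr (lev7_1 (by omega)) | exact Or.inr (lev7_2 (by omega)) | exact Or.inr (lev7_3 (by omega)) | exact Or.inr (lev7_4 (by omega)) | exact Or.inr (lev7_5 (by omega)) | exact Or.inr (lev7_6 (by omega)) | exact Or.inr (lev7_7 (by omega)))
      (by first | exact Or.inl (by omega) | exact Or.inr (lev7_1 (by omega)) | exact Or.inr (lev7_2 (by omega)) | exact Or.inr (lev7_3 (by omega)) | exact Or.inr (lev7_4 (by omega)) | exact Or.inr (lev7_5 (by omega)) | exact Or.inr (lev7_6 (by omega)) | exact Or.inr (lev7_7 (by omega)))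
      (by first | exact Or.inl (by omega) | exact Or.inr (lev7_1 (by omega)) | exact Or.inr (lev7_2 (by omega)) | exact Or.inr (lev7_3 (by omega)) | exact Or.inr (lev7_4 (by omega)) | exact Or.inr (lev7_5 (by omega)) | exact Or.inr (lev7_6 (by omega)) | exact Or.inr (lev7_7 (by omega)))
      (by first | exact Or.inl (by omega) | exact Or.inr (lev7_1 (by omega)) | exact Or.inr (lev7_2 (by omega)) | exact Or.inr (lev7_3 (by omega)) | exact Or.inr (lev7_4 (by omega)) | exact Or.inr (lev7_5 (by omega)) | exact Or.inr (lev7_6 (by omega)) | exact Or.inr (lev7_7 (by omega)))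
      (by first | exact lev7_7 (by omega) | exact lev7_6 (by omega) | exact lev7_5 (by omega) | exact lev7_4 (by omega) | exact lev7_3 (by omega) | exact lev7_2 (by omega) | exact lev7_1 (by omega))
      (by omega)
    push_cast at key
    linarith
  · have key := h.ex7 hp (by omega) (d 3 + 1) (d 3) (d 3 + 1) (d 3 + 2) (d 3 - 1) (d 3) (d 7) (0) (-2) (1) (0) (-2) (J+1) 0
      (Or.inr ⟨rfl, le_rfl⟩) (by omega)
      (by first | exact Or.inl (by omega) | exact Or.inr (lev7_1 (by omega)) | exact Or.inr (lev7_2 (by omega)) | exact Or.inr (lev7_3 (by omega)) | exact Or.inr (lev7_4 (by omega)) | exact Or.inr (lev7_5 (by omega)) | exact Or.inr (lev7_6 (by omega)) | exact Or.inr (lev7_7 (by omega)))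
      (by first | exact Or.inl (by omega) | exact Or.inr (lev7_1 (by omega)) | exact Or.inr (lev7_2 (by omega)) | exact Or.inr (lev7_3 (by omega)) | exact Or.inr (lev7_4 (by omega)) | exact Or.inr (lev7_5 (by omega)) | exact Or.inr (lev7_6 (by omega)) | exact Or.inr (lev7_7 (by omega)))
      (by first | exact Or.inl (by omega) | exact Or.inr (lev7_1 (by omega)) | exact Or.inr (lev7_2 (by omega)) | exact Or.inr (lev7_3 (by omega)) | exact Or.inr (lev7_4 (by omega)) | exact Or.inr (lev7_5 (by omega)) | exact Or.inr (lev7_6 (by omega)) | exact Or.inr (lev7_7 (by omega)))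
      (by first | exact Or.inl (by omega) | exact Or.inr (lev7_1 (by omega)) | exact Or.inr (lev7_2 (by omega)) | exact Or.inr (lev7_3 (by omega)) | exact Or.inr (lev7_4 (by omega)) | exact Or.inr (lev7_5 (by omega)) | exact Or.inr (lev7_6 (by omega)) | exact Or.inr (lev7_7 (by omega)))
      (by first | exact Or.inl (by omega) | exact Or.inr (lev7_1 (by omega)) | exact Or.inr (lev7_2 (by omega)) | exact Or.inr (lev7_3 (by omega)) | exact Or.inr (lev7_4 (by omega)) | exact Or.inr (lev7_5 (by omega)) | exact Or.inr (lev7_6 (by omega)) | exact Or.inr (lev7_7 (by omega)))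
      (by first | exact Or.inl (by omega) | exact Or.inr (lev7_1 (by omega)) | exact Or.inr (lev7_2 (by omega)) | exact Or.inr (lev7_3 (by omega)) | exact Or.inr (lev7_4 (by omega)) | exact Or.inr (lev7_5 (by omega)) | exact Or.inr (lev7_6 (by omega)) | exact Or.inr (lev7_7 (by omega)))
      (by first | exact lev7_7 (by omega) | exact lev7_6 (by omega) | exact lev7_5 (by omega) | exact lev7_4 (by omega) | exact lev7_3 (by omega) | exact lev7_2 (by omega) | exact lev7_1 (by omega))
      (by omega)
    push_cast at key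
    linarith
  · have key := h.ex7 hp (by omega) (d 3 + 1) (d 3) (d 3 + 1) (d 3 + 2) (d 3 - 1) (d 7 + 1) (d 7) (0) (-2) (1) (0) (-2) (J+1) 0
      (Or.inr ⟨rfl, le_rfl⟩) (by omega)
      (by first | exact Or.inl (by omega) | exact Or.inr (lev7_1 (by omega)) | exact Or.inr (lev7_2 (by omega)) | exact Or.inr (lev7_3 (by omega)) | exact Or.inr (lev7_4 (by omega)) | exact Or.inr (lev7_5 (by omega)) | exact Or.inr (lev7_6 (by omega)) | exact Or.inr (lev7_7 (by omega)))
      (by first | exact Or.inl (by omega) | exact Or.inr (lev7_1 (by omega)) | exact Or.inr (lev7_2 (by omega)) | exact Or.inr (lev7_3 (by omega)) | exact Or.inr (lev7_4 (by omega)) | exact Or.inr (lev7_5 (by omega)) | exact Or.inr (lev7_6 (by omega)) | exact Or.inr (lev7_7 (by omega)))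
      (by first | exact Or.inl (by omega) | exact Or.inr (lev7_1 (by omega)) | exact Or.inr (lev7_2 (by omega)) | exact Or.inr (lev7_3 (by omega)) | exact Or.inr (lev7_4 (by omega)) | exact Or.inr (lev7_5 (by omega)) | exact Or.inr (lev7_6 (by omega)) | exact Or.inr (lev7_7 (by omega)))
      (by first | exact Or.inl (by omega) | exact Or.inr (lev7_1 (by omega)) | exact Or.inr (lev7_2 (by omega)) | exact Or.inr (lev7_3 (by omega)) | exact Or.inr (lev7_4 (by omega)) | exact Or.inr (lev7_5 (by omega)) | exact Or.inr (lev7_6 (by omega)) | exact Or.inr (lev7_7 (by omega)))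
      (by first | exact Or.inl (by omega) | exact Or.inr (lev7_1 (by omega)) | exact Or.inr (lev7_2 (by omega)) | exact Or.inr (lev7_3 (by omega)) | exact Or.inr (lev7_4 (by omega)) | exact Or.inr (lev7_5 (by omega)) | exact Or.inr (lev7_6 (by omega)) | exact Or.inr (lev7_7 (by omega)))
      (by first | exact Or.inl (by omega) | exact Or.inr (lev7_1 (by omega)) | exact Or.inr (lev7_2 (by omega)) | exact Or.inr (lev7_3 (by omega)) | exact Or.inr (lev7_4 (by omega)) | exact Or.inr (lev7_5 (by omega)) | exact Or.inr (lev7_6 (by omega)) | exact Or.inr (lev7_7 (by omega)))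
      (by first | exact lev7_7 (by omega) | exact lev7_6 (by omega) | exact lev7_5 (by omega) | exact lev7_4 (by omega) | exact lev7_3 (by omega) | exact lev7_2 (by omega) | exact lev7_1 (by omega))
      (by omega)
    push_cast at key
    linarith

theorem Good.H11 (h : Good n p d) (hp : ∀ i, 0 ≤ p i) (hn : 5 ≤ n)
    (a1 : d 1 = d 3 + 1)
    (a2 : d 2 = d 3 + 2)
    (x0 : d 3 < d 4)
    (x1 : d 4 + 2 ≤ d 5)
    : 2 * p 5 ≤ p 4 := by
  have key := h.ex5 hp (by omega) (d 1) (d 2) (d 3) (d 4 + 1) (d 4) 0 0 0 (1) (-2)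
    (Or.inl (by omega)) (by omega)
    (by first | exact Or.inl (by omega) | exact Or.inr (lev5_1 (by omega)) | exact Or.inr (lev5_2 (by omega)) | exact Or.inr (lev5_3 (by omega)) | exact Or.inr (lev5_4 (by omega)) | exact Or.inr (lev5_5 (by omega)))
    (by first | exact Or.inl (by omega) | exact Or.inr (lev5_1 (by omega)) | exact Or.inr (lev5_2 (by omega)) | exact Or.inr (lev5_3 (by omega)) | exact Or.inr (lev5_4 (by omega)) | exact Or.inr (lev5_5 (by omega)))
    (by first | exact Or.inl (by omega) | exact Or.inr (lev5_1 (by omega)) | exact Or.inr (lev5_2 (by omega)) | exact Or.inr (lev5_3 (by omega)) | exact Or.inr (lev5_4 (by omega)) | exact Or.inr (lev5_5 (by omega)))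
    (by first | exact Or.inl (by omega) | exact Or.inr (lev5_1 (by omega)) | exact Or.inr (lev5_2 (by omega)) | exact Or.inr (lev5_3 (by omega)) | exact Or.inr (lev5_4 (by omega)) | exact Or.inr (lev5_5 (by omega)))
    (by first | exact lev5_5 (by omega) | exact lev5_4 (by omega) | exact lev5_3 (by omega) | exact lev5_2 (by omega) | exact lev5_1 (by omega))
    (by omega)
  push_cast at key
  linarith

theorem Good.H11b (h : Good n p d) (hp : ∀ i, 0 ≤ p i) (hn : 6 ≤ n)
    (a1 : d 1 = d 3 + 1)
    (a2 : d 2 = d 3 + 2)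
    (x0 : d 3 < d 4)
    (x1 : d 4 < d 5)
    (x2 : d 5 < d 6)
    : p 5 + p 6 ≤ p 4 := by
  have key := h.ex6 hp (by omega) (d 1) (d 2) (d 3) (d 4 + 1) (d 4) (d 5) 0 0 0 (1) (-1) (-1)
    (Or.inl (by omega)) (by omega)
    (by first | exact Or.inl (by omega) | exact Or.inr (lev6_1 (by omega)) | exact Or.inr (lev6_2 (by omega)) | exact Or.inr (lev6_3 (by omega)) | exact Or.inr (lev6_4 (by omega)) | exact Or.inr (lev6_5 (by omega)) | exact Or.inr (lev6_6 (by omega)))
    (by first | exact Or.inl (by omega) | exact Or.inr (lev6_1 (by omega)) | exact Or.inr (lev6_2 (by omega)) | exact Or.inr (lev6_3 (by omega)) | exact Or.inr (lev6_4 (by omega)) | exact Or.inr (lev6_5 (by omega)) | exact Or.inr (lev6_6 (by omega)))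
    (by first | exact Or.inl (by omega) | exact Or.inr (lev6_1 (by omega)) | exact Or.inr (lev6_2 (by omega)) | exact Or.inr (lev6_3 (by omega)) | exact Or.inr (lev6_4 (by omega)) | exact Or.inr (lev6_5 (by omega)) | exact Or.inr (lev6_6 (by omega)))
    (by first | exact Or.inl (by omega) | exact Or.inr (lev6_1 (by omega)) | exact Or.inr (lev6_2 (by omega)) | exact Or.inr (lev6_3 (by omega)) | exact Or.inr (lev6_4 (by omega)) | exact Or.inr (lev6_5 (by omega)) | exact Or.inr (lev6_6 (by omega)))
    (by first | exact Or.inl (by omega) | exact Or.inr (lev6_1 (by omega)) | exact Or.inr (lev6_2 (by omega)) | exact Or.inr (lev6_3 (by omega)) | exact Or.inr (lev6_4 (by omega)) | exact Or.inr (lev6_5 (by omega)) | exact Or.inr (lev6_6 (by omega)))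
    (by first | exact lev6_6 (by omega) | exact lev6_5 (by omega) | exact lev6_4 (by omega) | exact lev6_3 (by omega) | exact lev6_2 (by omega) | exact lev6_1 (by omega))
    (by omega)
  push_cast at key
  linarith

theorem Good.H12 (h : Good n p d) (hp : ∀ i, 0 ≤ p i) (hn : 7 ≤ n) (hr : p 1 = 2 * p 2) (hw : p 4 = p 5)
    (a1 : d 6 = d 3)
    (a2 : d 7 = d 3 - 1)
    (b0 : (d 1 = d 3 ∧ d 2 = d 3 - 1) ∨ (d 1 = d 3 - 1 ∧ d 2 = d 3 + 1))
    (b1 : (d 4 = d 3 - 2 ∧ d 5 = d 3 + 1) ∨ (d 4 = d 3 + 1 ∧ d 5 = d 3 - 2))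
    : p 2 + 2 * p 3 ≤ 2 * p 4 + p 6 := by
  rcases b0 with ⟨b00, b01⟩ | ⟨b00, b01⟩ <;> rcases b1 with ⟨b10, b11⟩ | ⟨b10, b11⟩
  · have key := h.ex7 hp (by omega) (d 3 - 1) (d 3) (d 3 - 2) (d 3 + 1) (d 3) (d 3 + 1) (d 7) (-1) (1) (-2) (3) (-1) (1) 0
      (Or.inl (by omega)) (by omega)
      (by first | exact Or.inl (by omega) | exact Or.inr (lev7_1 (by omega)) | exact Or.inr (lev7_2 (by omega)) | exact Or.inr (lev7_3 (by omega)) | exact Or.inr (lev7_4 (by omega)) | exact Or.inr (lev7_5 (by omega)) | exact Or.inr (lev7_6 (by omega)) | exact Or.inr (lev7_7 (by omega)))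
      (by first | exact Or.inl (by omega) | exact Or.inr (lev7_1 (by omega)) | exact Or.inr (lev7_2 (by omega)) | exact Or.inr (lev7_3 (by omega)) | exact Or.inr (lev7_4 (by omega)) | exact Or.inr (lev7_5 (by omega)) | exact Or.inr (lev7_6 (by omega)) | exact Or.inr (lev7_7 (by omega)))
      (by first | exact Or.inl (by omega) | exact Or.inr (lev7_1 (by omega)) | exact Or.inr (lev7_2 (by omega)) | exact Or.inr (lev7_3 (by omega)) | exact Or.inr (lev7_4 (by omega)) | exact Or.inr (lev7_5 (by omega)) | exact Or.inr (lev7_6 (by omega)) | exact Or.inr (lev7_7 (by omega)))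
      (by first | exact Or.inl (by omega) | exact Or.inr (lev7_1 (by omega)) | exact Or.inr (lev7_2 (by omega)) | exact Or.inr (lev7_3 (by omega)) | exact Or.inr (lev7_4 (by omega)) | exact Or.inr (lev7_5 (by omega)) | exact Or.inr (lev7_6 (by omega)) | exact Or.inr (lev7_7 (by omega)))
      (by first | exact Or.inl (by omega) | exact Or.inr (lev7_1 (by omega)) | exact Or.inr (lev7_2 (by omega)) | exact Or.inr (lev7_3 (by omega)) | exact Or.inr (lev7_4 (by omega)) | exact Or.inr (lev7_5 (by omega)) | exact Or.inr (lev7_6 (by omega)) | exact Or.inr (lev7_7 (by omega)))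
      (by first | exact Or.inl (by omega) | exact Or.inr (lev7_1 (by omega)) | exact Or.inr (lev7_2 (by omega)) | exact Or.inr (lev7_3 (by omega)) | exact Or.inr (lev7_4 (by omega)) | exact Or.inr (lev7_5 (by omega)) | exact Or.inr (lev7_6 (by omega)) | exact Or.inr (lev7_7 (by omega)))
      (by first | exact lev7_7 (by omega) | exact lev7_6 (by omega) | exact lev7_5 (by omega) | exact lev7_4 (by omega) | exact lev7_3 (by omega) | exact lev7_2 (by omega) | exact lev7_1 (by omega))
      (by omega)
    push_cast at key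
    linarith
  · have key := h.ex7 hp (by omega) (d 3 - 1) (d 3) (d 3 - 2) (d 3 + 1) (d 3) (d 3 + 1) (d 7) (-1) (1) (-2) (0) (2) (1) 0
      (Or.inl (by omega)) (by omega)
      (by first | exact Or.inl (by omega) | exact Or.inr (lev7_1 (by omega)) | exact Or.inr (lev7_2 (by omega)) | exact Or.inr (lev7_3 (by omega)) | exact Or.inr (lev7_4 (by omega)) | exact Or.inr (lev7_5 (by omega)) | exact Or.inr (lev7_6 (by omega)) | exact Or.inr (lev7_7 (by omega)))
      (by first | exact Or.inl (by omega) | exact Or.inr (lev7_1 (by omega)) | exact Or.inr (lev7_2 (by omega)) | exact Or.inr (lev7_3 (by omega)) | exact Or.inr (lev7_4 (by omega)) | exact Or.inr (lev7_5 (by omega)) | exact Or.inr (lev7_6 (by omega)) | exact Or.inr (lev7_7 (by omega)))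
      (by first | exact Or.inl (by omega) | exact Or.inr (lev7_1 (by omega)) | exact Or.inr (lev7_2 (by omega)) | exact Or.inr (lev7_3 (by omega)) | exact Or.inr (lev7_4 (by omega)) | exact Or.inr (lev7_5 (by omega)) | exact Or.inr (lev7_6 (by omega)) | exact Or.inr (lev7_7 (by omega)))
      (by first | exact Or.inl (by omega) | exact Or.inr (lev7_1 (by omega)) | exact Or.inr (lev7_2 (by omega)) | exact Or.inr (lev7_3 (by omega)) | exact Or.inr (lev7_4 (by omega)) | exact Or.inr (lev7_5 (by omega)) | exact Or.inr (lev7_6 (by omega)) | exact Or.inr (lev7_7 (by omega)))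
      (by first | exact Or.inl (by omega) | exact Or.inr (lev7_1 (by omega)) | exact Or.inr (lev7_2 (by omega)) | exact Or.inr (lev7_3 (by omega)) | exact Or.inr (lev7_4 (by omega)) | exact Or.inr (lev7_5 (by omega)) | exact Or.inr (lev7_6 (by omega)) | exact Or.inr (lev7_7 (by omega)))
      (by first | exact Or.inl (by omega) | exact Or.inr (lev7_1 (by omega)) | exact Or.inr (lev7_2 (by omega)) | exact Or.inr (lev7_3 (by omega)) | exact Or.inr (lev7_4 (by omega)) | exact Or.inr (lev7_5 (by omega)) | exact Or.inr (lev7_6 (by omega)) | exact Or.inr (lev7_7 (by omega)))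
      (by first | exact lev7_7 (by omega) | exact lev7_6 (by omega) | exact lev7_5 (by omega) | exact lev7_4 (by omega) | exact lev7_3 (by omega) | exact lev7_2 (by omega) | exact lev7_1 (by omega))
      (by omega)
    push_cast at key
    linarith
  · have key := h.ex7 hp (by omega) (d 3 - 1) (d 3) (d 3 - 2) (d 3 + 1) (d 3) (d 3 + 1) (d 7) (0) (-1) (-2) (3) (-1) (1) 0
      (Or.inl (by omega)) (by omega)
      (by first | exact Or.inl (by omega) | exact Or.inr (lev7_1 (by omega)) | exact Or.inr (lev7_2 (by omega)) | exact Or.inr (lev7_3 (by omega)) | exact Or.inr (lev7_4 (by omega)) | exact Or.inr (lev7_5 (by omega)) | exact Or.inr (lev7_6 (by omega)) | exact Or.inr (lev7_7 (by omega)))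
      (by first | exact Or.inl (by omega) | exact Or.inr (lev7_1 (by omega)) | exact Or.inr (lev7_2 (by omega)) | exact Or.inr (lev7_3 (by omega)) | exact Or.inr (lev7_4 (by omega)) | exact Or.inr (lev7_5 (by omega)) | exact Or.inr (lev7_6 (by omega)) | exact Or.inr (lev7_7 (by omega)))
      (by first | exact Or.inl (by omega) | exact Or.inr (lev7_1 (by omega)) | exact Or.inr (lev7_2 (by omega)) | exact Or.inr (lev7_3 (by omega)) | exact Or.inr (lev7_4 (by omega)) | exact Or.inr (lev7_5 (by omega)) | exact Or.inr (lev7_6 (by omega)) | exact Or.inr (lev7_7 (by omega)))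
      (by first | exact Or.inl (by omega) | exact Or.inr (lev7_1 (by omega)) | exact Or.inr (lev7_2 (by omega)) | exact Or.inr (lev7_3 (by omega)) | exact Or.inr (lev7_4 (by omega)) | exact Or.inr (lev7_5 (by omega)) | exact Or.inr (lev7_6 (by omega)) | exact Or.inr (lev7_7 (by omega)))
      (by first | exact Or.inl (by omega) | exact Or.inr (lev7_1 (by omega)) | exact Or.inr (lev7_2 (by omega)) | exact Or.inr (lev7_3 (by omega)) | exact Or.inr (lev7_4 (by omega)) | exact Or.inr (lev7_5 (by omega)) | exact Or.inr (lev7_6 (by omega)) | exact Or.inr (lev7_7 (by omega)))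
      (by first | exact Or.inl (by omega) | exact Or.inr (lev7_1 (by omega)) | exact Or.inr (lev7_2 (by omega)) | exact Or.inr (lev7_3 (by omega)) | exact Or.inr (lev7_4 (by omega)) | exact Or.inr (lev7_5 (by omega)) | exact Or.inr (lev7_6 (by omega)) | exact Or.inr (lev7_7 (by omega)))
      (by first | exact lev7_7 (by omega) | exact lev7_6 (by omega) | exact lev7_5 (by omega) | exact lev7_4 (by omega) | exact lev7_3 (by omega) | exact lev7_2 (by omega) | exact lev7_1 (by omega))
      (by omega)
    push_cast at key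
    linarith
  · have key := h.ex7 hp (by omega) (d 3 - 1) (d 3) (d 3 - 2) (d 3 + 1) (d 3) (d 3 + 1) (d 7) (0) (-1) (-2) (0) (2) (1) 0
      (Or.inl (by omega)) (by omega)
      (by first | exact Or.inl (by omega) | exact Or.inr (lev7_1 (by omega)) | exact Or.inr (lev7_2 (by omega)) | exact Or.inr (lev7_3 (by omega)) | exact Or.inr (lev7_4 (by omega)) | exact Or.inr (lev7_5 (by omega)) | exact Or.inr (lev7_6 (by omega)) | exact Or.inr (lev7_7 (by omega)))
      (by first | exact Or.inl (by omega) | exact Or.inr (lev7_1 (by omega)) | exact Or.inr (lev7_2 (by omega)) | exact Or.inr (lev7_3 (by omega)) | exact Or.inr (lev7_4 (by omega)) | exact Or.inr (lev7_5 (by omega)) | exact Or.inr (lev7_6 (by omega)) | exact Or.inr (lev7_7 (by omega)))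
      (by first | exact Or.inl (by omega) | exact Or.inr (lev7_1 (by omega)) | exact Or.inr (lev7_2 (by omega)) | exact Or.inr (lev7_3 (by omega)) | exact Or.inr (lev7_4 (by omega)) | exact Or.inr (lev7_5 (by omega)) | exact Or.inr (lev7_6 (by omega)) | exact Or.inr (lev7_7 (by omega)))
      (by first | exact Or.inl (by omega) | exact Or.inr (lev7_1 (by omega)) | exact Or.inr (lev7_2 (by omega)) | exact Or.inr (lev7_3 (by omega)) | exact Or.inr (lev7_4 (by omega)) | exact Or.inr (lev7_5 (by omega)) | exact Or.inr (lev7_6 (by omega)) | exact Or.inr (lev7_7 (by omega)))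
      (by first | exact Or.inl (by omega) | exact Or.inr (lev7_1 (by omega)) | exact Or.inr (lev7_2 (by omega)) | exact Or.inr (lev7_3 (by omega)) | exact Or.inr (lev7_4 (by omega)) | exact Or.inr (lev7_5 (by omega)) | exact Or.inr (lev7_6 (by omega)) | exact Or.inr (lev7_7 (by omega)))
      (by first | exact Or.inl (by omega) | exact Or.inr (lev7_1 (by omega)) | exact Or.inr (lev7_2 (by omega)) | exact Or.inr (lev7_3 (by omega)) | exact Or.inr (lev7_4 (by omega)) | exact Or.inr (lev7_5 (by omega)) | exact Or.inr (lev7_6 (by omega)) | exact Or.inr (lev7_7 (by omega)))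
      (by first | exact lev7_7 (by omega) | exact lev7_6 (by omega) | exact lev7_5 (by omega) | exact lev7_4 (by omega) | exact lev7_3 (by omega) | exact lev7_2 (by omega) | exact lev7_1 (by omega))
      (by omega)
    push_cast at key
    linarith

theorem Good.H13 (h : Good n p d) (hp : ∀ i, 0 ≤ p i) (hn : 6 ≤ n) (hr : p 1 = 2 * p 2) (hw : p 4 = p 5)
    (a1 : d 1 = d 3 + 1)
    (a2 : d 2 = d 3 + 2)
    (x0 : d 3 + 2 ≤ d 6)
    (sp : (d 4 = d 6 + 1 ∧ d 5 = d 6 + 2) ∨ (d 4 = d 6 + 2 ∧ d 5 = d 6 + 1))
    : 4 * p 4 ≤ p 2 + 2 * p 3 := by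
  rcases sp with sp | sp
  · have key := h.ex6 hp (by omega) (d 3 + 2) (d 3 + 1) (d 3 + 2) (d 3 + 3) (d 3) (d 6) (1) (-1) (2) (0) (-4) 0
      (Or.inl (by omega)) (by omega)
      (by first | exact Or.inl (by omega) | exact Or.inr (lev6_1 (by omega)) | exact Or.inr (lev6_2 (by omega)) | exact Or.inr (lev6_3 (by omega)) | exact Or.inr (lev6_4 (by omega)) | exact Or.inr (lev6_5 (by omega)) | exact Or.inr (lev6_6 (by omega)))
      (by first | exact Or.inl (by omega) | exact Or.inr (lev6_1 (by omega)) | exact Or.inr (lev6_2 (by omega)) | exact Or.inr (lev6_3 (by omega)) | exact Or.inr (lev6_4 (by omega)) | exact Or.inr (lev6_5 (by omega)) | exact Or.inr (lev6_6 (by omega)))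
      (by first | exact Or.inl (by omega) | exact Or.inr (lev6_1 (by omega)) | exact Or.inr (lev6_2 (by omega)) | exact Or.inr (lev6_3 (by omega)) | exact Or.inr (lev6_4 (by omega)) | exact Or.inr (lev6_5 (by omega)) | exact Or.inr (lev6_6 (by omega)))
      (by first | exact Or.inl (by omega) | exact Or.inr (lev6_1 (by omega)) | exact Or.inr (lev6_2 (by omega)) | exact Or.inr (lev6_3 (by omega)) | exact Or.inr (lev6_4 (by omega)) | exact Or.inr (lev6_5 (by omega)) | exact Or.inr (lev6_6 (by omega)))
      (by first | exact Or.inl (by omega) | exact Or.inr (lev6_1 (by omega)) | exact Or.inr (lev6_2 (by omega)) | exact Or.inr (lev6_3 (by omega)) | exact Or.inr (lev6_4 (by omega)) | exact Or.inr (lev6_5 (by omega)) | exact Or.inr (lev6_6 (by omega)))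
      (by first | exact lev6_6 (by omega) | exact lev6_5 (by omega) | exact lev6_4 (by omega) | exact lev6_3 (by omega) | exact lev6_2 (by omega) | exact lev6_1 (by omega))
      (by omega)
    push_cast at key
    linarith
  · have key := h.ex6 hp (by omega) (d 3 + 2) (d 3 + 1) (d 3 + 2) (d 3 + 3) (d 3) (d 6) (1) (-1) (2) (-1) (-3) 0
      (Or.inl (by omega)) (by omega)
      (by first | exact Or.inl (by omega) | exact Or.inr (lev6_1 (by omega)) | exact Or.inr (lev6_2 (by omega)) | exact Or.inr (lev6_3 (by omega)) | exact Or.inr (lev6_4 (by omega)) | exact Or.inr (lev6_5 (by omega)) | exact Or.inr (lev6_6 (by omega)))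
      (by first | exact Or.inl (by omega) | exact Or.inr (lev6_1 (by omega)) | exact Or.inr (lev6_2 (by omega)) | exact Or.inr (lev6_3 (by omega)) | exact Or.inr (lev6_4 (by omega)) | exact Or.inr (lev6_5 (by omega)) | exact Or.inr (lev6_6 (by omega)))
      (by first | exact Or.inl (by omega) | exact Or.inr (lev6_1 (by omega)) | exact Or.inr (lev6_2 (by omega)) | exact Or.inr (lev6_3 (by omega)) | exact Or.inr (lev6_4 (by omega)) | exact Or.inr (lev6_5 (by omega)) | exact Or.inr (lev6_6 (by omega)))
      (by first | exact Or.inl (by omega) | exact Or.inr (lev6_1 (by omega)) | exact Or.inr (lev6_2 (by omega)) | exact Or.inr (lev6_3 (by omega)) | exact Or.inr (lev6_4 (by omega)) | exact Or.inr (lev6_5 (by omega)) | exact Or.inr (lev6_6 (by omega)))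
      (by first | exact Or.inl (by omega) | exact Or.inr (lev6_1 (by omega)) | exact Or.inr (lev6_2 (by omega)) | exact Or.inr (lev6_3 (by omega)) | exact Or.inr (lev6_4 (by omega)) | exact Or.inr (lev6_5 (by omega)) | exact Or.inr (lev6_6 (by omega)))
      (by first | exact lev6_6 (by omega) | exact lev6_5 (by omega) | exact lev6_4 (by omega) | exact lev6_3 (by omega) | exact lev6_2 (by omega) | exact lev6_1 (by omega))
      (by omega)
    push_cast at key
    linarith

theorem Good.H14 (h : Good n p d) (hp : ∀ i, 0 ≤ p i) (hn : 7 ≤ n) (hw : p 4 = p 5) (J : ℤ)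
    (a1 : d 6 = d 3)
    (a2 : d 7 = d 3 - 1)
    (b0 : (d 1 = d 3 ∧ d 2 = d 3 - 1) ∨ (d 1 = d 3 - 1 ∧ d 2 = d 3 + 1))
    (b1 : (d 4 = d 3 - 2 ∧ d 5 = d 3 + 1) ∨ (d 4 = d 3 + 1 ∧ d 5 = d 3 - 2))
    (x0 : 0 ≤ J)
    (x1 : d 8 ≤ d 7 + J)
    (sp : d 8 < d 3 - 2 ∨ d 7 < d 8)
    : p 4 + p 6 ≤ ((J : ℝ) + 1) * p 7 := by
  rcases b0 with ⟨b00, b01⟩ | ⟨b00, b01⟩ <;> rcases b1 with ⟨b10, b11⟩ | ⟨b10, b11⟩ <;> rcases sp with sp | sp
  · have key := h.ex8 hp (by omega) (d 1) (d 2) (d 3) (d 3 - 2) (d 3) (d 3 - 1) (d 3) (d 8) 0 0 0 (0) (-1) (-1) (J+1) 0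
      (Or.inr ⟨rfl, le_rfl⟩) (by omega)
      (by first | exact Or.inl (by omega) | exact Or.inr (lev8_1 (by omega)) | exact Or.inr (lev8_2 (by omega)) | exact Or.inr (lev8_3 (by omega)) | exact Or.inr (lev8_4 (by omega)) | exact Or.inr (lev8_5 (by omega)) | exact Or.inr (lev8_6 (by omega)) | exact Or.inr (lev8_7 (by omega)) | exact Or.inr (lev8_8 (by omega)))
      (by first | exact Or.inl (by omega) | exact Or.inr (lev8_1 (by omega)) | exact Or.inr (lev8_2 (by omega)) | exact Or.inr (lev8_3 (by omega)) | exact Or.inr (lev8_4 (by omega)) | exact Or.inr (lev8_5 (by omega)) | exact Or.inr (lev8_6 (by omega)) | exact Or.inr (lev8_7 (by omega)) | exact Or.inr (lev8_8 (by omega)))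
      (by first | exact Or.inl (by omega) | exact Or.inr (lev8_1 (by omega)) | exact Or.inr (lev8_2 (by omega)) | exact Or.inr (lev8_3 (by omega)) | exact Or.inr (lev8_4 (by omega)) | exact Or.inr (lev8_5 (by omega)) | exact Or.inr (lev8_6 (by omega)) | exact Or.inr (lev8_7 (by omega)) | exact Or.inr (lev8_8 (by omega)))
      (by first | exact Or.inl (by omega) | exact Or.inr (lev8_1 (by omega)) | exact Or.inr (lev8_2 (by omega)) | exact Or.inr (lev8_3 (by omega)) | exact Or.inr (lev8_4 (by omega)) | exact Or.inr (lev8_5 (by omega)) | exact Or.inr (lev8_6 (by omega)) | exact Or.inr (lev8_7 (by omega)) | exact Or.inr (lev8_8 (by omega)))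
      (by first | exact Or.inl (by omega) | exact Or.inr (lev8_1 (by omega)) | exact Or.inr (lev8_2 (by omega)) | exact Or.inr (lev8_3 (by omega)) | exact Or.inr (lev8_4 (by omega)) | exact Or.inr (lev8_5 (by omega)) | exact Or.inr (lev8_6 (by omega)) | exact Or.inr (lev8_7 (by omega)) | exact Or.inr (lev8_8 (by omega)))
      (by first | exact Or.inl (by omega) | exact Or.inr (lev8_1 (by omega)) | exact Or.inr (lev8_2 (by omega)) | exact Or.inr (lev8_3 (by omega)) | exact Or.inr (lev8_4 (by omega)) | exact Or.inr (lev8_5 (by omega)) | exact Or.inr (lev8_6 (by omega)) | exact Or.inr (lev8_7 (by omega)) | exact Or.inr (lev8_8 (by omega)))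
      (by first | exact Or.inl (by omega) | exact Or.inr (lev8_1 (by omega)) | exact Or.inr (lev8_2 (by omega)) | exact Or.inr (lev8_3 (by omega)) | exact Or.inr (lev8_4 (by omega)) | exact Or.inr (lev8_5 (by omega)) | exact Or.inr (lev8_6 (by omega)) | exact Or.inr (lev8_7 (by omega)) | exact Or.inr (lev8_8 (by omega)))
      (by first | exact lev8_8 (by omega) | exact lev8_7 (by omega) | exact lev8_6 (by omega) | exact lev8_5 (by omega) | exact lev8_4 (by omega) | exact lev8_3 (by omega) | exact lev8_2 (by omega) | exact lev8_1 (by omega))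
      (by omega)
    push_cast at key
    linarith
  · have key := h.ex8 hp (by omega) (d 1) (d 2) (d 3) (d 3 - 2) (d 3) (d 3 - 1) (d 8 + 1) (d 8) 0 0 0 (0) (-1) (-1) (J+1) 0
      (Or.inr ⟨rfl, le_rfl⟩) (by omega)
      (by first | exact Or.inl (by omega) | exact Or.inr (lev8_1 (by omega)) | exact Or.inr (lev8_2 (by omega)) | exact Or.inr (lev8_3 (by omega)) | exact Or.inr (lev8_4 (by omega)) | exact Or.inr (lev8_5 (by omega)) | exact Or.inr (lev8_6 (by omega)) | exact Or.inr (lev8_7 (by omega)) | exact Or.inr (lev8_8 (by omega)))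
      (by first | exact Or.inl (by omega) | exact Or.inr (lev8_1 (by omega)) | exact Or.inr (lev8_2 (by omega)) | exact Or.inr (lev8_3 (by omega)) | exact Or.inr (lev8_4 (by omega)) | exact Or.inr (lev8_5 (by omega)) | exact Or.inr (lev8_6 (by omega)) | exact Or.inr (lev8_7 (by omega)) | exact Or.inr (lev8_8 (by omega)))
      (by first | exact Or.inl (by omega) | exact Or.inr (lev8_1 (by omega)) | exact Or.inr (lev8_2 (by omega)) | exact Or.inr (lev8_3 (by omega)) | exact Or.inr (lev8_4 (by omega)) | exact Or.inr (lev8_5 (by omega)) | exact Or.inr (lev8_6 (by omega)) | exact Or.inr (lev8_7 (by omega)) | exact Or.inr (lev8_8 (by omega)))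
      (by first | exact Or.inl (by omega) | exact Or.inr (lev8_1 (by omega)) | exact Or.inr (lev8_2 (by omega)) | exact Or.inr (lev8_3 (by omega)) | exact Or.inr (lev8_4 (by omega)) | exact Or.inr (lev8_5 (by omega)) | exact Or.inr (lev8_6 (by omega)) | exact Or.inr (lev8_7 (by omega)) | exact Or.inr (lev8_8 (by omega)))
      (by first | exact Or.inl (by omega) | exact Or.inr (lev8_1 (by omega)) | exact Or.inr (lev8_2 (by omega)) | exact Or.inr (lev8_3 (by omega)) | exact Or.inr (lev8_4 (by omega)) | exact Or.inr (lev8_5 (by omega)) | exact Or.inr (lev8_6 (by omega)) | exact Or.inr (lev8_7 (by omega)) | exact Or.inr (lev8_8 (by omega)))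
      (by first | exact Or.inl (by omega) | exact Or.inr (lev8_1 (by omega)) | exact Or.inr (lev8_2 (by omega)) | exact Or.inr (lev8_3 (by omega)) | exact Or.inr (lev8_4 (by omega)) | exact Or.inr (lev8_5 (by omega)) | exact Or.inr (lev8_6 (by omega)) | exact Or.inr (lev8_7 (by omega)) | exact Or.inr (lev8_8 (by omega)))
      (by first | exact Or.inl (by omega) | exact Or.inr (lev8_1 (by omega)) | exact Or.inr (lev8_2 (by omega)) | exact Or.inr (lev8_3 (by omega)) | exact Or.inr (lev8_4 (by omega)) | exact Or.inr (lev8_5 (by omega)) | exact Or.inr (lev8_6 (by omega)) | exact Or.inr (lev8_7 (by omega)) | exact Or.inr (lev8_8 (by omega)))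
      (by first | exact lev8_8 (by omega) | exact lev8_7 (by omega) | exact lev8_6 (by omega) | exact lev8_5 (by omega) | exact lev8_4 (by omega) | exact lev8_3 (by omega) | exact lev8_2 (by omega) | exact lev8_1 (by omega))
      (by omega)
    push_cast at key
    linarith
  · have key := h.ex8 hp (by omega) (d 1) (d 2) (d 3) (d 3 - 2) (d 3) (d 3 - 1) (d 3) (d 8) 0 0 0 (-3) (2) (-1) (J+1) 0
      (Or.inr ⟨rfl, le_rfl⟩) (by omega)
      (by first | exact Or.inl (by omega) | exact Or.inr (lev8_1 (by omega)) | exact Or.inr (lev8_2 (by omega)) | exact Or.inr (lev8_3 (by omega)) | exact Or.inr (lev8_4 (by omega)) | exact Or.inr (lev8_5 (by omega)) | exact Or.inr (lev8_6 (by omega)) | exact Or.inr (lev8_7 (by omega)) | exact Or.inr (lev8_8 (by omega)))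
      (by first | exact Or.inl (by omega) | exact Or.inr (lev8_1 (by omega)) | exact Or.inr (lev8_2 (by omega)) | exact Or.inr (lev8_3 (by omega)) | exact Or.inr (lev8_4 (by omega)) | exact Or.inr (lev8_5 (by omega)) | exact Or.inr (lev8_6 (by omega)) | exact Or.inr (lev8_7 (by omega)) | exact Or.inr (lev8_8 (by omega)))
      (by first | exact Or.inl (by omega) | exact Or.inr (lev8_1 (by omega)) | exact Or.inr (lev8_2 (by omega)) | exact Or.inr (lev8_3 (by omega)) | exact Or.inr (lev8_4 (by omega)) | exact Or.inr (lev8_5 (by omega)) | exact Or.inr (lev8_6 (by omega)) | exact Or.inr (lev8_7 (by omega)) | exact Or.inr (lev8_8 (by omega)))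
      (by first | exact Or.inl (by omega) | exact Or.inr (lev8_1 (by omega)) | exact Or.inr (lev8_2 (by omega)) | exact Or.inr (lev8_3 (by omega)) | exact Or.inr (lev8_4 (by omega)) | exact Or.inr (lev8_5 (by omega)) | exact Or.inr (lev8_6 (by omega)) | exact Or.inr (lev8_7 (by omega)) | exact Or.inr (lev8_8 (by omega)))
      (by first | exact Or.inl (by omega) | exact Or.inr (lev8_1 (by omega)) | exact Or.inr (lev8_2 (by omega)) | exact Or.inr (lev8_3 (by omega)) | exact Or.inr (lev8_4 (by omega)) | exact Or.inr (lev8_5 (by omega)) | exact Or.inr (lev8_6 (by omega)) | exact Or.inr (lev8_7 (by omega)) | exact Or.inr (lev8_8 (by omega)))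
      (by first | exact Or.inl (by omega) | exact Or.inr (lev8_1 (by omega)) | exact Or.inr (lev8_2 (by omega)) | exact Or.inr (lev8_3 (by omega)) | exact Or.inr (lev8_4 (by omega)) | exact Or.inr (lev8_5 (by omega)) | exact Or.inr (lev8_6 (by omega)) | exact Or.inr (lev8_7 (by omega)) | exact Or.inr (lev8_8 (by omega)))
      (by first | exact Or.inl (by omega) | exact Or.inr (lev8_1 (by omega)) | exact Or.inr (lev8_2 (by omega)) | exact Or.inr (lev8_3 (by omega)) | exact Or.inr (lev8_4 (by omega)) | exact Or.inr (lev8_5 (by omega)) | exact Or.inr (lev8_6 (by omega)) | exact Or.inr (lev8_7 (by omega)) | exact Or.inr (lev8_8 (by omega)))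
      (by first | exact lev8_8 (by omega) | exact lev8_7 (by omega) | exact lev8_6 (by omega) | exact lev8_5 (by omega) | exact lev8_4 (by omega) | exact lev8_3 (by omega) | exact lev8_2 (by omega) | exact lev8_1 (by omega))
      (by omega)
    push_cast at key
    linarith
  · have key := h.ex8 hp (by omega) (d 1) (d 2) (d 3) (d 3 - 2) (d 3) (d 3 - 1) (d 8 + 1) (d 8) 0 0 0 (-3) (2) (-1) (J+1) 0
      (Or.inr ⟨rfl, le_rfl⟩) (by omega)
      (by first | exact Or.inl (by omega) | exact Or.inr (lev8_1 (by omega)) | exact Or.inr (lev8_2 (by omega)) | exact Or.inr (lev8_3 (by omega)) | exact Or.inr (lev8_4 (by omega)) | exact Or.inr (lev8_5 (by omega)) | exact Or.inr (lev8_6 (by omega)) | exact Or.inr (lev8_7 (by omega)) | exact Or.inr (lev8_8 (by omega)))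
      (by first | exact Or.inl (by omega) | exact Or.inr (lev8_1 (by omega)) | exact Or.inr (lev8_2 (by omega)) | exact Or.inr (lev8_3 (by omega)) | exact Or.inr (lev8_4 (by omega)) | exact Or.inr (lev8_5 (by omega)) | exact Or.inr (lev8_6 (by omega)) | exact Or.inr (lev8_7 (by omega)) | exact Or.inr (lev8_8 (by omega)))
      (by first | exact Or.inl (by omega) | exact Or.inr (lev8_1 (by omega)) | exact Or.inr (lev8_2 (by omega)) | exact Or.inr (lev8_3 (by omega)) | exact Or.inr (lev8_4 (by omega)) | exact Or.inr (lev8_5 (by omega)) | exact Or.inr (lev8_6 (by omega)) | exact Or.inr (lev8_7 (by omega)) | exact Or.inr (lev8_8 (by omega)))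
      (by first | exact Or.inl (by omega) | exact Or.inr (lev8_1 (by omega)) | exact Or.inr (lev8_2 (by omega)) | exact Or.inr (lev8_3 (by omega)) | exact Or.inr (lev8_4 (by omega)) | exact Or.inr (lev8_5 (by omega)) | exact Or.inr (lev8_6 (by omega)) | exact Or.inr (lev8_7 (by omega)) | exact Or.inr (lev8_8 (by omega)))
      (by first | exact Or.inl (by omega) | exact Or.inr (lev8_1 (by omega)) | exact Or.inr (lev8_2 (by omega)) | exact Or.inr (lev8_3 (by omega)) | exact Or.inr (lev8_4 (by omega)) | exact Or.inr (lev8_5 (by omega)) | exact Or.inr (lev8_6 (by omega)) | exact Or.inr (lev8_7 (by omega)) | exact Or.inr (lev8_8 (by omega)))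
      (by first | exact Or.inl (by omega) | exact Or.inr (lev8_1 (by omega)) | exact Or.inr (lev8_2 (by omega)) | exact Or.inr (lev8_3 (by omega)) | exact Or.inr (lev8_4 (by omega)) | exact Or.inr (lev8_5 (by omega)) | exact Or.inr (lev8_6 (by omega)) | exact Or.inr (lev8_7 (by omega)) | exact Or.inr (lev8_8 (by omega)))
      (by first | exact Or.inl (by omega) | exact Or.inr (lev8_1 (by omega)) | exact Or.inr (lev8_2 (by omega)) | exact Or.inr (lev8_3 (by omega)) | exact Or.inr (lev8_4 (by omega)) | exact Or.inr (lev8_5 (by omega)) | exact Or.inr (lev8_6 (by omega)) | exact Or.inr (lev8_7 (by omega)) | exact Or.inr (lev8_8 (by omega)))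
      (by first | exact lev8_8 (by omega) | exact lev8_7 (by omega) | exact lev8_6 (by omega) | exact lev8_5 (by omega) | exact lev8_4 (by omega) | exact lev8_3 (by omega) | exact lev8_2 (by omega) | exact lev8_1 (by omega))
      (by omega)
    push_cast at key
    linarith
  · have key := h.ex8 hp (by omega) (d 1) (d 2) (d 3) (d 3 - 2) (d 3) (d 3 - 1) (d 3) (d 8) 0 0 0 (0) (-1) (-1) (J+1) 0
      (Or.inr ⟨rfl, le_rfl⟩) (by omega)
      (by first | exact Or.inl (by omega) | exact Or.inr (lev8_1 (by omega)) | exact Or.inr (lev8_2 (by omega)) | exact Or.inr (lev8_3 (by omega)) | exact Or.inr (lev8_4 (by omega)) | exact Or.inr (lev8_5 (by omega)) | exact Or.inr (lev8_6 (by omega)) | exact Or.inr (lev8_7 (by omega)) | exact Or.inr (lev8_8 (by omega)))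
      (by first | exact Or.inl (by omega) | exact Or.inr (lev8_1 (by omega)) | exact Or.inr (lev8_2 (by omega)) | exact Or.inr (lev8_3 (by omega)) | exact Or.inr (lev8_4 (by omega)) | exact Or.inr (lev8_5 (by omega)) | exact Or.inr (lev8_6 (by omega)) | exact Or.inr (lev8_7 (by omega)) | exact Or.inr (lev8_8 (by omega)))
      (by first | exact Or.inl (by omega) | exact Or.inr (lev8_1 (by omega)) | exact Or.inr (lev8_2 (by omega)) | exact Or.inr (lev8_3 (by omega)) | exact Or.inr (lev8_4 (by omega)) | exact Or.inr (lev8_5 (by omega)) | exact Or.inr (lev8_6 (by omega)) | exact Or.inr (lev8_7 (by omega)) | exact Or.inr (lev8_8 (by omega)))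
      (by first | exact Or.inl (by omega) | exact Or.inr (lev8_1 (by omega)) | exact Or.inr (lev8_2 (by omega)) | exact Or.inr (lev8_3 (by omega)) | exact Or.inr (lev8_4 (by omega)) | exact Or.inr (lev8_5 (by omega)) | exact Or.inr (lev8_6 (by omega)) | exact Or.inr (lev8_7 (by omega)) | exact Or.inr (lev8_8 (by omega)))
      (by first | exact Or.inl (by omega) | exact Or.inr (lev8_1 (by omega)) | exact Or.inr (lev8_2 (by omega)) | exact Or.inr (lev8_3 (by omega)) | exact Or.inr (lev8_4 (by omega)) | exact Or.inr (lev8_5 (by omega)) | exact Or.inr (lev8_6 (by omega)) | exact Or.inr (lev8_7 (by omega)) | exact Or.inr (lev8_8 (by omega)))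
      (by first | exact Or.inl (by omega) | exact Or.inr (lev8_1 (by omega)) | exact Or.inr (lev8_2 (by omega)) | exact Or.inr (lev8_3 (by omega)) | exact Or.inr (lev8_4 (by omega)) | exact Or.inr (lev8_5 (by omega)) | exact Or.inr (lev8_6 (by omega)) | exact Or.inr (lev8_7 (by omega)) | exact Or.inr (lev8_8 (by omega)))
      (by first | exact Or.inl (by omega) | exact Or.inr (lev8_1 (by omega)) | exact Or.inr (lev8_2 (by omega)) | exact Or.inr (lev8_3 (by omega)) | exact Or.inr (lev8_4 (by omega)) | exact Or.inr (lev8_5 (by omega)) | exact Or.inr (lev8_6 (by omega)) | exact Or.inr (lev8_7 (by omega)) | exact Or.inr (lev8_8 (by omega)))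
      (by first | exact lev8_8 (by omega) | exact lev8_7 (by omega) | exact lev8_6 (by omega) | exact lev8_5 (by omega) | exact lev8_4 (by omega) | exact lev8_3 (by omega) | exact lev8_2 (by omega) | exact lev8_1 (by omega))
      (by omega)
    push_cast at key
    linarith
  · have key := h.ex8 hp (by omega) (d 1) (d 2) (d 3) (d 3 - 2) (d 3) (d 3 - 1) (d 8 + 1) (d 8) 0 0 0 (0) (-1) (-1) (J+1) 0
      (Or.inr ⟨rfl, le_rfl⟩) (by omega)
      (by first | exact Or.inl (by omega) | exact Or.inr (lev8_1 (by omega)) | exact Or.inr (lev8_2 (by omega)) | exact Or.inr (lev8_3 (by omega)) | exact Or.inr (lev8_4 (by omega)) | exact Or.inr (lev8_5 (by omega)) | exact Or.inr (lev8_6 (by omega)) | exact Or.inr (lev8_7 (by omega)) | exact Or.inr (lev8_8 (by omega)))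
      (by first | exact Or.inl (by omega) | exact Or.inr (lev8_1 (by omega)) | exact Or.inr (lev8_2 (by omega)) | exact Or.inr (lev8_3 (by omega)) | exact Or.inr (lev8_4 (by omega)) | exact Or.inr (lev8_5 (by omega)) | exact Or.inr (lev8_6 (by omega)) | exact Or.inr (lev8_7 (by omega)) | exact Or.inr (lev8_8 (by omega)))
      (by first | exact Or.inl (by omega) | exact Or.inr (lev8_1 (by omega)) | exact Or.inr (lev8_2 (by omega)) | exact Or.inr (lev8_3 (by omega)) | exact Or.inr (lev8_4 (by omega)) | exact Or.inr (lev8_5 (by omega)) | exact Or.inr (lev8_6 (by omega)) | exact Or.inr (lev8_7 (by omega)) | exact Or.inr (lev8_8 (by omega)))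
      (by first | exact Or.inl (by omega) | exact Or.inr (lev8_1 (by omega)) | exact Or.inr (lev8_2 (by omega)) | exact Or.inr (lev8_3 (by omega)) | exact Or.inr (lev8_4 (by omega)) | exact Or.inr (lev8_5 (by omega)) | exact Or.inr (lev8_6 (by omega)) | exact Or.inr (lev8_7 (by omega)) | exact Or.inr (lev8_8 (by omega)))
      (by first | exact Or.inl (by omega) | exact Or.inr (lev8_1 (by omega)) | exact Or.inr (lev8_2 (by omega)) | exact Or.inr (lev8_3 (by omega)) | exact Or.inr (lev8_4 (by omega)) | exact Or.inr (lev8_5 (by omega)) | exact Or.inr (lev8_6 (by omega)) | exact Or.inr (lev8_7 (by omega)) | exact Or.inr (lev8_8 (by omega)))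
      (by first | exact Or.inl (by omega) | exact Or.inr (lev8_1 (by omega)) | exact Or.inr (lev8_2 (by omega)) | exact Or.inr (lev8_3 (by omega)) | exact Or.inr (lev8_4 (by omega)) | exact Or.inr (lev8_5 (by omega)) | exact Or.inr (lev8_6 (by omega)) | exact Or.inr (lev8_7 (by omega)) | exact Or.inr (lev8_8 (by omega)))
      (by first | exact Or.inl (by omega) | exact Or.inr (lev8_1 (by omega)) | exact Or.inr (lev8_2 (by omega)) | exact Or.inr (lev8_3 (by omega)) | exact Or.inr (lev8_4 (by omega)) | exact Or.inr (lev8_5 (by omega)) | exact Or.inr (lev8_6 (by omega)) | exact Or.inr (lev8_7 (by omega)) | exact Or.inr (lev8_8 (by omega)))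
      (by first | exact lev8_8 (by omega) | exact lev8_7 (by omega) | exact lev8_6 (by omega) | exact lev8_5 (by omega) | exact lev8_4 (by omega) | exact lev8_3 (by omega) | exact lev8_2 (by omega) | exact lev8_1 (by omega))
      (by omega)
    push_cast at key
    linarith
  · have key := h.ex8 hp (by omega) (d 1) (d 2) (d 3) (d 3 - 2) (d 3) (d 3 - 1) (d 3) (d 8) 0 0 0 (-3) (2) (-1) (J+1) 0
      (Or.inr ⟨rfl, le_rfl⟩) (by omega)
      (by first | exact Or.inl (by omega) | exact Or.inr (lev8_1 (by omega)) | exact Or.inr (lev8_2 (by omega)) | exact Or.inr (lev8_3 (by omega)) | exact Or.inr (lev8_4 (by omega)) | exact Or.inr (lev8_5 (by omega)) | exact Or.inr (lev8_6 (by omega)) | exact Or.inr (lev8_7 (by omega)) | exact Or.inr (lev8_8 (by omega)))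
      (by first | exact Or.inl (by omega) | exact Or.inr (lev8_1 (by omega)) | exact Or.inr (lev8_2 (by omega)) | exact Or.inr (lev8_3 (by omega)) | exact Or.inr (lev8_4 (by omega)) | exact Or.inr (lev8_5 (by omega)) | exact Or.inr (lev8_6 (by omega)) | exact Or.inr (lev8_7 (by omega)) | exact Or.inr (lev8_8 (by omega)))
      (by first | exact Or.inl (by omega) | exact Or.inr (lev8_1 (by omega)) | exact Or.inr (lev8_2 (by omega)) | exact Or.inr (lev8_3 (by omega)) | exact Or.inr (lev8_4 (by omega)) | exact Or.inr (lev8_5 (by omega)) | exact Or.inr (lev8_6 (by omega)) | exact Or.inr (lev8_7 (by omega)) | exact Or.inr (lev8_8 (by omega)))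
      (by first | exact Or.inl (by omega) | exact Or.inr (lev8_1 (by omega)) | exact Or.inr (lev8_2 (by omega)) | exact Or.inr (lev8_3 (by omega)) | exact Or.inr (lev8_4 (by omega)) | exact Or.inr (lev8_5 (by omega)) | exact Or.inr (lev8_6 (by omega)) | exact Or.inr (lev8_7 (by omega)) | exact Or.inr (lev8_8 (by omega)))
      (by first | exact Or.inl (by omega) | exact Or.inr (lev8_1 (by omega)) | exact Or.inr (lev8_2 (by omega)) | exact Or.inr (lev8_3 (by omega)) | exact Or.inr (lev8_4 (by omega)) | exact Or.inr (lev8_5 (by omega)) | exact Or.inr (lev8_6 (by omega)) | exact Or.inr (lev8_7 (by omega)) | exact Or.inr (lev8_8 (by omega)))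
      (by first | exact Or.inl (by omega) | exact Or.inr (lev8_1 (by omega)) | exact Or.inr (lev8_2 (by omega)) | exact Or.inr (lev8_3 (by omega)) | exact Or.inr (lev8_4 (by omega)) | exact Or.inr (lev8_5 (by omega)) | exact Or.inr (lev8_6 (by omega)) | exact Or.inr (lev8_7 (by omega)) | exact Or.inr (lev8_8 (by omega)))
      (by first | exact Or.inl (by omega) | exact Or.inr (lev8_1 (by omega)) | exact Or.inr (lev8_2 (by omega)) | exact Or.inr (lev8_3 (by omega)) | exact Or.inr (lev8_4 (by omega)) | exact Or.inr (lev8_5 (by omega)) | exact Or.inr (lev8_6 (by omega)) | exact Or.inr (lev8_7 (by omega)) | exact Or.inr (lev8_8 (by omega)))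
      (by first | exact lev8_8 (by omega) | exact lev8_7 (by omega) | exact lev8_6 (by omega) | exact lev8_5 (by omega) | exact lev8_4 (by omega) | exact lev8_3 (by omega) | exact lev8_2 (by omega) | exact lev8_1 (by omega))
      (by omega)
    push_cast at key
    linarith
  · have key := h.ex8 hp (by omega) (d 1) (d 2) (d 3) (d 3 - 2) (d 3) (d 3 - 1) (d 8 + 1) (d 8) 0 0 0 (-3) (2) (-1) (J+1) 0
      (Or.inr ⟨rfl, le_rfl⟩) (by omega)
      (by first | exact Or.inl (by omega) | exact Or.inr (lev8_1 (by omega)) | exact Or.inr (lev8_2 (by omega)) | exact Or.inr (lev8_3 (by omega)) | exact Or.inr (lev8_4 (by omega)) | exact Or.inr (lev8_5 (by omega)) | exact Or.inr (lev8_6 (by omega)) | exact Or.inr (lev8_7 (by omega)) | exact Or.inr (lev8_8 (by omega)))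
      (by first | exact Or.inl (by omega) | exact Or.inr (lev8_1 (by omega)) | exact Or.inr (lev8_2 (by omega)) | exact Or.inr (lev8_3 (by omega)) | exact Or.inr (lev8_4 (by omega)) | exact Or.inr (lev8_5 (by omega)) | exact Or.inr (lev8_6 (by omega)) | exact Or.inr (lev8_7 (by omega)) | exact Or.inr (lev8_8 (by omega)))
      (by first | exact Or.inl (by omega) | exact Or.inr (lev8_1 (by omega)) | exact Or.inr (lev8_2 (by omega)) | exact Or.inr (lev8_3 (by omega)) | exact Or.inr (lev8_4 (by omega)) | exact Or.inr (lev8_5 (by omega)) | exact Or.inr (lev8_6 (by omega)) | exact Or.inr (lev8_7 (by omega)) | exact Or.inr (lev8_8 (by omega)))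
      (by first | exact Or.inl (by omega) | exact Or.inr (lev8_1 (by omega)) | exact Or.inr (lev8_2 (by omega)) | exact Or.inr (lev8_3 (by omega)) | exact Or.inr (lev8_4 (by omega)) | exact Or.inr (lev8_5 (by omega)) | exact Or.inr (lev8_6 (by omega)) | exact Or.inr (lev8_7 (by omega)) | exact Or.inr (lev8_8 (by omega)))
      (by first | exact Or.inl (by omega) | exact Or.inr (lev8_1 (by omega)) | exact Or.inr (lev8_2 (by omega)) | exact Or.inr (lev8_3 (by omega)) | exact Or.inr (lev8_4 (by omega)) | exact Or.inr (lev8_5 (by omega)) | exact Or.inr (lev8_6 (by omega)) | exact Or.inr (lev8_7 (by omega)) | exact Or.inr (lev8_8 (by omega)))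
      (by first | exact Or.inl (by omega) | exact Or.inr (lev8_1 (by omega)) | exact Or.inr (lev8_2 (by omega)) | exact Or.inr (lev8_3 (by omega)) | exact Or.inr (lev8_4 (by omega)) | exact Or.inr (lev8_5 (by omega)) | exact Or.inr (lev8_6 (by omega)) | exact Or.inr (lev8_7 (by omega)) | exact Or.inr (lev8_8 (by omega)))
      (by first | exact Or.inl (by omega) | exact Or.inr (lev8_1 (by omega)) | exact Or.inr (lev8_2 (by omega)) | exact Or.inr (lev8_3 (by omega)) | exact Or.inr (lev8_4 (by omega)) | exact Or.inr (lev8_5 (by omega)) | exact Or.inr (lev8_6 (by omega)) | exact Or.inr (lev8_7 (by omega)) | exact Or.inr (lev8_8 (by omega)))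
      (by first | exact lev8_8 (by omega) | exact lev8_7 (by omega) | exact lev8_6 (by omega) | exact lev8_5 (by omega) | exact lev8_4 (by omega) | exact lev8_3 (by omega) | exact lev8_2 (by omega) | exact lev8_1 (by omega))
      (by omega)
    push_cast at key
    linarith

theorem Good.H15 (h : Good n p d) (hp : ∀ i, 0 ≤ p i) (hn : 7 ≤ n) (hw : p 4 = p 5) (J : ℤ)
    (a1 : d 1 = d 3 + 1)
    (a2 : d 2 = d 3 + 2)
    (a3 : d 6 = d 3 - 1)
    (b0 : (d 4 = d 3 + 1 ∧ d 5 = d 3 + 2) ∨ (d 4 = d 3 + 2 ∧ d 5 = d 3 + 1))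
    (x0 : 1 ≤ J)
    (x1 : d 6 + J ≤ d 7)
    : (J : ℝ) * p 7 ≤ 3 * p 6 := by
  rcases b0 with ⟨b00, b01⟩ | ⟨b00, b01⟩
  · have key := h.ex7 hp (by omega) (d 1) (d 2) (d 3) (d 3 + 2) (d 3 + 1) (d 3 + 2) (d 3 - 1) 0 0 0 (1) (-1) (3) (-J)
      (Or.inl (by omega)) (by omega)
      (by first | exact Or.inl (by omega) | exact Or.inr (lev7_1 (by omega)) | exact Or.inr (lev7_2 (by omega)) | exact Or.inr (lev7_3 (by omega)) | exact Or.inr (lev7_4 (by omega)) | exact Or.inr (lev7_5 (by omega)) | exact Or.inr (lev7_6 (by omega)) | exact Or.inr (lev7_7 (by omega)))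
      (by first | exact Or.inl (by omega) | exact Or.inr (lev7_1 (by omega)) | exact Or.inr (lev7_2 (by omega)) | exact Or.inr (lev7_3 (by omega)) | exact Or.inr (lev7_4 (by omega)) | exact Or.inr (lev7_5 (by omega)) | exact Or.inr (lev7_6 (by omega)) | exact Or.inr (lev7_7 (by omega)))
      (by first | exact Or.inl (by omega) | exact Or.inr (lev7_1 (by omega)) | exact Or.inr (lev7_2 (by omega)) | exact Or.inr (lev7_3 (by omega)) | exact Or.inr (lev7_4 (by omega)) | exact Or.inr (lev7_5 (by omega)) | exact Or.inr (lev7_6 (by omega)) | exact Or.inr (lev7_7 (by omega)))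
      (by first | exact Or.inl (by omega) | exact Or.inr (lev7_1 (by omega)) | exact Or.inr (lev7_2 (by omega)) | exact Or.inr (lev7_3 (by omega)) | exact Or.inr (lev7_4 (by omega)) | exact Or.inr (lev7_5 (by omega)) | exact Or.inr (lev7_6 (by omega)) | exact Or.inr (lev7_7 (by omega)))
      (by first | exact Or.inl (by omega) | exact Or.inr (lev7_1 (by omega)) | exact Or.inr (lev7_2 (by omega)) | exact Or.inr (lev7_3 (by omega)) | exact Or.inr (lev7_4 (by omega)) | exact Or.inr (lev7_5 (by omega)) | exact Or.inr (lev7_6 (by omega)) | exact Or.inr (lev7_7 (by omega)))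
      (by first | exact Or.inl (by omega) | exact Or.inr (lev7_1 (by omega)) | exact Or.inr (lev7_2 (by omega)) | exact Or.inr (lev7_3 (by omega)) | exact Or.inr (lev7_4 (by omega)) | exact Or.inr (lev7_5 (by omega)) | exact Or.inr (lev7_6 (by omega)) | exact Or.inr (lev7_7 (by omega)))
      (by first | exact lev7_7 (by omega) | exact lev7_6 (by omega) | exact lev7_5 (by omega) | exact lev7_4 (by omega) | exact lev7_3 (by omega) | exact lev7_2 (by omega) | exact lev7_1 (by omega))
      (by omega)
    push_cast at key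
    linarith
  · have key := h.ex7 hp (by omega) (d 1) (d 2) (d 3) (d 3 + 2) (d 3 + 1) (d 3 + 2) (d 3 - 1) 0 0 0 (0) (0) (3) (-J)
      (Or.inl (by omega)) (by omega)
      (by first | exact Or.inl (by omega) | exact Or.inr (lev7_1 (by omega)) | exact Or.inr (lev7_2 (by omega)) | exact Or.inr (lev7_3 (by omega)) | exact Or.inr (lev7_4 (by omega)) | exact Or.inr (lev7_5 (by omega)) | exact Or.inr (lev7_6 (by omega)) | exact Or.inr (lev7_7 (by omega)))
      (by first | exact Or.inl (by omega) | exact Or.inr (lev7_1 (by omega)) | exact Or.inr (lev7_2 (by omega)) | exact Or.inr (lev7_3 (by omega)) | exact Or.inr (lev7_4 (by omega)) | exact Or.inr (lev7_5 (by omega)) | exact Or.inr (lev7_6 (by omega)) | exact Or.inr (lev7_7 (by omega)))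
      (by first | exact Or.inl (by omega) | exact Or.inr (lev7_1 (by omega)) | exact Or.inr (lev7_2 (by omega)) | exact Or.inr (lev7_3 (by omega)) | exact Or.inr (lev7_4 (by omega)) | exact Or.inr (lev7_5 (by omega)) | exact Or.inr (lev7_6 (by omega)) | exact Or.inr (lev7_7 (by omega)))
      (by first | exact Or.inl (by omega) | exact Or.inr (lev7_1 (by omega)) | exact Or.inr (lev7_2 (by omega)) | exact Or.inr (lev7_3 (by omega)) | exact Or.inr (lev7_4 (by omega)) | exact Or.inr (lev7_5 (by omega)) | exact Or.inr (lev7_6 (by omega)) | exact Or.inr (lev7_7 (by omega)))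
      (by first | exact Or.inl (by omega) | exact Or.inr (lev7_1 (by omega)) | exact Or.inr (lev7_2 (by omega)) | exact Or.inr (lev7_3 (by omega)) | exact Or.inr (lev7_4 (by omega)) | exact Or.inr (lev7_5 (by omega)) | exact Or.inr (lev7_6 (by omega)) | exact Or.inr (lev7_7 (by omega)))
      (by first | exact Or.inl (by omega) | exact Or.inr (lev7_1 (by omega)) | exact Or.inr (lev7_2 (by omega)) | exact Or.inr (lev7_3 (by omega)) | exact Or.inr (lev7_4 (by omega)) | exact Or.inr (lev7_5 (by omega)) | exact Or.inr (lev7_6 (by omega)) | exact Or.inr (lev7_7 (by omega)))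
      (by first | exact lev7_7 (by omega) | exact lev7_6 (by omega) | exact lev7_5 (by omega) | exact lev7_4 (by omega) | exact lev7_3 (by omega) | exact lev7_2 (by omega) | exact lev7_1 (by omega))
      (by omega)
    push_cast at key
    linarith

theorem Good.H16 (h : Good n p d) (hp : ∀ i, 0 ≤ p i) (hn : 7 ≤ n) (hw : p 4 = p 5) (J : ℤ)
    (a1 : d 1 = d 3 + 1)
    (a2 : d 2 = d 3 + 2)
    (a3 : d 6 = d 3 + 1)
    (b0 : (d 4 = d 3 + 2 ∧ d 5 = d 3 + 3) ∨ (d 4 = d 3 + 3 ∧ d 5 = d 3 + 2))
    (x0 : 1 ≤ J)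
    (x1 : d 6 + J ≤ d 7)
    : (J : ℝ) * p 7 ≤ 2 * p 6 := by
  rcases b0 with ⟨b00, b01⟩ | ⟨b00, b01⟩
  · have key := h.ex7 hp (by omega) (d 1) (d 2) (d 3) (d 3 + 3) (d 3 + 2) (d 3 + 3) (d 3 + 1) 0 0 0 (1) (-1) (2) (-J)
      (Or.inl (by omega)) (by omega)
      (by first | exact Or.inl (by omega) | exact Or.inr (lev7_1 (by omega)) | exact Or.inr (lev7_2 (by omega)) | exact Or.inr (lev7_3 (by omega)) | exact Or.inr (lev7_4 (by omega)) | exact Or.inr (lev7_5 (by omega)) | exact Or.inr (lev7_6 (by omega)) | exact Or.inr (lev7_7 (by omega)))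
      (by first | exact Or.inl (by omega) | exact Or.inr (lev7_1 (by omega)) | exact Or.inr (lev7_2 (by omega)) | exact Or.inr (lev7_3 (by omega)) | exact Or.inr (lev7_4 (by omega)) | exact Or.inr (lev7_5 (by omega)) | exact Or.inr (lev7_6 (by omega)) | exact Or.inr (lev7_7 (by omega)))
      (by first | exact Or.inl (by omega) | exact Or.inr (lev7_1 (by omega)) | exact Or.inr (lev7_2 (by omega)) | exact Or.inr (lev7_3 (by omega)) | exact Or.inr (lev7_4 (by omega)) | exact Or.inr (lev7_5 (by omega)) | exact Or.inr (lev7_6 (by omega)) | exact Or.inr (lev7_7 (by omega)))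
      (by first | exact Or.inl (by omega) | exact Or.inr (lev7_1 (by omega)) | exact Or.inr (lev7_2 (by omega)) | exact Or.inr (lev7_3 (by omega)) | exact Or.inr (lev7_4 (by omega)) | exact Or.inr (lev7_5 (by omega)) | exact Or.inr (lev7_6 (by omega)) | exact Or.inr (lev7_7 (by omega)))
      (by first | exact Or.inl (by omega) | exact Or.inr (lev7_1 (by omega)) | exact Or.inr (lev7_2 (by omega)) | exact Or.inr (lev7_3 (by omega)) | exact Or.inr (lev7_4 (by omega)) | exact Or.inr (lev7_5 (by omega)) | exact Or.inr (lev7_6 (by omega)) | exact Or.inr (lev7_7 (by omega)))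
      (by first | exact Or.inl (by omega) | exact Or.inr (lev7_1 (by omega)) | exact Or.inr (lev7_2 (by omega)) | exact Or.inr (lev7_3 (by omega)) | exact Or.inr (lev7_4 (by omega)) | exact Or.inr (lev7_5 (by omega)) | exact Or.inr (lev7_6 (by omega)) | exact Or.inr (lev7_7 (by omega)))
      (by first | exact lev7_7 (by omega) | exact lev7_6 (by omega) | exact lev7_5 (by omega) | exact lev7_4 (by omega) | exact lev7_3 (by omega) | exact lev7_2 (by omega) | exact lev7_1 (by omega))
      (by omega)
    push_cast at key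
    linarith
  · have key := h.ex7 hp (by omega) (d 1) (d 2) (d 3) (d 3 + 3) (d 3 + 2) (d 3 + 3) (d 3 + 1) 0 0 0 (0) (0) (2) (-J)
      (Or.inl (by omega)) (by omega)
      (by first | exact Or.inl (by omega) | exact Or.inr (lev7_1 (by omega)) | exact Or.inr (lev7_2 (by omega)) | exact Or.inr (lev7_3 (by omega)) | exact Or.inr (lev7_4 (by omega)) | exact Or.inr (lev7_5 (by omega)) | exact Or.inr (lev7_6 (by omega)) | exact Or.inr (lev7_7 (by omega)))
      (by first | exact Or.inl (by omega) | exact Or.inr (lev7_1 (by omega)) | exact Or.inr (lev7_2 (by omega)) | exact Or.inr (lev7_3 (by omega)) | exact Or.inr (lev7_4 (by omega)) | exact Or.inr (lev7_5 (by omega)) | exact Or.inr (lev7_6 (by omega)) | exact Or.inr (lev7_7 (by omega)))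
      (by first | exact Or.inl (by omega) | exact Or.inr (lev7_1 (by omega)) | exact Or.inr (lev7_2 (by omega)) | exact Or.inr (lev7_3 (by omega)) | exact Or.inr (lev7_4 (by omega)) | exact Or.inr (lev7_5 (by omega)) | exact Or.inr (lev7_6 (by omega)) | exact Or.inr (lev7_7 (by omega)))
      (by first | exact Or.inl (by omega) | exact Or.inr (lev7_1 (by omega)) | exact Or.inr (lev7_2 (by omega)) | exact Or.inr (lev7_3 (by omega)) | exact Or.inr (lev7_4 (by omega)) | exact Or.inr (lev7_5 (by omega)) | exact Or.inr (lev7_6 (by omega)) | exact Or.inr (lev7_7 (by omega)))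
      (by first | exact Or.inl (by omega) | exact Or.inr (lev7_1 (by omega)) | exact Or.inr (lev7_2 (by omega)) | exact Or.inr (lev7_3 (by omega)) | exact Or.inr (lev7_4 (by omega)) | exact Or.inr (lev7_5 (by omega)) | exact Or.inr (lev7_6 (by omega)) | exact Or.inr (lev7_7 (by omega)))
      (by first | exact Or.inl (by omega) | exact Or.inr (lev7_1 (by omega)) | exact Or.inr (lev7_2 (by omega)) | exact Or.inr (lev7_3 (by omega)) | exact Or.inr (lev7_4 (by omega)) | exact Or.inr (lev7_5 (by omega)) | exact Or.inr (lev7_6 (by omega)) | exact Or.inr (lev7_7 (by omega)))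
      (by first | exact lev7_7 (by omega) | exact lev7_6 (by omega) | exact lev7_5 (by omega) | exact lev7_4 (by omega) | exact lev7_3 (by omega) | exact lev7_2 (by omega) | exact lev7_1 (by omega))
      (by omega)
    push_cast at key
    linarith

theorem Good.H17 (h : Good n p d) (hp : ∀ i, 0 ≤ p i) (hn : 7 ≤ n) (hw : p 4 = p 5)
    (a1 : d 1 = d 3 + 1)
    (a2 : d 2 = d 3 + 2)
    (a3 : d 6 = d 3 + 1)
    (a4 : d 7 = d 3 - 1)
    (b0 : (d 4 = d 3 + 2 ∧ d 5 = d 3 + 3) ∨ (d 4 = d 3 + 3 ∧ d 5 = d 3 + 2))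
    : 2 * p 4 ≤ p 6 := by
  rcases b0 with ⟨b00, b01⟩ | ⟨b00, b01⟩
  · have key := h.ex7 hp (by omega) (d 1) (d 2) (d 3) (d 3 + 2) (d 3 + 1) (d 3 + 2) (d 7) 0 0 0 (0) (-2) (1) 0
      (Or.inl (by omega)) (by omega)
      (by first | exact Or.inl (by omega) | exact Or.inr (lev7_1 (by omega)) | exact Or.inr (lev7_2 (by omega)) | exact Or.inr (lev7_3 (by omega)) | exact Or.inr (lev7_4 (by omega)) | exact Or.inr (lev7_5 (by omega)) | exact Or.inr (lev7_6 (by omega)) | exact Or.inr (lev7_7 (by omega)))
      (by first | exact Or.inl (by omega) | exact Or.inr (lev7_1 (by omega)) | exact Or.inr (lev7_2 (by omega)) | exact Or.inr (lev7_3 (by omega)) | exact Or.inr (lev7_4 (by omega)) | exact Or.inr (lev7_5 (by omega)) | exact Or.inr (lev7_6 (by omega)) | exact Or.inr (lev7_7 (by omega)))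
      (by first | exact Or.inl (by omega) | exact Or.inr (lev7_1 (by omega)) | exact Or.inr (lev7_2 (by omega)) | exact Or.inr (lev7_3 (by omega)) | exact Or.inr (lev7_4 (by omega)) | exact Or.inr (lev7_5 (by omega)) | exact Or.inr (lev7_6 (by omega)) | exact Or.inr (lev7_7 (by omega)))
      (by first | exact Or.inl (by omega) | exact Or.inr (lev7_1 (by omega)) | exact Or.inr (lev7_2 (by omega)) | exact Or.inr (lev7_3 (by omega)) | exact Or.inr (lev7_4 (by omega)) | exact Or.inr (lev7_5 (by omega)) | exact Or.inr (lev7_6 (by omega)) | exact Or.inr (lev7_7 (by omega)))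
      (by first | exact Or.inl (by omega) | exact Or.inr (lev7_1 (by omega)) | exact Or.inr (lev7_2 (by omega)) | exact Or.inr (lev7_3 (by omega)) | exact Or.inr (lev7_4 (by omega)) | exact Or.inr (lev7_5 (by omega)) | exact Or.inr (lev7_6 (by omega)) | exact Or.inr (lev7_7 (by omega)))
      (by first | exact Or.inl (by omega) | exact Or.inr (lev7_1 (by omega)) | exact Or.inr (lev7_2 (by omega)) | exact Or.inr (lev7_3 (by omega)) | exact Or.inr (lev7_4 (by omega)) | exact Or.inr (lev7_5 (by omega)) | exact Or.inr (lev7_6 (by omega)) | exact Or.inr (lev7_7 (by omega)))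
      (by first | exact lev7_7 (by omega) | exact lev7_6 (by omega) | exact lev7_5 (by omega) | exact lev7_4 (by omega) | exact lev7_3 (by omega) | exact lev7_2 (by omega) | exact lev7_1 (by omega))
      (by omega)
    push_cast at key
    linarith
  · have key := h.ex7 hp (by omega) (d 1) (d 2) (d 3) (d 3 + 2) (d 3 + 1) (d 3 + 2) (d 7) 0 0 0 (-1) (-1) (1) 0
      (Or.inl (by omega)) (by omega)
      (by first | exact Or.inl (by omega) | exact Or.inr (lev7_1 (by omega)) | exact Or.inr (lev7_2 (by omega)) | exact Or.inr (lev7_3 (by omega)) | exact Or.inr (lev7_4 (by omega)) | exact Or.inr (lev7_5 (by omega)) | exact Or.inr (lev7_6 (by omega)) | exact Or.inr (lev7_7 (by omega)))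
      (by first | exact Or.inl (by omega) | exact Or.inr (lev7_1 (by omega)) | exact Or.inr (lev7_2 (by omega)) | exact Or.inr (lev7_3 (by omega)) | exact Or.inr (lev7_4 (by omega)) | exact Or.inr (lev7_5 (by omega)) | exact Or.inr (lev7_6 (by omega)) | exact Or.inr (lev7_7 (by omega)))
      (by first | exact Or.inl (by omega) | exact Or.inr (lev7_1 (by omega)) | exact Or.inr (lev7_2 (by omega)) | exact Or.inr (lev7_3 (by omega)) | exact Or.inr (lev7_4 (by omega)) | exact Or.inr (lev7_5 (by omega)) | exact Or.inr (lev7_6 (by omega)) | exact Or.inr (lev7_7 (by omega)))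
      (by first | exact Or.inl (by omega) | exact Or.inr (lev7_1 (by omega)) | exact Or.inr (lev7_2 (by omega)) | exact Or.inr (lev7_3 (by omega)) | exact Or.inr (lev7_4 (by omega)) | exact Or.inr (lev7_5 (by omega)) | exact Or.inr (lev7_6 (by omega)) | exact Or.inr (lev7_7 (by omega)))
      (by first | exact Or.inl (by omega) | exact Or.inr (lev7_1 (by omega)) | exact Or.inr (lev7_2 (by omega)) | exact Or.inr (lev7_3 (by omega)) | exact Or.inr (lev7_4 (by omega)) | exact Or.inr (lev7_5 (by omega)) | exact Or.inr (lev7_6 (by omega)) | exact Or.inr (lev7_7 (by omega)))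
      (by first | exact Or.inl (by omega) | exact Or.inr (lev7_1 (by omega)) | exact Or.inr (lev7_2 (by omega)) | exact Or.inr (lev7_3 (by omega)) | exact Or.inr (lev7_4 (by omega)) | exact Or.inr (lev7_5 (by omega)) | exact Or.inr (lev7_6 (by omega)) | exact Or.inr (lev7_7 (by omega)))
      (by first | exact lev7_7 (by omega) | exact lev7_6 (by omega) | exact lev7_5 (by omega) | exact lev7_4 (by omega) | exact lev7_3 (by omega) | exact lev7_2 (by omega) | exact lev7_1 (by omega))
      (by omega)
    push_cast at key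
    linarith

end Pool.Agent.MP_4aec3d_co
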