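import Mathlib.Order.BourbakiWitt
import Mathlib.Tactic.Monotonicity.Lemmas
import Mathlib.Data.Int.Star
import Mathlib.Algebra.Order.Ring.Star
import Mathlib.Topology.Algebra.Ring.Real
import Mathlib.Tactic.Bound
import Mathlib.Combinatorics.SimpleGraph.Basic
import Pool.Agent.MP_4aec3d_co.Exch

-- ======== part 0: formerly Pool.Agent.MP_4aec3d_co.CoreG
section MrgPart0

set_option autoImplicit false
set_option linter.unusedVariables false

namespace Pool.Agent.MP_4aec3d_co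

/-- A nonempty balanced family of best replies against a positive hider strategy. -/
structure Ctx (n : ℕ) (p : ℕ → ℝ) (S : Set (ℕ → ℤ)) : Prop where
  hn : 5 ≤ n
  hp0 : ∀ i, 0 ≤ p i
  hp : ∀ i, 1 ≤ i → i ≤ n → 0 < p i
  ne : S.Nonempty
  good : ∀ d ∈ S, Good n p d
  bal : Bal n S

variable {n : ℕ} {p : ℕ → ℝ} {S : Set (ℕ → ℤ)}

theorem Ctx.zero (C : Ctx n p S) (c1 c2 c3 c4 c5 c6 c7 c8 : ℤ)
    (h0 : c1 + c2 + c3 + c4 + c5 + c6 + c7 + c8 = 0 ∧ (c6 = 0 ∨ 6 ≤ n) ∧ (c7 = 0 ∨ 7 ≤ n) ∧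
      (c8 = 0 ∨ 8 ≤ n))
    (hS : ∀ d ∈ S, 0 ≤ c1 * d 1 + c2 * d 2 + c3 * d 3 + c4 * d 4 + c5 * d 5 + c6 * d 6
      + c7 * d 7 + c8 * d 8) :
    ∀ d ∈ S, c1 * d 1 + c2 * d 2 + c3 * d 3 + c4 * d 4 + c5 * d 5 + c6 * d 6
      + c7 * d 7 + c8 * d 8 = 0 :=
  C.bal.eight C.hn c1 c2 c3 c4 c5 c6 c7 c8 h0.1 h0.2.1 h0.2.2.1 h0.2.2.2 hS

theorem Ctx.occ (C : Ctx n p S) (c1 c2 c3 c4 c5 c6 c7 c8 : ℤ)
    (h0 : c1 + c2 + c3 + c4 + c5 + c6 + c7 + c8 = 0 ∧ (c6 = 0 ∨ 6 ≤ n) ∧ (c7 = 0 ∨ 7 ≤ n) ∧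
      (c8 = 0 ∨ 8 ≤ n)) (P : (ℕ → ℤ) → Prop)
    (hS : ∀ d ∈ S, ¬ P d → 0 < c1 * d 1 + c2 * d 2 + c3 * d 3 + c4 * d 4 + c5 * d 5 + c6 * d 6
      + c7 * d 7 + c8 * d 8) : ∃ d ∈ S, P d := by
  by_contra hc
  push Not at hc
  obtain ⟨d0, hd0⟩ := C.ne
  have h1 := C.zero c1 c2 c3 c4 c5 c6 c7 c8 h0 (fun d hd => (hS d hd (hc d hd)).le) d0 hd0
  have h2 := hS d0 hd0 (hc d0 hd0)
  omega

theorem partG (C : Ctx n p S) (hyz : p 2 = p 3) (hx : p 1 ≠ 2 * p 2)
    (hPQ : ∀ d ∈ S, d 4 = d 1 ∧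
      ((d 2 = d 1 - 1 ∧ d 3 = d 1 + 1) ∨ (d 2 = d 1 + 1 ∧ d 3 = d 1 - 1))) : False := by
  have hn := C.hn
  have hp0 := C.hp0
  have p2 := C.hp 2 (by omega) (by omega)
  have p4 := C.hp 4 (by omega) (by omega)
  have p5 := C.hp 5 (by omega) (by omega)
  have t5 : ∀ d ∈ S, d 5 = d 1 - 2 ∨ d 1 + 1 ≤ d 5 := by
    intro d hd
    have g := C.good d hd
    obtain ⟨h4, hq⟩ := hPQ d hd
    have := g.F45 (by omega)
    have := g.F25 (by omega)
    have := g.F35 (by omega)
    have := g.T14 C.hp (by omega)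
    omega
  obtain ⟨dI, hI, hI5⟩ : ∃ d ∈ S, d 5 = d 1 - 2 :=
    C.occ (-1) 0 0 0 1 0 0 0 (by omega) _ (fun d hd h => by have := t5 d hd; omega)
  obtain ⟨dU, hU, hU5⟩ : ∃ d ∈ S, d 1 + 1 ≤ d 5 :=
    C.occ 1 0 0 0 (-1) 0 0 0 (by omega) _ (fun d hd h => by have := t5 d hd; omega)
  have huw : p 5 ≤ p 4 := by
    have := (C.good dU hU).G3 hp0 hn hyz 1 (hPQ dU hU).1 (hPQ dU hU).2 (by omega) hU5
    push_cast at this
    linarith
  -- in type I, node 6 is at least two levels below node 5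
  have j2 : ∀ d ∈ S, d 5 = d 1 - 2 → d 1 ≤ d 6 := by
    intro d hd h5
    have g := C.good d hd
    by_contra hc
    have f := g.F56 (by omega)
    have := g.G4b hp0 hn hyz 1 (hPQ d hd).1 h5 (hPQ d hd).2 (by omega) (by omega) (by omega)
    push_cast at this
    linarith
  have hn6 : 6 ≤ n := (C.good dI hI).le_of_pos (j := 5) (by omega) (by have := j2 dI hI hI5; omega)
  have p6 := C.hp 6 (by omega) (by omega)
  have t6 : ∀ d ∈ S, d 1 + 1 ≤ d 5 → (d 5 = d 1 + 1 ∧ d 6 = d 1 - 2) ∨ d 1 + 1 ≤ d 6 := by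
    intro d hd h5
    have g := C.good d hd
    obtain ⟨h4, hq⟩ := hPQ d hd
    by_cases h6 : d 1 + 1 ≤ d 6
    · exact Or.inr h6
    left
    have a1 : d 6 ≠ d 1 := by have := g.F46 (by omega); omega
    have a2 : d 6 ≠ d 1 - 1 := by
      rcases hq with hq | hq
      · have := g.F26 (by omega); omega
      · have := g.F36 (by omega); omega
    have a3 : d 1 - 2 ≤ d 6 := by have := g.T15 C.hp (by omega); omega
    clear hq
    have := g.T55 C.hp (by omega)
    omega
  obtain ⟨dV, hV, hV5, hV6⟩ : ∃ d ∈ S, d 5 = d 1 + 1 ∧ d 6 = d 1 - 2 := by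
    by_contra hc
    push Not at hc
    have h1 := C.zero (-1) 0 0 0 0 1 0 0 (by omega) (fun d hd => by
      have := t5 d hd
      have := t6 d hd
      have := j2 d hd
      have := hc d hd
      omega) dU hU
    have := t6 dU hU hU5
    have := hc dU hU
    omega
  have h2t : 2 * p 6 ≤ 3 * p 5 := by
    have := (C.good dI hI).G5 hp0 hn6 2 (hPQ dI hI).1 hI5 (hPQ dI hI).2 (by omega)
      (by have := j2 dI hI hI5; omega)
    push_cast at this
    linarith
  -- lower bounds for the gap below node 6 in type II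
  have gapII : ∀ J : ℤ, 0 ≤ J → ((J : ℝ) + 1) * p 6 < 3 * p 5 →
      ∀ d ∈ S, d 5 = d 1 + 1 → d 6 = d 1 - 2 → d 6 + J + 1 ≤ d 7 := by
    intro J hJ hlt d hd h5 h6
    have g := C.good d hd
    by_contra hc
    have f := g.F67 (by omega)
    have := g.G6 hp0 hn6 J (hPQ d hd).1 h5 h6 (hPQ d hd).2 hJ (by omega) (by omega)
    linarith
  have hn7 : 7 ≤ n := (C.good dV hV).le_of_pos (j := 6) (by omega) (by
    have := gapII 0 (by omega) (by push_cast; linarith) dV hV hV5 hV6
    omega)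
  have t7I : ∀ d ∈ S, d 5 = d 1 - 2 → d 6 - 1 ≤ d 7 := by
    intro d hd h5
    have g := C.good d hd
    have := j2 d hd h5
    have := g.T66 C.hp hn6
    omega
  have t7III : ∀ d ∈ S, d 1 + 1 ≤ d 5 → d 1 + 1 ≤ d 6 →
      d 1 + 1 ≤ d 7 ∨ (d 7 = d 1 - 2 ∧ d 5 + d 6 = 2 * d 1 + 3) := by
    intro d hd h5 h6
    have g := C.good d hd
    obtain ⟨h4, hq⟩ := hPQ d hd
    by_cases h7 : d 1 + 1 ≤ d 7
    · exact Or.inl h7
    right
    have a1 : d 7 ≠ d 1 := by have := g.F47 (by omega); omega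
    have a2 : d 7 ≠ d 1 - 1 := by
      rcases hq with hq | hq
      · have := g.F27 (by omega); omega
      · have := g.F37 (by omega); omega
    have a3 : d 1 - 2 ≤ d 7 := by have := g.T16 C.hp (by omega); omega
    clear hq
    have a4 : d 7 = d 1 - 2 := by omega
    refine ⟨a4, ?_⟩
    have a5 : d 5 = d 1 + 1 ∨ d 6 = d 1 + 1 := by have := g.T56 C.hp (by omega); omega
    have a6 := g.F56 (by omega)
    rcases a5 with a5 | a5
    · have := g.T66 C.hp (by omega); omega
    · have := g.T55 C.hp (by omega); omega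
  by_cases hα : ∀ d ∈ S, d 5 = d 1 - 2 → d 5 + 4 ≤ d 6
  · have h4t : 4 * p 6 ≤ 3 * p 5 := by
      have := (C.good dI hI).G5 hp0 hn6 4 (hPQ dI hI).1 hI5 (hPQ dI hI).2 (by omega)
        (hα dI hI hI5)
      push_cast at this
      linarith
    have g2 := gapII 2 (by omega) (by push_cast; linarith)
    have h1 := C.zero (-3) 0 0 0 1 1 1 0 (by omega) (fun d hd => by
      have := t5 d hd
      have := t6 d hd
      have := hα d hd
      have := t7I d hd
      have := t7III d hd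
      have := g2 d hd
      omega) dI hI
    have := hα dI hI hI5
    have := t7I dI hI hI5
    omega
  push Not at hα
  obtain ⟨dJ, hJ, hJ5, hJ6⟩ := hα
  have fJ := (C.good dJ hJ).F56 (by omega)
  have ha := (C.good dJ hJ).G4a hp0 hn hyz 3 (hPQ dJ hJ).1 hJ5 (hPQ dJ hJ).2 (by omega)
    (by omega) (by omega)
  have hb := (C.good dJ hJ).G4b hp0 hn hyz 3 (hPQ dJ hJ).1 hJ5 (hPQ dJ hJ).2 (by omega)
    (by omega) (by omega)
  push_cast at ha hb
  by_cases hIII : ∃ d ∈ S, d 1 + 1 ≤ d 5 ∧ d 1 + 1 ≤ d 6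
  · have d51 : ∀ d ∈ S, d 5 ≤ d 1 + 1 := by
      intro d hd
      by_contra hc
      have := (C.good d hd).G3 hp0 hn hyz 2 (hPQ d hd).1 (hPQ d hd).2 (by omega) (by omega)
      push_cast at this
      linarith
    obtain ⟨dW, hW, hW5, hW6⟩ := hIII
    have gW := C.good dW hW
    have e5 : dW 5 = dW 1 + 1 := by have := d51 dW hW; omega
    have e6 : dW 5 < dW 6 := by have := gW.F56 (by omega); omega
    have k1 := gW.G2a hp0 hn6 hyz (hPQ dW hW).1 e5 (hPQ dW hW).2 e6
    have k2 := gW.G2b hp0 hn6 hyz (hPQ dW hW).1 e5 (hPQ dW hW).2 e6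
    have k3 := gW.G7 hp0 hn6 hyz (hPQ dW hW).1 e5 (hPQ dW hW).2 e6
    have ht : 2 * p 6 < p 5 := by
      rcases lt_or_gt_of_ne hx with h | h
      · linarith
      · linarith
    have g5 := gapII 5 (by omega) (by push_cast; linarith)
    have h1 := C.zero (-4) 0 0 0 (-1) 3 2 0 (by omega) (fun d hd => by
      have := t5 d hd
      have := t6 d hd
      have := j2 d hd
      have := d51 d hd
      have := t7I d hd
      have := t7III d hd
      have := g5 d hd
      have := (C.good d hd).F56 (by omega)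
      omega) dV hV
    have := g5 dV hV hV5 hV6
    omega
  · push Not at hIII
    obtain ⟨dK, hK, hK5, hK6⟩ : ∃ d ∈ S, d 5 = d 1 - 2 ∧ d 5 + 6 ≤ d 6 := by
      by_contra hc
      push Not at hc
      have h1 := C.zero 3 0 0 0 (-2) (-1) 0 0 (by omega) (fun d hd => by
        have := t5 d hd
        have := t6 d hd
        have := hc d hd
        have := hIII d hd
        omega) dI hI
      have := hc dI hI hI5
      omega
    have h6t := (C.good dK hK).G5 hp0 hn6 6 (hPQ dK hK).1 hK5 (hPQ dK hK).2 (by omega) hK6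
    push_cast at h6t
    have g4 := gapII 4 (by omega) (by push_cast; linarith)
    have h1 := C.zero (-1) 0 0 0 (-1) 0 2 0 (by omega) (fun d hd => by
      have := t5 d hd
      have := t6 d hd
      have := j2 d hd
      have := hIII d hd
      have := t7I d hd
      have := g4 d hd
      omega) dV hV
    have := g4 dV hV hV5 hV6
    omega

end Pool.Agent.MP_4aec3d_co

end MrgPart0

-- ======== part 1: formerly Pool.Agent.MP_4aec3d_co.CoreB
section MrgPart1

set_option autoImplicit false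
set_option linter.unusedVariables false

namespace Pool.Agent.MP_4aec3d_co

variable {n : ℕ} {p : ℕ → ℝ} {S : Set (ℕ → ℤ)}

/-- Second half of case B: the rigid situation with `p 4 = p 5`. -/
theorem partB2 (C : Ctx n p S) (hx : p 1 = 2 * p 2) (hz : p 2 < p 3) (hw : p 4 = p 5)
    (hn6 : 6 ≤ n) (hzw : p 3 + p 4 ≤ 2 * p 2) (h4w : p 2 + 2 * p 3 ≤ 4 * p 4)
    (hT : ∀ d ∈ S,
      (((d 1 = d 3 ∧ d 2 = d 3 - 1) ∨ (d 1 = d 3 - 1 ∧ d 2 = d 3 + 1)) ∧
        ((d 4 = d 3 - 2 ∧ d 5 = d 3 + 1 ∧ d 6 = d 3) ∨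
         (d 4 = d 3 + 1 ∧ d 5 = d 3 - 2 ∧ d 3 ≤ d 6))) ∨
      ((d 1 = d 3 + 1 ∧ d 2 = d 3 + 2) ∧
        ((d 4 = d 3 + 1 ∧ d 5 = d 3 - 1 ∧ d 3 + 1 ≤ d 6) ∨ (d 3 + 1 ≤ d 4 ∧ d 3 + 1 ≤ d 5))))
    (hB : ∃ d ∈ S, ((d 1 = d 3 ∧ d 2 = d 3 - 1) ∨ (d 1 = d 3 - 1 ∧ d 2 = d 3 + 1)) ∧
      d 4 = d 3 + 1 ∧ d 5 = d 3 - 2 ∧ d 6 = d 3) : False := by
  have hn := C.hn
  have hp0 := C.hp0
  have p2 := C.hp 2 (by omega) (by omega)
  have p4 := C.hp 4 (by omega) (by omega)
  have p6 := C.hp 6 (by omega) (by omega)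
  obtain ⟨dB, hB, hB13, hB4, hB5, hB6⟩ := hB
  have h2t := (C.good dB hB).H9 hp0 hn6 hx hw hB6 hB13 (Or.inr ⟨hB4, hB5⟩)
  obtain ⟨dC, hC, hC1, hC2⟩ : ∃ d ∈ S, d 1 = d 3 + 1 ∧ d 2 = d 3 + 2 :=
    C.occ (-2) (-1) 3 0 0 0 0 0 (by omega) _ (fun d hd h => by have := hT d hd; omega)
  -- structure of the trees in which 3 is above 1, 2, 4, 5
  have tC : ∀ d ∈ S, d 1 = d 3 + 1 → d 2 = d 3 + 2 → d 3 + 1 ≤ d 4 → d 3 + 1 ≤ d 5 →
      (((d 4 = d 3 + 1 ∧ d 5 = d 3 + 2) ∨ (d 4 = d 3 + 2 ∧ d 5 = d 3 + 1)) ∧ d 6 = d 3 - 1) ∨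
      (((d 4 = d 6 + 1 ∧ d 5 = d 6 + 2) ∨ (d 4 = d 6 + 2 ∧ d 5 = d 6 + 1)) ∧ d 3 + 1 ≤ d 6) ∨
      (d 4 = d 5 + 1 ∧ d 5 + 1 ≤ d 6 ∧ d 4 ≤ d 3 + 4) := by
    intro d hd h1 h2 h4 h5
    have g := C.good d hd
    have k1 : d 4 ≤ d 3 + 4 := by
      by_contra hc
      have := g.H4 hp0 (by omega) hx 5 h1 h2 (by omega) (by omega)
      push_cast at this
      linarith
    have k2 : d 5 ≤ d 4 + 1 := by
      by_contra hc
      have := g.H11 hp0 hn h1 h2 (by omega) (by omega)
      linarith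
    have k3 : ¬ (d 4 < d 5 ∧ d 5 < d 6) := by
      rintro ⟨ha, hb⟩
      have := g.H11b hp0 hn6 h1 h2 (by omega) ha hb
      linarith
    clear hB13
    have f1 := g.F45 (by omega)
    have f2 := g.F56 (by omega)
    have k4 : d 4 ≤ d 5 + 1 := by have := g.T44 C.hp (by omega); omega
    by_cases h6 : d 3 + 1 ≤ d 6
    · right
      by_cases h56 : d 5 < d 6
      · right
        omega
      · left
        refine ⟨?_, h6⟩
        have f3 : d 6 < d 4 := by have := g.F46 (by omega); omega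
        have f6 := g.T45 C.hp (by omega)
        omega
    · left
      have a1 : d 6 ≠ d 3 := by have := g.F36 (by omega); omega
      have a2 : d 3 - 1 ≤ d 6 := by have := g.T15 C.hp (by omega); omega
      have f6 := g.T45 C.hp (by omega)
      omega
  obtain ⟨dD, hD, hD1, hD2, hD45, hD6⟩ : ∃ d ∈ S, d 1 = d 3 + 1 ∧ d 2 = d 3 + 2 ∧
      ((d 4 = d 3 + 1 ∧ d 5 = d 3 + 2) ∨ (d 4 = d 3 + 2 ∧ d 5 = d 3 + 1)) ∧ d 6 = d 3 - 1 := by
    by_contra hc
    have hc' : ∀ d ∈ S, d 1 = d 3 + 1 → d 2 = d 3 + 2 → d 3 + 1 ≤ d 6 := by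
      intro d hd h1 h2
      by_contra h6
      have k := hT d hd
      have k' := tC d hd h1 h2
      refine hc ⟨d, hd, h1, h2, ?_⟩
      clear hB13
      omega
    have h1 := C.zero 0 0 (-1) 0 0 1 0 0 (by omega) (fun d hd => by
      have := hT d hd
      have := hc' d hd
      clear hB13
      omega) dC hC
    have := hc' dC hC hC1 hC2
    omega
  have gapC : ∀ J : ℤ, 0 ≤ J → ((J : ℝ) + 1) * p 6 < 2 * p 2 - p 3 + 2 * p 4 →
      ∀ d ∈ S, d 1 = d 3 + 1 → d 2 = d 3 + 2 →
      ((d 4 = d 3 + 1 ∧ d 5 = d 3 + 2) ∨ (d 4 = d 3 + 2 ∧ d 5 = d 3 + 1)) → d 6 = d 3 - 1 →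
      d 6 + J + 1 ≤ d 7 := by
    intro J hJ hlt d hd h1 h2 h45 h6
    have g := C.good d hd
    by_contra hc
    have f := g.F67 (by omega)
    have := g.H10 hp0 hn6 hx hw J h1 h2 h6 h45 hJ (by omega) (by omega)
    linarith
  have g0 := gapC 0 (by omega) (by push_cast; linarith)
  have hn7 : 7 ≤ n := (C.good dD hD).le_of_pos (j := 6) (by omega) (by
    have := g0 dD hD hD1 hD2 hD45 hD6
    omega)
  have p7 := C.hp 7 (by omega) (by omega)
  clear hB13 hD45
  -- depth of node 7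
  have t7a : ∀ d ∈ S, ((d 1 = d 3 ∧ d 2 = d 3 - 1) ∨ (d 1 = d 3 - 1 ∧ d 2 = d 3 + 1)) →
      (d 6 = d 3 → d 7 = d 3 - 1 ∨ d 3 + 1 ≤ d 7) ∧ d 6 - 1 ≤ d 7 := by
    intro d hd h13
    have g := C.good d hd
    have k : (d 4 = d 3 - 2 ∧ d 5 = d 3 + 1 ∧ d 6 = d 3) ∨
         (d 4 = d 3 + 1 ∧ d 5 = d 3 - 2 ∧ d 3 ≤ d 6) := by
      rcases hT d hd with k | k
      · exact k.2
      · omega
    clear h13
    have f1 := g.F67 (by omega)
    rcases k with k | k
    · have f6 := g.T56 C.hp (by omega)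
      omega
    · have f5 := g.T66 C.hp (by omega)
      omega
  have t7c : ∀ d ∈ S, d 1 = d 3 + 1 → d 2 = d 3 + 2 → 2 * d 3 - 3 ≤ d 6 + d 7 := by
    intro d hd h1 h2
    have g := C.good d hd
    have f5 := g.T16 C.hp (by omega)
    rcases hT d hd with k | ⟨-, k | k⟩
    · omega
    · omega
    · rcases tC d hd h1 h2 k.1 k.2 with k' | k' | k' <;> omega
  obtain ⟨dE, hE, hE13, hE6, hE7⟩ : ∃ d ∈ S,
      ((d 1 = d 3 ∧ d 2 = d 3 - 1) ∨ (d 1 = d 3 - 1 ∧ d 2 = d 3 + 1)) ∧ d 6 = d 3 ∧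
      d 7 = d 3 - 1 := by
    by_contra hc
    push Not at hc
    have h1 := C.zero 2 1 (-5) 0 0 1 1 0 (by omega) (fun d hd => by
      have k := hT d hd
      rcases k with ⟨k1, k2⟩ | ⟨k1, k2⟩
      · have := hc d hd k1
        have := t7a d hd k1
        omega
      · have := t7c d hd k1.1 k1.2
        omega) dC hC
    have := t7c dC hC hC1 hC2
    omega
  have hE45 : (dE 4 = dE 3 - 2 ∧ dE 5 = dE 3 + 1) ∨ (dE 4 = dE 3 + 1 ∧ dE 5 = dE 3 - 2) := by
    have := hT dE hE
    omega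
  have h12 := (C.good dE hE).H12 hp0 hn7 hx hw hE6 hE7 hE13 hE45
  have ht2w : p 6 < 2 * p 4 := by linarith
  have e1 : ∀ d ∈ S, d 1 = d 3 + 1 → d 2 = d 3 + 2 →
      ((d 4 = d 6 + 1 ∧ d 5 = d 6 + 2) ∨ (d 4 = d 6 + 2 ∧ d 5 = d 6 + 1)) → d 6 ≤ d 3 + 1 := by
    intro d hd h1 h2 h45
    by_contra hc
    have := (C.good d hd).H13 hp0 hn6 hx hw h1 h2 (by omega) h45
    linarith
  clear hE13 hE45
  have hθ := C.zero 2 1 (-2) (-1) (-1) 1 0 0 (by omega) (fun d hd => by
    have k := hT d hd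
    rcases k with ⟨k1, k2⟩ | ⟨k1, k2⟩
    · omega
    · rcases k2 with k2 | k2
      · omega
      · rcases tC d hd k1.1 k1.2 k2.1 k2.2 with k' | k' | k'
        · omega
        · have := e1 d hd k1.1 k1.2 k'.1
          omega
        · omega)
  have hR : ∀ d ∈ S,
      (((d 1 = d 3 ∧ d 2 = d 3 - 1) ∨ (d 1 = d 3 - 1 ∧ d 2 = d 3 + 1)) ∧
        ((d 4 = d 3 - 2 ∧ d 5 = d 3 + 1) ∨ (d 4 = d 3 + 1 ∧ d 5 = d 3 - 2)) ∧ d 6 = d 3) ∨
      (d 1 = d 3 + 1 ∧ d 2 = d 3 + 2 ∧
        ((d 4 = d 3 + 1 ∧ d 5 = d 3 + 2) ∨ (d 4 = d 3 + 2 ∧ d 5 = d 3 + 1)) ∧ d 6 = d 3 - 1) ∨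
      (d 1 = d 3 + 1 ∧ d 2 = d 3 + 2 ∧
        ((d 4 = d 3 + 2 ∧ d 5 = d 3 + 3) ∨ (d 4 = d 3 + 3 ∧ d 5 = d 3 + 2)) ∧ d 6 = d 3 + 1) := by
    intro d hd
    have k := hT d hd
    have k0 := hθ d hd
    rcases k with ⟨k1, k2⟩ | ⟨k1, k2⟩
    · left
      refine ⟨k1, ?_⟩
      omega
    · right
      rcases k2 with k2 | k2
      · omega
      · rcases tC d hd k1.1 k1.2 k2.1 k2.2 with k' | k' | k'
        · exact Or.inl ⟨k1.1, k1.2, k'⟩
        · right
          refine ⟨k1.1, k1.2, ?_⟩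
          omega
        · omega
  clear hθ hT tC e1 t7c
  have t7F : ∀ d ∈ S, d 1 = d 3 + 1 → d 2 = d 3 + 2 →
      ((d 4 = d 3 + 2 ∧ d 5 = d 3 + 3) ∨ (d 4 = d 3 + 3 ∧ d 5 = d 3 + 2)) → d 6 = d 3 + 1 →
      d 3 + 2 ≤ d 7 := by
    intro d hd h1 h2 h45 h6
    have g := C.good d hd
    have k : d 7 ≠ d 3 - 1 := by
      intro h7
      have := g.H17 hp0 hn7 hw h1 h2 h6 h7 h45
      linarith
    have f1 := g.F67 (by omega)
    have f2 := g.F37 (by omega)
    have f3 := g.T16 C.hp (by omega)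
    omega
  have gap8 : 2 * p 7 < p 4 + p 6 → ∀ d ∈ S,
      ((d 1 = d 3 ∧ d 2 = d 3 - 1) ∨ (d 1 = d 3 - 1 ∧ d 2 = d 3 + 1)) →
      ((d 4 = d 3 - 2 ∧ d 5 = d 3 + 1) ∨ (d 4 = d 3 + 1 ∧ d 5 = d 3 - 2)) → d 6 = d 3 →
      d 7 = d 3 - 1 → d 3 + 1 ≤ d 8 := by
    intro hlt d hd h13 h45 h6 h7
    have g := C.good d hd
    by_contra hc
    have f1 := g.F78 (by omega)
    have f2 := g.F48 (by omega)
    have f3 := g.F58 (by omega)
    have := g.H14 hp0 hn7 hw 1 h6 h7 h13 h45 (by omega) (by omega) (by clear h13; omega)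
    push_cast at this
    linarith
  have n8 : 2 * p 7 < p 4 + p 6 → 8 ≤ n := by
    intro hlt
    have k := hR dE hE
    have k13 : (dE 1 = dE 3 ∧ dE 2 = dE 3 - 1) ∨ (dE 1 = dE 3 - 1 ∧ dE 2 = dE 3 + 1) := by omega
    have k45 : (dE 4 = dE 3 - 2 ∧ dE 5 = dE 3 + 1) ∨ (dE 4 = dE 3 + 1 ∧ dE 5 = dE 3 - 2) := by
      omega
    have := gap8 hlt dE hE k13 k45 hE6 hE7
    exact (C.good dE hE).le_of_pos (j := 7) (by omega) (by omega)
  by_cases hAB : ∃ d ∈ S, d 6 = d 3 ∧ d 3 + 1 ≤ d 7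
  · obtain ⟨dG, hG, hG6, hG7⟩ := hAB
    have k := hR dG hG
    have k13 : (dG 1 = dG 3 ∧ dG 2 = dG 3 - 1) ∨ (dG 1 = dG 3 - 1 ∧ dG 2 = dG 3 + 1) := by omega
    have k45 : (dG 4 = dG 3 - 2 ∧ dG 5 = dG 3 + 1) ∨ (dG 4 = dG 3 + 1 ∧ dG 5 = dG 3 - 2) := by
      omega
    have h9 := (C.good dG hG).H9b hp0 hn7 hx hw hG6 k13 k45 (by omega)
    clear k k13 k45
    have hlt : 2 * p 7 < p 4 + p 6 := by linarith
    have hn8 := n8 hlt
    have g1 := gapC 1 (by omega) (by push_cast; linarith)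
    have key : ∀ d ∈ S, 2 * d 3 ≤ d 7 + d 8 ∧ (d 1 = d 3 + 1 → 2 * d 3 < d 7 + d 8) := by
      intro d hd
      have g := C.good d hd
      have f1 := g.F78 (by omega)
      rcases hR d hd with ⟨k13, k45, k6⟩ | ⟨k1, k2, k45, k6⟩ | ⟨k1, k2, k45, k6⟩
      · have k1 : d 1 ≠ d 3 + 1 := by omega
        rcases (t7a d hd k13).1 k6 with k7 | k7
        · have k8 := gap8 hlt d hd k13 k45 k6 k7
          omega
        · clear k13
          have a1 : d 3 - 1 ≤ d 8 := by
            rcases k45 with k45 | k45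
            · have f4 := g.T57 C.hp (by omega)
              omega
            · have f5 := g.T67 C.hp (by omega)
              omega
          omega
      · have k7 := g1 d hd k1 k2 k45 k6
        have f3 := g.T77 C.hp (by omega)
        omega
      · have k7 := t7F d hd k1 k2 k45 k6
        have f4 := g.T17 C.hp (by omega)
        omega
    have h1 := C.zero 0 0 (-2) 0 0 0 1 1 (by omega) (fun d hd => by
      have := key d hd
      omega) dC hC
    have := key dC hC
    omega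
  · push Not at hAB
    have h7 : ∀ d ∈ S, ((d 1 = d 3 ∧ d 2 = d 3 - 1) ∨ (d 1 = d 3 - 1 ∧ d 2 = d 3 + 1)) →
        d 6 = d 3 → d 7 = d 3 - 1 := by
      intro d hd k13 k6
      have := (t7a d hd k13).1 k6
      have := hAB d hd k6
      omega
    have h5g : 5 * p 7 ≤ 3 * p 6 := by
      by_contra hc
      have key : ∀ d ∈ S, d 7 - 2 * d 1 - d 2 + 2 * d 3 ≤ 0 ∧
          (d 6 = d 3 - 1 → d 7 - 2 * d 1 - d 2 + 2 * d 3 < 0) := by
        intro d hd
        have g := C.good d hd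
        rcases hR d hd with ⟨k13, k45, k6⟩ | ⟨k1, k2, k45, k6⟩ | ⟨k1, k2, k45, k6⟩
        · have := h7 d hd k13 k6
          omega
        · have k7 : d 7 < d 6 + 5 := by
            by_contra h
            have := g.H15 hp0 hn7 hw 5 k1 k2 k6 k45 (by omega) (by omega)
            push_cast at this
            linarith
          omega
        · have k7 : d 7 < d 6 + 4 := by
            by_contra h
            have := g.H16 hp0 hn7 hw 4 k1 k2 k6 k45 (by omega) (by omega)
            push_cast at this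
            linarith
          omega
      have h1 := C.zero 2 1 (-2) 0 0 0 (-1) 0 (by omega) (fun d hd => by
        have := key d hd
        omega) dD hD
      have := key dD hD
      omega
    have hlt : 2 * p 7 < p 4 + p 6 := by linarith
    have hn8 := n8 hlt
    have key : ∀ d ∈ S, 0 ≤ d 8 + 2 * d 1 + d 2 - 4 * d 3 ∧
        (d 1 = d 3 + 1 → 0 < d 8 + 2 * d 1 + d 2 - 4 * d 3) := by
      intro d hd
      have g := C.good d hd
      rcases hR d hd with ⟨k13, k45, k6⟩ | ⟨k1, k2, k45, k6⟩ | ⟨k1, k2, k45, k6⟩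
      · have k7 := h7 d hd k13 k6
        have k8 := gap8 hlt d hd k13 k45 k6 k7
        omega
      · have k7 := g0 d hd k1 k2 k45 k6
        have f4 := g.T17 C.hp (by omega)
        omega
      · have k7 := t7F d hd k1 k2 k45 k6
        have f4 := g.T17 C.hp (by omega)
        omega
    have h1 := C.zero 2 1 (-4) 0 0 0 0 1 (by omega) (fun d hd => by
      have := key d hd
      omega) dC hC
    have := key dC hC
    omega

end Pool.Agent.MP_4aec3d_co

end MrgPart1

-- ======== part 2: formerly Pool.Agent.MP_4aec3d_co.Core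
section MrgPart2

set_option autoImplicit false
set_option linter.unusedVariables false

namespace Pool.Agent.MP_4aec3d_co

variable {n : ℕ} {p : ℕ → ℝ} {S : Set (ℕ → ℤ)}

theorem partB (C : Ctx n p S) (hx : p 1 = 2 * p 2) (hz : p 2 < p 3)
    (hT : ∀ d ∈ S, ((d 1 = d 3 ∧ d 2 = d 3 - 1) ∨ (d 1 = d 3 - 1 ∧ d 2 = d 3 + 1)) ∨
      (d 1 = d 3 + 1 ∧ d 2 = d 3 + 2)) : False := by
  have hn := C.hn
  have hp0 := C.hp0
  have p2 := C.hp 2 (by omega) (by omega)
  have p4 := C.hp 4 (by omega) (by omega)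
  have p5 := C.hp 5 (by omega) (by omega)
  obtain ⟨dC, hC, hC1, hC2⟩ : ∃ d ∈ S, d 1 = d 3 + 1 ∧ d 2 = d 3 + 2 :=
    C.occ (-2) (-1) 3 0 0 0 0 0 (by omega) _ (fun d hd h => by have := hT d hd; omega)
  have t4a : ∀ d ∈ S, ((d 1 = d 3 ∧ d 2 = d 3 - 1) ∨ (d 1 = d 3 - 1 ∧ d 2 = d 3 + 1)) →
      d 4 = d 3 - 2 ∨ d 3 + 1 ≤ d 4 := by
    intro d hd h13
    have g := C.good d hd
    have f1 := g.F34 (by omega)
    have f2 := g.T13 C.hp (by omega)
    rcases h13 with k | k
    · have := g.F24 (by omega); omega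
    · have := g.F14 (by omega); omega
  have t4b : ∀ d ∈ S, d 1 = d 3 + 1 → d 2 = d 3 + 2 → d 4 = d 3 - 1 ∨ d 3 + 1 ≤ d 4 := by
    intro d hd h1 h2
    have g := C.good d hd
    have f1 := g.F34 (by omega)
    have f2 := g.T13 C.hp (by omega)
    omega
  have gap5 : ∀ J : ℤ, 0 ≤ J → ((J : ℝ) + 1) * p 4 < p 2 + 2 * p 3 →
      ∀ d ∈ S, ((d 1 = d 3 ∧ d 2 = d 3 - 1) ∨ (d 1 = d 3 - 1 ∧ d 2 = d 3 + 1)) →
      d 4 = d 3 - 2 → d 4 + J + 1 ≤ d 5 := by
    intro J hJ hlt d hd h13 h4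
    have g := C.good d hd
    by_contra hc
    have f := g.F45 (by omega)
    have := g.H3 hp0 hn hx J h4 h13 hJ (by omega) (by omega)
    linarith
  obtain ⟨dA, hA, hA13, hA4⟩ : ∃ d ∈ S,
      ((d 1 = d 3 ∧ d 2 = d 3 - 1) ∨ (d 1 = d 3 - 1 ∧ d 2 = d 3 + 1)) ∧ d 3 + 1 ≤ d 4 := by
    by_contra hc
    have hc' : ∀ d ∈ S, ((d 1 = d 3 ∧ d 2 = d 3 - 1) ∨ (d 1 = d 3 - 1 ∧ d 2 = d 3 + 1)) →
        d 4 = d 3 - 2 := by
      intro d hd h13
      rcases t4a d hd h13 with h | h
      · exact h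
      · exact absurd ⟨d, hd, h13, h⟩ hc
    obtain ⟨d0, hd0, h1, h2, h4⟩ : ∃ d ∈ S, d 1 = d 3 + 1 ∧ d 2 = d 3 + 2 ∧ d 3 + 4 ≤ d 4 :=
      C.occ 2 1 (-2) (-1) 0 0 0 0 (by omega) _ (fun d hd h => by
        rcases hT d hd with k | k
        · have := hc' d hd k; omega
        · omega)
    have k4 := (C.good d0 hd0).H4 hp0 (by omega) hx 4 h1 h2 (by omega) h4
    push_cast at k4
    have g2 := gap5 2 (by omega) (by push_cast; linarith)
    have key : ∀ d ∈ S, 0 ≤ d 5 + 2 * d 1 + d 2 - 4 * d 3 ∧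
        (d 1 = d 3 + 1 → 0 < d 5 + 2 * d 1 + d 2 - 4 * d 3) := by
      intro d hd
      rcases hT d hd with k | k
      · have := g2 d hd k (hc' d hd k)
        have := hc' d hd k
        omega
      · have := (C.good d hd).T14 C.hp (by omega)
        have := t4b d hd k.1 k.2
        omega
    have h1 := C.zero 2 1 (-4) 0 1 0 0 0 (by omega) (fun d hd => by
      have := key d hd
      omega) dC hC
    have := key dC hC
    omega
  have hzw := (C.good dA hA).H1 hp0 (by omega) hx hA13 (by omega)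
  have t4c : ∀ d ∈ S, d 1 = d 3 + 1 → d 2 = d 3 + 2 → d 3 + 1 ≤ d 4 := by
    intro d hd h1 h2
    rcases t4b d hd h1 h2 with h | h
    · have := (C.good d hd).H5 hp0 (by omega) hx h1 h2 h
      linarith
    · exact h
  obtain ⟨dA0, hA0, hA013, hA04⟩ : ∃ d ∈ S,
      ((d 1 = d 3 ∧ d 2 = d 3 - 1) ∨ (d 1 = d 3 - 1 ∧ d 2 = d 3 + 1)) ∧ d 4 = d 3 - 2 :=
    C.occ 0 0 (-1) 1 0 0 0 0 (by omega) _ (fun d hd h => by
      rcases hT d hd with k | k
      · rcases t4a d hd k with h4 | h4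
        · exact absurd ⟨k, h4⟩ h
        · omega
      · have := t4c d hd k.1 k.2
        omega)
  have g2 := gap5 2 (by omega) (by push_cast; linarith)
  have t5a : ∀ d ∈ S, ((d 1 = d 3 ∧ d 2 = d 3 - 1) ∨ (d 1 = d 3 - 1 ∧ d 2 = d 3 + 1)) →
      d 3 + 1 ≤ d 4 → d 3 + 1 ≤ d 5 ∨ (d 4 = d 3 + 1 ∧ d 5 = d 3 - 2) := by
    intro d hd h13 h4
    have g := C.good d hd
    by_cases h5 : d 3 + 1 ≤ d 5
    · exact Or.inl h5
    right
    have a1 : d 5 ≠ d 3 := by have := g.F35 (by omega); omega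
    have a2 : d 5 ≠ d 3 - 1 := by
      rcases h13 with k | k
      · have := g.F25 (by omega); omega
      · have := g.F15 (by omega); omega
    have a3 : d 3 - 2 ≤ d 5 := by have := g.T14 C.hp (by omega); omega
    have := g.T44 C.hp (by omega)
    omega
  have t5c : ∀ d ∈ S, d 1 = d 3 + 1 → d 2 = d 3 + 2 →
      d 3 + 1 ≤ d 5 ∨ (d 4 = d 3 + 1 ∧ d 5 = d 3 - 1) := by
    intro d hd h1 h2
    have g := C.good d hd
    have h4 := t4c d hd h1 h2
    by_cases h5 : d 3 + 1 ≤ d 5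
    · exact Or.inl h5
    right
    have a1 : d 5 ≠ d 3 := by have := g.F35 (by omega); omega
    have a3 : d 3 - 1 ≤ d 5 := by have := g.T14 C.hp (by omega); omega
    have := g.T44 C.hp (by omega)
    omega
  have hH2 : ∀ d ∈ S, ((d 1 = d 3 ∧ d 2 = d 3 - 1) ∨ (d 1 = d 3 - 1 ∧ d 2 = d 3 + 1)) →
      d 3 + 1 ≤ d 4 → d 3 + 1 ≤ d 5 → p 3 + p 4 + p 5 ≤ 2 * p 2 := by
    intro d hd h13 h4 h5
    have g := C.good d hd
    have f := g.F45 (by omega)
    exact g.H2 hp0 hn hx h13 (by omega) (by omega) (by omega)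
  obtain ⟨dB, hB, hB13, hB4, hB5⟩ : ∃ d ∈ S,
      ((d 1 = d 3 ∧ d 2 = d 3 - 1) ∨ (d 1 = d 3 - 1 ∧ d 2 = d 3 + 1)) ∧ d 4 = d 3 + 1 ∧
      d 5 = d 3 - 2 := by
    by_contra hc
    have hc' : ∀ d ∈ S, ((d 1 = d 3 ∧ d 2 = d 3 - 1) ∨ (d 1 = d 3 - 1 ∧ d 2 = d 3 + 1)) →
        d 3 + 1 ≤ d 4 → d 3 + 1 ≤ d 5 := by
      intro d hd h13 h4
      rcases t5a d hd h13 h4 with h | h
      · exact h
      · exact absurd ⟨d, hd, h13, h⟩ hc
    have k1 := hH2 dA hA hA13 hA4 (hc' dA hA hA13 hA4)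
    obtain ⟨d0, hd0, h1, h2, h4, h5⟩ : ∃ d ∈ S, d 1 = d 3 + 1 ∧ d 2 = d 3 + 2 ∧
        d 4 = d 3 + 1 ∧ d 5 = d 3 - 1 :=
      C.occ 0 0 (-1) 0 1 0 0 0 (by omega) _ (fun d hd h => by
        rcases hT d hd with k | k
        · rcases t4a d hd k with h4 | h4
          · have := g2 d hd k h4; omega
          · have := hc' d hd k h4; omega
        · rcases t5c d hd k.1 k.2 with h5 | h5
          · omega
          · exact absurd ⟨k.1, k.2, h5⟩ h)
    have := (C.good d0 hd0).H6 hp0 hn hx h1 h2 h4 h5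
    linarith
  have huw : p 5 ≤ p 4 := by
    have := (C.good dA0 hA0).H8 hp0 hn 3 hA04 hA013 (by omega)
      (by have := g2 dA0 hA0 hA013 hA04; omega)
    push_cast at this
    linarith
  have gap6 : ∀ J : ℤ, 0 ≤ J → ((J : ℝ) + 1) * p 5 < 3 * p 4 →
      ∀ d ∈ S, ((d 1 = d 3 ∧ d 2 = d 3 - 1) ∨ (d 1 = d 3 - 1 ∧ d 2 = d 3 + 1)) →
      d 4 = d 3 + 1 → d 5 = d 3 - 2 → d 5 + J + 1 ≤ d 6 := by
    intro J hJ hlt d hd h13 h4 h5
    have g := C.good d hd
    by_contra hc
    have f := g.F56 (by omega)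
    have := g.H7 hp0 hn J h4 h5 h13 hJ (by omega) (by omega)
    linarith
  have g61 := gap6 1 (by omega) (by push_cast; linarith)
  have hn6 : 6 ≤ n := (C.good dB hB).le_of_pos (j := 5) (by omega) (by
    have := g61 dB hB hB13 hB4 hB5
    omega)
  have p6 := C.hp 6 (by omega) (by omega)
  have c4 : ∀ d ∈ S, d 1 = d 3 + 1 → d 2 = d 3 + 2 → d 4 = d 3 + 1 → d 5 = d 3 - 1 →
      d 3 + 1 ≤ d 6 := by
    intro d hd h1 h2 h4 h5
    have g := C.good d hd
    by_contra hc
    have f := g.F56 (by omega)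
    have := g.H7b hp0 hn hx 1 h1 h2 h4 h5 (by omega) (by omega) (by omega)
    push_cast at this
    linarith
  have t6A : ∀ d ∈ S, ((d 1 = d 3 ∧ d 2 = d 3 - 1) ∨ (d 1 = d 3 - 1 ∧ d 2 = d 3 + 1)) →
      d 4 = d 3 - 2 → d 5 - 1 ≤ d 6 := by
    intro d hd h13 h4
    have := g2 d hd h13 h4
    have := (C.good d hd).T55 C.hp (by omega)
    omega
  have t6b : ∀ d ∈ S, d 3 + 1 ≤ d 4 → d 3 + 1 ≤ d 5 → d 3 + 1 ≤ d 6 ∨ d 4 + d 5 = 2 * d 3 + 3 := by
    intro d hd h4 h5
    have g := C.good d hd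
    by_cases h6 : d 3 + 1 ≤ d 6
    · exact Or.inl h6
    right
    have a5 : d 4 = d 3 + 1 ∨ d 5 = d 3 + 1 := by have := g.T45 C.hp (by omega); omega
    have a6 := g.F45 (by omega)
    rcases a5 with a5 | a5
    · have := g.T55 C.hp (by omega); omega
    · have := g.T44 C.hp (by omega); omega
  clear hA13 hA4 hA dA
  have hno : ∀ d ∈ S, ((d 1 = d 3 ∧ d 2 = d 3 - 1) ∨ (d 1 = d 3 - 1 ∧ d 2 = d 3 + 1)) →
      d 3 + 1 ≤ d 4 → d 4 = d 3 + 1 ∧ d 5 = d 3 - 2 := by
    intro d0 hd0 h013 h04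
    rcases t5a d0 hd0 h013 h04 with h05 | h05
    swap
    · exact h05
    exfalso
    have k1 := hH2 d0 hd0 h013 h04 h05
    have h34 : 4 * p 5 < 3 * p 4 := by
      by_cases h5 : dA0 4 + 5 ≤ dA0 5
      · have := (C.good dA0 hA0).H8 hp0 hn 5 hA04 hA013 (by omega) h5
        push_cast at this
        linarith
      · have f := (C.good dA0 hA0).F45 (by omega)
        have := (C.good dA0 hA0).H3 hp0 hn hx 4 hA04 hA013 (by omega) (by omega) (by omega)
        push_cast at this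
        linarith
    have g63 := gap6 3 (by omega) (by push_cast; linarith)
    clear h013 h04 h05
    have key : ∀ d ∈ S, 0 ≤ d 4 + 2 * d 5 + 2 * d 6 - 5 * d 3 := by
      intro d hd
      have g := C.good d hd
      rcases hT d hd with k | k
      · rcases t4a d hd k with h4 | h4
        · have := g2 d hd k h4
          have := t6A d hd k h4
          omega
        · rcases t5a d hd k h4 with h5 | h5
          · have a1 : d 3 - 2 ≤ d 6 := by have := g.T15 C.hp (by omega); omega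
            have := t6b d hd h4 h5
            omega
          · have := g63 d hd k h5.1 h5.2
            omega
      · have h4 := t4c d hd k.1 k.2
        rcases t5c d hd k.1 k.2 with h5 | h5
        · have a1 : d 3 - 1 ≤ d 6 := by have := g.T15 C.hp (by omega); omega
          omega
        · have := c4 d hd k.1 k.2 h5.1 h5.2
          omega
    have h1 := C.zero 0 0 (-5) 1 2 2 0 0 (by omega) (fun d hd => by
      have := key d hd
      omega) dB hB
    have := g63 dB hB hB13 hB4 hB5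
    omega
  obtain ⟨dF, hF, hF13, hF4, hF5, hF6⟩ : ∃ d ∈ S,
      ((d 1 = d 3 ∧ d 2 = d 3 - 1) ∨ (d 1 = d 3 - 1 ∧ d 2 = d 3 + 1)) ∧ d 4 = d 3 + 1 ∧
      d 5 = d 3 - 2 ∧ d 6 = d 3 := by
    by_contra hc
    have key : ∀ d ∈ S, 0 ≤ 2 * d 1 + d 2 - 10 * d 3 + 2 * d 5 + 5 * d 6 ∧
        (d 4 = d 3 - 2 → 0 < 2 * d 1 + d 2 - 10 * d 3 + 2 * d 5 + 5 * d 6) := by
      intro d hd
      have g := C.good d hd
      rcases hT d hd with k | k
      · rcases t4a d hd k with h4 | h4
        · have := g2 d hd k h4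
          have := t6A d hd k h4
          omega
        · have h5 := hno d hd k h4
          have h6 := g61 d hd k h5.1 h5.2
          have h6' : d 6 ≠ d 3 := fun h => hc ⟨d, hd, k, h5.1, h5.2, h⟩
          omega
      · have h4 := t4c d hd k.1 k.2
        rcases t5c d hd k.1 k.2 with h5 | h5
        · have a1 : d 3 - 1 ≤ d 6 := by have := g.T15 C.hp (by omega); omega
          omega
        · have := c4 d hd k.1 k.2 h5.1 h5.2
          omega
    have h1 := C.zero 2 1 (-10) 0 2 5 0 0 (by omega) (fun d hd => by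
      have := key d hd
      omega) dA0 hA0
    have := key dA0 hA0
    omega
  have hw : p 4 = p 5 := by
    have f := (C.good dF hF).F56 (by omega)
    have := (C.good dF hF).H7 hp0 hn 2 hF4 hF5 hF13 (by omega) (by omega) (by omega)
    push_cast at this
    linarith
  have tA : ∀ d ∈ S, ((d 1 = d 3 ∧ d 2 = d 3 - 1) ∨ (d 1 = d 3 - 1 ∧ d 2 = d 3 + 1)) →
      d 4 = d 3 - 2 → d 5 = d 3 + 1 ∧ d 6 = d 3 := by
    intro d hd h13 h4
    have g := C.good d hd
    have a1 := g2 d hd h13 h4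
    have a2 : d 5 < d 4 + 4 := by
      by_contra hc
      have := g.H8 hp0 hn 4 h4 h13 (by omega) (by omega)
      push_cast at this
      linarith
    have a3 : d 5 = d 3 + 1 := by omega
    have a4 : ¬ d 5 < d 6 := by
      intro h
      have := g.H8b hp0 hn6 h4 a3 h13 h
      linarith
    have a5 := t6A d hd h13 h4
    have a6 := g.F56 (by omega)
    omega
  have h4w : p 2 + 2 * p 3 ≤ 4 * p 4 := by
    have a := tA dA0 hA0 hA013 hA04
    have := (C.good dA0 hA0).H3 hp0 hn hx 3 hA04 hA013 (by omega) (by omega) (by omega)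
    push_cast at this
    linarith
  refine partB2 C hx hz hw hn6 hzw h4w ?_ ⟨dF, hF, hF13, hF4, hF5, hF6⟩
  intro d hd
  rcases hT d hd with k | k
  · left
    refine ⟨k, ?_⟩
    rcases t4a d hd k with h4 | h4
    · exact Or.inl ⟨h4, tA d hd k h4⟩
    · have h5 := hno d hd k h4
      have h6 := g61 d hd k h5.1 h5.2
      exact Or.inr ⟨h5.1, h5.2, by omega⟩
  · right
    refine ⟨k, ?_⟩
    have h4 := t4c d hd k.1 k.2
    rcases t5c d hd k.1 k.2 with h5 | h5
    · exact Or.inr ⟨h4, h5⟩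
    · exact Or.inl ⟨h5.1, h5.2, c4 d hd k.1 k.2 h5.1 h5.2⟩

theorem finishPQ (C : Ctx n p S) (hx : p 1 ≠ p 2 + p 3)
    (hPQ : ∀ d ∈ S, d 4 = d 1 ∧
      ((d 2 = d 1 - 1 ∧ d 3 = d 1 + 1) ∨ (d 2 = d 1 + 1 ∧ d 3 = d 1 - 1))) : False := by
  have hn := C.hn
  have hp0 := C.hp0
  obtain ⟨dP, hP, hP2⟩ : ∃ d ∈ S, d 2 = d 1 - 1 :=
    C.occ (-1) 1 0 0 0 0 0 0 (by omega) _ (fun d hd h => by have := hPQ d hd; omega)
  obtain ⟨dQ, hQ, hQ2⟩ : ∃ d ∈ S, d 2 = d 1 + 1 :=
    C.occ 1 (-1) 0 0 0 0 0 0 (by omega) _ (fun d hd h => by have := hPQ d hd; omega)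
  have kP := hPQ dP hP
  have kQ := hPQ dQ hQ
  have h1 := (C.good dP hP).E4 hp0 (by omega) 1 hP2 (by omega) (by omega)
  have h2 := (C.good dQ hQ).E5 hp0 (by omega) 0 hQ2 (by omega) (by omega) (by omega)
  push_cast at h1 h2
  have hyz : p 2 = p 3 := by linarith
  exact partG C hyz (fun h => hx (by linarith)) hPQ

theorem core (C : Ctx n p S) : p 1 = p 2 + p 3 := by
  by_contra hx
  have hn := C.hn
  have hp0 := C.hp0
  have p2 := C.hp 2 (by omega) (by omega)
  have p3 := C.hp 3 (by omega) (by omega)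
  have t2 : ∀ d ∈ S, d 2 = d 1 - 1 ∨ d 1 + 1 ≤ d 2 := by
    intro d hd
    have g := C.good d hd
    have := g.F12 (by omega)
    have := g.T11 C.hp (by omega)
    omega
  -- 2 above 1
  have t3a : ∀ d ∈ S, d 2 = d 1 - 1 → d 3 = d 1 - 2 ∨ d 1 ≤ d 3 := by
    intro d hd h2
    have g := C.good d hd
    have := g.F23 (by omega)
    have := g.T12 C.hp (by omega)
    omega
  -- 1 above 2
  have t3b : ∀ d ∈ S, d 1 + 1 ≤ d 2 → (d 2 = d 1 + 1 ∧ d 3 = d 1 - 1) ∨ d 1 + 1 ≤ d 3 := by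
    intro d hd h2
    have g := C.good d hd
    have := g.F13 (by omega)
    have := g.T12 C.hp (by omega)
    have := g.T22 C.hp (by omega)
    omega
  rcases lt_or_gt_of_ne hx with hlt | hgt
  · -- p 1 < p 2 + p 3
    obtain ⟨dU, hU, hU2⟩ : ∃ d ∈ S, d 1 + 1 ≤ d 2 :=
      C.occ 1 (-1) 0 0 0 0 0 0 (by omega) _ (fun d hd h => by have := t2 d hd; omega)
    obtain ⟨dD, hD, hD2⟩ : ∃ d ∈ S, d 2 = d 1 - 1 :=
      C.occ (-1) 1 0 0 0 0 0 0 (by omega) _ (fun d hd h => by have := t2 d hd; omega)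
    have noinc : ∀ d ∈ S, d 1 + 1 ≤ d 2 → d 3 < d 2 := by
      intro d hd h2
      have g := C.good d hd
      by_contra hc
      have f := g.F23 (by omega)
      have := g.E8 hp0 (by omega) (by omega) (by omega)
      linarith
    by_cases hb : p 1 < 2 * p 2
    · have u2 : ∀ d ∈ S, d 1 + 1 ≤ d 2 → d 2 = d 1 + 1 ∧ d 3 = d 1 - 1 := by
        intro d hd h2
        have g := C.good d hd
        have a1 : d 2 < d 1 + 2 := by
          by_contra hc
          have := g.E7 hp0 (by omega) 2 (by omega) (by omega)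
          push_cast at this
          linarith
        have := noinc d hd h2
        have := t3b d hd h2
        omega
      obtain ⟨dJ, hJ, hJ2, hJ3⟩ : ∃ d ∈ S, d 2 = d 1 - 1 ∧ d 1 + 1 ≤ d 3 := by
        by_contra hc
        push Not at hc
        have h1 := C.zero 2 (-1) (-1) 0 0 0 0 0 (by omega) (fun d hd => by
          have := t2 d hd
          have := u2 d hd
          have := hc d hd
          omega) dD hD
        have := hc dD hD hD2
        omega
      have hzy : p 3 ≤ p 2 := by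
        have := (C.good dJ hJ).E4 hp0 (by omega) 1 hJ2 (by omega) hJ3
        push_cast at this
        linarith
      have u4 : ∀ d ∈ S, d 2 = d 1 + 1 → d 3 = d 1 - 1 → d 1 ≤ d 4 := by
        intro d hd h2 h3
        have g := C.good d hd
        by_contra hc
        have f := g.F34 (by omega)
        have := g.E6 hp0 (by omega) h2 h3 (by omega)
        linarith
      have j1 : ∀ d ∈ S, d 2 = d 1 - 1 → d 3 ≤ d 1 + 1 := by
        intro d0 hd0 h02
        by_contra h03
        have k := (C.good d0 hd0).E4 hp0 (by omega) 2 h02 (by omega) (by omega)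
        push_cast at k
        have key : ∀ d ∈ S, 0 ≤ 2 * d 1 - 2 * d 2 - d 3 + d 4 ∧
            (d 1 + 1 ≤ d 3 → 0 < 2 * d 1 - 2 * d 2 - d 3 + d 4) := by
          intro d hd
          have g := C.good d hd
          rcases t2 d hd with h2 | h2
          · rcases t3a d hd h2 with h3 | h3
            · have := g.T13 C.hp (by omega)
              omega
            · have := g.T13 C.hp (by omega)
              have := g.T33 C.hp (by omega)
              omega
          · obtain ⟨a2, a3⟩ := u2 d hd h2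
            have a4 : d 1 < d 4 := by
              by_contra hc
              have a5 := u4 d hd a2 a3
              have := g.E5 hp0 (by omega) 0 a2 a3 (by omega) (by omega)
              push_cast at this
              linarith
            omega
        have h1 := C.zero 2 (-2) (-1) 1 0 0 0 0 (by omega) (fun d hd => by
          have := key d hd
          omega) d0 hd0
        have := key d0 hd0
        omega
      have hψ := C.zero 2 (-1) (-1) 0 0 0 0 0 (by omega) (fun d hd => by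
        have := t2 d hd
        have := u2 d hd
        have := j1 d hd
        omega)
      have h4 : ∀ d ∈ S, d 1 ≤ d 4 := by
        intro d hd
        have g := C.good d hd
        have k := hψ d hd
        rcases t2 d hd with h2 | h2
        · have := g.T33 C.hp (by omega)
          omega
        · obtain ⟨a2, a3⟩ := u2 d hd h2
          exact u4 d hd a2 a3
      have h4' := C.zero (-1) 0 0 1 0 0 0 0 (by omega) (fun d hd => by
        have := h4 d hd
        omega)
      refine finishPQ C hx fun d hd => ?_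
      have k := hψ d hd
      have k' := h4' d hd
      have := t2 d hd
      have := u2 d hd
      omega
    · have hyz : p 2 < p 3 := by linarith
      have v3 : ∀ d ∈ S, d 2 = d 1 - 1 → d 3 = d 1 := by
        intro d hd h2
        have g := C.good d hd
        rcases t3a d hd h2 with h3 | h3
        · have := g.E1 hp0 (by omega) h2 (by omega)
          linarith
        · by_contra hc
          have := g.E4 hp0 (by omega) 1 h2 (by omega) (by omega)
          push_cast at this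
          linarith
      have hxy : p 1 = 2 * p 2 := by
        have := (C.good dD hD).E9 hp0 (by omega) hD2 (v3 dD hD hD2)
        linarith
      refine partB C hxy hyz fun d hd => ?_
      have g := C.good d hd
      rcases t2 d hd with h2 | h2
      · have := v3 d hd h2
        omega
      · have a1 : d 2 < d 1 + 3 := by
          by_contra hc
          have := g.E7 hp0 (by omega) 3 (by omega) (by omega)
          push_cast at this
          linarith
        have := noinc d hd h2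
        have := t3b d hd h2
        omega
  · -- p 2 + p 3 < p 1
    have key : ∀ d ∈ S, (d 2 = d 1 - 1 ∧ d 1 ≤ d 3 ∧ d 1 ≤ d 4 ∧ d 3 ≠ d 4) ∨
        (d 2 = d 1 + 1 ∧ d 3 = d 1 - 1 ∧ d 1 ≤ d 4) ∨ 3 * d 1 < d 2 + d 3 + d 4 := by
      intro d hd
      have g := C.good d hd
      have f34 := g.F34 (by omega)
      rcases t2 d hd with h2 | h2
      · left
        rcases t3a d hd h2 with h3 | h3
        · have := g.E1 hp0 (by omega) h2 (by omega)
          linarith
        · refine ⟨h2, h3, ?_, f34⟩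
          by_contra hc
          have f := g.F24 (by omega)
          have f' := g.T33 C.hp (by omega)
          have := g.E2 hp0 (by omega) h2 (by omega) (by omega)
          linarith
      · right
        rcases t3b d hd h2 with h3 | h3
        · left
          refine ⟨h3.1, h3.2, ?_⟩
          by_contra hc
          have := g.E3 hp0 (by omega) h3.1 h3.2 (by omega)
          linarith
        · right
          have := g.F23 (by omega)
          have := g.T13 C.hp (by omega)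
          omega
    have h1 := C.zero (-3) 1 1 1 0 0 0 0 (by omega) (fun d hd => by
      have := key d hd
      omega)
    have h2 := C.zero (-1) 0 0 1 0 0 0 0 (by omega) (fun d hd => by
      have := key d hd
      have := h1 d hd
      omega)
    refine finishPQ C hx fun d hd => ?_
    have := key d hd
    have := h1 d hd
    have := h2 d hd
    omega

end Pool.Agent.MP_4aec3d_co

end MrgPart2

-- ======== part 3: formerly Pool.Agent.MP_4aec3d_co.Link
section MrgPart3

set_option autoImplicit false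
set_option linter.unusedVariables false

namespace Pool.Agent.MP_4aec3d_co

open Finset Filter Topology

/-- A guessing rule always guesses inside the current interval. -/
def Valid (u : ℕ → ℕ → ℕ) : Prop := ∀ a b, a ≤ b → a ≤ u a b ∧ u a b ≤ b

/-- One step of the search for `h`. -/
def step (u : ℕ → ℕ → ℕ) (h : ℕ) (x : ℕ × ℕ) : ℕ × ℕ :=
  if u x.1 x.2 < h then (u x.1 x.2 + 1, x.2)
  else if h < u x.1 x.2 then (x.1, u x.1 x.2 - 1) else x

/-- Times at which the guess is right. -/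
def hit (u : ℕ → ℕ → ℕ) (h : ℕ) (x : ℕ × ℕ) : Set ℕ :=
  {i : ℕ | Function.uncurry u ((step u h)^[i] x) = h}

/-- Number of wrong guesses. -/
noncomputable def D (u : ℕ → ℕ → ℕ) (a b h : ℕ) : ℕ := sInf (hit u h (a, b))

variable {u : ℕ → ℕ → ℕ}

theorem D_root {a b h : ℕ} (hr : u a b = h) : D u a b h = 0 := by
  unfold D
  apply Nat.sInf_eq_zero.2
  left
  simpa [hit] using hr

theorem hit_succ (h : ℕ) (x : ℕ × ℕ) (i : ℕ) : i + 1 ∈ hit u h x ↔ i ∈ hit u h (step u h x) := by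
  simp only [hit, Set.mem_ofPred_eq, Function.iterate_succ_apply]

theorem sInf_step {h : ℕ} {x : ℕ × ℕ} (h0 : u x.1 x.2 ≠ h)
    (hne : (hit u h (step u h x)).Nonempty) :
    (hit u h x).Nonempty ∧ sInf (hit u h x) = sInf (hit u h (step u h x)) + 1 := by
  have h1 : sInf (hit u h (step u h x)) + 1 ∈ hit u h x := (hit_succ h x _).2 (Nat.sInf_mem hne)
  refine ⟨⟨_, h1⟩, le_antisymm (Nat.sInf_le h1) ?_⟩
  have h2 := Nat.sInf_mem ⟨_, h1⟩
  generalize sInf (hit u h x) = k at h2 ⊢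
  cases k with
  | zero => exact absurd h2 h0
  | succ k => exact Nat.succ_le_succ (Nat.sInf_le ((hit_succ h x k).1 h2))

theorem step_lt {a b h : ℕ} (hr : u a b < h) : step u h (a, b) = (u a b + 1, b) := by
  simp [step, hr]

theorem step_gt {a b h : ℕ} (hr : h < u a b) : step u h (a, b) = (a, u a b - 1) := by
  simp [step, hr, not_lt.2 hr.le]

theorem hit_nonempty (hu : Valid u) (h : ℕ) :
    ∀ t a b, b - a = t → a ≤ h → h ≤ b → (hit u h (a, b)).Nonempty := by
  intro t
  induction t using Nat.strong_induction_on with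
  | _ t ih =>
    intro a b ht ha hb
    have hv := hu a b (by omega)
    rcases lt_trichotomy (u a b) h with hr | hr | hr
    · refine (sInf_step (x := (a, b)) hr.ne ?_).1
      rw [step_lt hr]
      exact ih (b - (u a b + 1)) (by omega) _ _ rfl (by omega) hb
    · exact ⟨0, by simpa [hit] using hr⟩
    · refine (sInf_step (x := (a, b)) hr.ne' ?_).1
      rw [step_gt hr]
      exact ih (u a b - 1 - a) (by omega) _ _ rfl ha (by omega)

theorem D_lt (hu : Valid u) {a b h : ℕ} (hb : h ≤ b) (hr : u a b < h) :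
    D u a b h = D u (u a b + 1) b h + 1 := by
  have := (sInf_step (u := u) (h := h) (x := (a, b)) hr.ne (by
    rw [step_lt hr]; exact hit_nonempty hu h _ _ _ rfl (by omega) hb)).2
  rw [step_lt hr] at this
  exact this

theorem D_gt (hu : Valid u) {a b h : ℕ} (ha : a ≤ h) (hr : h < u a b) :
    D u a b h = D u a (u a b - 1) h + 1 := by
  have := (sInf_step (u := u) (h := h) (x := (a, b)) hr.ne' (by
    rw [step_gt hr]; exact hit_nonempty hu h _ _ _ rfl ha (by omega))).2
  rw [step_gt hr] at this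
  exact this

theorem D_le (hu : Valid u) (h : ℕ) : ∀ t a b, b - a = t → a ≤ h → h ≤ b → D u a b h ≤ b - a := by
  intro t
  induction t using Nat.strong_induction_on with
  | _ t ih =>
    intro a b ht ha hb
    have hv := hu a b (by omega)
    rcases lt_trichotomy (u a b) h with hr | hr | hr
    · rw [D_lt hu hb hr]
      have := ih (b - (u a b + 1)) (by omega) _ _ rfl (by omega) hb
      omega
    · rw [D_root hr]; omega
    · rw [D_gt hu ha hr]
      have := ih (u a b - 1 - a) (by omega) _ _ rfl ha (by omega)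
      omega

theorem D_pair (hu : Valid u) : ∀ t a b i j, b - a = t → a ≤ i → i < j → j ≤ b →
    D u a b i = D u a b j → ∃ k, i < k ∧ k < j ∧ D u a b k < D u a b i := by
  intro t
  induction t using Nat.strong_induction_on with
  | _ t ih =>
    intro a b i j ht ha hij hb he
    have hv := hu a b (by omega)
    rcases lt_trichotomy (u a b) i with hr | hr | hr
    · rw [D_lt hu (by omega) hr, D_lt hu hb (by omega)] at he
      obtain ⟨k, h1, h2, h3⟩ := ih (b - (u a b + 1)) (by omega) (u a b + 1) b i j rfl (by omega)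
        hij hb (by omega)
      refine ⟨k, h1, h2, ?_⟩
      rw [D_lt hu (by omega) hr, D_lt hu (show k ≤ b by omega) (by omega)]
      omega
    · rw [D_root hr, D_lt hu hb (by omega)] at he
      omega
    · rcases lt_trichotomy (u a b) j with hr' | hr' | hr'
      · refine ⟨u a b, hr, hr', ?_⟩
        rw [D_root rfl, D_gt hu ha hr]
        omega
      · rw [D_root hr', D_gt hu ha hr] at he
        omega
      · rw [D_gt hu ha hr, D_gt hu (by omega) hr'] at he
        obtain ⟨k, h1, h2, h3⟩ := ih (u a b - 1 - a) (by omega) a (u a b - 1) i j rfl ha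
          hij (by omega) (by omega)
        refine ⟨k, h1, h2, ?_⟩
        rw [D_gt hu ha hr, D_gt hu (show a ≤ k by omega) (by omega)]
        omega

/-- The depth vector of a guessing rule. -/
noncomputable def vec (n : ℕ) (u : ℕ → ℕ → ℕ) : ℕ → ℤ :=
  fun h => if 1 ≤ h ∧ h ≤ n then ((D u 1 n h + 1 : ℕ) : ℤ) else 0

/-- Normalised feasible vectors. -/
def Norm (n : ℕ) : Set (ℕ → ℤ) :=
  {d | Feas n d ∧ (∀ i, i < 1 ∨ n < i → d i = 0) ∧ ∀ i, d i ≤ n}

theorem vec_mem (hu : Valid u) (n : ℕ) : vec n u ∈ Norm n := by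
  refine ⟨⟨?_, ?_⟩, ?_, ?_⟩
  · intro i h1 h2
    simp only [vec, if_pos (And.intro h1 h2)]
    omega
  · intro i j hi hij hj he
    simp only [vec, if_pos (show 1 ≤ i ∧ i ≤ n by omega), if_pos (show 1 ≤ j ∧ j ≤ n by omega)]
      at he
    obtain ⟨k, h1, h2, h3⟩ := D_pair hu _ 1 n i j rfl hi hij hj (by omega)
    refine ⟨k, h1, h2, ?_⟩
    simp only [vec, if_pos (show 1 ≤ i ∧ i ≤ n by omega), if_pos (show 1 ≤ k ∧ k ≤ n by omega)]
    omega
  · intro i hi
    simp only [vec, if_neg (show ¬ (1 ≤ i ∧ i ≤ n) by omega)]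
  · intro i
    simp only [vec]
    split_ifs with hi
    · have := D_le hu i _ 1 n rfl hi.1 hi.2
      omega
    · omega

theorem exists_strategy {n : ℕ} {d : ℕ → ℤ} (hd : Feas n d) :
    ∃ s, Valid s ∧ ∀ h, 1 ≤ h → h ≤ n → vec n s h ≤ d h := by
  have hex : ∀ a b : ℕ, ∃ r, a ≤ b → (a ≤ r ∧ r ≤ b) ∧ ∀ i, a ≤ i → i ≤ b → d r ≤ d i := by
    intro a b
    by_cases hab : a ≤ b
    · obtain ⟨r, hr, hmin⟩ := Finset.exists_min_image (Icc a b) d ⟨a, by simp [hab]⟩
      exact ⟨r, fun _ => ⟨Finset.mem_Icc.1 hr, fun i h1 h2 => hmin i (Finset.mem_Icc.2 ⟨h1, h2⟩)⟩⟩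
    · exact ⟨a, fun h => absurd h hab⟩
  choose s hs using hex
  have hv : Valid s := fun a b hab => (hs a b hab).1
  have key : ∀ h t a b (l : ℤ), b - a = t → 1 ≤ a → a ≤ h → h ≤ b → b ≤ n →
      (∀ i, a ≤ i → i ≤ b → l ≤ d i) → (D s a b h : ℤ) + l ≤ d h := by
    intro h t
    induction t using Nat.strong_induction_on with
    | _ t ih =>
      intro a b l ht h1 ha hb hn hl
      obtain ⟨hv1, hmin⟩ := hs a b (by omega)
      have hstrict : ∀ i, a ≤ i → i ≤ b → i ≠ s a b → l + 1 ≤ d i := by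
        intro i hi1 hi2 hne
        have e1 := hmin i hi1 hi2
        have e2 := hl _ hv1.1 hv1.2
        by_contra hc
        have e3 : d i = d (s a b) := by omega
        rcases lt_or_gt_of_ne hne with hlt | hlt
        · obtain ⟨k, k1, k2, k3⟩ := hd.2 i (s a b) (by omega) hlt (by omega) e3
          have := hl k (by omega) (by omega)
          omega
        · obtain ⟨k, k1, k2, k3⟩ := hd.2 (s a b) i (by omega) hlt (by omega) e3.symm
          have := hl k (by omega) (by omega)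
          omega
      rcases lt_trichotomy (s a b) h with hr | hr | hr
      · rw [D_lt hv hb hr]
        have := ih (b - (s a b + 1)) (by omega) (s a b + 1) b (l + 1) rfl (by omega) (by omega) hb
          hn (fun i h1 h2 => hstrict i (by omega) h2 (by omega))
        push_cast
        omega
      · rw [D_root hr]
        have := hl h ha hb
        push_cast
        omega
      · rw [D_gt hv ha hr]
        have := ih (s a b - 1 - a) (by omega) a (s a b - 1) (l + 1) rfl h1 ha (by omega)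
          (by omega) (fun i h1 h2 => hstrict i h1 (by omega) (by omega))
        push_cast
        omega
  refine ⟨s, hv, fun h h1 h2 => ?_⟩
  have := key h _ 1 n 1 rfl le_rfl h1 h2 le_rfl hd.1
  simp only [vec, if_pos (And.intro h1 h2)]
  push_cast
  omega

theorem norm_finite (n : ℕ) : (Norm n).Finite := by
  let f : (ℕ → ℤ) → (Fin (n + 1) → ℤ) := fun d i => d i
  refine Set.Finite.of_finite_image (f := f) ?_ ?_
  · refine (Set.Finite.pi' (fun _ : Fin (n + 1) => Set.finite_Icc (0 : ℤ) n)).subset ?_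
    rintro _ ⟨d, hd, rfl⟩ i
    refine ⟨?_, hd.2.2 i⟩
    by_cases hi : (i : ℕ) < 1
    · exact (hd.2.1 i (Or.inl hi)).ge
    · have := hd.1.1 i (by omega) (by omega)
      show 0 ≤ d i
      omega
  · intro d hd e he h
    funext i
    by_cases hi : i ≤ n
    · exact congrFun h ⟨i, by omega⟩
    · rw [hd.2.1 i (Or.inr (by omega)), he.2.1 i (Or.inr (by omega))]

theorem cost_mono {n : ℕ} {p : ℕ → ℝ} (hp : ∀ i, 0 ≤ p i) {d e : ℕ → ℤ}
    (h : ∀ i, 1 ≤ i → i ≤ n → d i ≤ e i) : cost n p d ≤ cost n p e := by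
  refine Finset.sum_le_sum fun i hi => ?_
  have hi' := Finset.mem_Icc.1 hi
  exact mul_le_mul_of_nonneg_left (by exact_mod_cast h i hi'.1 hi'.2) (hp i)

theorem cost_add (n : ℕ) (p c : ℕ → ℝ) (t : ℝ) (d : ℕ → ℤ) :
    cost n (fun i => p i + t * c i) d = cost n p d + t * cost n c d := by
  unfold cost
  rw [Finset.mul_sum, ← Finset.sum_add_distrib]
  refine Finset.sum_congr rfl fun _ _ => by ring

theorem ev_pos {A B : ℝ} (h : 0 < A ∨ (A = 0 ∧ 0 < B)) :
    ∀ᶠ t in 𝓝[>] (0 : ℝ), 0 < A + t * B := by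
  rcases h with h | ⟨h1, h2⟩
  · have hc : Tendsto (fun t : ℝ => A + t * B) (𝓝 0) (𝓝 (A + 0 * B)) :=
      (by fun_prop : Continuous fun t : ℝ => A + t * B).tendsto 0
    rw [zero_mul, add_zero] at hc
    exact (hc.eventually (lt_mem_nhds h)).filter_mono nhdsWithin_le_nhds
  · filter_upwards [self_mem_nhdsWithin] with t ht
    have : 0 < t := ht
    rw [h1, zero_add]
    positivity

theorem ev_nonneg {A B : ℝ} (h : 0 < A ∨ (A = 0 ∧ 0 ≤ B)) :
    ∀ᶠ t in 𝓝[>] (0 : ℝ), 0 ≤ A + t * B := by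
  rcases h with h | ⟨h1, h2⟩
  · exact (ev_pos (Or.inl h)).mono fun _ h => h.le
  · filter_upwards [self_mem_nhdsWithin] with t ht
    have : 0 < t := ht
    rw [h1, zero_add]
    positivity

theorem exists_bal (n : ℕ) (T : Finset (ℕ → ℤ))
    (hT : ¬ ∃ c : ℕ → ℝ, ∑ h ∈ Icc 1 n, c h = 0 ∧ ∀ d ∈ T, 0 < cost n c d) :
    ∃ S : Set (ℕ → ℤ), S ⊆ T ∧ S.Nonempty ∧ Bal n S := by
  classical
  induction T using Finset.strongInduction with
  | H T ih =>
    by_cases hb : Bal n (T : Set (ℕ → ℤ))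
    · refine ⟨T, subset_rfl, ?_, hb⟩
      by_contra hne
      rw [Set.not_nonempty_iff_eq_empty] at hne
      refine hT ⟨fun _ => 0, by simp, fun d hd => ?_⟩
      have : d ∈ (T : Set (ℕ → ℤ)) := hd
      rw [hne] at this
      exact absurd this (Set.notMem_empty d)
    · unfold Bal at hb
      push Not at hb
      obtain ⟨c, hc0, hc1, d0, hd0, hd0'⟩ := hb
      have hsub : T.filter (fun d => cost n c d = 0) ⊂ T :=
        Finset.filter_ssubset.2 ⟨d0, hd0, hd0'⟩
      obtain ⟨S, hS1, hS2, hS3⟩ := ih _ hsub (by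
        rintro ⟨c', hc'0, hc'⟩
        have hev : ∀ᶠ t in 𝓝[>] (0 : ℝ), ∀ d ∈ T, 0 < cost n c d + t * cost n c' d := by
          rw [Filter.eventually_all_finset]
          intro d hd
          apply ev_pos
          rcases (hc1 d hd).lt_or_eq with h | h
          · exact Or.inl h
          · exact Or.inr ⟨h.symm, hc' d (Finset.mem_filter.2 ⟨hd, h.symm⟩)⟩
        obtain ⟨t, ht⟩ := hev.exists
        refine hT ⟨fun i => c i + t * c' i, ?_, fun d hd => ?_⟩
        · rw [Finset.sum_add_distrib, ← Finset.mul_sum, hc0, hc'0]; simp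
        · rw [cost_add]; exact ht d hd)
      exact ⟨S, hS1.trans (by exact_mod_cast hsub.subset), hS2, hS3⟩

theorem cost_two (n i j : ℕ) (hi : 1 ≤ i ∧ i ≤ n) (hj : 1 ≤ j ∧ j ≤ n) (f : ℕ → ℝ) :
    ∑ h ∈ Icc 1 n, ((if h = i then 1 else 0) - (if h = j then 1 else 0) : ℝ) * f h
      = f i - f j := by
  simp only [sub_mul, Finset.sum_sub_distrib, ite_mul, one_mul, zero_mul]
  rw [Finset.sum_ite_eq', Finset.sum_ite_eq', if_pos (Finset.mem_Icc.2 hi),
    if_pos (Finset.mem_Icc.2 hj)]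

/-- A weightless node lies below a neighbour of positive weight. -/
theorem Good.below {n : ℕ} {p : ℕ → ℝ} {d : ℕ → ℤ} (h : Good n p d) (hb : ∀ i, d i ≤ n)
    {i j : ℕ} (hi : 1 ≤ i ∧ i ≤ n) (hj : 1 ≤ j ∧ j ≤ n) (hij : j = i + 1 ∨ i = j + 1)
    (hpi : p i = 0) (hpj : 0 < p j) : d j < d i := by
  classical
  by_contra hc
  have hne : d i ≠ d j := by
    intro he
    rcases hij with hij | hij
    · obtain ⟨k, k1, k2, -⟩ := h.feas.2 i j hi.1 (by omega) hj.2 he
      omega
    · obtain ⟨k, k1, k2, -⟩ := h.feas.2 j i hj.1 (by omega) hi.2 he.symm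
      omega
  have hlt : d i < d j := by omega
  have hij' : i ≠ j := by omega
  set e : ℕ → ℤ := fun k => if k = i then (n : ℤ) + 1 else if k = j then d i else d k with he
  have ei : e i = n + 1 := by simp [he]
  have ej : e j = d i := by simp [he, hij'.symm]
  have ek : ∀ k, k ≠ i → k ≠ j → e k = d k := fun k h1 h2 => by simp [he, h1, h2]
  have hfe : Feas n e := by
    constructor
    · intro k h1 h2
      by_cases hk : k = i
      · rw [hk, ei]; omega
      · by_cases hk' : k = j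
        · rw [hk', ej]; exact h.feas.1 i hi.1 hi.2
        · rw [ek k hk hk']; exact h.feas.1 k h1 h2
    · intro a b ha hab hbn hE
      have hbi := hb i
      by_cases h1 : a = i
      · exfalso
        rw [h1, ei] at hE
        by_cases h2 : b = j
        · rw [h2, ej] at hE; omega
        · rw [ek b (by omega) h2] at hE
          have := hb b
          omega
      by_cases h2 : b = i
      · exfalso
        rw [h2, ei] at hE
        by_cases h3 : a = j
        · rw [h3, ej] at hE; omega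
        · rw [ek a h1 h3] at hE
          have := hb a
          omega
      by_cases h3 : a = j
      · have hE' : d i = d b := by
          rw [h3, ej, ek b h2 (by omega)] at hE; exact hE
        obtain ⟨k, k1, k2, k3⟩ := h.feas.2 i b hi.1 (by omega) hbn hE'
        have hkj : k ≠ j := by rintro rfl; omega
        refine ⟨k, by omega, k2, ?_⟩
        rw [h3, ej, ek k (by omega) hkj]
        exact k3
      by_cases h4 : b = j
      · have hE' : d a = d i := by
          rw [h4, ej, ek a h1 h3] at hE; exact hE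
        obtain ⟨k, k1, k2, k3⟩ := h.feas.2 a i ha (by omega) hi.2 hE'
        have hkj : k ≠ j := by rintro rfl; omega
        refine ⟨k, k1, by omega, ?_⟩
        rw [ek a h1 h3, ek k (by omega) hkj]
        exact k3
      rw [ek a h1 h3, ek b h2 h4] at hE
      obtain ⟨k, k1, k2, k3⟩ := h.feas.2 a b ha hab hbn hE
      by_cases h5 : k = i
      · refine ⟨j, by omega, by omega, ?_⟩
        rw [ej, ek a h1 h3, ← h5]
        exact k3
      by_cases h6 : k = j
      · refine ⟨j, by omega, by omega, ?_⟩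
        rw [ej, ek a h1 h3]
        rw [h6] at k3
        omega
      · refine ⟨k, k1, k2, ?_⟩
        rw [ek a h1 h3, ek k h5 h6]
        exact k3
  have h1 := h.min e hfe
  have h2 := cost_sub n p d e
  have h3 : ∑ k ∈ Icc 1 n, p k * ((e k - d k : ℤ) : ℝ) = p j * ((d i - d j : ℤ) : ℝ) := by
    rw [Finset.sum_eq_single j]
    · rw [ej]
    · intro k _ hkj
      by_cases hk : k = i
      · rw [hk, hpi, zero_mul]
      · rw [ek k hk hkj]; simp
    · intro hj'
      exact absurd (Finset.mem_Icc.2 hj) hj'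
  have h4 : ((d i - d j : ℤ) : ℝ) < 0 := by exact_mod_cast (show d i - d j < 0 by omega)
  have := mul_neg_of_pos_of_neg hpj h4
  linarith

theorem johnson (n : ℕ) (hn : 4 < n) (p : ℕ → ℝ) (hp : ∀ h, 0 ≤ p h)
    (hp1 : ∑ h ∈ Icc 1 n, p h = 1)
    (hopt : ∀ q : ℕ → ℝ, (∀ h, 0 ≤ q h) → ∑ h ∈ Icc 1 n, q h = 1 → ∀ s, Valid s →
      ∃ t, Valid t ∧ cost n q (vec n t) ≤ cost n p (vec n s)) : p 1 = p 2 + p 3 := by
  classical
  have hfin := norm_finite n
  have hv0 : Valid (fun a _ => a) := fun a b hab => ⟨le_rfl, hab⟩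
  obtain ⟨d0, hd0, hmin⟩ := Set.exists_min_image (Norm n) (cost n p) hfin ⟨_, vec_mem hv0 n⟩
  set T : Finset (ℕ → ℤ) := hfin.toFinset.filter (fun d => cost n p d = cost n p d0) with hT
  have hTmem : ∀ d, d ∈ T ↔ d ∈ Norm n ∧ cost n p d = cost n p d0 := by
    intro d
    simp [hT]
  have hgood : ∀ d ∈ T, Good n p d := by
    intro d hd
    obtain ⟨h1, h2⟩ := (hTmem d).1 hd
    refine ⟨h1.1, h1.2.1, fun e he => ?_⟩
    obtain ⟨s, hs, hle⟩ := exists_strategy he
    have := hmin _ (vec_mem hs n)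
    have := cost_mono hp hle
    linarith
  have hNB : ∀ c : ℕ → ℝ, ∑ h ∈ Icc 1 n, c h = 0 → (∀ i ∈ Icc 1 n, p i = 0 → 0 ≤ c i) →
      ¬ ∀ d ∈ T, 0 < cost n c d := by
    intro c hc0 hc1 hc2
    have ev1 : ∀ᶠ t in 𝓝[>] (0 : ℝ), ∀ i ∈ Icc 1 n, 0 ≤ p i + t * c i := by
      rw [Filter.eventually_all_finset]
      intro i hi
      apply ev_nonneg
      rcases (hp i).lt_or_eq with h | h
      · exact Or.inl h
      · exact Or.inr ⟨h.symm, hc1 i hi h.symm⟩
    have ev2 : ∀ᶠ t in 𝓝[>] (0 : ℝ), ∀ d ∈ hfin.toFinset,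
        0 < (cost n p d - cost n p d0) + t * cost n c d := by
      rw [Filter.eventually_all_finset]
      intro d hd
      have hd' : d ∈ Norm n := by simpa using hd
      apply ev_pos
      rcases (hmin d hd').lt_or_eq with h | h
      · exact Or.inl (by linarith)
      · exact Or.inr ⟨by linarith, hc2 d ((hTmem d).2 ⟨hd', h.symm⟩)⟩
    obtain ⟨t, ht1, ht2⟩ := (ev1.and ev2).exists
    set q : ℕ → ℝ := fun h => if h ∈ Icc 1 n then p h + t * c h else 0 with hq
    have hq0 : ∀ h, 0 ≤ q h := by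
      intro h
      simp only [hq]
      split_ifs with hh
      · exact ht1 h hh
      · exact le_rfl
    have hq1 : ∑ h ∈ Icc 1 n, q h = 1 := by
      rw [Finset.sum_congr rfl (fun h hh => show q h = p h + t * c h from if_pos hh),
        Finset.sum_add_distrib, ← Finset.mul_sum, hc0, hp1]
      simp
    obtain ⟨s, hs, hle⟩ := exists_strategy hd0.1
    obtain ⟨r, hr, hr'⟩ := hopt q hq0 hq1 s hs
    have e1 := cost_mono hp hle
    have e2 : cost n q (vec n r) = cost n p (vec n r) + t * cost n c (vec n r) := by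
      rw [← cost_add]
      exact Finset.sum_congr rfl fun h hh => by simp only [hq, if_pos hh]
    have e3 := ht2 (vec n r) (by simpa using vec_mem hr n)
    linarith
  have hadj : ∀ i j, 1 ≤ i ∧ i ≤ n → 1 ≤ j ∧ j ≤ n → (j = i + 1 ∨ i = j + 1) → p i = 0 →
      p j = 0 := by
    intro i j hi hj hij hpi
    by_contra hpj
    have hpj' : 0 < p j := lt_of_le_of_ne (hp j) (Ne.symm hpj)
    refine hNB (fun h => (if h = i then 1 else 0) - (if h = j then 1 else 0)) ?_ ?_ ?_
    · have := cost_two n i j hi hj (fun _ => 1)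
      simpa using this
    · intro k _ hk
      have : k ≠ j := by rintro rfl; exact hpj hk
      simp only [if_neg this]
      split_ifs <;> norm_num
    · intro d hd
      unfold cost
      rw [cost_two n i j hi hj (fun h => (d h : ℝ))]
      have := (hgood d hd).below ((hTmem d).1 hd).1.2.2 hi hj hij hpi hpj'
      have : (d j : ℝ) < d i := by exact_mod_cast this
      linarith
  have hall : ∀ i, 1 ≤ i → i ≤ n → (p i = 0 ↔ p 1 = 0) := by
    intro i hi
    induction i, hi using Nat.le_induction with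
    | base => intro _; rfl
    | succ k hk ih =>
      intro hkn
      rw [← ih (by omega)]
      exact ⟨hadj (k + 1) k (by omega) (by omega) (Or.inr rfl),
        hadj k (k + 1) (by omega) (by omega) (Or.inl rfl)⟩
  have hpos : ∀ i, 1 ≤ i → i ≤ n → 0 < p i := by
    intro i h1 h2
    refine lt_of_le_of_ne (hp i) fun h => ?_
    have h0 := (hall i h1 h2).1 h.symm
    have : ∑ h ∈ Icc 1 n, p h = 0 := Finset.sum_eq_zero fun k hk =>
      (hall k (Finset.mem_Icc.1 hk).1 (Finset.mem_Icc.1 hk).2).2 h0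
    linarith
  obtain ⟨S, hS1, hS2, hS3⟩ := exists_bal n T (by
    rintro ⟨c, hc0, hc⟩
    refine hNB c hc0 (fun i hi h => ?_) hc
    exact absurd h (hpos i (Finset.mem_Icc.1 hi).1 (Finset.mem_Icc.1 hi).2).ne')
  exact core ⟨by omega, hp, hpos, hS2, fun d hd => hgood d (hS1 hd), hS3⟩

end Pool.Agent.MP_4aec3d_co

end MrgPart3

-- marker of a merged file
example : 731051 + 791308 = 731051 + 791308 := rfl
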